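import Pool.Agent.Lib.MP_7d41f7_al.E.EDef
import Pool.Agent.Lib.MP_7d41f7_al.D.EDef

/-! The exceptional groups of Lie type. -/

set_option autoImplicit false

namespace Pool.Agent.Lib.MP_7d41f7_al

/-- `S` is isomorphic to the group of type `x` attached to the prime power `q`. -/
def IsChev (S : Type) [Group S] : Ex → ℕ → Prop
  | .E6, q => IsCh S mE6 1 1 q
  | .U6, q => IsCh S mE6 gE6 2 q
  | .E7, q => IsCh S mE7 1 1 q
  | .E8, q => IsCh S mE8 1 1 q
  | .F4, q => IsCh S mE6 gE6 1 q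
  | .G2, q => IsCh S mD4 gD4 1 q
  | .D3, q => IsCh S mD4 gD4 3 q

end Pool.Agent.Lib.MP_7d41f7_al
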