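import Pool.Agent.Lib.MP_7d41f7_al.E.EDef

/-! The Suzuki and Ree groups. -/

set_option autoImplicit false

namespace Pool.Agent.Lib.MP_7d41f7_al

variable {l : ℕ}

/-- The product of the root elements with parameter `t` of the simple roots in `J` (`ε = 1`) or of
their negatives (`ε = -1`). -/
noncomputable def ym (M : Matrix (Fin l) (Fin l) ℤ) {K : Type} [CommRing K] (ε : ℤ)
    (J : List (Fin l)) (t : K) : Matrix (Ix M) (Ix M) K :=
  (J.map fun j => xm M (Pi.single j ε) t).prod

/-- For a pair `c` in `P` of a long simple root `c.1` and a short simple root `c.2`, or their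
negatives, `x` is the element of one of them with parameter `t`, and `y` is the element of the other
with parameter `t ^ a` (from long to short) or `t ^ b` (from short to long). -/
def Sw (M : Matrix (Fin l) (Fin l) ℤ) (P : List (Fin l × List (Fin l))) {K : Type} [Field K]
    (a b : ℕ) (x y : GL (Ix M) K) : Prop :=
  ∃ c ∈ P, ∃ ε : ℤ, (ε = 1 ∨ ε = -1) ∧ ∃ t : K,
    x.1 = ym M ε [c.1] t ∧ y.1 = ym M ε c.2 (t ^ a) ∨
      x.1 = ym M ε c.2 t ∧ y.1 = ym M ε [c.1] (t ^ b)

/-- `S` is isomorphic to the group of fixed points of an endomorphism of `A` that maps `x` to `y`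
whenever `R x y`. -/
def IsFx (S : Type) [Group S] {Γ : Type} [Group Γ] (A : Subgroup Γ) (R : Γ → Γ → Prop) : Prop :=
  ∃ ρ : A →* A, (∀ x y : A, R x y → ρ x = y) ∧ Nonempty (S ≃* ρ.eqLocus (MonoidHom.id A))

/-- `S` is isomorphic to the group of fixed points of an endomorphism of the folded group over the
field with `p ^ (2 m + 1)` elements that exchanges long and short simple roots. -/
def IsRe (S : Type) [Group S] (M : Matrix (Fin l) (Fin l) ℤ) (γ : Equiv.Perm (Fin l))
    (P : List (Fin l × List (Fin l))) (p m : ℕ) : Prop :=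
  ∃ (F : Type) (_ : Field F) (_ : Finite F), Nat.card F = p ^ (2 * m + 1) ∧
    IsFx S (Steinb M γ 1 F) (Sw M P (p ^ m) (p ^ (m + 1)))

/-- Type `A₃`. -/
def mA3 : Matrix (Fin 3) (Fin 3) ℤ := half [1] (CartanMatrix.A 3)

/-- The types `²B₂`, `²G₂`, `²F₄`. -/
inductive Re | B2 | G2 | F4
  deriving DecidableEq

/-- `S` is isomorphic to the Suzuki or Ree group of type `y` over the field with `p ^ (2 m + 1)`
elements. -/
def IsRee (S : Type) [Group S] : Re → ℕ → Prop
  | .B2, m => IsRe S mA3 (Equiv.swap 0 2) [(1, [0, 2])] 2 m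
  | .G2, m => IsRe S mD4 gD4 [(1, [0, 2, 3])] 3 m
  | .F4, m => IsRe S mE6 gE6 [(1, [0, 5]), (3, [2, 4])] 2 m

end Pool.Agent.Lib.MP_7d41f7_al
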