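import Pool.Agent.Lib.MP_7d41f7_al.E.RTl
import Pool.Agent.Lib.MP_7d41f7_al.D.RDefs
import Pool.Agent.Lib.MP_7d41f7_al.D.ZCore
import Pool.Agent.Lib.MP_7d41f7_al.D.EDefEq

/-! The isolated torus of the groups `B₂(q)`, `G₂(q)`, `F₄(q)`. -/

set_option autoImplicit false

namespace Pool.Agent.Lib.MP_7d41f7_al

open Polynomial

/-- `A` is the ambient group of the type. -/
def Re.Amb (A : Type) [Group A] : Re → ℕ → Prop
  | .B2, q => IsCh A mA3 gA3 1 q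
  | .G2, q => IsCh A mD4 gD4 1 q
  | .F4, q => IsCh A mE6 gE6 1 q

variable {l l' : ℕ} {M : Matrix (Fin l) (Fin l) ℤ} {g : Equiv.Perm (Fin l)} {q E N m : ℕ}
  {A : Type} [Group A] {y : Re}

theorem tar_B2 (hq : 2 ≤ q) (h2 : 2 ∣ q) : TAr q 1 4 (q ^ 2 + 1) 5 := by
  have e : cyclotomic 4 ℤ = X ^ 2 + 1 := by
    rw [← cyclotomic_expand_eq_cyclotomic Nat.prime_two (by norm_num : 2 ∣ 2), cyclotomic_two]
    simp
  have h : ((q ^ 2 + 1 : ℕ) : ℤ) = q ^ 2 + 1 := by simp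
  have ev : (cyclotomic 4 ℤ).eval (q : ℤ) = (q ^ 2 + 1 : ℕ) := by simp [e]
  refine ⟨ev, by omega, by omega, fun r hr h1 => ?_, -q, ⟨-1, by rw [h]; ring⟩, ⟨1, by simp [e]⟩⟩
  have := tar_of hq (by omega) (by omega) ev (by have := dvd_pow h2 two_ne_zero; omega)
    (nd_of (P := fun q => q ^ 2 + 1) (Q := fun q => q ^ 2 + 1) h (by simp)
      (by generalize (q : ZMod 3) = a; revert a; decide)) hr h1
  exact ⟨this.1, this.2.1⟩

theorem tar_G6 (hq : 2 ≤ q) (h3 : 3 ∣ q) : TAr q 1 6 (q ^ 2 - q + 1) 7 := by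
  have h : ((q ^ 2 - q + 1 : ℕ) : ℤ) = q ^ 2 - q + 1 := by
    simp [Nat.cast_sub (Nat.le_self_pow two_ne_zero q)]
  have ev : (cyclotomic 6 ℤ).eval (q : ℤ) = (q ^ 2 - q + 1 : ℕ) := by simp [cyclotomic_six, h]
  refine ⟨ev, by omega, by omega, fun r hr h1 => ?_, 1 - q, ⟨-1, by rw [h]; ring⟩,
    ⟨1, by rw [h]; simp [cyclotomic_six]; ring⟩⟩
  have := tar_of hq (by omega) (by omega) ev
    (nd_of (P := fun q => q ^ 2 - q + 1) (Q := fun q => q ^ 2 - q + 1) h (by simp)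
      (by generalize (q : ZMod 2) = a; revert a; decide))
    (by have := dvd_pow h3 two_ne_zero; have := Nat.le_self_pow two_ne_zero q; omega) hr h1
  exact ⟨this.1, this.2.1⟩

theorem Tp.isol (T : Tp M g g 1 1 l') (h : IsCh A M g 1 q) (e : Fin l → Fin l')
    (d : Fin l' → Fin l) (hd : ∀ j, e (d j) = j) (he : ∀ i j, e i = e j ↔ g.SameCycle i j)
    (hQ : ∀ P : Lat l →ₗ[ℤ] Lat l', (∀ i, P (sr i) = sr (e i)) → TQ M g P (E + 1))
    (B : TAr q 1 E N (E + 1)) (hE : E.totient = l') (hl : l < E) (hN : 1 < N) {c : ℤ}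
    (hc : (Nat.card A : ℤ) = N * c) (h1 : (N : ℤ) ∣ c - E) : ∃ (x : A) (c : ℕ), Isol x c ∧
      orderOf x = N ∧ ∀ r, r.Prime → r ∣ N → Ord q r = E ∧ E < r ∧ c ≡ E [MOD r] := by
  lift c to ℕ using (by
    refine nonneg_of_mul_nonneg_right (a := (N : ℤ)) (hc ▸ by omega) (by omega))
  have key := fun (r : ℕ) (hr : r.Prime) => T.tor h rfl e d hd he hQ B hE (by omega) hr
  obtain ⟨r, hr, h2⟩ := Nat.exists_prime_and_dvd hN.ne'
  replace hc : Nat.card A = N * c := by exact_mod_cast hc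
  obtain ⟨x, rfl⟩ := (key r hr h2).1 (hc ▸ h2.mul_right c)
  have h3 : ∀ r, r ∣ orderOf x → c ≡ E [MOD r] := fun r h =>
    (Nat.modEq_iff_dvd.2 ((Int.natCast_dvd_natCast.2 h).trans h1)).symm
  have h4 : ∀ r, r.Prime → r ∣ orderOf x → ¬ r ∣ c := fun r hr h h' => by
    have := Nat.le_of_dvd B.pos (((h3 r h).dvd_iff dvd_rfl).1 h')
    have := (B.pr r hr h).2
    omega
  exact ⟨x, c, ⟨hc, Nat.coprime_of_dvd h4, fun r u hr hu a b e => h4 u hu ((key r hr a).2 u e) b⟩,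
    rfl, fun r hr h => ⟨(B.pr r hr h).1, (B.pr r hr h).2, h3 r h⟩⟩

theorem Re.Amb.finite (h : Re.Amb A y q) : Finite A := by
  cases y <;> exact IsCh.finite h

/-- The torus of the ambient group is an isolated cyclic Hall subgroup. -/
theorem Re.Amb.isol (h : Re.Amb A y (y.q m)) : ∃ (x : A) (c : ℕ), Isol x c ∧
    orderOf x = y.tor m ∧
      ∀ r, r.Prime → r ∣ y.tor m → Ord (y.q m) r = y.e ∧ y.e < r ∧ c ≡ y.e [MOD r] := by
  have h1 : y.p ∣ y.q m := dvd_pow_self _ (by omega)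
  have h2 : 2 ≤ y.q m := (by cases y <;> decide : 2 ≤ y.p).trans
    (Nat.le_self_pow (by omega) _)
  have h3 : y.q m < y.q m ^ 2 := by nlinarith
  have h4 : y.q m ^ 2 < y.q m ^ 4 := Nat.pow_lt_pow_right (by omega) (by omega)
  cases y <;> simp only [Re.tor, Re.e] <;> generalize Re.q _ m = q at *
  · exact tp_B2.isol h ![0, 1, 0] ![0, 1] (by decide) (by decide) (fun _ => tq_B2) (tar_B2 h2 h1)
      (by decide) (by decide) (by omega) (c := q ^ 4 * (q ^ 2 - 1) ^ 2)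
      (by rw [card_B2 h h1]; push_cast; ring)
      ⟨q ^ 6 - 3 * q ^ 4 + 4 * q ^ 2 - 4, by push_cast; ring⟩
  · have := IsChev.card (x := .G2) h
    refine tp_G2.isol h ![0, 1, 0, 0] ![0, 1] (by decide) (by decide) (fun _ => tq_G2)
      (tar_G6 h2 h1) (by decide) (by decide) (by omega)
      (c := q ^ 6 * (q + 1) * (q ^ 3 - 1) * (q ^ 2 - 1)) ?_
      ⟨q ^ 10 + 2 * q ^ 9 - 4 * q ^ 7 - 5 * q ^ 6 + 6 * q ^ 4 + 6 * q ^ 3 - 6 * q - 6, ?_⟩ <;>
      push_cast [h3.le]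
    · simp only [Ex.cen, Ex.ord, Nat.cast_one] at this
      linear_combination this
    · ring
  · have := IsChev.card (x := .F4) h
    have B := tar_D3 h2
    refine tp_F4.isol h ![0, 1, 2, 3, 2, 0] ![0, 1, 2, 3] (by decide) (by decide +kernel)
      (fun _ => tq_F4) ⟨B.ev, B.pos, by decide, B.pr, B.inv⟩ (by decide) (by decide) (by omega)
      (c := q ^ 24 * (q ^ 6 - 1) ^ 2 * (q ^ 4 - 1) * (q ^ 8 - 1)) ?_
      ⟨q ^ 44 + q ^ 42 - q ^ 40 - 4 * q ^ 38 - 4 * q ^ 36 + 2 * q ^ 34 + 8 * q ^ 32 + 8 * q ^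
        30 - q ^ 28 - 11 * q ^ 26 - 11 * q ^ 24 + 12 * q ^ 20 + 12 * q ^ 18 - 12 * q ^ 14 - 12 *
        q ^ 12 + 12 * q ^ 8 + 12 * q ^ 6 - 12 * q ^ 2 - 12, ?_⟩ <;> push_cast [h4.le]
    · simp only [Ex.cen, Ex.ord, Nat.cast_one] at this
      linear_combination this
    · ring

end Pool.Agent.Lib.MP_7d41f7_al
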