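import Pool.Agent.Lib.MP_7d41f7_al.E.RTy
import Pool.Agent.Lib.MP_7d41f7_al.E.RAmb

/-! The order and the vanishing elements of the Suzuki and Ree groups. -/

set_option autoImplicit false

namespace Pool.Agent.Lib.MP_7d41f7_al

variable {l : ℕ} {M : Matrix (Fin l) (Fin l) ℤ} {g : Equiv.Perm (Fin l)} {β : Fin l → Fin l}
  {d p m : ℕ} {P : List (Fin l × List (Fin l))} {K : Type} [Field K] [Finite K] {ε : ℤ}
  {S H : Type} [Group S] [Group H] {y : Re}

/-- The list of pairs describes the exchange of long and short roots. -/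
def PLs (g : Equiv.Perm (Fin l)) (β : Fin l → Fin l) (P : List (Fin l × List (Fin l))) : Prop :=
  (∀ c ∈ P, g c.1 = c.1 ∧ c.2.Nodup ∧ c.2.toFinset = ob3 g (β c.1)) ∧
    ∀ i, ∃ c ∈ P, i = c.1 ∨ i ∈ c.2

instance : Decidable (PLs g β P) := by
  unfold PLs
  infer_instance

/-- As `steinb_iso`. -/
theorem steinb_eq (hD : Dia M g d) (K : Type) [Field K] [Finite K] :
    ∃ τ : Chev M K →* Chev M K, (cg hD.ade K).Hom (cg hD.ade K) τ (RingHom.id K) (ga g) ∧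
      Steinb M g 1 K = ((cg hD.ade K).St τ).map (Chev M K).subtype := by
  have hA := hD.ade
  have hS := hD.sy
  obtain ⟨σ, -, h1, h2⟩ := cg_map hA hS (RingHom.id K)
  have k : ∀ a : Chev M K, σ a = a ↔
      ∀ x y x' y', Gph g x x' → Gph g y y' → a.1.1 x' y' = a.1.1 x y ^ 1 := fun a => by
    simp only [gph_iff hA hS, pow_one]
    refine ⟨fun e x y x' y' c d => ?_, fun e => cg_ext (Matrix.ext fun x y => ?_)⟩
    · rw [c, d]
      refine Eq.trans ?_ (gmp_apply hA hS (RingHom.id K) a.1.1 x y)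
      rw [← h2, e]
    · obtain ⟨x, rfl⟩ := (gix hA hS).surjective x
      obtain ⟨y, rfl⟩ := (gix hA hS).surjective y
      rw [h2, gmp_apply, e x y _ _ rfl rfl, RingHom.id_apply]
  refine ⟨σ, h1, ?_⟩
  rw [CG.St, MonoidHom.map_closure, Steinb, uni_eq hA, uni_eq hA]
  refine congrArg Subgroup.closure (Set.ext fun u => ⟨?_, ?_⟩)
  · rintro ⟨⟨a, ha, rfl⟩ | ⟨a, ha, rfl⟩, h⟩
    · exact ⟨a, ⟨.inl ha, (k a).2 h⟩, rfl⟩
    · exact ⟨a, ⟨.inr ha, (k a).2 h⟩, rfl⟩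
  · rintro ⟨a, ⟨ha, h⟩, rfl⟩
    exact ⟨ha.imp (Subgroup.mem_map_of_mem _) (Subgroup.mem_map_of_mem _), (k a).1 h⟩

/-- The factors commute (`com0`), so the order of the list does not matter; `xg_val`. -/
theorem xs_val (hD : Dia M g d) (hε : ε = 1 ∨ ε = -1) {i : Fin l} {J : List (Fin l)}
    (hJ : J.Nodup) (h : J.toFinset = ob3 g i) (s : K) :
    ((cg hD.ade K).xs g ε i s).1.1 = ym M ε J s := by
  have hr : ∀ j, ε • sr j ∈ roots M := fun j => by
    rcases hε with rfl | rfl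
    · rw [one_smul]; exact hD.ade.sr_mem j
    · rw [neg_smul, one_smul]; exact hD.ade.neg_mem (hD.ade.sr_mem j)
  have hm : ∀ j, j ∈ J ↔ j ∈ ob3 g i := fun j => by rw [← h, List.mem_toFinset]
  have hp : J.Perm (orb g i).toList :=
    (List.perm_ext_iff_of_nodup hJ (Finset.nodup_toList _)).2 fun j => by
      rw [hm, Finset.mem_toList, hD.ob3_eq]
  have hc : (J.map fun j => (cg hD.ade K).x (ε • sr j) s).Pairwise Commute := by
    refine List.pairwise_map.2 (hJ.imp_of_mem fun {j k} hj hk e => ?_)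
    refine (cg hD.ade K).com0 _ (hr j) _ (hr k) ?_ s s
    have o := hD.orth ((hm j).1 hj) ((hm k).1 hk) e
    rcases hε with rfl | rfl
    · rw [one_smul, one_smul, o]
    · rw [neg_smul, neg_smul, one_smul, one_smul, ip_neg_left, ip_neg_right, neg_neg, o]
  rw [CG.xs, ← (hp.map _).prod_eq' hc, ym]
  refine (map_list_prod ((Units.coeHom _).comp (Chev M K).subtype) _).trans ?_
  rw [List.map_map]
  refine congrArg List.prod (List.map_congr_left fun j _ => (xg_val hD.ade (hr j) s).trans ?_)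
  rw [sr, ← Pi.single_smul, smul_eq_mul, mul_one]

theorem ym_mem_aux1 (hP : PLs g β P) {c : Fin l × List (Fin l)} (hc : c ∈ P) :
    [c.1].toFinset = ob3 g c.1 := by
  simp [ob3, (hP.1 c hc).1]

theorem ym_mem (T : RT M g β d) (hP : PLs g β P) (hε : ε = 1 ∨ ε = -1) {c : Fin l × List (Fin l)}
    (hc : c ∈ P) {J : List (Fin l)} (hJ : J = [c.1] ∨ J = c.2) (s : K) :
    ∃ x : Steinb M g 1 K, x.1.1 = ym M ε J s := by
  obtain ⟨τ, hτ, e⟩ := steinb_eq T.dia K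
  have k : ∀ i, ((cg T.dia.ade K).xs g ε i s).1 ∈ Steinb M g 1 K := fun i =>
    e ▸ Subgroup.mem_map_of_mem _ (CG.xs_St T.dia.ade T.dia.sy hτ hε i s)
  rcases hJ with rfl | rfl
  · exact ⟨⟨_, k _⟩, xs_val T.dia hε (List.nodup_singleton _) (ym_mem_aux1 hP hc) s⟩
  · exact ⟨⟨_, k _⟩, xs_val T.dia hε (hP.1 c hc).2.1 (hP.1 c hc).2.2 s⟩

/-- `steinb_eq`, `St_gen`, `xs_val`. -/
theorem steinb_ext (T : RT M g β d) (hP : PLs g β P) {φ ψ : Steinb M g 1 K →* H}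
    (h : ∀ c ∈ P, ∀ J, J = [c.1] ∨ J = c.2 → ∀ ε : ℤ, ε = 1 ∨ ε = -1 → ∀ (s : K)
      (x : Steinb M g 1 K), x.1.1 = ym M ε J s → φ x = ψ x) : φ = ψ := by
  obtain ⟨τ, hτ, e⟩ := steinb_eq T.dia K
  have k : (cg T.dia.ade K).St τ ≤
      ((φ.eqLocus ψ).map (Steinb M g 1 K).subtype).comap (Chev M K).subtype := by
    refine CG.St_gen hτ T.dia fun ε hε i s => ?_
    have m : ((cg T.dia.ade K).xs g ε i s).1 ∈ Steinb M g 1 K :=
      e ▸ Subgroup.mem_map_of_mem _ (CG.xs_St T.dia.ade T.dia.sy hτ hε i s)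
    refine ⟨⟨_, m⟩, ?_, rfl⟩
    obtain ⟨c, hc, rfl | hi⟩ := hP.2 i
    · exact h c hc _ (.inl rfl) ε hε s _
        (xs_val T.dia hε (List.nodup_singleton _) (ym_mem_aux1 hP hc) s)
    · have o := (hP.1 c hc).2.2
      exact h c hc _ (.inr rfl) ε hε s _ (xs_val T.dia hε (hP.1 c hc).2.1
        (o.trans (T.dia.ob3_congr (o ▸ List.mem_toFinset.2 hi)).symm) s)
  refine MonoidHom.ext fun x => ?_
  obtain ⟨a, ha, ea⟩ := e.le x.2
  obtain ⟨z, hz, ez⟩ := k ha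
  exact (Subtype.ext (ez.trans ea) : z = x) ▸ hz

/-- `ρ` maps the element of `I` with parameter `t` to the element of `J` with parameter `t ^ a`. -/
def Mp {K : Type} [Field K] {A : Subgroup (GL (Ix M) K)} (ρ : A →* A) (I J : List (Fin l)) (a : ℕ) :
    Prop :=
  ∀ ε : ℤ, ε = 1 ∨ ε = -1 → ∀ (t : K) (x : A), x.1.1 = ym M ε I t → (ρ x).1.1 = ym M ε J (t ^ a)

theorem IsRe.mp (T : RT M g β d) (hP : PLs g β P) (h : IsRe S M g P p m) :
    ∃ (F : Type) (_ : Field F) (_ : Finite F), Nat.card F = p ^ (2 * m + 1) ∧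
      ∃ ρ : Steinb M g 1 F →* Steinb M g 1 F,
        (∀ c ∈ P, Mp ρ [c.1] c.2 (p ^ m) ∧ Mp ρ c.2 [c.1] (p ^ (m + 1))) ∧
        Nonempty (S ≃* ρ.eqLocus (MonoidHom.id _)) := by
  obtain ⟨F, _, _, h1, ρ, h2, h3⟩ := h
  refine ⟨F, _, inferInstance, h1, ρ, fun c hc => ⟨fun ε hε t x hx => ?_, fun ε hε t x hx => ?_⟩,
    h3⟩
  · obtain ⟨y, hy⟩ := ym_mem T hP hε hc (.inr rfl) (t ^ p ^ m)
    rw [h2 x y ⟨c, hc, ε, hε, t, .inl ⟨hx, hy⟩⟩, hy]
  · obtain ⟨y, hy⟩ := ym_mem T hP hε hc (.inl rfl) (t ^ p ^ (m + 1))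
    rw [h2 x y ⟨c, hc, ε, hε, t, .inr ⟨hx, hy⟩⟩, hy]

theorem IsRe.iso_aux1 {K L : Type} [Field K] [Field L] (f : K →+* L) (J : List (Fin l)) (t : K) :
    (ym M ε J t).map f = ym M ε J (f t) := by
  induction J with
  | nil => simp [ym]
  | cons j J ih =>
    simp only [ym, List.map_cons, List.prod_cons, Matrix.map_mul, xm_map] at ih ⊢
    rw [ih]

theorem IsRe.iso_aux2 {A B : Type} [Group A] [Group B] (φ : A ≃* B) {ρ : A →* A} {σ : B →* B}
    (h : ∀ x, φ (ρ x) = σ (φ x)) :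
    Nonempty (ρ.eqLocus (MonoidHom.id _) ≃* σ.eqLocus (MonoidHom.id _)) := by
  refine ⟨(φ.subgroupMap _).trans (MulEquiv.subgroupCongr (Subgroup.ext fun x => ?_))⟩
  obtain ⟨x, rfl⟩ := φ.surjective x
  exact (Subgroup.mem_map_iff_mem (f := (φ : A →* B)) φ.injective).trans
    (φ.injective.eq_iff.symm.trans (by rw [h]; rfl))

/-- The isomorphism of `steinb_congr` commutes with the endomorphisms by `steinb_ext`. -/
theorem IsRe.iso (T : RT M g β d) (hP : PLs g β P) (h : IsRe S M g P p m)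
    (h' : IsRe H M g P p m) : Nonempty (H ≃* S) := by
  obtain ⟨L, _, _, h1, σ, hσ, ⟨e⟩⟩ := h.mp T hP
  obtain ⟨F, _, _, h2, ρ, hρ, ⟨e'⟩⟩ := h'.mp T hP
  have := Fintype.ofFinite F
  have := Fintype.ofFinite L
  let f : F ≃+* L := FiniteField.ringEquivOfCardEq
    (by simpa only [Nat.card_eq_fintype_card] using h2.trans h1.symm)
  let φ : Steinb M g 1 F ≃* Steinb M g 1 L := {
    toFun := fun x => ⟨_, steinb_congr_aux2 M g 1 (f : F →+* L) x.2⟩
    invFun := fun x => ⟨_, steinb_congr_aux2 M g 1 (f.symm : L →+* F) x.2⟩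
    left_inv := fun x => Subtype.ext (Units.ext (Matrix.ext fun i j => f.symm_apply_apply _))
    right_inv := fun x => Subtype.ext (Units.ext (Matrix.ext fun i j => f.apply_symm_apply _))
    map_mul' := fun x y => Subtype.ext (map_mul (Matrix.GeneralLinearGroup.map _) x.1 y.1) }
  have v : ∀ {ε J t} {x : Steinb M g 1 F}, x.1.1 = ym M ε J t → (φ x).1.1 = ym M ε J (f t) :=
    fun k => (congrArg (·.map (f : F →+* L)) k).trans (IsRe.iso_aux1 _ _ _)
  have k : ∀ {I J a}, Mp ρ I J a → Mp σ I J a → ∀ ε : ℤ, ε = 1 ∨ ε = -1 → ∀ (s : F)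
      (x : Steinb M g 1 F), x.1.1 = ym M ε I s → φ (ρ x) = σ (φ x) := fun a b ε hε s x hx =>
    Subtype.ext (Units.ext (by rw [v (a ε hε s x hx), b ε hε _ _ (v hx), map_pow]))
  have q : φ.toMonoidHom.comp ρ = σ.comp φ.toMonoidHom := steinb_ext T hP fun c hc J hJ => by
    rcases hJ with rfl | rfl
    exacts [k (hρ c hc).1 (hσ c hc).1, k (hρ c hc).2 (hσ c hc).2]
  obtain ⟨ψ⟩ := IsRe.iso_aux2 φ (DFunLike.congr_fun q)
  exact ⟨(e'.trans ψ).trans e.symm⟩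

theorem IsRe.amb (h : IsRe S M g P p m) : ∃ (A : Type) (_ : Group A) (f : S →* A),
    IsCh A M g 1 (p ^ (2 * m + 1)) ∧ Function.Injective f := by
  obtain ⟨F, _, _, h1, ρ, -, ⟨e⟩⟩ := h
  have := Fintype.ofFinite F
  have k : ∀ a : F, a ^ p ^ (2 * m + 1) = a ^ 1 := fun a => by
    rw [← h1, Nat.card_eq_fintype_card, FiniteField.pow_card, pow_one]
  refine ⟨Steinb M g 1 F, inferInstance, (Subgroup.subtype _).comp e.toMonoidHom,
    ⟨F, inferInstance, inferInstance, by rw [h1, pow_one], ⟨MulEquiv.subgroupCongr ?_⟩⟩,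
    (Subgroup.subtype_injective _).comp e.injective⟩
  simp only [Steinb, k]

/-- Extend the endomorphism to a function on `Chev M K` (the identity outside the subgroup). -/
theorem IsRe.model (T : RT M g β d) (hP : PLs g β P) (h : IsRe S M g P p m)
    (hi : ∀ (K : Type) [Field K] [Finite K], Nat.card K = p ^ (2 * m + 1) →
      Nat.card (TFs (RingHom.id K) g ⊓ (ccs M K).ker : Subgroup _) = 1) :
    ∃ (K : Type) (_ : Field K) (_ : Finite K) (τ : Chev M K →* Chev M K)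
      (ρ : Chev M K → Chev M K) (D : (cg T.dia.ade K).RD g β τ ρ (p ^ m) (p ^ (m + 1))),
      Nat.card K = p ^ (2 * m + 1) ∧ Nonempty (S ≃* D.hm.fix) := by
  obtain ⟨F, _, _, h1, ρ, hρ, ⟨e⟩⟩ := h.mp T hP
  obtain ⟨τ, hτ, q⟩ := steinb_eq T.dia F
  have le : ∀ x : Steinb M g 1 F, x.1 ∈ Chev M F := fun x =>
    Subgroup.map_subtype_le _ (q.le x.2)
  have st : ∀ {a : Chev M F}, a ∈ (cg T.dia.ade F).St τ ↔ a.1 ∈ Steinb M g 1 F := by
    rw [q]
    exact (Subgroup.mem_map_iff_mem (Chev M F).subtype_injective).symm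
  classical
  let r : Chev M F → Chev M F := fun a =>
    if h : a.1 ∈ Steinb M g 1 F then ⟨(ρ ⟨a.1, h⟩).1, le _⟩ else a
  have hr : ∀ (a : Chev M F) (h : a.1 ∈ Steinb M g 1 F), (r a).1 = (ρ ⟨a.1, h⟩).1 := fun a h =>
    congrArg Subtype.val (dif_pos h)
  have k : ∀ {I J a i j}, Mp ρ I J a → I.Nodup → J.Nodup → I.toFinset = ob3 g i →
      J.toFinset = ob3 g j → ∀ ε : ℤ, ε = 1 ∨ ε = -1 → ∀ s, r ((cg T.dia.ade F).xs g ε i s) =
        (cg T.dia.ade F).xs g ε j (s ^ a) := fun a b c b' c' ε hε s => cg_ext (by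
    rw [hr _ (st.1 (CG.xs_St T.dia.ade T.dia.sy hτ hε _ s)), xs_val T.dia hε c c']
    exact a ε hε s _ (xs_val T.dia hε b b' s))
  have D : (cg T.dia.ade F).RD g β τ r (p ^ m) (p ^ (m + 1)) := by
    refine ⟨hτ, ⟨fun y hy => st.2 (hr y (st.1 hy) ▸ (ρ _).2), fun y hy z hz => Subtype.ext ?_⟩,
      fun ε hε i s => ?_, fun s => ?_, fun t ht h => ?_⟩
    · rw [Subgroup.coe_mul, hr _ (st.1 (mul_mem hy hz)), hr y (st.1 hy), hr z (st.1 hz),
        ← Subgroup.coe_mul, ← map_mul]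
      rfl
    · obtain ⟨c, hc, hi⟩ := hP.2 i
      obtain ⟨a1, a2, a3⟩ := hP.1 c hc
      have a4 : [c.1].toFinset = ob3 g c.1 := by simp [ob3, a1]
      rcases hi with rfl | hi
      · rw [ex, if_pos a1]
        exact k (hρ c hc).1 (List.nodup_singleton _) a2 a4 a3 ε hε s
      · have a5 : i ∈ orb g (β c.1) := T.dia.ob3_eq _ ▸ a3 ▸ List.mem_toFinset.2 hi
        have a6 : β i = c.1 := by simpa [T.bc' a5, ← a4] using T.bb c.1
        rw [T.ex_orb a5, ex, if_neg ((T.lg _).1 a1), a6]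
        exact k (hρ c hc).2 a2 (List.nodup_singleton _)
          (by rw [a3, T.dia.ob3_eq, T.dia.ob3_eq, orb_congr a5]) a4 ε hε s
    · have := Fintype.ofFinite F
      rw [← pow_add, ← add_assoc, ← two_mul, ← h1, Nat.card_eq_fintype_card, FiniteField.pow_card]
    · exact Subgroup.mem_bot.1 (Subgroup.card_eq_one.1 (hi F h1) ▸ ⟨ht, h⟩)
  exact ⟨F, _, _, τ, r, D, h1, ⟨e.trans {
    toFun := fun x => ⟨⟨x.1.1, le _⟩, st.2 x.1.2,
      Subtype.ext ((hr _ x.1.2).trans (congrArg Subtype.val x.2))⟩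
    invFun := fun x => ⟨⟨x.1.1, st.1 x.2.1⟩,
      Subtype.ext ((hr _ _).symm.trans (congrArg Subtype.val x.2.2))⟩
    left_inv := fun _ => rfl
    right_inv := fun _ => rfl
    map_mul' := fun _ _ => rfl }⟩⟩

theorem rt_A3 : RT mA3 gA3 ![1, 0, 1] 2 := ⟨dia_A3, by decide, by decide, by decide, by decide⟩

theorem rt_D4 : RT mD4 gD4 ![1, 0, 1, 1] 3 := ⟨dia_D4, by decide, by decide, by decide, by decide⟩

theorem rt_E6 : RT mE6 gE6 ![1, 0, 3, 2, 3, 1] 2 :=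
  ⟨dia_E6, by decide, by decide, by decide, by decide⟩

theorem pl_A3 : PLs gA3 ![1, 0, 1] [(1, [0, 2])] := by decide

theorem pl_D4 : PLs gD4 ![1, 0, 1, 1] [(1, [0, 2, 3])] := by decide

theorem pl_E6 : PLs gE6 ![1, 0, 3, 2, 3, 1] [(1, [0, 5]), (3, [2, 4])] := by decide

theorem IsRee.iso (h : IsRee S y m) (h' : IsRee H y m) : Nonempty (H ≃* S) := by
  cases y
  exacts [IsRe.iso rt_A3 pl_A3 h h', IsRe.iso rt_D4 pl_D4 h h', IsRe.iso rt_E6 pl_E6 h h']

theorem IsRee.amb (h : IsRee S y m) : ∃ (A : Type) (_ : Group A) (f : S →* A),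
    Re.Amb A y (y.q m) ∧ Function.Injective f := by
  cases y <;> exact IsRe.amb h

theorem IsRee.finite (h : IsRee S y m) : Finite S := by
  obtain ⟨A, _, f, h1, h2⟩ := h.amb
  have := h1.finite
  exact .of_injective f h2

theorem IsRee.card_aux {q : ℕ} (hK : Nat.card K = q) :
    Nat.card K = q ^ 1 ∧ ∀ a : K, RingHom.id K a = a ^ q := by
  have h : Nat.card K = q ^ 1 := by rw [pow_one, hK]
  exact ⟨h, fun a => by simpa using (card_TF_one_aux1 h a).symm⟩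

theorem IsRee.card_B2 (K : Type) [Field K] [Finite K] (hK : Nat.card K = 2 ^ (2 * m + 1)) :
    Nat.card (TFs (RingHom.id K) gA3 ⊓ (ccs mA3 K).ker : Subgroup _) = 1 :=
  z_B2 (card_aux hK).1 (card_aux hK).2 (dvd_pow_self _ (by omega))

theorem IsRee.card_F4 (K : Type) [Field K] [Finite K] (hK : Nat.card K = 2 ^ (2 * m + 1)) :
    Nat.card (TFs (RingHom.id K) gE6 ⊓ (ccs mE6 K).ker : Subgroup _) = 1 :=
  z_F4 (card_aux hK).1 (card_aux hK).2

/-- `model`, `RD.card`, `RD.card_T`, `card_TF_A3`, `card_TF_D4`, `card_TF_E6`; `z_B2`, `z_D4`,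
`z_F4`. -/
theorem IsRee.card (h : IsRee S y m) : (Nat.card S : ℤ) = y.ord (y.q m) := by
  have q0 : 0 < y.q m := pow_pos (by cases y <;> decide) _
  cases y
  · obtain ⟨K, _, _, τ, ρ, D, hK, ⟨e⟩⟩ := IsRe.model rt_A3 pl_A3 h card_B2
    have c1 := D.card rt_A3 rl_A3 (wr := fun _ => [1, 0, 1, 0]) (n := fun _ => 2) rg_A3 re_A3
    have c2 := D.card_T rt_A3
    change Nat.card K = Re.B2.q m at hK
    rw [card_TF_A3 (card_aux hK).1 (card_aux hK).2] at c2
    rw [Nat.card_congr e.toEquiv, c1, Nat.pow_left_injective two_ne_zero c2, hK]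
    simp only [Re.ord, List.map_cons, List.map_nil, List.sum_cons, List.sum_nil]
    push_cast [Nat.cast_pred q0]
    ring
  · obtain ⟨K, _, _, τ, ρ, D, hK, ⟨e⟩⟩ := IsRe.model rt_D4 pl_D4 h fun _ _ _ _ => z_D4
    have c1 := D.card rt_D4 rl_D4 (wr := fun _ => [1, 0, 1, 0, 1, 0]) (n := fun _ => 3) rg_D4 re_D4
    have c2 := D.card_T rt_D4
    change Nat.card K = Re.G2.q m at hK
    rw [card_TF_D4 (.inl rfl) (card_aux hK).1 (card_aux hK).2, pow_one, ← sq] at c2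
    rw [Nat.card_congr e.toEquiv, c1, Nat.pow_left_injective two_ne_zero c2, hK]
    simp only [Re.ord, List.map_cons, List.map_nil, List.sum_cons, List.sum_nil]
    push_cast [Nat.cast_pred q0]
    ring
  · obtain ⟨K, _, _, τ, ρ, D, hK, ⟨e⟩⟩ := IsRe.model rt_E6 pl_E6 h card_F4
    have c1 := D.card rt_E6 rl_E6 rg_E6 re_E6
    have c2 := D.card_T rt_E6
    change Nat.card K = Re.F4.q m at hK
    rw [card_TF_E6 (.inl rfl) (card_aux hK).1 (card_aux hK).2, pow_one, ← sq] at c2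
    rw [Nat.card_congr e.toEquiv, c1, Nat.pow_left_injective two_ne_zero c2, hK]
    have n0 : (![1, 1, 2, 2, 2, 1] : Fin 6 → ℕ) 0 = 1 := rfl
    have n2 : (![1, 1, 2, 2, 2, 1] : Fin 6 → ℕ) 2 = 2 := rfl
    simp only [Re.ord, eE6, List.map_cons, List.map_nil, List.sum_cons, List.sum_nil, n0, n2]
    push_cast [Nat.cast_pred q0]
    ring

theorem IsRee.van_aux (T : RT M g β d) (hP : PLs g β P) (h : IsRe S M g P p m)
    (hi : ∀ (K : Type) [Field K] [Finite K], Nat.card K = p ^ (2 * m + 1) →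
      Nat.card (TFs (RingHom.id K) g ⊓ (ccs M K).ker : Subgroup _) = 1) (hl : l ≤ 6) (hp : p ≤ 3)
    (hq : 10 ^ 7 ≤ p ^ (2 * m + 1)) {r : ℕ} (hr : r.Prime)
    (h1 : 1 < Ord ((p ^ (2 * m + 1) : ℕ) : ℤ) r) (x : S) (hx : r ∣ orderOf x) :
    orderOf x ∈ Vo S := by
  obtain ⟨K, _, _, τ, ρ, D, hK, ⟨e⟩⟩ := h.model T hP hi
  have p0 : 0 < p := Nat.pos_of_ne_zero fun c => by simp [c] at hq
  have a1 : p ^ m ≤ p ^ (m + 1) := Nat.pow_le_pow_right p0 (Nat.le_succ m)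
  have a2 : p ^ (m + 1) * p ^ (m + 1) ≤ 3 * p ^ (2 * m + 1) :=
    le_trans (le_of_eq (by ring)) (Nat.mul_le_mul_right _ hp)
  have a3 : 72 * 6 * (1 + p ^ (m + 1)) + 1 < p ^ (2 * m + 1) := by
    generalize p ^ (m + 1) = b at a2
    generalize p ^ (2 * m + 1) = q at a2 hq
    by_contra c
    have : 2000 ≤ b := by omega
    nlinarith
  have a4 := Nat.mul_le_mul (Nat.mul_le_mul_left 72 hl) (Nat.add_le_add_left a1 1)
  have a5 := Nat.mul_le_mul_right (1 + p ^ (m + 1)) (Nat.mul_le_mul_left 72 hl)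
  rw [Vo_congr e, ← e.orderOf_eq x] at *
  refine D.van T (by omega) (by omega) hr
    (hK ▸ hr.coprime_iff_not_dvd.1 (Tp.lat_aux hr (by omega))) (fun c => ?_) _ hx
  rw [hK, ← Int.natCast_dvd_natCast, Nat.cast_pred (by omega)] at c
  have := Nat.le_of_dvd one_pos ((Ord.dvd_iff 1).1 (by rwa [pow_one]))
  omega

/-- `model`, `RD.van`. -/
theorem IsRee.van (h : IsRee S y m) (hq : 10 ^ 7 ≤ y.q m) {r : ℕ} (hr : r.Prime)
    (h1 : r ∣ y.tor m) (x : S) (hx : r ∣ orderOf x) : orderOf x ∈ Vo S := by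
  obtain ⟨A, _, f, h2, -⟩ := h.amb
  obtain ⟨_, _, -, -, h3⟩ := h2.isol
  have h4 : 1 < Ord (y.q m) r := by
    rw [(h3 r hr h1).1]
    cases y <;> decide
  cases y
  exacts [van_aux rt_A3 pl_A3 h card_B2 (by decide) (by decide) hq hr h4 x hx,
    van_aux rt_D4 pl_D4 h (fun _ _ _ _ => z_D4) (by decide) (by decide) hq hr h4 x hx,
    van_aux rt_E6 pl_E6 h card_F4 (by decide) (by decide) hq hr h4 x hx]

end Pool.Agent.Lib.MP_7d41f7_al
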