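import Pool.Agent.Lib.MP_7d41f7_al.E.ERt

/-! The root systems of types `E₆`, `E₇`, `E₈`. -/

set_option autoImplicit false

namespace Pool.Agent.Lib.MP_7d41f7_al

open Matrix Polynomial

/-- `4 * ip a a = |P a| ^ 2`, and `P a = 0` gives `a = 0` by `Ω`; `a ↦ P a` is injective and maps
the roots into a box. -/
theorem ade_of {l m : ℕ} {M : Matrix (Fin l) (Fin l) ℤ} (P : Matrix (Fin m) (Fin l) ℤ)
    (Ω : Matrix (Fin l) (Fin l) ℤ) {d : ℤ} (hd : d ≠ 0) (h1 : Pᵀ * P = 4 • (M + Mᵀ))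
    (h2 : Ω * (M + Mᵀ) = d • 1) : (∀ a, a ≠ 0 → 0 < ip M a a) ∧ {a | ip M a a = 2}.Finite := by
  have e : ∀ a : Fin l → ℤ, 4 * ip M a a = ∑ i, (P *ᵥ a) i * (P *ᵥ a) i := fun a => by
    have : (P *ᵥ a) ⬝ᵥ (P *ᵥ a) = a ⬝ᵥ (Pᵀ * P) *ᵥ a := by
      rw [← mulVec_mulVec, dotProduct_mulVec a, vecMul_transpose]
    rw [h1, smul_mulVec, dotProduct_smul] at this
    rw [← dotProduct, this, ip]
    simp
  have inj : ∀ a : Fin l → ℤ, P *ᵥ a = 0 → a = 0 := fun a h => by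
    have k : (4 • Ω * (M + Mᵀ)) *ᵥ a = 0 := by
      rw [smul_mul_assoc, ← mul_smul_comm, ← h1, ← mulVec_mulVec, ← mulVec_mulVec, h]
      simp
    rw [smul_mul_assoc, h2, smul_mulVec, smul_mulVec, one_mulVec] at k
    exact (smul_eq_zero.1 ((smul_eq_zero.1 k).resolve_left (by decide))).resolve_left hd
  refine ⟨fun a ha => ?_, ?_⟩
  · obtain ⟨i, hi⟩ := Function.ne_iff.1 fun h => ha (inj a h)
    have := Finset.sum_pos' (s := Finset.univ) (fun j _ => mul_self_nonneg ((P *ᵥ a) j))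
      ⟨i, Finset.mem_univ i, mul_self_pos.2 hi⟩
    have := e a
    omega
  · refine Set.Finite.of_finite_image (f := fun a => P *ᵥ a)
      ((Set.finite_Icc (fun _ => -3) fun _ => 3).subset ?_) fun a _ b _ h => ?_
    · rintro _ ⟨a, ha, rfl⟩
      have k : ∀ i, (P *ᵥ a) i * (P *ᵥ a) i ≤ 8 := fun i => by
        have := Finset.single_le_sum (s := Finset.univ)
          (fun j _ => mul_self_nonneg ((P *ᵥ a) j)) (Finset.mem_univ i)
        have := e a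
        have : ip M a a = 2 := ha
        omega
      exact ⟨fun i => by have := k i; show -3 ≤ (P *ᵥ a) i; nlinarith,
        fun i => by have := k i; show (P *ᵥ a) i ≤ 3; nlinarith⟩
    · exact sub_eq_zero.1 (inj _ (by rw [mulVec_sub]; exact sub_eq_zero.2 h))

/-- `P` has the doubled simple roots of `E₈` (Bourbaki) as columns. -/
theorem ade_E6 : Ade mE6 := by
  have h := ade_of (M := mE6) (d := 3)
    !![1, 2, -2, 0, 0, 0; -1, 2, 2, -2, 0, 0; -1, 0, 0, 2, -2, 0; -1, 0, 0, 0, 2, -2; -1, 0, 0,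
      0, 0, 2; -1, 0, 0, 0, 0, 0; -1, 0, 0, 0, 0, 0; 1, 0, 0, 0, 0, 0]
    !![4, 3, 5, 6, 4, 2; 3, 6, 6, 9, 6, 3; 5, 6, 10, 12, 8, 4; 6, 9, 12, 18, 12, 6; 4, 6, 8, 12,
      10, 5; 2, 3, 4, 6, 5, 4]
    (by decide) (by decide +kernel) (by decide +kernel)
  exact ⟨by decide, by decide, h.1, h.2, by decide,
    ![16, 22, 30, 42, 30, 16], by decide +kernel, by decide +kernel⟩

theorem ade_E7 : Ade mE7 := by
  have h := ade_of (M := mE7) (d := 2)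
    !![1, 2, -2, 0, 0, 0, 0; -1, 2, 2, -2, 0, 0, 0; -1, 0, 0, 2, -2, 0, 0; -1, 0, 0, 0, 2, -2,
      0; -1, 0, 0, 0, 0, 2, -2; -1, 0, 0, 0, 0, 0, 2; -1, 0, 0, 0, 0, 0, 0; 1, 0, 0, 0, 0,
      0, 0]
    !![4, 4, 6, 8, 6, 4, 2; 4, 7, 8, 12, 9, 6, 3; 6, 8, 12, 16, 12, 8, 4; 8, 12, 16, 24, 18, 12,
      6; 6, 9, 12, 18, 15, 10, 5; 4, 6, 8, 12, 10, 8, 4; 2, 3, 4, 6, 5, 4, 3]
    (by decide) (by decide +kernel) (by decide +kernel)
  exact ⟨by decide, by decide, h.1, h.2, by decide,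
    ![34, 49, 66, 96, 75, 52, 27], by decide +kernel, by decide +kernel⟩

theorem ade_E8 : Ade mE8 := by
  have h := ade_of (M := mE8) (d := 1)
    !![1, 2, -2, 0, 0, 0, 0, 0; -1, 2, 2, -2, 0, 0, 0, 0; -1, 0, 0, 2, -2, 0, 0, 0; -1, 0, 0, 0,
      2, -2, 0, 0; -1, 0, 0, 0, 0, 2, -2, 0; -1, 0, 0, 0, 0, 0, 2, -2; -1, 0, 0, 0, 0, 0, 0,
      2; 1, 0, 0, 0, 0, 0, 0, 0]
    !![4, 5, 7, 10, 8, 6, 4, 2; 5, 8, 10, 15, 12, 9, 6, 3; 7, 10, 14, 20, 16, 12, 8, 4; 10, 15,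
      20, 30, 24, 18, 12, 6; 8, 12, 16, 24, 20, 15, 10, 5; 6, 9, 12, 18, 15, 12, 8, 4; 4, 6,
      8, 12, 10, 8, 6, 3; 2, 3, 4, 6, 5, 4, 3, 2]
    (by decide) (by decide +kernel) (by decide +kernel)
  exact ⟨by decide, by decide, h.1, h.2, by decide,
    ![92, 136, 182, 270, 220, 168, 114, 58], by decide +kernel, by decide +kernel⟩

theorem ade_D4 : Ade mD4 := by
  have h := ade_of (M := mD4) (d := 2)
    !![2, 0, 0, 0; -2, 2, 0, 0; 0, -2, 2, 2; 0, 0, -2, 2]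
    !![2, 2, 1, 1; 2, 4, 2, 2; 1, 2, 2, 1; 1, 2, 1, 2]
    (by decide) (by decide +kernel) (by decide +kernel)
  exact ⟨by decide, by decide, h.1, h.2, by decide,
    ![6, 10, 6, 6], by decide +kernel, by decide +kernel⟩

theorem half_E6 : mE6 + mE6ᵀ = CartanMatrix.E₆ := by
  decide

theorem half_E7 : mE7 + mE7ᵀ = CartanMatrix.E₇ := by
  decide

theorem half_E8 : mE8 + mE8ᵀ = CartanMatrix.E₈ := by
  decide

theorem half_D4 : mD4 + mD4ᵀ = CartanMatrix.D 4 := by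
  decide

end Pool.Agent.Lib.MP_7d41f7_al
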