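import Pool.Agent.Lib.MP_7d41f7_al.E.ECg

/-! The Bruhat decomposition. -/

set_option autoImplicit false

namespace Pool.Agent.Lib.MP_7d41f7_al

namespace CG

variable {l : ℕ} {M : Matrix (Fin l) (Fin l) ℤ} {K Γ : Type} [Field K] [Group Γ] {C : CG M K Γ}
  {a b : Lat l} {Ψ Ψ' : Set (Lat l)} {w : Au l} {g t : Γ} {i : Fin l}

theorem x_zero (ha : a ∈ roots M) : C.x a 0 = 1 := by
  simpa using C.add a ha 0 0

theorem x_neg (ha : a ∈ roots M) (s : K) : C.x a (-s) = (C.x a s)⁻¹ :=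
  eq_inv_of_mul_eq_one_left (by rw [← C.add a ha, neg_add_cancel, x_zero ha])

theorem x_inj (ha : a ∈ roots M) : Function.Injective (C.x a) := fun s s' h =>
  add_neg_eq_zero.1 (C.inj a ha _ (by rw [C.add a ha, x_neg ha, h, mul_inv_cancel]))

theorem x_mem (ha : a ∈ roots M) (h : a ∈ Ψ) (s : K) : C.x a s ∈ C.Us Ψ :=
  Subgroup.subset_closure ⟨a, ha, h, s, rfl⟩

theorem Us_mono (h : ∀ a ∈ roots M, a ∈ Ψ → a ∈ Ψ') : C.Us Ψ ≤ C.Us Ψ' :=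
  Subgroup.closure_mono fun _ ⟨a, ha, h1, h2⟩ => ⟨a, ha, h a ha h1, h2⟩

theorem mem_T : t ∈ C.T ↔ ∃ n : C.N, C.π n = 1 ∧ (n : Γ) = t := Iff.rfl

theorem conj_T (n : C.N) (h : t ∈ C.T) : n * t * (n : Γ)⁻¹ ∈ C.T := by
  obtain ⟨m, h1, rfl⟩ := mem_T.1 h
  exact mem_T.2 ⟨n * m * n⁻¹, by simp [h1], rfl⟩

theorem U_Um (hu : g ∈ C.U) (hv : g ∈ C.Um) : g = 1 :=
  (C.tri 1 (map_one _) g hu g hv (one_mul g)).2

theorem T_U (ht : g ∈ C.T) (hu : g ∈ C.U) : g = 1 := by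
  obtain ⟨m, h1, rfl⟩ := mem_T.1 ht
  rw [(C.tri m h1 _ (inv_mem hu) 1 (one_mem _) (mul_inv_cancel _)).1]
  rfl

theorem conj_Us_aux1 {H : Subgroup Γ} (h : ∀ a ∈ roots M, a ∈ Ψ → ∀ s, t * C.x a s * t⁻¹ ∈ H)
    (hg : g ∈ C.Us Ψ) : t * g * t⁻¹ ∈ H :=
  (Subgroup.closure_le (H.comap (MulAut.conj t).toMonoidHom)).2
    (by rintro _ ⟨a, ha, h1, s, rfl⟩; exact h a ha h1 s) hg

theorem mem_B_aux1 {H L : Subgroup Γ} (h : ∀ t ∈ H, ∀ g ∈ L, t * g * t⁻¹ ∈ L) (hg : g ∈ H ⊔ L) :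
    ∃ t ∈ H, ∃ u ∈ L, g = t * u := by
  obtain ⟨t, ht, u, hu, e⟩ := (Set.ext_iff.1 (Subgroup.coe_mul_of_left_le_normalizer_right H L
    (Subgroup.le_normalizer_iff.2 h)) g).1 hg
  exact ⟨t, ht, u, hu, e.symm⟩

variable (hA : Ade M)
include hA

theorem conj_Us (n : C.N) (h : ∀ a ∈ roots M, a ∈ Ψ → C.π n a ∈ Ψ') (hg : g ∈ C.Us Ψ) :
    n * g * (n : Γ)⁻¹ ∈ C.Us Ψ' :=
  conj_Us_aux1 (fun a ha h1 s => by
    obtain ⟨η, e⟩ := C.act n a ha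
    exact e s ▸ x_mem ((hA.W_root (C.π_mem n)).2 ha) (h a ha h1) _) hg

theorem T_conj_Us (ht : t ∈ C.T) (hg : g ∈ C.Us Ψ) : t * g * t⁻¹ ∈ C.Us Ψ := by
  obtain ⟨m, h1, rfl⟩ := mem_T.1 ht
  exact conj_Us hA m (fun a _ h => by rwa [h1]) hg

/-- `ip_cases`, `com0`, `com1`. -/
theorem norm_Us (ha : a ∈ roots M)
    (h : ∀ b ∈ roots M, b ∈ Ψ → b ≠ -a ∧ (a + b ∈ roots M → a + b ∈ Ψ)) (s : K)
    (hg : g ∈ C.Us Ψ) : C.x a s * g * (C.x a s)⁻¹ ∈ C.Us Ψ := by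
  refine conj_Us_aux1 (fun b hb h1 u => ?_) hg
  by_cases e : ip M a b = -1
  · have h2 := (hA.add_mem_iff ha hb).2 e
    rw [C.com1 a ha b hb e, mul_inv_cancel_right]
    exact mul_mem (x_mem hb h1 _) (x_mem h2 ((h b hb h1).2 h2) _)
  · have h2 : 0 ≤ ip M a b := by
      rcases hA.ip_cases ha hb with c | c | c | c | rfl
      · exact absurd c (h b hb h1).1
      all_goals first | omega | exact hA.ip_nonneg _
    rw [(C.com0 a ha b hb h2 s u).eq, mul_inv_cancel_right]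
    exact x_mem hb h1 _

/-- The elements `x a s * u` form a subgroup by `norm_Us`. -/
theorem split_Us (ha : a ∈ roots M)
    (h : ∀ b ∈ roots M, b ∈ Ψ → b ≠ -a ∧ (a + b ∈ roots M → a + b ∈ Ψ))
    (hg : g ∈ C.Us (insert a Ψ)) :
    (∃ s, ∃ u ∈ C.Us Ψ, g = C.x a s * u) ∧ ∃ s, ∃ u ∈ C.Us Ψ, g = u * C.x a s := by
  let H : Subgroup Γ := (MonoidHom.mk' (fun s : Multiplicative K => C.x a s.toAdd)
    fun s s' => C.add a ha _ _).range
  have h1 : C.Us (insert a Ψ) ≤ H ⊔ C.Us Ψ := (Subgroup.closure_le _).2 (by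
    rintro _ ⟨b, hb, rfl | h2, s, rfl⟩
    exacts [Subgroup.mem_sup_left ⟨.ofAdd s, rfl⟩, Subgroup.mem_sup_right (x_mem hb h2 s)])
  obtain ⟨_, ⟨s, rfl⟩, u, hu, rfl⟩ :=
    mem_B_aux1 (by rintro _ ⟨s, rfl⟩ u hu; exact norm_Us hA ha h _ hu) (h1 hg)
  exact ⟨⟨_, u, hu, rfl⟩, _, _, norm_Us hA ha h s.toAdd hu, (inv_mul_cancel_right _ _).symm⟩

omit hA in
theorem fac_U_ind {p : Γ → Prop} (h1 : p 1)
    (h2 : ∀ a ∈ roots M, a ∈ Ψ → ∀ s y, p y → p (C.x a s * y)) (hg : g ∈ C.Us Ψ) : p g := by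
  induction hg using Subgroup.closure_induction_left with
  | one => exact h1
  | mul_left x hx y _ ih =>
    obtain ⟨a, ha, h, s, rfl⟩ := hx
    exact h2 a ha h s y ih
  | inv_mul_cancel x hx y _ ih =>
    obtain ⟨a, ha, h, s, rfl⟩ := hx
    rw [← x_neg ha]
    exact h2 a ha h _ y ih

theorem fac_U_ne (ha : a ∈ roots M) (h0 : 0 ≤ a) (h1 : 0 ≤ b) : b ≠ -a := fun e =>
  hA.ne_zero ha (le_antisymm (neg_nonneg.1 (e ▸ h1)) h0)

theorem fac_U_norm {k : ℤ} (ht : t ∈ C.U) :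
    ∀ g ∈ C.Us {b | 0 ≤ b ∧ k ≤ hgt b}, t * g * t⁻¹ ∈ C.Us {b | 0 ≤ b ∧ k ≤ hgt b} := by
  refine fac_U_ind (p := fun t => ∀ g ∈ C.Us {b | 0 ≤ b ∧ k ≤ hgt b},
    t * g * t⁻¹ ∈ C.Us {b | 0 ≤ b ∧ k ≤ hgt b}) (fun g hg => by simpa using hg)
    (fun a ha h s y ih g hg => ?_) ht
  rw [show C.x a s * y * g * (C.x a s * y)⁻¹ = C.x a s * (y * g * y⁻¹) * (C.x a s)⁻¹ by group]
  refine norm_Us hA ha (fun b _ hb => ⟨fac_U_ne hA ha h hb.1, fun _ =>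
    And.intro (add_nonneg h hb.1) ?_⟩) s (ih g hg)
  have := hgt_pos h (hA.ne_zero ha)
  have := hb.2
  rw [hgt_add]
  omega

theorem fac_U_comm {k : ℤ} (ha : a ∈ roots M) (h0 : 0 ≤ a) (hk : k ≤ hgt a) (s : K)
    (ht : t ∈ C.U) : t * C.x a s * t⁻¹ * (C.x a s)⁻¹ ∈ C.Us {b | 0 ≤ b ∧ k + 1 ≤ hgt b} := by
  refine fac_U_ind (p := fun t => t * C.x a s * t⁻¹ * (C.x a s)⁻¹ ∈
    C.Us {b | 0 ≤ b ∧ k + 1 ≤ hgt b}) (by simp) (fun b hb h r y ih => ?_) ht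
  rw [show C.x b r * y * C.x a s * (C.x b r * y)⁻¹ * (C.x a s)⁻¹ =
    C.x b r * (y * C.x a s * y⁻¹ * (C.x a s)⁻¹) * (C.x b r)⁻¹ *
      (C.x b r * C.x a s * (C.x b r)⁻¹ * (C.x a s)⁻¹) by group]
  refine mul_mem (fac_U_norm hA (x_mem hb h r) _ ih) ?_
  by_cases e : ip M b a = -1
  · rw [C.com1 b hb a ha e, mul_inv_cancel_right]
    refine fac_U_norm hA (x_mem ha h0 s) _
      (x_mem ((hA.add_mem_iff hb ha).2 e) (And.intro (add_nonneg h h0) ?_) _)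
    have := hgt_pos h (hA.ne_zero hb)
    rw [hgt_add]
    omega
  · have h1 : 0 ≤ ip M b a := by
      rcases hA.ip_cases hb ha with c | c | c | c | c
      · exact absurd c (fac_U_ne hA hb h h0)
      · exact absurd c e
      · omega
      · omega
      · exact c ▸ hA.ip_nonneg _
    rw [(C.com0 b hb a ha h1 r s).eq]
    simp

/-- Induction on the height filtration. -/
theorem fac_U (h1 : ∀ a ∈ Ψ, 0 ≤ a) (h2 : ∀ a ∈ Ψ', 0 ≤ a)
    (h : ∀ a ∈ roots M, 0 ≤ a → a ∈ Ψ ∨ a ∈ Ψ') (hg : g ∈ C.U) :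
    ∃ u ∈ C.Us Ψ, ∃ v ∈ C.Us Ψ', g = u * v := by
  have key : ∀ k : ℕ, ∃ u ∈ C.Us Ψ, ∃ v ∈ C.Us Ψ',
      ∃ w ∈ C.Us {b | 0 ≤ b ∧ (k : ℤ) ≤ hgt b}, g = u * w * v := by
    intro k
    induction k with
    | zero =>
      exact ⟨1, one_mem _, 1, one_mem _, g, Us_mono (fun a ha h0 =>
        And.intro h0 (hgt_pos h0 (hA.ne_zero ha)).le) hg, by simp⟩
    | succ k ih =>
      obtain ⟨u, hu, v, hv, w, hw, rfl⟩ := ih
      obtain ⟨u', hu', v', hv', w', hw', rfl⟩ := fac_U_ind (p := fun w => ∃ u ∈ C.Us Ψ,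
        ∃ v ∈ C.Us Ψ', ∃ w' ∈ C.Us {b | 0 ≤ b ∧ (k : ℤ) + 1 ≤ hgt b}, w = u * w' * v)
        ⟨1, one_mem _, 1, one_mem _, 1, one_mem _, by simp⟩ (by
          rintro a ha h0 s _ ⟨u, hu, v, hv, w, hw, rfl⟩
          rcases h a ha h0.1 with c | c
          · exact ⟨_, mul_mem (x_mem ha c s) hu, v, hv, w, hw, by group⟩
          · exact ⟨u, hu, _, mul_mem (x_mem ha c s) hv, _, mul_mem (fac_U_comm hA ha h0.1 h0.2 s
              (inv_mem (Us_mono (fun b _ => h1 b) hu)))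
              (fac_U_norm hA (x_mem ha h0.1 s) w hw), by group⟩) hw
      exact ⟨_, mul_mem hu hu', _, mul_mem hv' hv, w', hw', by group⟩
  obtain ⟨u, hu, v, hv, w, hw, rfl⟩ := key 36
  obtain ⟨μ, -, hμ⟩ := hA.exists_rho
  obtain rfl : w = 1 := fac_U_ind (p := fun w => w = 1) rfl
    (fun a ha h0 _ _ _ => absurd h0.2 (not_le.2 (hμ a ha).2)) hw
  exact ⟨u, hu, v, hv, by rw [mul_one]⟩

theorem π_surj (hw : w ∈ Wg M) : ∃ n : C.N, C.π n = w := by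
  have _ := hA
  exact (Subgroup.closure_le C.π.range).2
    (by rintro _ ⟨a, ha, rfl⟩; exact (C.refl a ha 1).imp fun _ h => h.1) hw

/-- The products `t * u` form a subgroup. -/
theorem mem_B : g ∈ C.B ↔ ∃ t ∈ C.T, ∃ u ∈ C.U, g = t * u :=
  ⟨mem_B_aux1 fun _ ht _ => T_conj_Us hA ht, fun ⟨_, ht, _, hu, e⟩ =>
    e ▸ Subgroup.mul_mem_sup ht hu⟩

theorem B_conj_U (hb : t ∈ C.B) (hg : g ∈ C.U) : t * g * t⁻¹ ∈ C.U := by
  obtain ⟨t, ht, u, hu, rfl⟩ := (mem_B hA).1 hb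
  simpa [mul_assoc] using T_conj_Us hA ht (mul_mem (mul_mem hu hg) (inv_mem hu))

theorem bruhat_aux1 (n : C.N) (ha : a ∈ roots M) (h : 0 ≤ (C.π n)⁻¹ a) (s : K) :
    ∃ u ∈ C.U, C.x a s * n = n * u := by
  obtain ⟨η, hη⟩ := C.act n⁻¹ a ha
  refine ⟨C.x (C.π n⁻¹ a) (η * s), x_mem ((hA.W_root (C.π_mem _)).2 ha) (by rwa [map_inv]) _, ?_⟩
  rw [← hη, Subgroup.coe_inv]
  group

theorem bruhat_aux2 (m : C.N) (hm : C.π m = rf M (sr i))
    (h : ∃ u ∈ C.U, ∃ n : C.N, ∃ v ∈ C.U, g = u * n * v) :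
    ∃ u ∈ C.U, ∃ n : C.N, ∃ v ∈ C.U, m * g = u * n * v := by
  obtain ⟨u, hu, n, v, hv, rfl⟩ := h
  have hi := hA.sr_mem i
  have hx : ∀ s, C.x (sr i) s ∈ C.U := x_mem hi (sr_nonneg i)
  obtain ⟨s, u', hu', rfl⟩ := (split_Us hA (Ψ := {b | 0 ≤ b ∧ b ≠ sr i}) (g := u) hi
    (fun b hb h => ⟨fun e => by
      have h1 := h.1 i
      rw [e] at h1
      simp [sr] at h1, fun _ => ⟨add_nonneg (sr_nonneg i) h.1, fun e => hA.ne_zero hb (by simpa using e)⟩⟩)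
    (Us_mono (fun b _ h => (eq_or_ne b (sr i)).imp id fun e => ⟨h, e⟩) hu)).2
  have h1 : m * u' * (m : Γ)⁻¹ ∈ C.U :=
    conj_Us hA m (fun b hb h => by rw [hm]; exact (hA.rf_pos hb h.1 h.2).1) hu'
  by_cases hb : 0 ≤ (C.π n)⁻¹ (sr i)
  · obtain ⟨y, hy, e⟩ := bruhat_aux1 hA n hi hb s
    refine ⟨_, h1, m * n, y * v, mul_mem hy hv, ?_⟩
    rw [mul_assoc u', e, Subgroup.coe_mul]
    group
  obtain ⟨η, hη⟩ := C.act m _ hi
  have h2 : m * (u' * C.x (sr i) s * n * v) =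
      m * u' * (m : Γ)⁻¹ * (C.x (-sr i) (η * s) * (m * n : C.N) * v) := by
    rw [← hA.rf_self hi, ← hm, ← hη, Subgroup.coe_mul]
    group
  rw [h2]
  by_cases h0 : η * s = 0
  · exact ⟨_, h1, m * n, v, hv, by rw [h0, x_zero (hA.neg_mem hi), one_mul, mul_assoc _ _ v]⟩
  obtain ⟨m', -, e'⟩ := C.refl _ hi (Units.mk0 _ h0)⁻¹
  obtain ⟨y, hy, e⟩ := bruhat_aux1 hA (m * n) hi (by
    rw [map_mul, mul_inv_rev, hm, hA.rf_inv hi, LinearEquiv.mul_apply, hA.rf_self hi, map_neg]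
    exact (hA.not_pos_iff ((hA.W_root (inv_mem (C.π_mem n))).2 hi)).1 hb)
    (-((Units.mk0 _ h0)⁻¹ : Kˣ))
  rw [inv_inv, Units.val_mk0] at e'
  rw [x_neg hi] at e
  refine ⟨_, mul_mem h1 (inv_mem (hx ((Units.mk0 _ h0)⁻¹ : Kˣ))), m' * (m * n), y * v,
    mul_mem hy hv, ?_⟩
  rw [Subgroup.coe_mul _ m', mul_assoc _ _ (y * v), mul_assoc _ _ (y * v), ← mul_assoc _ y, ← e, e']
  group

theorem bruhat_aux3 (m : C.N) (h : ∃ u ∈ C.U, ∃ n : C.N, ∃ v ∈ C.U, g = u * n * v) :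
    ∃ u ∈ C.U, ∃ n : C.N, ∃ v ∈ C.U, m * g = u * n * v := by
  refine hA.W_ind (p := fun w => ∀ m : C.N, C.π m = w → ∀ g : Γ,
    (∃ u ∈ C.U, ∃ n : C.N, ∃ v ∈ C.U, g = u * n * v) →
      ∃ u ∈ C.U, ∃ n : C.N, ∃ v ∈ C.U, m * g = u * n * v) ?_ ?_ _ (C.π_mem m) m rfl g h
  · rintro m hm _ ⟨u, hu, n, v, hv, rfl⟩
    refine ⟨_, conj_Us hA m (fun b _ h => by rw [hm]; exact h) hu, m * n, v, hv, ?_⟩
    rw [Subgroup.coe_mul]
    group
  · intro w _ i _ ih m hm g hg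
    obtain ⟨k, hk⟩ := π_surj (C := C) hA (hA.rf_mem (hA.sr_mem i))
    have h1 := ih (m * k⁻¹) (by rw [map_mul, map_inv, hm, hk, mul_inv_cancel_right]) _
      (bruhat_aux2 hA k hk hg)
    rwa [Subgroup.coe_mul, Subgroup.coe_inv, mul_assoc, inv_mul_cancel_left] at h1

/-- The set `U N U` is closed under left multiplication by all root elements. -/
theorem bruhat (g : Γ) : ∃ u ∈ C.U, ∃ n : C.N, ∃ v ∈ C.U, g = u * n * v := by
  have h1 : ∀ a ∈ roots M, ∀ (s : K) (g : Γ), (∃ u ∈ C.U, ∃ n : C.N, ∃ v ∈ C.U, g = u * n * v) →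
      ∃ u ∈ C.U, ∃ n : C.N, ∃ v ∈ C.U, C.x a s * g = u * n * v := fun a ha s g hg => by
    obtain ⟨w, hw, i, rfl⟩ := hA.root_conj ha
    obtain ⟨k, rfl⟩ := π_surj (C := C) hA (hA.WJ_le _ hw)
    obtain ⟨η, hη⟩ := C.act k _ (hA.sr_mem i)
    obtain ⟨u, hu, n, v, hv, e⟩ := bruhat_aux3 hA k⁻¹ hg
    have h2 := bruhat_aux3 hA k (g := C.x (sr i) ((η⁻¹ : Kˣ) * s) * ((k⁻¹ : C.N) * g))
      ⟨_, mul_mem (x_mem (hA.sr_mem i) (sr_nonneg i) _) hu, n, v, hv, by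
        rw [e, mul_assoc _ u, mul_assoc _ (u * n)]⟩
    rwa [Subgroup.coe_inv, ← mul_assoc, ← mul_assoc, hη, Units.mul_inv_cancel_left] at h2
  have h2 : g ∈ rsub M C.x Set.univ := C.gen ▸ Subgroup.mem_top g
  induction h2 using Subgroup.closure_induction_left with
  | one => exact ⟨1, one_mem _, 1, 1, one_mem _, by simp⟩
  | mul_left x hx y _ ih =>
    obtain ⟨a, ha, -, s, rfl⟩ := hx
    exact h1 a ha s y ih
  | inv_mul_cancel x hx y _ ih =>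
    obtain ⟨a, ha, -, s, rfl⟩ := hx
    rw [← x_neg ha]
    exact h1 a ha _ y ih

theorem key_aux (n : C.N) (hg : g ∈ C.Us (ivs M (C.π n)⁻¹)) : (n : Γ)⁻¹ * g * n ∈ C.Um := by
  have h := conj_Us hA n⁻¹ (Ψ' := {a | a ≤ 0}) (fun a ha h => by
    rw [map_inv]
    exact ((hA.pos_or_neg ((hA.W_root (inv_mem (C.π_mem n))).2 ha)).resolve_left
      (mem_ivs.1 h).2.2 :)) hg
  rwa [Subgroup.coe_inv, inv_inv] at h

theorem key_aux' (n : C.N) (hg : g ∈ C.U) : ∃ u ∈ C.Us (ivs M (C.π n)⁻¹), ∃ v ∈ C.U,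
    g * n = u * n * v := by
  obtain ⟨u, hu, v, hv, rfl⟩ := fac_U hA (Ψ := ivs M (C.π n)⁻¹)
    (Ψ' := {a | 0 ≤ a ∧ 0 ≤ (C.π n)⁻¹ a}) (fun a h => (mem_ivs.1 h).2.1) (fun a h => h.1)
    (fun a ha h => (em (0 ≤ (C.π n)⁻¹ a)).symm.imp (fun k => mem_ivs.2 ⟨ha, h, k⟩) fun k => ⟨h, k⟩)
    hg
  refine ⟨u, hu, _, conj_Us hA n⁻¹ (fun a _ h => by rw [map_inv]; exact h.2) hv, ?_⟩
  rw [Subgroup.coe_inv]
  group

theorem key (m : C.N) {v : Γ} (hv : v ∈ C.Um) (h : v * m ∈ C.B) : C.π m = 1 := by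
  by_contra h1
  obtain ⟨i, -, hi⟩ := hA.exch (hA.Wg_eq ▸ C.π_mem m) h1
  have h0 := hA.sr_mem i
  have h2 := (hA.W_root (C.π_mem m)).2 h0
  obtain ⟨η, hη⟩ := C.act m _ h0
  have h3 := B_conj_U hA h (x_mem h0 (sr_nonneg i) 1)
  have h4 : v * m * C.x (sr i) 1 * (v * m)⁻¹ = v * C.x (C.π m (sr i)) (η * 1) * v⁻¹ := by
    rw [← hη]
    group
  rw [h4] at h3
  have h5 := U_Um h3 (mul_mem (mul_mem hv (x_mem h2 ((hA.pos_or_neg h2).resolve_left hi) _))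
    (inv_mem hv))
  rw [mul_inv_eq_one, mul_eq_left] at h5
  exact η.ne_zero (by simpa using C.inj _ h2 _ h5)

theorem uniq_N {u v u' v' : Γ} {n n' : C.N} (hu : u ∈ C.U) (hv : v ∈ C.U) (hu' : u' ∈ C.U)
    (hv' : v' ∈ C.U) (h : u * n * v = u' * n' * v') : n = n' := by
  obtain ⟨p, hp, q, hq, e⟩ := key_aux' hA n (mul_mem (inv_mem hu') hu)
  have h1 := key_aux hA n hp
  have h2 := mul_mem (mul_mem hv' (inv_mem hv)) (inv_mem hq)
  have h3 : (n⁻¹ * n' : C.N) * (v' * v⁻¹ * q⁻¹) = (n : Γ)⁻¹ * p * n := by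
    have : (n' : Γ) * v' = p * n * q * v := by
      rw [← e, ← mul_right_inj u', ← mul_assoc, ← h]
      group
    rw [Subgroup.coe_mul, Subgroup.coe_inv, mul_assoc, mul_assoc, ← mul_assoc (n' : Γ), this]
    group
  refine inv_mul_eq_one.1 (C.tri _ (key hA _ (inv_mem h1) ?_) _ h2 _ h1 h3).1
  rw [← h3, mul_inv_rev, inv_mul_cancel_right]
  exact Subgroup.mem_sup_right (inv_mem h2)

theorem bruhat' (g : Γ) :
    ∃ n : C.N, ∃ u ∈ C.Us (ivs M (C.π n)⁻¹), ∃ v ∈ C.U, g = u * n * v := by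
  obtain ⟨u, hu, n, v, hv, rfl⟩ := bruhat (C := C) hA g
  obtain ⟨p, hp, q, hq, e⟩ := key_aux' hA n hu
  exact ⟨n, p, hp, _, mul_mem hq hv, by rw [e, mul_assoc]⟩

theorem uniq_U {u v u' v' : Γ} {n : C.N} (hu : u ∈ C.Us (ivs M (C.π n)⁻¹)) (hv : v ∈ C.U)
    (hu' : u' ∈ C.Us (ivs M (C.π n)⁻¹)) (hv' : v' ∈ C.U) (h : u * n * v = u' * n * v') :
    u = u' ∧ v = v' := by
  have h1 : (n : Γ)⁻¹ * (u'⁻¹ * u) * n = v' * v⁻¹ := by
    rw [← mul_left_inj v, ← mul_right_inj (u' * n), inv_mul_cancel_right, ← h]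
    group
  have h2 := U_Um (mul_mem hv' (inv_mem hv)) (h1 ▸ key_aux hA n (mul_mem (inv_mem hu') hu))
  rw [mul_inv_eq_one] at h2
  rw [h2, mul_left_inj, mul_left_inj] at h
  exact ⟨h, h2.symm⟩

/-- The units of `act` are multiplicative by `com1`. -/
theorem exists_chi (ht : t ∈ C.T) : ∃ χ, C.Chi t χ := by
  obtain ⟨n, hn, rfl⟩ := mem_T.1 ht
  have h := C.act n
  simp only [hn, LinearEquiv.coe_one, id] at h
  choose! η hη using h
  have mul : ∀ a ∈ roots M, ∀ b ∈ roots M, ip M a b = -1 → η (a + b) = η a * η b := by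
    intro a ha b hb h
    have hab := (hA.add_mem_iff ha hb).2 h
    have e := congrArg (MulAut.conj (n : Γ)) (C.com1 a ha b hb h 1 1)
    simp only [map_mul, MulAut.conj_apply, hη a ha, hη b hb, hη _ hab, mul_one] at e
    rw [C.com1 a ha b hb h] at e
    have e' := x_inj hab (mul_left_cancel (mul_right_cancel e))
    have ss : (sgn M a b : K) * sgn M a b = 1 := by rw [← Int.cast_mul, sgn_mul_self, Int.cast_one]
    ext
    rw [Units.val_mul]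
    linear_combination -(sgn M a b : K) * e' + ((η a : K) * η b - η (a + b)) * ss
  have neg : ∀ a ∈ roots M, η (-a) = (η a)⁻¹ := by
    intro a ha
    obtain ⟨c, hc, h⟩ := hA.exists_nb ha
    have e := mul _ (hA.neg_mem ha) _ ((hA.add_mem_iff ha hc).2 h)
      (by rw [ip_neg_left, ip_add_right, h, hA.mem_roots.1 ha]; rfl)
    rw [neg_add_cancel_left, mul a ha c hc h, ← mul_assoc] at e
    exact eq_inv_of_mul_eq_one_left (mul_eq_right.1 e.symm)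
  let χ : Multiplicative (Lat l) →* Kˣ := MonoidHom.mk' (fun a => ∏ i, η (sr i) ^ a.toAdd i)
    fun a b => by simp [zpow_add, Finset.prod_mul_distrib]
  have sim : ∀ i, χ (.ofAdd (sr i)) = η (sr i) := fun i => by
    change ∏ j, η (sr j) ^ (Pi.single i 1 : Lat l) j = _
    rw [Finset.prod_eq_single i (fun j _ h => by simp [h]) (by simp)]
    simp
  have pos : ∀ a ∈ roots M, 0 ≤ a → χ (.ofAdd a) = η a :=
    hA.pos_ind sim fun b hb _ i h e => by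
      rw [ofAdd_add, map_mul, e, sim, mul b hb _ (hA.sr_mem i) h]
  refine ⟨χ, fun b hb u => ?_⟩
  rw [hη b hb]
  rcases hA.pos_or_neg hb with h | h
  · rw [pos b hb h]
  · have := pos _ (hA.neg_mem hb) (neg_nonneg.2 h)
    rw [ofAdd_neg, map_inv, neg b hb, inv_inj] at this
    rw [this]

omit hA in
theorem Chi.uniq_aux1 (χ : Multiplicative (Lat l) →* Kˣ) (w : Au l) (a : Lat l) :
    χ (.ofAdd (w a)) = ∏ j, χ (.ofAdd (w (sr j))) ^ a j := by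
  conv_lhs => rw [← sum_sr a]
  simp only [map_sum, map_zsmul, ofAdd_sum, ofAdd_zsmul, map_prod, map_zpow]

omit hA in
theorem Chi.uniq_aux2 {χ ψ : Multiplicative (Lat l) →* Kˣ}
    (h : ∀ j, χ (.ofAdd (sr j)) = ψ (.ofAdd (sr j))) : χ = ψ := by
  refine MonoidHom.ext fun a => ?_
  have e := Chi.uniq_aux1 χ 1 a.toAdd
  have e' := Chi.uniq_aux1 ψ 1 a.toAdd
  simp only [LinearEquiv.coe_one, id, ofAdd_toAdd] at e e'
  simp only [e, e', h]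

theorem Chi.uniq {χ ψ : Multiplicative (Lat l) →* Kˣ} (h : C.Chi t χ) (h' : C.Chi t ψ) :
    χ = ψ := by
  refine Chi.uniq_aux2 fun j => Units.ext ?_
  simpa using x_inj (hA.sr_mem j) ((h _ (hA.sr_mem j) 1).symm.trans (h' _ (hA.sr_mem j) 1))

/-- The character of an element of the torus, as an injective homomorphism (`ctr`). -/
theorem exists_chi_hom : ∃ χ : C.T →* (Multiplicative (Lat l) →* Kˣ), Function.Injective χ ∧
    ∀ t : C.T, C.Chi t (χ t) := by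
  choose χ hχ using fun t : C.T => exists_chi hA t.2
  refine ⟨MonoidHom.mk' χ fun s t => (hχ (s * t)).uniq hA fun b hb u => ?_, ?_, hχ⟩
  · rw [MonoidHom.mul_apply, Units.val_mul, mul_assoc (χ s _ : K), ← hχ s b hb, ← hχ t b hb,
      Subgroup.coe_mul]
    group
  · refine (injective_iff_map_eq_one _).2 fun t h => ?_
    obtain ⟨n, hn, e⟩ := mem_T.1 t.2
    have := C.ctr n hn fun b hb u => by
      have := hχ t b hb u
      rw [show χ t = 1 from h, MonoidHom.one_apply, Units.val_one, one_mul, ← e] at this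
      exact mul_inv_eq_iff_eq_mul.1 this
    exact Subtype.ext (by rw [← e, this]; rfl)

theorem Chi.conj {χ ψ : Multiplicative (Lat l) →* Kˣ} (n : C.N) (h : C.Chi t χ)
    (h' : C.Chi (n * t * (n : Γ)⁻¹) ψ) (a : Lat l) : ψ (.ofAdd (C.π n a)) = χ (.ofAdd a) := by
  have e := Chi.uniq_aux1 χ 1 a
  simp only [LinearEquiv.coe_one, id] at e
  rw [e, Chi.uniq_aux1]
  refine Finset.prod_congr rfl fun j _ => congrArg (· ^ a j) (Units.ext ?_)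
  have hb := hA.sr_mem j
  have hc := (hA.W_root (C.π_mem n)).2 hb
  obtain ⟨η, hη⟩ := C.act n _ hb
  have e1 := h' _ hc (η * 1)
  rw [← hη, show n * t * (n : Γ)⁻¹ * (n * C.x (sr j) 1 * (n : Γ)⁻¹) * (n * t * (n : Γ)⁻¹)⁻¹ =
    n * (t * C.x (sr j) 1 * t⁻¹) * (n : Γ)⁻¹ by group, h _ hb, hη] at e1
  refine mul_left_cancel₀ η.ne_zero ?_
  linear_combination -x_inj hc e1

theorem card_T [Finite K] : Nat.card C.T ∣ (Nat.card K - 1) ^ l := by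
  obtain ⟨χ, hi, -⟩ := exists_chi_hom (C := C) hA
  have := Subgroup.card_dvd_of_injective
    (MonoidHom.mk' (fun (t : C.T) (j : Fin l) => χ t (.ofAdd (sr j))) fun s t => by ext; simp)
    fun s t h => hi (Chi.uniq_aux2 (congrFun h))
  rwa [Nat.card_fun, Nat.card_units, Nat.card_eq_fintype_card (α := Fin l), Fintype.card_fin]
    at this

end CG

end Pool.Agent.Lib.MP_7d41f7_al
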