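import Pool.Agent.Lib.MP_7d41f7_al.E.ERt

/-! Groups with the relations of a Chevalley group. -/

set_option autoImplicit false

namespace Pool.Agent.Lib.MP_7d41f7_al

variable {l : ℕ}

/-- The subgroup generated by the root subgroups of the roots in `Ψ`. -/
def rsub (M : Matrix (Fin l) (Fin l) ℤ) {K Γ : Type} [Group Γ] (x : Lat l → K → Γ)
    (Ψ : Set (Lat l)) : Subgroup Γ :=
  Subgroup.closure {g | ∃ a ∈ roots M, a ∈ Ψ ∧ ∃ t, g = x a t}

/-- The relations of a Chevalley group. -/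
structure CG (M : Matrix (Fin l) (Fin l) ℤ) (K : Type) [Field K] (Γ : Type) [Group Γ] where
  x : Lat l → K → Γ
  N : Subgroup Γ
  π : N →* Au l
  π_mem : ∀ n, π n ∈ Wg M
  add : ∀ a ∈ roots M, ∀ s t, x a (s + t) = x a s * x a t
  inj : ∀ a ∈ roots M, ∀ t, x a t = 1 → t = 0
  com0 : ∀ a ∈ roots M, ∀ b ∈ roots M, 0 ≤ ip M a b → ∀ s t, Commute (x a s) (x b t)
  com1 : ∀ a ∈ roots M, ∀ b ∈ roots M, ip M a b = -1 → ∀ s t,
    x a s * x b t = x b t * x (a + b) ((sgn M a b : K) * (s * t)) * x a s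
  gen : rsub M x Set.univ = ⊤
  act : ∀ n : N, ∀ b ∈ roots M, ∃ η : Kˣ, ∀ u, n * x b u * (n : Γ)⁻¹ = x (π n b) (η * u)
  refl : ∀ a ∈ roots M, ∀ c : Kˣ, ∃ n : N, π n = rf M a ∧
    (n : Γ) = x a c * x (-a) (c⁻¹ : Kˣ) * x a c
  cor : ∀ a ∈ roots M, ∀ b ∈ roots M, ∃ z : Kˣ, ∀ (c : Kˣ) (u : K),
    x a c * x (-a) (c⁻¹ : Kˣ) * x a c * x b u =
      x (rf M a b) ((c ^ (-ip M a b) * z : Kˣ) * u) * (x a c * x (-a) (c⁻¹ : Kˣ) * x a c)
  tri : ∀ n : N, π n = 1 → ∀ u ∈ rsub M x {a | 0 ≤ a}, ∀ v ∈ rsub M x {a | a ≤ 0},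
    n * u = v → n = 1 ∧ v = 1
  ctr : ∀ n : N, π n = 1 → (∀ b ∈ roots M, ∀ u, Commute (n : Γ) (x b u)) → n = 1

namespace CG

variable {M : Matrix (Fin l) (Fin l) ℤ} {K Γ : Type} [Field K] [Group Γ] (C : CG M K Γ)

/-- The subgroup generated by root subgroups. -/
abbrev Us (Ψ : Set (Lat l)) : Subgroup Γ := rsub M C.x Ψ

/-- The positive unipotent subgroup. -/
abbrev U : Subgroup Γ := C.Us {a | 0 ≤ a}

/-- The negative unipotent subgroup. -/
abbrev Um : Subgroup Γ := C.Us {a | a ≤ 0}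

/-- The torus. -/
def T : Subgroup Γ := C.π.ker.map C.N.subtype

/-- The Borel subgroup. -/
def B : Subgroup Γ := C.T ⊔ C.U

/-- `t` acts on the root subgroups by the character `χ`. -/
def Chi (t : Γ) (χ : Multiplicative (Lat l) →* Kˣ) : Prop :=
  ∀ b ∈ roots M, ∀ u, t * C.x b u * t⁻¹ = C.x b (χ (.ofAdd b) * u)

/-- A homomorphism that is compatible with the structures, with a field homomorphism `f` and a
symmetry `γ` of the lattice. -/
structure Hom {K' Γ' : Type} [Field K'] [Group Γ'] (C' : CG M K' Γ') (φ : Γ →* Γ') (f : K →+* K')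
    (γ : Au l) : Prop where
  x : ∀ a ∈ roots M, ∀ t, φ (C.x a t) = C'.x (γ a) (f t)
  N : ∀ n : C.N, ∃ n' : C'.N, φ n = n' ∧ C'.π n' = γ * C.π n * γ⁻¹

end CG

end Pool.Agent.Lib.MP_7d41f7_al
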