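import Pool.Agent.Lib.MP_7d41f7_al.E.EVan
import Pool.Agent.Lib.MP_7d41f7_al.E.EAde

/-! The order of the fixed point groups. -/

set_option autoImplicit false

namespace Pool.Agent.Lib.MP_7d41f7_al

variable {l : ℕ} {M : Matrix (Fin l) (Fin l) ℤ} {K : Type} [Field K] {g : Equiv.Perm (Fin l)}
  {f : K →+* K} {i : Fin l} {w : Au l} {q k : ℕ}

/-- The parameters of the fixed points in the root subgroups of an orbit. -/
def orbF (f : K →+* K) (g : Equiv.Perm (Fin l)) (i : Fin l) : Set (Fin l → K) :=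
  {t | (∀ j ∉ orb g i, t j = 0) ∧ ∀ j, t (g j) = f (t j)}

/-- The number of these parameters. -/
noncomputable def qo (f : K →+* K) (g : Equiv.Perm (Fin l)) (i : Fin l) : ℕ :=
  Nat.card (orbF f g i)

/-- The values of the fixed characters. -/
def TFs (f : K →+* K) (g : Equiv.Perm (Fin l)) : Subgroup (Fin l → Kˣ) where
  carrier := {t | ∀ j, (t (g j) : K) = f (t j)}
  one_mem' := by simp
  mul_mem' := fun ha hb j => by simp [ha j, hb j]
  inv_mem' := fun ha j => by simp [ha j]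

theorem card_pow_fix [Finite K] (hk : 0 < k) (hK : Nat.card K = q ^ k) :
    Nat.card {s : K // s ^ q = s} = q ∧ Nat.card {s : Kˣ // (s : K) ^ q = s} = q - 1 := by
  classical
  have h1 : 1 < q ^ k := hK ▸ Finite.one_lt_card
  obtain ⟨p, rfl⟩ : ∃ p, q = p + 1 :=
    ⟨q - 1, by rcases q with _ | q <;> simp [hk.ne'] at h1 ⊢⟩
  have hu : Nat.card {s : Kˣ // (s : K) ^ (p + 1) = s} = p := by
    have h := IsCyclic.card_powMonoidHom_ker Kˣ p
    rw [Nat.card_units, hK, Nat.gcd_eq_right (by simpa using Nat.sub_one_dvd_pow_sub_one (p + 1) k)]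
      at h
    refine (Nat.card_congr (Equiv.subtypeEquivRight fun s => ?_)).trans h
    simp [pow_succ, ← Units.val_pow_eq_pow_val]
  refine ⟨?_, hu⟩
  let e : Option {s : Kˣ // (s : K) ^ (p + 1) = s} → {s : K // s ^ (p + 1) = s} := fun o =>
    o.elim ⟨0, by simp⟩ fun s => ⟨s.1, s.2⟩
  have he : Function.Bijective e := by
    refine ⟨?_, fun s => ?_⟩
    · rintro (_ | a) (_ | b) h
      · rfl
      · exact absurd (congrArg Subtype.val h).symm b.1.ne_zero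
      · exact absurd (congrArg Subtype.val h) a.1.ne_zero
      · exact congrArg some (Subtype.ext (Units.ext (congrArg Subtype.val h)))
    · by_cases h : s.1 = 0
      · exact ⟨none, Subtype.ext h.symm⟩
      · exact ⟨some ⟨Units.mk0 _ h, s.2⟩, rfl⟩
  rw [← Nat.card_eq_of_bijective e he, Finite.card_option, hu]

theorem qo_eq_aux (i : Fin l) (S : Set K) (h1 : ∀ t ∈ orbF f g i, t i ∈ S)
    (h2 : ∀ s ∈ S, ∃ t ∈ orbF f g i, t i = s) : qo f g i = Nat.card S := by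
  refine Nat.card_eq_of_bijective (fun t : orbF f g i => (⟨t.1 i, h1 _ t.2⟩ : S))
    ⟨fun t t' h => Subtype.ext (funext fun j => ?_), fun s => ?_⟩
  · by_cases hj : j ∈ orb g i
    · obtain ⟨n, rfl⟩ := (mem_orb.1 hj).exists_nat_pow_eq
      clear hj
      induction n with
      | zero => exact congrArg Subtype.val h
      | succ n ih => rw [pow_succ', Equiv.Perm.mul_apply, t.2.2, t'.2.2, ih]
    · rw [t.2.1 j hj, t'.2.1 j hj]
  · obtain ⟨t, ht, e⟩ := h2 _ s.2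
    exact ⟨⟨t, ht⟩, Subtype.ext e⟩

theorem qo_eq_aux2 {d : ℕ} (i : Fin l) (s : K) (hg : (g ^ d) i = i) (hs : f^[d] s = s) :
    (∑ n ∈ Finset.range d, Pi.single ((g ^ n) i) (f^[n] s) : Fin l → K) ∈ orbF f g i := by
  refine ⟨fun j hj => ?_, fun j => ?_⟩
  · rw [Finset.sum_apply]
    refine Finset.sum_eq_zero fun n _ => Pi.single_eq_of_ne ?_ _
    rintro rfl
    exact hj (mem_orb.2 ⟨n, by simp⟩)
  · have h := (Finset.sum_range_succ (fun n => (Pi.single ((g ^ n) i) (f^[n] s) : Fin l → K) (g j))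
      d).symm.trans (Finset.sum_range_succ' _ d)
    rw [hg, hs] at h
    rw [Finset.sum_apply, Finset.sum_apply, map_sum, add_right_cancel h]
    refine Finset.sum_congr rfl fun n _ => ?_
    simp only [Pi.single_apply, pow_succ', Equiv.Perm.mul_apply, g.injective.eq_iff,
      Function.iterate_succ_apply']
    split_ifs <;> simp

theorem qo_eq [Finite K] {d : ℕ} (hd : d = 1 ∨ d = 2 ∨ d = 3) (hg : g ^ d = 1)
    (hk : k = 1 ∨ k = d) (hK : Nat.card K = q ^ k) (hf : ∀ a, f a = a ^ q) (i : Fin l) :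
    qo f g i = q ^ if g i = i then 1 else k := by
  have hi : (g ^ d) i = i := by simp [hg]
  split_ifs with h
  · rw [qo_eq_aux i {s | s ^ q = s} (fun t ht => ?_) fun s hs => ?_, pow_one]
    · exact (card_pow_fix (by omega) hK).1
    · simpa [h, hf] using (ht.2 i).symm
    · exact ⟨_, qo_eq_aux2 (d := 1) i s (by simpa using h) (by simpa [hf] using hs), by simp⟩
  · rw [qo_eq_aux i Set.univ (fun _ _ => trivial) fun s _ => ?_, Nat.card_univ, hK]
    have hp (n : ℕ) : f^[n] s = s ^ q ^ n := by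
      induction n with
      | zero => simp
      | succ n ih => rw [Function.iterate_succ_apply', ih, hf, ← pow_mul, pow_succ]
    have hs : f^[k] s = s := by
      cases nonempty_fintype K
      rw [hp, ← hK, Nat.card_eq_fintype_card, FiniteField.pow_card]
    have hs' : f^[d] s = s := by
      rcases hk with rfl | rfl
      exacts [Function.iterate_fixed hs d, hs]
    refine ⟨_, qo_eq_aux2 i s hi hs', ?_⟩
    rcases hd with rfl | rfl | rfl
    · exact absurd (by simpa using hi) h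
    · simp [Finset.sum_range_succ, Pi.single_apply, Ne.symm h]
    · have h2 : i ≠ (g ^ 2) i := fun e => h (by
        conv_lhs => rw [e]
        rwa [← Equiv.Perm.mul_apply, ← pow_succ'])
      simp [Finset.sum_range_succ, Pi.single_apply, Ne.symm h, h2]

theorem card_TF_one_aux1 [Finite K] (hK : Nat.card K = q ^ k) (a : K) : a ^ q ^ k = a := by
  have := Fintype.ofFinite K
  rw [← hK, Nat.card_eq_fintype_card, FiniteField.pow_card]

theorem card_TF_one [Finite K] (hK : Nat.card K = q ^ 1) (hf : ∀ a, f a = a ^ q) :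
    Nat.card (TFs f (1 : Equiv.Perm (Fin l))) = (q - 1) ^ l := by
  have e : TFs f (1 : Equiv.Perm (Fin l)) = ⊤ := eq_top_iff.2 fun t _ j => by
    rw [hf, ← pow_one q, card_TF_one_aux1 hK]
    rfl
  rw [e, Subgroup.card_top, Nat.card_fun, Nat.card_units, hK, pow_one, Nat.card_fin]

/-- The bijection `t ↦ (t 1, t 3, t 0, t 2)`. -/
theorem card_TF_E6 [Finite K] (hk : k = 1 ∨ k = 2) (hK : Nat.card K = q ^ k)
    (hf : ∀ a, f a = a ^ q) : Nat.card (TFs f gE6) = (q - 1) ^ 2 * (q ^ k - 1) ^ 2 := by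
  have h1 := card_TF_one_aux1 hK
  have h2 : ∀ a : K, (a ^ q) ^ q = a := fun a => by
    rcases hk with rfl | rfl
    · rw [pow_one] at h1
      rw [h1, h1]
    · rw [← pow_mul, ← sq, h1]
  rw [Nat.card_eq_of_bijective (β := ({s : Kˣ // (s : K) ^ q = s} × {s : Kˣ // (s : K) ^ q = s}) ×
      Kˣ × Kˣ) (fun t : TFs f gE6 => ((⟨t.1 1, (hf _).symm.trans (t.2 1).symm⟩,
        ⟨t.1 3, (hf _).symm.trans (t.2 3).symm⟩), t.1 0, t.1 2)) ⟨fun t t' e => ?_, fun z => ?_⟩]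
  · simp only [Nat.card_prod, (card_pow_fix (by omega) hK).2, Nat.card_units, hK, sq]
  · simp only [Prod.mk.injEq, Subtype.mk.injEq] at e
    refine Subtype.ext (funext fun j => ?_)
    fin_cases j
    exacts [e.2.1, e.1.1, e.2.2, e.1.2,
      Units.ext ((t.2 2).trans ((congrArg (f ·.1) e.2.2).trans (t'.2 2).symm)),
      Units.ext ((t.2 0).trans ((congrArg (f ·.1) e.2.1).trans (t'.2 0).symm))]
  · obtain ⟨⟨a, b⟩, c, d⟩ := z
    refine ⟨⟨![c, a.1, d, b.1, d ^ q, c ^ q], fun j => ?_⟩, rfl⟩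
    rw [hf]
    fin_cases j
    exacts [Units.val_pow_eq_pow_val _ _, a.2.symm, Units.val_pow_eq_pow_val _ _, b.2.symm,
      ((congrArg (· ^ q) (Units.val_pow_eq_pow_val _ _)).trans (h2 _)).symm,
      ((congrArg (· ^ q) (Units.val_pow_eq_pow_val _ _)).trans (h2 _)).symm]

/-- The bijection `t ↦ (t 1, t 0)`. -/
theorem card_TF_D4 [Finite K] (hk : k = 1 ∨ k = 3) (hK : Nat.card K = q ^ k)
    (hf : ∀ a, f a = a ^ q) : Nat.card (TFs f gD4) = (q - 1) * (q ^ k - 1) := by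
  have h1 := card_TF_one_aux1 hK
  have h2 : ∀ a : K, ((a ^ q) ^ q) ^ q = a := fun a => by
    rcases hk with rfl | rfl
    · rw [pow_one] at h1
      rw [h1, h1, h1]
    · rw [← pow_mul, ← pow_mul, ← pow_three, h1]
  rw [Nat.card_eq_of_bijective (β := {s : Kˣ // (s : K) ^ q = s} × Kˣ)
    (fun t : TFs f gD4 => (⟨t.1 1, (hf _).symm.trans (t.2 1).symm⟩, t.1 0))
      ⟨fun t t' e => ?_, fun z => ?_⟩]
  · simp only [Nat.card_prod, (card_pow_fix (by omega) hK).2, Nat.card_units, hK]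
  · simp only [Prod.mk.injEq, Subtype.mk.injEq] at e
    have e2 : t.1 2 = t'.1 2 :=
      Units.ext ((t.2 0).trans ((congrArg (f ·.1) e.2).trans (t'.2 0).symm))
    refine Subtype.ext (funext fun j => ?_)
    fin_cases j
    exacts [e.2, e.1, e2, Units.ext ((t.2 2).trans ((congrArg (f ·.1) e2).trans (t'.2 2).symm))]
  · obtain ⟨a, c⟩ := z
    refine ⟨⟨![c, a.1, c ^ q, (c ^ q) ^ q], fun j => ?_⟩, rfl⟩
    rw [hf]
    fin_cases j
    exacts [Units.val_pow_eq_pow_val _ _, a.2.symm, Units.val_pow_eq_pow_val _ _,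
      (h2 c).symm.trans (by simp)]

/-- The equations are `t 0 ^ 2 = t 2 ^ 2 = t 1`, `t 1 ^ 2 = t 0 * t 2 * t 3`. -/
theorem TF_D4_inj {t : Fin 4 → Kˣ} (ht : t ∈ TFs f gD4) (h : ∏ j, cch mD4 (sr j) (t j) = 1) :
    t = 1 := by
  have e : ∀ i, ∏ j, t j ^ (mD4 j i + mD4 i j) = 1 := fun i => by
    have := DFunLike.congr_fun h (.ofAdd (sr i))
    rw [MonoidHom.finsetProd_apply] at this
    simpa only [cch, MonoidHom.coe_mk, OneHom.coe_mk, toAdd_ofAdd, ip_sr_sr,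
      MonoidHom.one_apply] using this
  have m : ∀ i j, mD4 j i + mD4 i j =
      !![2, -1, 0, 0; -1, 2, -1, -1; 0, -1, 2, 0; 0, -1, 0, 2] i j := by decide
  simp only [m, Fin.prod_univ_four] at e
  have e0 : (t 0 : K) ^ 2 = t 1 := by simpa [mul_inv_eq_one, Units.ext_iff] using e 0
  have e1 : (t 1 : K) ^ 2 = t 0 * t 2 * t 3 := by
    have := congrArg Units.val (e 1)
    simp at this
    field_simp at this
    exact this
  have e2 : (t 1 : K) = t 2 ^ 2 := by simpa [inv_mul_eq_one, Units.ext_iff] using e 2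
  have f0 : (t 2 : K) = f (t 0) := ht 0
  have f2 : (t 3 : K) = f (t 2) := ht 2
  have f3 : (t 0 : K) = f (t 3) := ht 3
  have c : (t 2 : K) = t 0 := (sq_eq_sq_iff_eq_or_eq_neg.1 (e2.symm.trans e0.symm)).elim id
    fun c => by
      rw [c, map_neg, ← f0, c, neg_neg] at f2
      exact f0.trans ((congrArg f f2.symm).trans f3.symm)
  rw [c, ← f0, c] at f2
  have a : (t 0 : K) = 1 := mul_left_cancel₀ (pow_ne_zero 3 (t 0).ne_zero) (by
    rw [← e0, c, f2] at e1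
    linear_combination e1)
  funext j
  fin_cases j
  exacts [Units.ext a, Units.ext (by simpa [a] using e0.symm), Units.ext (c.trans a),
    Units.ext (f2.trans a)]

theorem Ade.rI_pos (hA : Ade M) (hS : Sy M g) {b : Lat l} (hb : b ∈ roots M) (h0 : 0 ≤ b)
    (h : ∀ j ∈ orb g i, b ≠ sr j) : 0 ≤ rI M (orb g i) b := by
  by_contra a
  have z : ∀ k ∉ orb g i, b k = 0 := fun k hk => by
    have c := ((hA.pos_or_neg ((hA.W_root (mem_Wf.1 (hA.rI_mem hS i)).1).2 hb)).resolve_left a) k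
    rw [hA.rI_apply fun _ hj _ hk => hS.orth hj hk, Pi.sub_apply, Finset.sum_apply,
      Finset.sum_eq_zero fun j hj => by simp [sr, (ne_of_mem_of_not_mem hj hk).symm], sub_zero] at c
    exact c.antisymm (h0 k)
  rcases hA.exists_sr hb h0 with ⟨k, rfl⟩ | ⟨k, e, -, p⟩
  · exact h k (by_contra fun c => by simpa [sr] using z k c) rfl
  have hk : k ∈ orb g i := by_contra fun c => by simpa [sr, z k c] using p k
  rw [ip_comm, ip_sum, Finset.sum_eq_single k (fun j _ c => by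
    by_cases d : j ∈ orb g i
    · rw [hS.orth hk d c.symm, mul_zero]
    · rw [z j d, zero_mul]) (by simp), hA.mem_roots.1 (hA.sr_mem k)] at e
  omega

theorem Ade.rI_sr (hA : Ade M) (hS : Sy M g) {j : Fin l} (hj : j ∈ orb g i) :
    rI M (orb g i) (sr j) = -sr j := by
  rw [hA.rI_apply fun _ hj _ hk => hS.orth hj hk, Finset.sum_eq_single_of_mem j hj fun k hk e => by
    rw [hS.orth hj hk e.symm, zero_smul], hA.mem_roots.1 (hA.sr_mem j), two_smul]
  abel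

theorem Ade.exists_w0f (hA : Ade M) (hS : Sy M g) : ∃ w ∈ Wf M g, ivs M w = posR M := by
  obtain ⟨w, hw, e⟩ := hA.exists_w0
  have k : ∀ b ∈ roots M, 0 ≤ b → ¬ 0 ≤ w b := fun b h1 h2 =>
    (mem_ivs.1 (e ▸ mem_posR.2 ⟨h1, h2⟩)).2.2
  have h1 := hA.ga_W hS hw
  have h2 := mul_mem (inv_mem hw) h1
  refine ⟨w, mem_Wf.2 ⟨hw, (mul_inv_eq_iff_eq_mul.1 (inv_mul_eq_one.1 (by_contra fun a => ?_)).symm
    ).symm⟩, e⟩
  obtain ⟨j, -, c⟩ := hA.exch (hA.Wg_eq ▸ h2) a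
  have r := (hA.W_root h2).2 (hA.sr_mem j)
  have d := k _ (hA.neg_mem r) ((hA.not_pos_iff r).1 c)
  have s : ga g ((ga g)⁻¹ (sr j)) = sr j := (ga g).apply_symm_apply _
  rw [map_neg, show w ((w⁻¹ * (ga g * w * (ga g)⁻¹)) (sr j)) = (ga g * w * (ga g)⁻¹) (sr j) from
    w.apply_symm_apply _, ← hA.not_pos_iff ((hA.W_root h1).2 (hA.sr_mem j)), not_not] at d
  exact k _ ((hA.ga_root hS).1 (s.symm ▸ hA.sr_mem j)) (ga_pos.1 (s.symm ▸ sr_nonneg j)) (ga_pos.1 d)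

namespace CG

variable {Γ : Type} [Group Γ] {C : CG M K Γ} {σ : Γ →* Γ} {x : Γ}

/-- The number of fixed points in the unipotent group of `w`. -/
noncomputable def wt (C : CG M K Γ) (σ : Γ →* Γ) (w : Au l) : ℕ :=
  Nat.card {u : Γ // u ∈ C.Us (ivs M w) ∧ σ u = u}

/-- The product of root elements of simple roots. -/
noncomputable def xo (C : CG M K Γ) (I : Finset (Fin l)) (t : Fin l → K) : Γ :=
  (I.toList.map fun j => C.x (sr j) (t j)).prod

variable (hA : Ade M)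
include hA

theorem mem_Us_ivs (n : C.N) :
    x ∈ C.Us (ivs M (C.π n)) ↔ x ∈ C.U ∧ n * x * (n : Γ)⁻¹ ∈ C.Um := by
  have k : ∀ y ∈ C.Us (ivs M (C.π n)), n * y * (n : Γ)⁻¹ ∈ C.Um := fun y =>
    conj_Us hA n fun a ha h => (hA.pos_or_neg ((hA.W_root (C.π_mem n)).2 ha)).resolve_left
      (mem_ivs.1 h).2.2
  refine ⟨fun h => ⟨Us_mono (fun a _ c => (mem_ivs.1 c).2.1) h, k x h⟩, fun h => ?_⟩
  obtain ⟨u, hu, v, hv, rfl⟩ := fac_U hA (Ψ := ivs M (C.π n)) (Ψ' := {a | 0 ≤ a ∧ 0 ≤ C.π n a})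
    (fun a c => (mem_ivs.1 c).2.1) (fun a c => c.1)
    (fun a ha c => or_iff_not_imp_left.2 fun d => ⟨c, by_contra fun e =>
      d (mem_ivs.2 ⟨ha, c, e⟩)⟩) h.1
  have e := U_Um (conj_Us hA n (fun a _ c => c.2) hv) (by
    have := mul_mem (inv_mem (k u hu)) h.2
    rwa [show (n * u * (n : Γ)⁻¹)⁻¹ * (n * (u * v) * (n : Γ)⁻¹) = n * v * (n : Γ)⁻¹ by group] at this)
  rwa [conj_eq_one_iff.1 e, mul_one]

theorem wt_one : C.wt σ 1 = 1 :=
  Nat.card_eq_one_iff_exists.2 ⟨⟨1, one_mem _, map_one σ⟩, fun u => Subtype.ext (U_Um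
    (Us_mono (by simp [hA.ivs_one]) u.2.1) (Us_mono (by simp [hA.ivs_one]) u.2.1))⟩

theorem wt_w0 (h : ivs M w = posR M) : C.wt σ w = Nat.card {u : Γ // u ∈ C.U ∧ σ u = u} := by
  rw [wt, h, show C.Us (posR M) = C.U from le_antisymm (Us_mono fun a _ c => (mem_posR.1 c).2)
    (Us_mono fun a ha c => mem_posR.2 ⟨ha, c⟩)]

variable (hS : Sy M g)
include hS

theorem xo_add_aux1 (t t' : Fin l → K) {j k : Fin l} (hj : j ∈ orb g i) (hk : k ∈ orb g i) :
    Commute (C.x (sr j) (t j)) (C.x (sr k) (t' k)) := by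
  refine C.com0 _ (hA.sr_mem j) _ (hA.sr_mem k) ?_ _ _
  rcases eq_or_ne j k with rfl | e
  exacts [hA.ip_nonneg _, (hS.orth hj hk e).ge]

theorem xo_add_aux2 (t : Fin l → K) : C.xo (orb g i) t = (orb g i).noncommProd
    (fun j => C.x (sr j) (t j)) fun _ hj _ hk _ => xo_add_aux1 hA hS t t hj hk := by
  rw [xo, ← Finset.noncommProd_toFinset _ _ (by
    rw [Finset.toList_toFinset]
    exact fun _ hj _ hk _ => xo_add_aux1 hA hS t t hj hk) (Finset.nodup_toList _)]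
  exact Finset.noncommProd_congr (Finset.toList_toFinset _) (fun _ _ => rfl) _

/-- The factors commute. -/
theorem xo_add (t t' : Fin l → K) :
    C.xo (orb g i) (t + t') = C.xo (orb g i) t * C.xo (orb g i) t' := by
  rw [xo_add_aux2 hA hS, xo_add_aux2 hA hS, xo_add_aux2 hA hS, ← Finset.noncommProd_mul_distrib _ _
    _ _ fun _ hj _ hk _ => xo_add_aux1 hA hS t' t hj hk]
  exact Finset.noncommProd_congr rfl (fun j _ => C.add _ (hA.sr_mem j) _ _) _

omit hS in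
theorem xo_inj_aux1 {I : Finset (Fin l)} {t : Fin l → K} (h : ∀ j ∈ I, t j = 0) :
    C.xo I t = 1 :=
  List.prod_eq_one fun x hx => by
    obtain ⟨j, hj, rfl⟩ := List.mem_map.1 hx
    rw [h j (Finset.mem_toList.1 hj), x_zero (hA.sr_mem j)]

theorem xo_inj_aux2 {j : Fin l} (hj : j ∈ orb g i) (s : K) :
    C.xo (orb g i) (Pi.single j s) = C.x (sr j) s := by
  rw [xo_add_aux2 hA hS, ← Finset.mul_noncommProd_erase _ hj, Pi.single_eq_same,
    Finset.noncommProd_eq_pow_card _ _ _ 1 fun k hk => by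
      rw [Pi.single_eq_of_ne (Finset.ne_of_mem_erase hk), x_zero (hA.sr_mem k)], one_pow, mul_one]

/-- Conjugate by `m` with `π m = rf (sr j)`. -/
theorem xo_inj {t : Fin l → K} (h : C.xo (orb g i) t = 1) : ∀ j ∈ orb g i, t j = 0 := by
  intro j hj
  have s := hA.sr_mem j
  obtain ⟨m, hm⟩ := π_surj (C := C) hA (hA.rf_mem s)
  rw [xo_add_aux2 hA hS, ← Finset.mul_noncommProd_erase _ hj, mul_eq_one_iff_inv_eq] at h
  have h1 : (C.x (sr j) (t j))⁻¹ ∈ C.Us {b | 0 ≤ b ∧ b ≠ sr j} := by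
    rw [h]
    refine Subgroup.noncommProd_mem _ _ fun k hk => x_mem (hA.sr_mem k) ?_ _
    refine ⟨sr_nonneg k, fun e => ?_⟩
    simpa [sr, (Finset.ne_of_mem_erase hk).symm] using congrFun e j
  have h2 : m * C.x (sr j) (t j) * (m : Γ)⁻¹ ∈ C.U := conj_Us hA m (fun a ha h => by
    rw [hm, Set.mem_ofPred]
    exact (hA.rf_pos ha h.1 h.2).1) ((Subgroup.inv_mem_iff _).1 h1)
  have h3 : m * C.x (sr j) (t j) * (m : Γ)⁻¹ ∈ C.Um := conj_Us hA m (Ψ := {sr j}) (fun a _ h => by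
    rw [Set.mem_singleton_iff.1 h, hm, hA.rf_self s, Set.mem_ofPred]
    exact neg_nonpos.2 (sr_nonneg j)) (x_mem s (Set.mem_singleton _) _)
  exact C.inj _ s _ (conj_eq_one_iff.1 (U_Um h2 h3))

theorem mem_xo : x ∈ C.Us (sr '' (orb g i : Set (Fin l))) ↔
    ∃ t : Fin l → K, (∀ j ∉ orb g i, t j = 0) ∧ x = C.xo (orb g i) t := by
  refine ⟨fac_U_ind (p := fun x => ∃ t : Fin l → K, (∀ j ∉ orb g i, t j = 0) ∧
    x = C.xo (orb g i) t) ⟨0, fun _ _ => rfl, (xo_inj_aux1 hA fun _ _ => rfl).symm⟩ ?_, ?_⟩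
  · rintro _ - ⟨j, hj, rfl⟩ s _ ⟨t, ht, rfl⟩
    refine ⟨Pi.single j s + t, fun k hk => ?_, by rw [xo_add hA hS, xo_inj_aux2 hA hS hj]⟩
    rw [Pi.add_apply, ht k hk, Pi.single_eq_of_ne (ne_of_mem_of_not_mem hj hk).symm, add_zero]
  · rintro ⟨t, -, rfl⟩
    rw [xo_add_aux2 hA hS]
    exact Subgroup.noncommProd_mem _ _ fun k hk =>
      x_mem (hA.sr_mem k) (Set.mem_image_of_mem _ hk) _

variable (hσ : C.Hom C σ f (ga g))
include hσ

theorem map_xo (t : Fin l → K) :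
    σ (C.xo (orb g i) t) = C.xo (orb g i) fun j => f (t (g.symm j)) := by
  induction t using Pi.single_induction with
  | zero =>
    rw [xo_inj_aux1 hA (t := 0) fun _ _ => rfl, map_one]
    exact (xo_inj_aux1 hA fun _ _ => map_zero f).symm
  | add t t' h h' =>
    rw [xo_add hA hS, map_mul, h, h', ← xo_add hA hS]
    exact congrArg _ (funext fun j => (map_add f _ _).symm)
  | single j s =>
    have e : (fun k => f (Pi.single (M := fun _ => K) j s (g.symm k))) = Pi.single (g j) (f s) :=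
      funext fun k => by simp [Pi.single_apply, Equiv.symm_apply_eq, apply_ite f]
    have e' : g j ∈ orb g i ↔ j ∈ orb g i := by simp [mem_orb]
    rw [e]
    by_cases hj : j ∈ orb g i
    · rw [xo_inj_aux2 hA hS hj, xo_inj_aux2 hA hS (e'.2 hj), hσ.x _ (hA.sr_mem j), ga_sr]
    · rw [xo_inj_aux1 hA fun k hk => Pi.single_eq_of_ne (ne_of_mem_of_not_mem hk hj) _, map_one,
        xo_inj_aux1 hA fun k hk => Pi.single_eq_of_ne (ne_of_mem_of_not_mem hk (mt e'.1 hj)) _]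

theorem card_xo : Nat.card {u : Γ // u ∈ C.Us (sr '' (orb g i : Set (Fin l))) ∧ σ u = u} =
    qo f g i := by
  have k : ∀ t t' : Fin l → K, C.xo (orb g i) t = C.xo (orb g i) t' → ∀ j ∈ orb g i, t j = t' j :=
    fun t t' h j hj => sub_eq_zero.1 (xo_inj (C := C) hA hS (t := t - t') (by
      rwa [← sub_add_cancel t t', xo_add hA hS, mul_eq_right] at h) j hj)
  refine (Nat.card_eq_of_bijective (fun t : orbF f g i => ⟨C.xo (orb g i) t.1,
    (mem_xo hA hS).2 ⟨t.1, t.2.1, rfl⟩, (map_xo hA hS hσ _).trans (congrArg _ (funext fun j => by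
      rw [← t.2.2, Equiv.apply_symm_apply]))⟩) ⟨fun t t' h => Subtype.ext (funext fun j => ?_),
      ?_⟩).symm
  · by_cases hj : j ∈ orb g i
    · exact k _ _ (congrArg Subtype.val h) j hj
    · rw [t.2.1 j hj, t'.2.1 j hj]
  · rintro ⟨u, hu, h⟩
    obtain ⟨t, ht, rfl⟩ := (mem_xo hA hS).1 hu
    refine ⟨⟨t, ht, fun j => ?_⟩, rfl⟩
    have e' : g j ∈ orb g i ↔ j ∈ orb g i := by simp [mem_orb]
    by_cases hj : j ∈ orb g i
    · rw [← k _ _ ((map_xo hA hS hσ t).symm.trans h) _ (e'.2 hj), Equiv.symm_apply_apply]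
    · rw [ht j hj, ht _ (mt e'.1 hj), map_zero]

/-- The map `(z, X) ↦ X * (m⁻¹ * z * m)` is a bijection, where `π m = rI (orb g i)`. -/
theorem wt_mul (hw : w ∈ Wf M g) (h : 0 ≤ w (sr i)) :
    C.wt σ (w * rI M (orb g i)) = C.wt σ w * qo f g i := by
  obtain ⟨n, -, rfl⟩ := π_surj_St hA hS hσ hw
  obtain ⟨m, hm, e⟩ := π_surj_St hA hS hσ (hA.rI_mem hS i)
  have hm := St_fix hm
  have r1 := mem_Wf.1 (hA.rI_mem hS i)
  have a0 : ∀ j ∈ orb g i, 0 ≤ C.π n (sr j) := fun j hj => by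
    rwa [orb_const (fun b => 0 ≤ C.π n b) (fun b => by
      rw [← LinearEquiv.mul_apply, (mem_Wf.1 hw).2, LinearEquiv.mul_apply, ga_pos]) hj]
  have rr : ∀ b, rI M (orb g i) (rI M (orb g i) b) = b := LinearEquiv.congr_fun (hA.rI_sq hS i)
  have ri : C.π m⁻¹ = rI M (orb g i) := by
    rw [map_inv, e, inv_eq_of_mul_eq_one_left (hA.rI_sq hS i)]
  have a1 : C.Us (sr '' (orb g i : Set (Fin l))) ≤ C.Us (ivs M (C.π n * rI M (orb g i))) :=
    Us_mono (by
      rintro _ ha ⟨j, hj, rfl⟩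
      refine mem_ivs.2 ⟨ha, sr_nonneg j, ?_⟩
      rw [LinearEquiv.mul_apply, hA.rI_sr hS hj, map_neg]
      exact hA.ivs_mul_rf_aux1 ((hA.W_root (C.π_mem n)).2 ha) (a0 j hj))
  have a2 : ∀ a ∈ ivs M (C.π n), 0 ≤ rI M (orb g i) a := fun a ha =>
    have k := mem_ivs.1 ha
    hA.rI_pos hS k.1 k.2.1 fun j hj e => k.2.2 (e ▸ a0 j hj)
  have a3 : ∀ z ∈ C.Us (ivs M (C.π n)), (m : Γ)⁻¹ * z * (m : Γ)⁻¹⁻¹ ∈
      C.Us (ivs M (C.π n * rI M (orb g i))) ⊓ C.Us {b | 0 ≤ b ∧ 0 ≤ rI M (orb g i) b} :=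
    fun z hz => ⟨conj_Us hA m⁻¹ (fun a ha k => by
      rw [ri]
      exact mem_ivs.2 ⟨(hA.W_root r1.1).2 ha, a2 a k, by
        rw [LinearEquiv.mul_apply, rr]; exact (mem_ivs.1 k).2.2⟩) hz,
      conj_Us hA m⁻¹ (fun a _ k => by
        rw [ri]; exact ⟨a2 a k, (rr a).symm ▸ (mem_ivs.1 k).2.1⟩) hz⟩
  have a4 : ∀ y ∈ C.Us {b | 0 ≤ b ∧ 0 ≤ rI M (orb g i) b}, m * y * (m : Γ)⁻¹ ∈ C.U :=
    fun y hy => conj_Us hA m (fun a _ k => e ▸ k.2) hy
  have un : ∀ X ∈ C.Us (sr '' (orb g i : Set (Fin l))),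
      ∀ X' ∈ C.Us (sr '' (orb g i : Set (Fin l))),
      ∀ y ∈ C.Us {b | 0 ≤ b ∧ 0 ≤ rI M (orb g i) b},
      ∀ y' ∈ C.Us {b | 0 ≤ b ∧ 0 ≤ rI M (orb g i) b}, X * y = X' * y' → X = X' ∧ y = y' :=
    fun X hX X' hX' y hy y' hy' k => by
      have k1 : X'⁻¹ * X = y' * y⁻¹ := by
        rw [inv_mul_eq_iff_eq_mul, ← mul_assoc, ← k, mul_inv_cancel_right]
      have k2 := U_Um (a4 _ (mul_mem hy' (inv_mem hy))) (k1 ▸ conj_Us hA m (by
        rintro _ - ⟨j, hj, rfl⟩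
        rw [e, hA.rI_sr hS hj]
        exact neg_nonpos.2 (sr_nonneg j)) (mul_mem (inv_mem hX') hX))
      rw [mul_inv_eq_one, mul_eq_left] at k2
      exact ⟨(inv_mul_eq_one.1 (k1.trans k2)).symm, (mul_inv_eq_one.1 k2).symm⟩
  rw [← card_xo hA hS hσ, wt, wt, ← Nat.card_prod]
  refine (Nat.card_eq_of_bijective (fun p => ⟨p.2.1 * ((m : Γ)⁻¹ * p.1.1 * (m : Γ)⁻¹⁻¹),
    mul_mem (a1 p.2.2.1) (a3 _ p.1.2.1).1, by simp [hm, p.1.2.2, p.2.2.2]⟩) ⟨fun p p' k => ?_,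
    fun ⟨y, hy, ey⟩ => ?_⟩).symm
  · obtain ⟨k1, k2⟩ := un _ p.2.2.1 _ p'.2.2.1 _ (a3 _ p.1.2.1).2 _ (a3 _ p'.1.2.1).2
      (congrArg Subtype.val k)
    exact Prod.ext (Subtype.ext (by simpa using k2)) (Subtype.ext k1)
  obtain ⟨X, hX, z, hz, rfl⟩ := fac_U hA (Ψ := sr '' (orb g i : Set (Fin l)))
    (Ψ' := {b | 0 ≤ b ∧ 0 ≤ rI M (orb g i) b}) (by rintro _ ⟨j, -, rfl⟩; exact sr_nonneg j)
    (fun a k => k.1) (fun a ha k => or_iff_not_imp_left.2 fun c =>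
      ⟨k, hA.rI_pos hS ha k fun j hj e => c ⟨j, hj, e.symm⟩⟩)
    (Us_mono (fun a _ k => (mem_ivs.1 k).2.1) hy)
  obtain ⟨k1, k2⟩ := un _ (hσ.map_Us hA hS (by
      rintro _ - ⟨j, hj, rfl⟩
      exact ⟨g j, mem_orb.2 (mem_orb.1 hj).apply_right, (ga_sr g j).symm⟩) hX) _ hX _
    (hσ.map_Us hA hS (fun a _ k => And.intro (ga_pos.2 k.1) (by
      rw [← LinearEquiv.mul_apply, r1.2, LinearEquiv.mul_apply, ga_pos]; exact k.2)) hz) _ hz
    ((map_mul σ X z).symm.trans ey)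
  have k3 := (mul_mem_cancel_left (a1 hX)).1 hy
  rw [← e, ← map_mul] at k3
  refine ⟨(⟨m * z * (m : Γ)⁻¹, (mem_Us_ivs hA n).2 ⟨a4 z hz, ?_⟩, by simp [hm, k2]⟩, ⟨X, hX, k1⟩),
    Subtype.ext (by simp [mul_assoc])⟩
  simpa [mul_assoc] using ((mem_Us_ivs hA _).1 k3).2

theorem fx_bruhat' (hx : σ x = x) : ∃ n : C.N, σ n = n ∧ C.π n ∈ Wf M g ∧
    ∃ u ∈ C.Us (ivs M (C.π n)⁻¹), σ u = u ∧ ∃ v ∈ C.U, σ v = v ∧ x = u * n * v := by
  obtain ⟨n, u, hu, v, hv, rfl⟩ := bruhat' (C := C) hA x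
  obtain ⟨m, e, k⟩ := hσ.N n
  have hU : u ∈ C.U := Us_mono (fun a _ h1 => (mem_ivs.1 h1).2.1) hu
  rw [map_mul, map_mul, e] at hx
  obtain rfl : m = n := uniq_N hA (hσ.map_U hA hS hU) (hσ.map_U hA hS hv) hU hv hx
  have h1 : C.π m * ga g = ga g * C.π m := eq_mul_inv_iff_mul_eq.1 k
  have h2 : (C.π m)⁻¹ * ga g = ga g * (C.π m)⁻¹ := by
    rw [inv_mul_eq_iff_eq_mul, ← mul_assoc, h1, mul_inv_cancel_right]
  have h3 := uniq_U hA (hσ.map_Us hA hS (fun a ha h4 => mem_ivs.2 ⟨(hA.ga_root hS).2 ha,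
    ga_pos.2 (mem_ivs.1 h4).2.1, fun h5 => (mem_ivs.1 h4).2.2 (by
      rwa [← LinearEquiv.mul_apply, h2, LinearEquiv.mul_apply, ga_pos] at h5)⟩) hu)
    (hσ.map_U hA hS hv) hu hv hx
  exact ⟨m, e, mem_Wf.2 ⟨C.π_mem m, h1⟩, u, hu, h3.1, v, hv, h3.2, rfl⟩

/-- For a section `s w ∈ N ⊓ St` the map `(w, u, t, v) ↦ u * (s w * t) * v` is a bijection. -/
theorem card_St [Finite Γ] : Nat.card (C.St σ) = Nat.card (C.T ⊓ C.St σ : Subgroup Γ) *
    (Nat.card {u : Γ // u ∈ C.U ∧ σ u = u} * ∑ᶠ w : Wf M g, C.wt σ w) := by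
  choose s h1 h2 using fun w : Wf M g => π_surj_St hA hS hσ w.2
  have hU : ∀ {w u}, u ∈ C.Us (ivs M w) → u ∈ C.U :=
    fun h => Us_mono (fun a _ h1 => (mem_ivs.1 h1).2.1) h
  have hs : ∀ {u}, u ∈ C.U → σ u = u → u ∈ C.St σ :=
    fun h e => Subgroup.subset_closure ⟨.inl h, e⟩
  let F : (Σ w : Wf M g, {u : Γ // u ∈ C.Us (ivs M (w : Au l)⁻¹) ∧ σ u = u}) ×
      (C.T ⊓ C.St σ : Subgroup Γ) × {u : Γ // u ∈ C.U ∧ σ u = u} → C.St σ := fun p =>
    ⟨p.1.2 * (s p.1.1 * p.2.1) * p.2.2, mul_mem (mul_mem (hs (hU p.1.2.2.1) p.1.2.2.2)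
      (mul_mem (h1 _) p.2.1.2.2)) (hs p.2.2.2.1 p.2.2.2.2)⟩
  have hF : Function.Bijective F := by
    constructor
    · rintro ⟨⟨w, u, hu, k1⟩, ⟨_, ⟨n, hn, rfl⟩, k2⟩, v, hv, k3⟩
        ⟨⟨w', u', hu', k4⟩, ⟨_, ⟨n', hn', rfl⟩, k5⟩, v', hv', k6⟩ e
      have e1 : u * (s w * n : C.N) * v = u' * (s w' * n' : C.N) * v' := congrArg Subtype.val e
      have e2 := uniq_N hA (hU hu) hv (hU hu') hv' e1
      have e3 : ∀ w, ∀ n ∈ C.π.ker, C.π (s w * n) = w := fun w n hn => by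
        rw [map_mul, h2, MonoidHom.mem_ker.1 hn, mul_one]
      obtain rfl : w = w' := Subtype.ext (by rw [← e3 w n hn, e2, e3 w' n' hn'])
      obtain rfl : n = n' := mul_left_cancel e2
      obtain ⟨rfl, rfl⟩ := uniq_U hA ((e3 w n hn).symm ▸ hu) hv ((e3 w n hn).symm ▸ hu') hv' e1
      rfl
    · rintro ⟨x, hx⟩
      obtain ⟨n, -, hn, u, hu, k1, v, hv, k2, rfl⟩ := fx_bruhat' hA hS hσ (St_fix hx)
      have k3 : (n : Γ) ∈ C.St σ :=
        (mul_mem_cancel_left (hs (hU hu) k1)).1 ((mul_mem_cancel_right (hs hv k2)).1 hx)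
      exact ⟨⟨⟨⟨_, hn⟩, u, hu, k1⟩, ⟨(s ⟨_, hn⟩ : Γ)⁻¹ * n, mem_T.2 ⟨(s ⟨_, hn⟩)⁻¹ * n,
        by rw [map_mul, map_inv, h2, inv_mul_cancel], rfl⟩,
        (C.St σ).mul_mem (inv_mem (h1 _)) k3⟩, v, hv, k2⟩, Subtype.ext (by simp [F])⟩
  have := hA.W_finite
  have : Finite (Wf M g) := .of_injective _ (Subgroup.inclusion_injective inf_le_left)
  have := Fintype.ofFinite (Wf M g)
  rw [← Nat.card_eq_of_bijective F hF, Nat.card_prod, Nat.card_prod, Nat.card_sigma,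
    finsum_eq_sum_of_fintype, mul_comm, mul_assoc,
    ← Equiv.sum_comp (Equiv.inv (Wf M g)) fun w => C.wt σ w]
  rfl

/-- `exists_chi_hom`, the values on the simple roots, `Hom.chi`. -/
theorem card_TS_dvd [Finite K] :
    Nat.card (C.T ⊓ C.St σ : Subgroup Γ) ∣ Nat.card (TFs f g) := by
  obtain ⟨χ, hi, hχ⟩ := exists_chi_hom (C := C) hA
  let ι := Subgroup.inclusion (inf_le_left : C.T ⊓ C.St σ ≤ C.T)
  have m : ∀ t, (fun j => χ (ι t) (.ofAdd (sr j))) ∈ TFs f g := fun t j => by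
    have := hσ.chi hA hS (hχ (ι t)) (ψ := χ (ι t))
      ((St_fix t.2.2 : σ (ι t : C.T) = (ι t : C.T)).symm ▸ hχ (ι t)) (sr j)
    rw [ga_sr] at this
    exact congrArg Units.val this
  exact Subgroup.card_dvd_of_injective
    (MonoidHom.mk' (fun t => (⟨_, m t⟩ : TFs f g)) fun s t => by ext; simp)
    fun s t h => Subgroup.inclusion_injective _
      (hi (Chi.uniq_aux2 (congrFun (congrArg Subtype.val h))))

omit hA in
theorem nm_St'_aux1 (i : Fin l) {ε : ℤ} (hε : ∀ j, ε • sr j ∈ roots M) {s : Fin l → K}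
    (hs : ∀ j, s (g j) = f (s j)) :
    σ ((orb g i).toList.map fun j => C.x (ε • sr j) (s j)).prod =
      ((orb g i).toList.map fun j => C.x (ε • sr j) (s j)).prod := by
  have h1 : (orb g i).toList.Perm ((orb g i).toList.map g) :=
    (List.perm_ext_iff_of_nodup (orb g i).nodup_toList
      ((orb g i).nodup_toList.map g.injective)).2 fun j => by
      obtain ⟨k, rfl⟩ := g.surjective j
      rw [List.mem_map_of_injective g.injective, Finset.mem_toList, Finset.mem_toList, mem_orb,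
        mem_orb, Equiv.Perm.sameCycle_apply_right]
  rw [map_list_prod, (h1.map fun j => C.x (ε • sr j) (s j)).prod_eq' (List.pairwise_map.2
    (nm_St_aux2 hS fun j k e => C.com0 _ (hε j) _ (hε k)
      (by rw [ip_smul_left, ip_smul_right, e, mul_zero, mul_zero]) _ _)), List.map_map,
    List.map_map]
  exact congrArg (fun F => (List.map F _).prod) (funext fun j => by
    simp only [Function.comp_apply, hσ.x _ (hε j), map_zsmul, ga_sr, hs])

/-- As `nm_St`. -/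
theorem nm_St' (i : Fin l) {t : Fin l → Kˣ} (ht : t ∈ TFs f g) :
    ((orb g i).toList.map fun j => C.nm (sr j) (t j)).prod ∈ C.St σ := by
  have r1 := hA.sr_mem
  have r2 := fun j => hA.neg_mem (r1 j)
  have h1 : ((orb g i).toList.map fun j => C.x (sr j) (t j)).prod ∈ C.St σ :=
    Subgroup.subset_closure ⟨.inl (list_prod_mem (List.forall_mem_map.2 fun j _ =>
      x_mem (r1 j) (sr_nonneg j) _)), by
        simpa using nm_St'_aux1 hS hσ i (ε := 1) (by simpa using r1) (s := fun j => t j) ht⟩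
  have h2 : ((orb g i).toList.map fun j => C.x (-sr j) ((t j)⁻¹ : Kˣ)).prod ∈ C.St σ :=
    Subgroup.subset_closure ⟨.inr (list_prod_mem (List.forall_mem_map.2 fun j _ =>
      x_mem (r2 j) (neg_nonpos.2 (sr_nonneg j)) _)), by
        simpa using nm_St'_aux1 hS hσ i (ε := -1) (by simpa using r2)
          (s := fun j => ((t j)⁻¹ : Kˣ)) (inv_mem ht)⟩
  simp only [nm]
  rw [nm_St_aux1 (nm_St_aux2 hS fun j k e => (C.com0 _ (r1 j) _ (r1 k) e.ge _ _).mul_right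
      (C.com0 _ (r1 j) _ (r2 k) (by simp [e]) _ _)),
    nm_St_aux1 (nm_St_aux2 hS fun j k e => C.com0 _ (r2 j) _ (r1 k) (by simp [e]) _ _)]
  exact mul_mem (mul_mem h1 h2) h1

theorem exists_hT_aux1 {t : Fin l → Kˣ} (ht : t ∈ TFs f g) (i : Fin l) :
    ∃ y ∈ C.T, y ∈ C.St σ ∧ C.Chi y (∏ j ∈ orb g i, cch M (sr j) (t j)) := by
  have r1 := hA.sr_mem
  refine ⟨((orb g i).toList.map fun j => (C.nm (sr j) 1)⁻¹ * C.nm (sr j) (t j)⁻¹).prod,
    list_prod_mem (List.forall_mem_map.2 fun j _ => (cor_chi hA (r1 j) _).1), ?_, ?_⟩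
  · have h1 := nm_St_aux1 (F := fun j => C.nm (sr j) 1) (nm_St_aux2 (i := i) hS fun j k e =>
      (exists_hI_aux1 hA (r1 j) (r1 k) e 1 1).inv_left.mul_left
        (exists_hI_aux1 hA (r1 j) (r1 k) e (t j)⁻¹ 1))
    simp only [mul_inv_cancel_left] at h1
    rw [eq_inv_mul_of_mul_eq h1.symm]
    exact mul_mem (inv_mem (nm_St hA hS hσ i 1 (map_one f))) (nm_St' hA hS hσ i (inv_mem ht))
  · rw [← Finset.prod_map_toList]
    induction (orb g i).toList with
    | nil => exact Chi.one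
    | cons j L ih => exact (cor_chi hA (r1 j) _).2.mul ih

/-- As `exists_hI` for one orbit; induction over the finite sets that are invariant under `g`. -/
theorem exists_hT {t : Fin l → Kˣ} (ht : t ∈ TFs f g) :
    ∃ y ∈ C.T, y ∈ C.St σ ∧ C.Chi y (∏ j, cch M (sr j) (t j)) := by
  suffices k : ∀ I : Finset (Fin l), (∀ i ∈ I, orb g i ⊆ I) →
      ∃ y ∈ C.T, y ∈ C.St σ ∧ C.Chi y (∏ j ∈ I, cch M (sr j) (t j)) from
    k _ fun _ _ => Finset.subset_univ _
  intro I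
  induction I using Finset.strongInduction with
  | H I ih =>
    intro hI
    rcases I.eq_empty_or_nonempty with rfl | ⟨i, hi⟩
    · exact ⟨1, one_mem _, one_mem _, Chi.one⟩
    obtain ⟨y, a1, a2, a3⟩ := ih _
      (Finset.sdiff_ssubset (hI i hi) ⟨i, mem_orb.2 (Equiv.Perm.SameCycle.refl g i)⟩)
      fun j hj k hk => Finset.mem_sdiff.2 ⟨hI j (Finset.mem_sdiff.1 hj).1 hk, fun c =>
        (Finset.mem_sdiff.1 hj).2 (mem_orb.2 ((mem_orb.1 c).trans (mem_orb.1 hk).symm))⟩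
    obtain ⟨z, b1, b2, b3⟩ := exists_hT_aux1 hA hS hσ ht i
    rw [← Finset.prod_sdiff (hI i hi)]
    exact ⟨_, mul_mem a1 b1, mul_mem a2 b2, a3.mul b3⟩

/-- `exists_hT` gives an injective map (`Chi.uniq`); `card_TS_dvd`. -/
theorem card_TS_eq [Finite K] [Finite Γ]
    (h : ∀ t ∈ TFs f g, ∏ j, cch M (sr j) (t j) = 1 → t = 1) :
    Nat.card (C.T ⊓ C.St σ : Subgroup Γ) = Nat.card (TFs f g) := by
  choose y a1 a2 a3 using fun t : TFs f g => exists_hT hA hS hσ t.2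
  refine (Nat.le_of_dvd Nat.card_pos (card_TS_dvd hA hS hσ)).antisymm
    (Nat.card_le_card_of_injective (fun t => ⟨y t, a1 t, a2 t⟩) fun s t e => ?_)
  have e0 : y s = y t := congrArg Subtype.val e
  have e1 := (a3 s).uniq hA (e0 ▸ a3 t)
  refine Subtype.ext (mul_inv_eq_one.1 (h _ (mul_mem s.2 (inv_mem t.2)) ?_))
  refine MonoidHom.ext fun b => ?_
  have e2 := DFunLike.congr_fun e1 b
  simp only [MonoidHom.finsetProd_apply] at e2 ⊢
  rw [MonoidHom.one_apply, ← mul_inv_eq_one.2 e2, ← Finset.prod_inv_distrib,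
    ← Finset.prod_mul_distrib]
  exact Finset.prod_congr rfl fun j _ => by simp [cch, mul_zpow]

end CG

end Pool.Agent.Lib.MP_7d41f7_al
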