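import Mathlib

/-! The adjoint Chevalley groups of simply laced type. -/

set_option autoImplicit false

namespace Pool.Agent.Lib.MP_7d41f7_al

open Matrix

variable {l : ℕ}

/-- The symmetric form of the root lattice with Gram matrix `M + Mᵀ`. -/
def ip (M : Matrix (Fin l) (Fin l) ℤ) (a b : Fin l → ℤ) : ℤ := a ⬝ᵥ (M + Mᵀ) *ᵥ b

/-- The sign in the structure constants. -/
def sgn (M : Matrix (Fin l) (Fin l) ℤ) (a b : Fin l → ℤ) : ℤ := (-1) ^ (a ⬝ᵥ M *ᵥ b).natAbs

open Classical in
/-- The roots: the vectors of norm two. -/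
noncomputable def roots (M : Matrix (Fin l) (Fin l) ℤ) : Finset (Fin l → ℤ) :=
  if h : {a | ip M a a = 2}.Finite then h.toFinset else ∅

/-- The index set of the Chevalley basis: root vectors and simple coroots. -/
abbrev Ix (M : Matrix (Fin l) (Fin l) ℤ) : Type := roots M ⊕ Fin l

/-- The matrix of the adjoint action of the root vector of `a` in the Chevalley basis. -/
def adE (M : Matrix (Fin l) (Fin l) ℤ) (a : Fin l → ℤ) : Matrix (Ix M) (Ix M) ℤ
  | .inl c, .inl b => if c.1 = a + b.1 then sgn M a b.1 else 0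
  | .inr i, .inl b => if b.1 = -a then -a i else 0
  | .inl c, .inr j => if c.1 = a then -ip M a (Pi.single j 1) else 0
  | .inr _, .inr _ => 0

/-- The matrix of `exp (t ad e)`. -/
noncomputable def xm (M : Matrix (Fin l) (Fin l) ℤ) {K : Type} [CommRing K] (a : Fin l → ℤ) (t : K) :
    Matrix (Ix M) (Ix M) K :=
  1 + t • (adE M a).map Int.cast + t ^ 2 • (adE M a * adE M a).map fun z => ((z / 2 : ℤ) : K)

/-- The group generated by the root elements of the roots in `Ψ`. -/
noncomputable def Uni (M : Matrix (Fin l) (Fin l) ℤ) (K : Type) [Field K] (Ψ : Set (Fin l → ℤ)) :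
    Subgroup (GL (Ix M) K) :=
  Subgroup.closure {g | ∃ a ∈ roots M, a ∈ Ψ ∧ ∃ t : K, g.1 = xm M a t}

/-- The second basis vector is the image of the first under the symmetry `γ` of the diagram. -/
def Gph {M : Matrix (Fin l) (Fin l) ℤ} (γ : Equiv.Perm (Fin l)) : Ix M → Ix M → Prop
  | .inl a, .inl b => ∀ i, b.1 (γ i) = a.1 i
  | .inr i, .inr j => j = γ i
  | _, _ => False

/-- The group generated by the elements of the positive and of the negative unipotent subgroup
that are fixed by the product of the graph automorphism `γ` and the power map `t ↦ t ^ q`. -/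
noncomputable def Steinb (M : Matrix (Fin l) (Fin l) ℤ) (γ : Equiv.Perm (Fin l)) (q : ℕ) (K : Type)
    [Field K] : Subgroup (GL (Ix M) K) :=
  Subgroup.closure {g | (g ∈ Uni M K {a | 0 ≤ a} ∨ g ∈ Uni M K {a | a ≤ 0}) ∧
    ∀ x y x' y', Gph γ x x' → Gph γ y y' → g.1 x' y' = g.1 x y ^ q}

/-- A matrix `M` with `M + Mᵀ = C`, from a two-colouring `s` of the diagram. -/
def half (s : List ℕ) (C : Matrix (Fin l) (Fin l) ℤ) : Matrix (Fin l) (Fin l) ℤ :=
  .of fun i j => if i = j then 1 else if i.1 ∈ s then C i j else 0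

/-- Type `E₆`. -/
def mE6 : Matrix (Fin 6) (Fin 6) ℤ := half [0, 3, 5] CartanMatrix.E₆

/-- Type `E₇`. -/
def mE7 : Matrix (Fin 7) (Fin 7) ℤ := half [0, 3, 5] CartanMatrix.E₇

/-- Type `E₈`. -/
def mE8 : Matrix (Fin 8) (Fin 8) ℤ := half [0, 3, 5, 7] CartanMatrix.E₈

/-- Type `D₄`. -/
def mD4 : Matrix (Fin 4) (Fin 4) ℤ := half [1] (CartanMatrix.D 4)

/-- The symmetry of order two of the diagram `E₆`. -/
def gE6 : Equiv.Perm (Fin 6) := Equiv.swap 0 5 * Equiv.swap 2 4

/-- A symmetry of order three of the diagram `D₄`. -/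
def gD4 : Equiv.Perm (Fin 4) := Equiv.swap 0 2 * Equiv.swap 2 3

/-- `S` is isomorphic to the group `Steinb M γ q` over the field with `q ^ k` elements. -/
def IsCh (S : Type) [Group S] (M : Matrix (Fin l) (Fin l) ℤ) (γ : Equiv.Perm (Fin l)) (k q : ℕ) :
    Prop :=
  ∃ (F : Type) (_ : Field F) (_ : Finite F), Nat.card F = q ^ k ∧ Nonempty (S ≃* Steinb M γ q F)

end Pool.Agent.Lib.MP_7d41f7_al
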