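import Pool.Agent.Lib.MP_7d41f7_al.E.ERt
import Pool.Agent.Lib.MP_7d41f7_al.C.AO

/-! Eigenvalues of lattice automorphisms of finite order modulo a prime. -/

set_option autoImplicit false

namespace Pool.Agent.Lib.MP_7d41f7_al

open Polynomial

variable {l o q r u : ℕ} {w : Au l} {K : Type} [Field K]

/-- Induction over the prime factors of `g`. -/
theorem cyc_dvd {g : ℤ[X]} {k : ℕ} (hg : g.Monic) (h : g ∣ (X ^ o - 1) ^ k) (hr : r.Prime)
    (ho : ¬ r ∣ o) (hd : (r : ℤ) ∣ g.eval (q : ℤ)) : cyclotomic (Ord q r) ℤ ∣ g := by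
  clear hg
  have := Fact.mk hr
  have hp := Nat.prime_iff_prime_int.1 hr
  induction g using UniqueFactorizationMonoid.induction_on_prime with
  | h₁ => exact dvd_zero _
  | h₂ a ha => exact (hp.not_isUnit (isUnit_of_dvd_unit hd (ha.map (evalRingHom (q : ℤ))))).elim
  | h₃ a p _ hq ih =>
    rw [eval_mul] at hd
    rcases hp.dvd_or_dvd hd with hd | hd
    · have h1 := hq.dvd_of_dvd_pow ((dvd_mul_right p a).trans h)
      rw [← prod_cyclotomic_eq_X_pow_sub_one (Nat.pos_of_ne_zero (n := o) fun e => ho (by simp [e]))]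
        at h1
      obtain ⟨d, h2, h3⟩ := (Prime.dvd_finsetProd_iff hq _).1 h1
      have : NeZero (d : ZMod r) := ⟨fun e => ho
        (((ZMod.natCast_eq_zero_iff d r).1 e).trans (Nat.dvd_of_mem_divisors h2))⟩
      have h4 : IsRoot (cyclotomic d (ZMod r)) ((q : ℤ) : ZMod r) := by
        rw [← map_cyclotomic_int, IsRoot, eval_intCast_map, eq_intCast,
          ZMod.intCast_zmod_eq_zero_iff_dvd]
        exact hd.trans (eval_dvd h3)
      rw [Ord, ← (isRoot_cyclotomic_iff.1 h4).eq_orderOf]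
      exact (hq.irreducible.associated_of_dvd
        (cyclotomic.irreducible (Nat.pos_of_mem_divisors h2)) h3).symm.dvd.mul_right a
    · exact (ih ((dvd_mul_left a p).trans h) hd).mul_left p

/-- The matrix `X - w` divides `X ^ o - w ^ o`; take determinants. -/
theorem charpoly_dvd (hw : w ^ o = 1) :
    ∃ k, (w : Lat l →ₗ[ℤ] Lat l).charpoly ∣ (X ^ o - 1) ^ k := by
  set M := LinearMap.toMatrix' (w : Lat l →ₗ[ℤ] Lat l) with hM
  have h1 : M ^ o = 1 := by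
    have e : (w : Lat l →ₗ[ℤ] Lat l) ^ o = 1 := LinearMap.ext fun b => by
      rw [Module.End.pow_apply, LinearEquiv.coe_coe, ← LinearEquiv.pow_apply, hw]
      rfl
    exact (map_pow LinearMap.toMatrixAlgEquiv' _ o).symm.trans (by rw [e, map_one])
  have h2 := map_dvd Matrix.detMonoidHom (Commute.sub_dvd_pow_sub_pow
    (Matrix.scalar_commute (X : ℤ[X]) (fun _ => Commute.all _ _) ((C : ℤ →+* ℤ[X]).mapMatrix M)) o)
  rw [← map_pow, ← map_pow, h1, map_one, ← map_one (Matrix.scalar (Fin l)), ← map_sub] at h2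
  refine ⟨l, ?_⟩
  rw [← LinearMap.charpoly_toMatrix _ (Pi.basisFun ℤ (Fin l)), LinearMap.toMatrix_eq_toMatrix']
  simpa [Matrix.charpoly, Matrix.charmatrix, Matrix.det_diagonal] using h2

/-- Reduce the matrix of `w` modulo `r`; the `f i` are eigenvectors of the transpose. -/
theorem eig_root (hr : r.Prime) {k : ℕ} (f : Fin k → Lat l →+ ZMod r)
    (hf : LinearIndependent (ZMod r) fun i => fun j => f i (sr j))
    (h : ∀ i b, f i (w b) = q * f i b) :
    (X - C (q : ZMod r)) ^ k ∣ ((w : Lat l →ₗ[ℤ] Lat l).charpoly.map (Int.castRingHom (ZMod r))) := by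
  have := Fact.mk hr
  set φ := Matrix.toLin' ((LinearMap.toMatrix' (w : Lat l →ₗ[ℤ] Lat l)).map
    (Int.castRingHom (ZMod r))).transpose with hφ
  have h1 : ∀ i, (fun j => f i (sr j)) ∈ Module.End.eigenspace φ (q : ZMod r) := fun i => by
    rw [Module.End.mem_eigenspace_iff]
    ext j
    rw [Pi.smul_apply, smul_eq_mul, ← h, pi_eq_sum_univ' (w (sr j)), map_sum]
    simp only [map_zsmul]
    simp [hφ, Matrix.mulVec, dotProduct, sr]
  have h2 := (LinearIndependent.of_comp (v := fun i => (⟨_, h1 i⟩ : Module.End.eigenspace φ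
    (q : ZMod r))) (Submodule.subtype _) hf).fintype_card_le_finrank
  rw [Fintype.card_fin] at h2
  have h3 := (le_rootMultiplicity_iff φ.charpoly_monic.ne_zero).1
    (h2.trans (φ.finrank_eigenspace_le q))
  rwa [hφ, Matrix.charpoly_toLin', Matrix.charpoly_transpose, Matrix.charpoly_map,
    ← LinearMap.toMatrix_eq_toMatrix', LinearMap.charpoly_toMatrix] at h3

theorem exists_log_aux (hr : r.Prime) :
    ∃ φ : rootsOfUnity r K →* Multiplicative (ZMod r), Function.Injective φ := by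
  have := Fact.mk hr
  by_cases h : ∃ ζ : Kˣ, IsPrimitiveRoot ζ r
  · obtain ⟨ζ, h⟩ := h
    rw [← h.zpowers_eq]
    exact ⟨AddMonoidHom.toMultiplicativeRight h.zmodEquivZPowers.symm.toAddMonoidHom,
      h.zmodEquivZPowers.symm.injective⟩
  · have k : ∀ x : rootsOfUnity r K, x = 1 := fun x => Subtype.ext <| by_contra fun e =>
      h ⟨x, IsPrimitiveRoot.iff_orderOf.2 (orderOf_eq_prime ((mem_rootsOfUnity _ _).1 x.2) e)⟩
    exact ⟨1, fun x y _ => (k x).trans (k y).symm⟩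

/-- The logarithm of a character with values in the `r`-th roots of unity. -/
theorem exists_log (hr : r.Prime) : ∃ L : {χ : Multiplicative (Lat l) →* Kˣ // χ ^ r = 1} →
    (Lat l →+ ZMod r), Function.Injective L ∧
      (∀ χ ψ (k : ℕ), ψ.1 = χ.1 ^ k → L ψ = k • L χ) ∧
      ∀ χ a b (k : ℕ), χ.1 (.ofAdd a) = χ.1 (.ofAdd b) ^ k → L χ a = k * L χ b := by
  obtain ⟨φ, hφ⟩ := exists_log_aux (K := K) hr
  have m : ∀ (χ : {χ : Multiplicative (Lat l) →* Kˣ // χ ^ r = 1}) a, χ.1 a ∈ rootsOfUnity r K :=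
    fun χ a => (mem_rootsOfUnity _ _).2 (DFunLike.congr_fun χ.2 a)
  have e : ∀ χ ψ a b (k : ℕ), ψ.1 a = χ.1 b ^ k →
      (φ ⟨_, m ψ a⟩).toAdd = k • (φ ⟨_, m χ b⟩).toAdd := fun χ ψ a b k h => by
    rw [← toAdd_pow, ← map_pow]
    exact congrArg (fun x => (φ x).toAdd) (Subtype.ext h)
  refine ⟨fun χ => AddMonoidHom.toMultiplicative.symm (φ.comp (χ.1.codRestrict _ (m χ))),
    fun χ ψ h => Subtype.ext (MonoidHom.ext fun a => ?_), fun χ ψ k h => ?_, fun χ a b k h => ?_⟩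
  · exact congrArg Subtype.val (hφ (DFunLike.congr_fun h a.toAdd))
  · exact AddMonoidHom.ext fun a => e χ ψ _ _ k (DFunLike.congr_fun h _)
  · exact (e χ χ _ _ k h).trans (nsmul_eq_mul _ _)

theorem lat_one (hw : w ^ o = 1) (hr : r.Prime) (ho : ¬ r ∣ o)
    {χ : Multiplicative (Lat l) →* Kˣ} (h1 : χ ^ r = 1) (h0 : χ ≠ 1)
    (h : ∀ b, χ (.ofAdd (w b)) = χ (.ofAdd b) ^ q) :
    cyclotomic (Ord q r) ℤ ∣ (w : Lat l →ₗ[ℤ] Lat l).charpoly := by
  have := Fact.mk hr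
  obtain ⟨L, hL, h2, h3⟩ := exists_log (l := l) (K := K) hr
  obtain ⟨k, hk⟩ := charpoly_dvd hw
  have h5 : (1 : Multiplicative (Lat l) →* Kˣ) ^ r = 1 := MonoidHom.ext fun _ => one_pow r
  have h4 := eig_root (w := w) (q := q) hr (fun _ : Fin 1 => L ⟨χ, h1⟩)
    (linearIndependent_unique_iff.2 fun e => h0 (congrArg Subtype.val
      (hL (a₁ := ⟨χ, h1⟩) (a₂ := ⟨1, h5⟩) ?_))) fun _ b => h3 _ _ _ _ (h b)
  · refine cyc_dvd (LinearMap.charpoly_monic _) hk hr ho ?_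
    rw [pow_one, dvd_iff_isRoot, ← Int.cast_natCast, IsRoot, eval_intCast_map, eq_intCast] at h4
    exact (ZMod.intCast_zmod_eq_zero_iff_dvd _ _).1 h4
  · rw [h2 ⟨χ, h1⟩ ⟨1, h5⟩ 0 (MonoidHom.ext fun _ => (pow_zero _).symm), zero_smul]
    refine AddMonoidHom.ext fun b => ?_
    rw [pi_eq_sum_univ' b, map_sum, map_sum]
    exact Finset.sum_congr rfl fun j _ => by
      rw [map_zsmul, map_zsmul]
      exact congrArg _ (congrFun e j)

theorem lat_adj (hw : w ^ o = 1) (hr : r.Prime) (hu : u.Prime) (ho : ¬ r ∣ o) (ho' : ¬ u ∣ o)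
    {χ ψ : Multiplicative (Lat l) →* Kˣ} (h1 : χ ^ r = 1) (h0 : χ ≠ 1) (h1' : ψ ^ u = 1)
    (h0' : ψ ≠ 1) (h : ∀ b, χ (.ofAdd (w b)) = χ (.ofAdd b) ^ q)
    (h' : ∀ b, ψ (.ofAdd (w b)) = ψ (.ofAdd b) ^ q) (hq : 0 < Ord q r) (hq' : 0 < Ord q u)
    (hne : Ord q u ≠ Ord q r) : (Ord q u).totient + (Ord q r).totient ≤ l := by
  have key : ∀ e, cyclotomic e ℤ ∣ (w : Lat l →ₗ[ℤ] Lat l).charpoly → cyclotomic e ℚ ∣
      (w : Lat l →ₗ[ℤ] Lat l).charpoly.map (Int.castRingHom ℚ) := fun e h =>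
    map_cyclotomic_int e ℚ ▸ Polynomial.map_dvd _ h
  have hm := (LinearMap.charpoly_monic (w : Lat l →ₗ[ℤ] Lat l))
  have h2 := natDegree_le_of_dvd ((cyclotomic.isCoprime_rat hne).mul_dvd
    (key _ (lat_one hw hu ho' h1' h0' h')) (key _ (lat_one hw hr ho h1 h0 h))) (hm.map _).ne_zero
  rwa [(cyclotomic.monic _ _).natDegree_mul (cyclotomic.monic _ _), natDegree_cyclotomic,
    natDegree_cyclotomic, hm.natDegree_map, LinearMap.charpoly_natDegree,
    Module.finrank_fin_fun] at h2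

theorem lat_cyc_ext {A : Type} [AddCommGroup A] {f g : Lat l →+ A} (h : ∀ j, f (sr j) = g (sr j)) :
    f = g :=
  AddMonoidHom.functions_ext' _ _ _ fun j => AddMonoidHom.ext_int (h j)

theorem lat_cyc (hw : w ^ o = 1) (hr : r.Prime) (ho : ¬ r ∣ o)
    {χ ψ : Multiplicative (Lat l) →* Kˣ} (h1 : χ ^ r = 1) (h0 : χ ≠ 1) (h1' : ψ ^ r = 1)
    (h : ∀ b, χ (.ofAdd (w b)) = χ (.ofAdd b) ^ q)
    (h' : ∀ b, ψ (.ofAdd (w b)) = ψ (.ofAdd b) ^ q) (hl : l < 2 * (Ord q r).totient) :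
    ∃ k : ℕ, ψ = χ ^ k := by
  have := Fact.mk hr
  obtain ⟨L, L1, L2, L3⟩ := exists_log (l := l) (K := K) hr
  have hp : ∀ k : ℕ, (χ ^ k) ^ r = 1 := fun k => MonoidHom.ext fun x => by
    have := DFunLike.congr_fun h1 x
    rw [MonoidHom.pow_apply, MonoidHom.one_apply] at this ⊢
    rw [MonoidHom.pow_apply, ← pow_mul, mul_comm, pow_mul, this, one_pow]
  by_contra! hn
  have hi : LinearIndependent (ZMod r) fun i => fun j => ![L ⟨ψ, h1'⟩, L ⟨χ, h1⟩] i (sr j) := by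
    refine linearIndependent_fin2.2 ⟨fun e => h0 ?_, fun a e => hn a.val ?_⟩
    · refine (congrArg Subtype.val (L1 (a₁ := ⟨χ, h1⟩) (a₂ := ⟨χ ^ 0, hp 0⟩) ?_)).trans
        (MonoidHom.ext fun x => pow_zero _)
      rw [L2 ⟨χ, h1⟩ ⟨χ ^ 0, hp 0⟩ 0 rfl, zero_smul]
      exact lat_cyc_ext fun j => congrFun e j
    · refine congrArg Subtype.val (L1 (a₁ := ⟨ψ, h1'⟩) (a₂ := ⟨χ ^ a.val, hp _⟩) ?_)
      rw [L2 ⟨χ, h1⟩ ⟨χ ^ a.val, hp _⟩ a.val rfl]
      refine lat_cyc_ext fun j => (congrFun e j).symm.trans ?_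
      simp
  have h2 := eig_root (w := w) (q := q) hr _ hi (Fin.forall_fin_two.2
    ⟨fun b => L3 ⟨ψ, h1'⟩ _ _ _ (h' b), fun b => L3 ⟨χ, h1⟩ _ _ _ (h b)⟩)
  obtain ⟨g, hg⟩ := lat_one hw hr ho h1 h0 h
  obtain ⟨k, hk⟩ := charpoly_dvd hw
  have hm := (LinearMap.charpoly_monic (w : Lat l →ₗ[ℤ] Lat l))
  have hd := LinearMap.charpoly_natDegree (w : Lat l →ₗ[ℤ] Lat l)
  rw [hg] at hm hd hk h2
  have gm : g.Monic := (cyclotomic.monic _ _).of_mul_monic_left hm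
  rw [(cyclotomic.monic _ _).natDegree_mul gm, natDegree_cyclotomic, Module.finrank_fin_fun] at hd
  have e0 : 0 < Ord q r := Nat.totient_pos.1 (by omega)
  have e1 : Ord q r ∣ r - 1 := ZMod.orderOf_dvd_card_sub_one fun e =>
    e0.ne' (Ord.eq_zero hr ((ZMod.intCast_zmod_eq_zero_iff_dvd _ _).1 e))
  have : NeZero ((Ord q r : ℕ) : ZMod r) := ⟨fun e => by
    have a1 := Nat.le_of_dvd e0 ((ZMod.natCast_eq_zero_iff _ _).1 e)
    have a2 := Nat.le_of_dvd (Nat.sub_pos_of_lt hr.one_lt) e1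
    have a3 := hr.pos
    omega⟩
  have h3 : (r : ℤ) ∣ g.eval (q : ℤ) := by
    by_contra c
    rw [Polynomial.map_mul, map_cyclotomic_int] at h2
    have h4 : IsCoprime (X - C (q : ZMod r)) (g.map (Int.castRingHom (ZMod r))) :=
      (irreducible_X_sub_C _).coprime_iff_not_dvd.2 fun e => c (by
        rw [dvd_iff_isRoot, IsRoot, ← Int.cast_natCast, eval_intCast_map] at e
        exact (ZMod.intCast_zmod_eq_zero_iff_dvd _ _).1 e)
    exact (irreducible_X_sub_C _).not_isUnit (squarefree_cyclotomic _ (ZMod r) _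
      (pow_two (X - C (q : ZMod r)) ▸ h4.pow_left.dvd_of_dvd_mul_right h2))
  have h5 := natDegree_le_of_dvd (cyc_dvd gm ((dvd_mul_left _ _).trans hk) hr ho h3) gm.ne_zero
  rw [natDegree_cyclotomic] at h5
  omega

theorem lat_quot_ext {A : Type} [AddCommGroup A] {f f' : Lat l →ₗ[ℤ] A}
    (h : ∀ i, f (sr i) = f' (sr i)) (b : Lat l) : f b = f' b :=
  LinearMap.congr_fun ((Pi.basisFun ℤ (Fin l)).ext fun i => by
    rw [Pi.basisFun_apply]
    exact h i) b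

theorem lat_quot_map {l' : ℕ} (e : Fin l → Fin l') :
    ∃ P : Lat l →ₗ[ℤ] Lat l', ∀ i, P (sr i) = sr (e i) :=
  ⟨(Pi.basisFun ℤ (Fin l)).constr ℤ fun i => sr (e i), fun i => by
    have := (Pi.basisFun ℤ (Fin l)).constr_basis ℤ (fun i => sr (e i)) i
    rwa [Pi.basisFun_apply] at this⟩

theorem lat_quot_cyc {A : Type} [AddCommGroup A] {g : Equiv.Perm (Fin l)} (f : Lat l →ₗ[ℤ] A)
    (h : ∀ b, f (ga g b) = f b) {i j : Fin l} (c : g.SameCycle i j) : f (sr i) = f (sr j) := by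
  obtain ⟨n, rfl⟩ := c.exists_nat_pow_eq
  clear c
  induction n with
  | zero => rfl
  | succ n ih => rw [pow_succ', Equiv.Perm.mul_apply, ← ga_sr, h, ih]

/-- Passage to the quotient by the orbits of `g`. -/
theorem lat_quot {l' : ℕ} {g : Equiv.Perm (Fin l)} (e : Fin l → Fin l') (s : Fin l' → Fin l)
    (hs : ∀ j, e (s j) = j) (he : ∀ i j, e i = e j ↔ g.SameCycle i j) (hw : w ^ o = 1)
    (hc : w * ga g = ga g * w) : ∃ (w' : Au l') (P : Lat l →ₗ[ℤ] Lat l'), w' ^ o = 1 ∧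
      (∀ i, P (sr i) = sr (e i)) ∧ Function.Surjective P ∧ (∀ b, P (w b) = w' (P b)) ∧
      ∀ χ : Multiplicative (Lat l) →* Kˣ, (∀ b, χ (.ofAdd (ga g b)) = χ (.ofAdd b)) →
        ∃ χ' : Multiplicative (Lat l') →* Kˣ, ∀ b, χ (.ofAdd b) = χ' (.ofAdd (P b)) := by
  obtain ⟨P, hP⟩ := lat_quot_map e
  obtain ⟨S, hS⟩ := lat_quot_map s
  have h1 : ∀ c, P (S c) = c := lat_quot_ext (f := P ∘ₗ S) (f' := LinearMap.id) fun j => by
    rw [LinearMap.comp_apply, hS, hP, hs, LinearMap.id_apply]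
  have h2 : ∀ {A : Type} [AddCommGroup A] (f : Lat l →ₗ[ℤ] A), (∀ b, f (ga g b) = f b) →
      ∀ b, f b = f (S (P b)) := fun f hf => lat_quot_ext (f' := f ∘ₗ S ∘ₗ P) fun i => by
    rw [LinearMap.comp_apply, LinearMap.comp_apply, hP, hS]
    exact lat_quot_cyc f hf ((he _ _).1 (hs _).symm)
  have h3 : ∀ b, P (ga g b) = P b :=
    lat_quot_ext (f := P ∘ₗ (ga g : Lat l →ₗ[ℤ] Lat l)) fun i => by
      rw [LinearMap.comp_apply, LinearEquiv.coe_coe, ga_sr, hP, hP,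
        (he (g i) i).2 (Equiv.Perm.sameCycle_apply_left.2 (Equiv.Perm.SameCycle.refl g i))]
  have h4 : ∀ v : Au l, v * ga g = ga g * v → ∀ b, P (v b) = P (v (S (P b))) := fun v hv =>
    h2 (P ∘ₗ (v : Lat l →ₗ[ℤ] Lat l)) fun b => by
      have : v (ga g b) = ga g (v b) := DFunLike.congr_fun hv b
      simp only [LinearMap.comp_apply, LinearEquiv.coe_coe, this, h3]
  have hc' : w⁻¹ * ga g = ga g * w⁻¹ := (Commute.inv_left hc).eq
  have i1 : ∀ b, w (w⁻¹ b) = b := fun b => DFunLike.congr_fun (mul_inv_cancel w) b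
  have i2 : ∀ b, w⁻¹ (w b) = b := fun b => DFunLike.congr_fun (inv_mul_cancel w) b
  obtain ⟨w', h5⟩ : ∃ w' : Au l', ∀ b, P (w b) = w' (P b) :=
    ⟨LinearEquiv.ofLinearMap (P ∘ₗ (w : Lat l →ₗ[ℤ] Lat l) ∘ₗ S)
      (P ∘ₗ ((w⁻¹ : Au l) : Lat l →ₗ[ℤ] Lat l) ∘ₗ S)
      (LinearMap.ext fun c => by
        simp only [LinearMap.comp_apply, LinearEquiv.coe_coe, LinearMap.id_apply]
        rw [← h4 w hc, i1, h1])
      (LinearMap.ext fun c => by
        simp only [LinearMap.comp_apply, LinearEquiv.coe_coe, LinearMap.id_apply]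
        rw [← h4 w⁻¹ hc', i2, h1]), h4 w hc⟩
  have h6 : ∀ (n : ℕ) b, P ((w ^ n) b) = (w' ^ n) (P b) := fun n => by
    induction n with
    | zero => exact fun b => rfl
    | succ n ih =>
      intro b
      rw [pow_succ', pow_succ', LinearEquiv.mul_apply, LinearEquiv.mul_apply, h5, ih]
  refine ⟨w', P, LinearEquiv.ext fun c => ?_, hP, fun c => ⟨S c, h1 c⟩, h5, fun χ hχ => ?_⟩
  · rw [← h1 c, ← h6, hw]
    rfl
  · refine ⟨χ.comp (AddMonoidHom.toMultiplicative S.toAddMonoidHom), fun b => ?_⟩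
    exact h2 (A := Additive Kˣ) (AddMonoidHom.mk' (fun b => Additive.ofMul (χ (.ofAdd b)))
      fun a b => by rw [ofAdd_add, map_mul, ofMul_mul]).toIntLinearMap hχ b

end Pool.Agent.Lib.MP_7d41f7_al
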