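import Pool.Agent.Lib.MP_7d41f7_al.E.ETr
import Pool.Agent.Lib.MP_7d41f7_al.E.ELat

/-! Conjugation into the torus over a large field. -/

set_option autoImplicit false

namespace Pool.Agent.Lib.MP_7d41f7_al

theorem fix_modEq {X : Type} [Finite X] (e : Equiv.Perm X) {p k : ℕ} (hp : p.Prime)
    (he : e ^ p ^ k = 1) (Y : Set X) (hY : ∀ x ∈ Y, e x ∈ Y) :
    Nat.card Y ≡ Nat.card {x // x ∈ Y ∧ e x = x} [MOD p] := by
  classical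
  have := Fact.mk hp
  have := Fintype.ofFinite Y
  let f : Function.End Y := fun y => ⟨e y, hY y y.2⟩
  have h1 : ∀ (n : ℕ) (y : Y), ((f ^ n) y : X) = (e ^ n) y := by
    intro n
    induction n with
    | zero => exact fun _ => rfl
    | succ n ih => exact fun y => by rw [pow_succ, pow_succ]; exact ih (f y)
  have h2 := Equiv.Perm.card_fixedPoints_modEq (f := f) (p := p) (n := k)
    (funext fun y => Subtype.ext (by rw [h1, he]; rfl))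
  rw [← Nat.card_eq_fintype_card, ← Nat.card_eq_fintype_card] at h2
  refine h2.trans (congrArg (· % p) (Nat.card_congr ?_))
  exact ⟨fun y => ⟨y.1.1, y.1.2, congrArg Subtype.val y.2⟩,
    fun x => ⟨⟨x.1, x.2.1⟩, Subtype.ext x.2.2⟩, fun _ => rfl, fun _ => rfl⟩

namespace CG

variable {l : ℕ} {M : Matrix (Fin l) (Fin l) ℤ} {K Γ : Type} [Field K] [Group Γ] {C : CG M K Γ}
  {g g₁ : Equiv.Perm (Fin l)} {σ F : Γ →* Γ} {f : K →+* K} {q r s : ℕ} {x y z t t₀ u v : Γ}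
  {χ : Multiplicative (Lat l) →* Kˣ}

/-- The cosets fixed by `t` and by the product of `σ` and `t₀`. -/
def Ys (C : CG M K Γ) (σ : Γ →* Γ) (t₀ t : Γ) : Set (Γ ⧸ C.T) :=
  {c | ∃ x : Γ, (x : Γ ⧸ C.T) = c ∧ x⁻¹ * t₀ * σ x ∈ C.T ∧ x⁻¹ * t * x ∈ C.T}

variable (hA : Ade M)
include hA

theorem mem_Ys (hσ : C.Hom C σ f (ga g)) :
    (x : Γ ⧸ C.T) ∈ C.Ys σ t₀ t ↔ x⁻¹ * t₀ * σ x ∈ C.T ∧ x⁻¹ * t * x ∈ C.T := by
  have _ := hA
  refine ⟨fun ⟨y, e, h1, h2⟩ => ?_, fun h => ⟨x, rfl, h⟩⟩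
  have h3 := QuotientGroup.eq.1 e
  have h4 := mul_mem (mul_mem (inv_mem h3) h1) (hσ.map_T h3)
  have h5 := mul_mem (mul_mem (inv_mem h3) h2) h3
  exact ⟨by simpa [mul_assoc] using h4, by simpa [mul_assoc] using h5⟩

theorem exists_reg [Finite K] (hS : Sy M g) (hσ : C.Hom C σ (RingHom.id K) (ga g)) (hr : r.Prime)
    (hK : r ^ 7 ∣ Nat.card K - 1) :
    ∃ h ∈ C.T, σ h = h ∧ h ^ r ^ 7 = 1 ∧ ∃ χ, C.Chi h χ ∧ Reg M χ := by
  obtain ⟨c₀, hc₀⟩ := IsCyclic.exists_ofOrder_eq_natCard (α := Kˣ)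
  rw [← Nat.card_units, ← hc₀] at hK
  have hc := orderOf_pow_orderOf_div (orderOf_pos c₀).ne' hK
  generalize c₀ ^ (orderOf c₀ / r ^ 7) = c at hc
  obtain ⟨μ, hμ, hb⟩ := hA.exists_rho
  obtain ⟨h, hT, hχ⟩ := exists_cor hA C μ c
  have e : ∀ b, cch M μ c (.ofAdd b) = c ^ (2 * hgt b) := fun b => congrArg (c ^ ·) (hμ b)
  refine ⟨h, hT, ?_, ?_, _, hχ, fun b h1 h2 => ?_⟩
  · obtain ⟨ψ, hψ⟩ := exists_chi hA (hσ.map_T hT)
    refine Chi.eq (hσ.map_T hT) hT hψ (Eq.subst (MonoidHom.ext fun b => ?_) hχ)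
    obtain ⟨b, rfl⟩ : ∃ a, Multiplicative.ofAdd (ga g a) = b :=
      ⟨(ga g).symm b.toAdd, by simp⟩
    rw [hσ.chi hA hS hχ hψ, e, e, ga_hgt]
    exact Units.ext (by simp)
  · refine Chi.eq (pow_mem hT _) (one_mem _) (hχ.pow _) (Eq.subst (MonoidHom.ext fun b => ?_) Chi.one)
    change (1 : Kˣ) = (c ^ ip M μ b.toAdd) ^ r ^ 7
    rw [← zpow_natCast, ← zpow_mul, mul_comm, zpow_mul, zpow_natCast, ← hc, pow_orderOf_eq_one,
      one_zpow]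
  · rw [e, ← orderOf_dvd_iff_zpow_eq_one, hc] at h2
    have h3 : hgt b ≠ 0 := by
      rcases hA.pos_or_neg h1 with k | k
      · exact (hgt_pos k (hA.ne_zero h1)).ne'
      · have := hgt_pos (neg_nonneg.2 k) (neg_ne_zero.2 (hA.ne_zero h1))
        rw [hgt_neg] at this
        omega
    have h4 := Int.natAbs_le_of_dvd_ne_zero h2 (by omega)
    have h5 : 2 ^ 7 ≤ r ^ 7 := Nat.pow_le_pow_left hr.two_le 7
    have h6 := hb b h1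
    rw [Int.natAbs_natCast] at h4
    omega

omit hA in
theorem card_Ys_aux1 (n m : C.N) : (n : Γ)⁻¹ * m ∈ C.T ↔ C.π n = C.π m := by
  refine ⟨fun h => ?_, fun h => mem_T.2 ⟨n⁻¹ * m, by rw [map_mul, map_inv, h, inv_mul_cancel], rfl⟩⟩
  obtain ⟨k, h1, h2⟩ := mem_T.1 h
  rw [show k = n⁻¹ * m from Subtype.ext h2, map_mul, map_inv] at h1
  exact inv_mul_eq_one.1 h1

omit hA in
theorem card_Ys_aux2 (hσ : C.Hom C σ f (ga g)) (h0 : t₀ ∈ C.T) (n : C.N) :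
    (n : Γ)⁻¹ * t₀ * σ n ∈ C.T ↔ C.π n ∈ Wf M g := by
  obtain ⟨m, e, hm⟩ := hσ.N n
  have h1 : (n : Γ)⁻¹ * t₀ * n ∈ C.T := by simpa using conj_T n⁻¹ h0
  rw [show (n : Γ)⁻¹ * t₀ * σ n = (n : Γ)⁻¹ * t₀ * n * ((n : Γ)⁻¹ * m) by simp [e, mul_assoc],
    Subgroup.mul_mem_cancel_left _ h1, card_Ys_aux1, hm, mem_Wf, eq_mul_inv_iff_mul_eq]
  exact (and_iff_right (C.π_mem n)).symm

/-- The cosets fixed by a regular element correspond to the elements of `Wf`. -/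
theorem card_Ys [Finite K] [Finite Γ] (hS : Sy M g) (hσ : C.Hom C σ (RingHom.id K) (ga g))
    (hr : r.Prime) (hK : r ^ 7 ∣ Nat.card K - 1) (h0 : t₀ ∈ C.T) (ht : t ∈ C.T) :
    Nat.card (C.Ys σ t₀ t) ≡ Nat.card (Wf M g) [MOD r] := by
  obtain ⟨h, hT, h1, h2, χ, hχ, hR⟩ := exists_reg hA hS hσ hr hK
  have hc : ∀ a ∈ C.T, ∀ x y : Γ, (h * x)⁻¹ * a * (h * y) = x⁻¹ * a * y := fun a ha x y => by
    rw [mul_inv_rev, mul_assoc x⁻¹, (T_comm hA (inv_mem hT) ha).eq]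
    simp [mul_assoc]
  refine (fix_modEq (MulAction.toPermHom Γ (Γ ⧸ C.T) h) (k := 7) hr
    (by rw [← map_pow, h2, map_one]) _ fun c hc' => ?_).trans (congrArg (· % r) ?_)
  · obtain ⟨x, rfl⟩ := QuotientGroup.mk_surjective c
    refine (mem_Ys hA hσ (x := h * x)).2 ?_
    rw [map_mul, h1, hc _ h0, hc _ ht]
    exact (mem_Ys hA hσ).1 hc'
  choose ν hν using fun w : Wf M g => π_surj (C := C) hA (mem_Wf.1 w.2).1
  refine (Nat.card_eq_of_bijective (fun w => ⟨(ν w : Γ), (mem_Ys hA hσ).2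
    ⟨(card_Ys_aux2 hσ h0 _).2 (hν w ▸ w.2), by simpa using conj_T (ν w)⁻¹ ht⟩,
    QuotientGroup.eq.2 (by simpa [mul_assoc] using conj_T (ν w)⁻¹ (inv_mem hT))⟩) ⟨?_, ?_⟩).symm
  · intro w w' e
    have h3 := (card_Ys_aux1 _ _).1 (QuotientGroup.eq.1 (congrArg Subtype.val e))
    exact Subtype.ext (by rwa [hν, hν] at h3)
  · rintro ⟨c, hc1, hc2⟩
    obtain ⟨x, rfl⟩ := QuotientGroup.mk_surjective c
    have h3 : x⁻¹ * (h * x) ∈ C.T := QuotientGroup.eq.1 hc2.symm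
    have h4 : x ∈ C.N := reg_N hA hT h3 hχ hR (by simp)
    refine ⟨⟨_, (card_Ys_aux2 hσ h0 ⟨x, h4⟩).1 ((mem_Ys hA hσ).1 hc1).1⟩, Subtype.ext ?_⟩
    exact QuotientGroup.eq.2 ((card_Ys_aux1 _ ⟨x, h4⟩).2 (hν _))

theorem tor2_aux [Finite K] [Finite Γ] (hS : Sy M g) (hσ : C.Hom C σ (RingHom.id K) (ga g))
    (hr : r.Prime) (hl : Gd M r) (hK : r ^ 7 ∣ Nat.card K - 1) (h0 : t₀ ∈ C.T) (ht : t ∈ C.T)
    (hy : y⁻¹ * t₀ * σ y = t₀) (hy' : y ^ r = 1) (hc : y⁻¹ * t * y = t) :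
    ∃ x : Γ, x⁻¹ * t₀ * σ x ∈ C.T ∧ x⁻¹ * t * x ∈ C.T ∧ x⁻¹ * y * x ∈ C.T := by
  have h := fix_modEq (MulAction.toPermHom Γ (Γ ⧸ C.T) y) (k := 1) hr
    (by rw [pow_one, ← map_pow, hy', map_one]) (C.Ys σ t₀ t) (by
      rintro _ ⟨x, rfl, h1, h2⟩
      refine ⟨y * x, rfl, ?_, ?_⟩
      · rwa [show (y * x)⁻¹ * t₀ * σ (y * x) = x⁻¹ * (y⁻¹ * t₀ * σ y) * σ x by
          rw [map_mul]; group, hy]
      · rwa [show (y * x)⁻¹ * t * (y * x) = x⁻¹ * (y⁻¹ * t * y) * x by group, hc])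
  have h' := (card_Ys hA hS hσ hr hK h0 ht).symm.trans h
  obtain ⟨⟨_, ⟨x, rfl, h1, h2⟩, h3⟩⟩ := (Nat.card_ne_zero.1 fun e =>
    hA.not_dvd_Wf g hr hl (Nat.modEq_zero_iff_dvd.1 (e ▸ h'))).1
  refine ⟨x, h1, h2, ?_⟩
  rw [mul_assoc]
  exact QuotientGroup.eq.1 h3.symm

/-- Fixed cosets, first for `y` and then for a conjugate of `z`. -/
theorem tor2 [Finite K] [Finite Γ] (hS : Sy M g) (hσ : C.Hom C σ (RingHom.id K) (ga g))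
    (hr : r.Prime) (hs : s.Prime) (hl : Gd M r) (hl' : Gd M s)
    (hK : r ^ 7 ∣ Nat.card K - 1) (hK' : s ^ 7 ∣ Nat.card K - 1) (hy : σ y = y) (hz : σ z = z)
    (hy' : y ^ r = 1) (hz' : z ^ s = 1) (hc : Commute y z) :
    ∃ x : Γ, x⁻¹ * σ x ∈ C.T ∧ x⁻¹ * y * x ∈ C.T ∧ x⁻¹ * z * x ∈ C.T := by
  obtain ⟨a, h1, -, h2⟩ := tor2_aux hA hS hσ hr hl hK C.T.one_mem C.T.one_mem (y := y)
    (by simp [hy]) hy' (by simp)
  rw [mul_one] at h1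
  obtain ⟨b, h3, h4, h5⟩ := tor2_aux hA hS hσ hs hl' hK' h1 h2 (y := a⁻¹ * z * a)
    (by simp only [map_mul, map_inv, hz]; group)
    (by simpa [hz'] using conj_pow (i := s) (a := a⁻¹) (b := z))
    (by rw [show (a⁻¹ * z * a)⁻¹ * (a⁻¹ * y * a) * (a⁻¹ * z * a) = a⁻¹ * (z⁻¹ * (y * z)) * a by
      group, hc.eq, inv_mul_cancel_left])
  refine ⟨a * b, ?_, ?_, ?_⟩
  · simpa only [map_mul, mul_inv_rev, mul_assoc] using h3
  · simpa only [mul_inv_rev, mul_assoc] using h4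
  · simpa only [mul_inv_rev, mul_assoc] using h5

theorem tor3_aux {u' v' : Γ} {m m' n n' : C.N} (hm : C.π m = 1) (hm' : C.π m' = 1) (hu : u ∈ C.U)
    (hv : v ∈ C.U) (hu' : u' ∈ C.U) (hv' : v' ∈ C.U) (e : m * (u * n * v) * m' = u' * n' * v') :
    m * n * m' = n' :=
  uniq_N hA (T_conj_Us hA ⟨m, hm, rfl⟩ hu) (T_conj_Us hA (inv_mem ⟨m', hm', rfl⟩) hv) hu' hv' (by
    rw [← e, Subgroup.coe_mul, Subgroup.coe_mul, Subgroup.subtype_apply, Subgroup.subtype_apply]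
    group)

theorem tor3 (hS : Sy M g) (hF : C.Hom C F f (ga g)) (hf : ∀ a, f a = a ^ q) {n : C.N}
    (hu : u ∈ C.U) (hv : v ∈ C.U) (e : x⁻¹ * F x = u * n * v) (hy : F y = y)
    (hT : x⁻¹ * y * x ∈ C.T) (h : C.Chi (x⁻¹ * y * x) χ) (b : Lat l) :
    χ (.ofAdd (C.π n (ga g b))) = χ (.ofAdd b) ^ q := by
  obtain ⟨m, hm, em⟩ := mem_T.1 hT
  obtain ⟨m', hm', em'⟩ := mem_T.1 (hF.map_T hT)
  obtain ⟨ψ, hψ⟩ := exists_chi hA (hF.map_T hT)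
  have k := congrArg Subtype.val (tor3_aux hA (n := n) hm (m' := m'⁻¹) (by simp [hm']) hu hv hu hv
    (by rw [← e, Subgroup.coe_inv, em, em', map_mul, map_mul, map_inv, hy]; group))
  rw [Subgroup.coe_mul, Subgroup.coe_mul, Subgroup.coe_inv, em, em', mul_inv_eq_iff_eq_mul,
    ← eq_mul_inv_iff_mul_eq] at k
  rw [hψ.conj hA n (k ▸ h), hF.chi hA hS h hψ]
  exact Units.ext (hf _)

theorem tor4 (hS : Sy M g) (hσ : C.Hom C σ (RingHom.id K) (ga g)) (hF : C.Hom C F f (ga g₁))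
    (hc : ∀ a, σ (F a) = F (σ a)) {n : C.N} (hu : u ∈ C.U) (hv : v ∈ C.U)
    (e : x⁻¹ * F x = u * n * v) (hx : x⁻¹ * σ x ∈ C.T) : C.π n ∈ Wf M g := by
  obtain ⟨m, hm, em⟩ := mem_T.1 hx
  obtain ⟨m', hm', em'⟩ := mem_T.1 (hF.map_T hx)
  obtain ⟨n', e1, e2⟩ := hσ.N n
  have k := congrArg C.π (tor3_aux hA (n := n) (n' := n') (m := m⁻¹) (by simp [hm]) hm' hu hv
    (hσ.map_U hA hS hu) (hσ.map_U hA hS hv) (by
      rw [← e1, ← map_mul, ← map_mul, ← e, Subgroup.coe_inv, em, em', map_mul, map_mul, map_inv,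
        map_inv, hc]
      group))
  rw [map_mul, map_mul, map_inv, hm, hm', inv_one, one_mul, mul_one, e2,
    eq_mul_inv_iff_mul_eq] at k
  exact mem_Wf.2 ⟨C.π_mem n, k⟩

theorem tor5 (hS : Sy M g) (hσ : C.Hom C σ (RingHom.id K) (ga g)) (hx : x⁻¹ * σ x ∈ C.T)
    (hy : σ y = y) (hT : x⁻¹ * y * x ∈ C.T) (h : C.Chi (x⁻¹ * y * x) χ) (b : Lat l) :
    χ (.ofAdd (ga g b)) = χ (.ofAdd b) := by
  refine hσ.chi hA hS h (?_ : C.Chi (σ _) χ) b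
  rwa [show σ (x⁻¹ * y * x) = (x⁻¹ * σ x)⁻¹ * (x⁻¹ * y * x * (x⁻¹ * σ x)) by
    rw [map_mul, map_mul, map_inv, hy]; group, (T_comm hA hT hx).eq, inv_mul_cancel_left]

theorem hom_comm (hS : Sy M g) (hS₁ : Sy M g₁) (hg : g * g₁ = g₁ * g)
    (hσ : C.Hom C σ (RingHom.id K) (ga g)) (hF : C.Hom C F f (ga g₁)) (a : Γ) :
    σ (F a) = F (σ a) :=
  DFunLike.congr_fun ((hF.comp hA hS₁ hσ).ext (hg ▸ hσ.comp hA hS hF :)) a

theorem tor_lat_aux {l' : ℕ} {P : Multiplicative (Lat l) →* Multiplicative (Lat l')}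
    (hP : Function.Surjective P) {χ ψ : Multiplicative (Lat l') →* Kˣ} (hy : x⁻¹ * y * x ∈ C.T)
    (hz : x⁻¹ * z * x ∈ C.T) (h : C.Chi (x⁻¹ * y * x) (χ.comp P))
    (h' : C.Chi (x⁻¹ * z * x) (ψ.comp P)) (k : ℕ) : ψ = χ ^ k ↔ z = y ^ k := by
  have e : (x⁻¹ * y * x) ^ k = x⁻¹ * y ^ k * x := by
    simpa using conj_pow (a := x⁻¹) (b := y) (i := k)
  have h1 : C.Chi (x⁻¹ * y ^ k * x) ((χ ^ k).comp P) := e ▸ h.pow k
  refine ⟨fun c => ?_, fun c => (MonoidHom.cancel_right hP).1 (Chi.uniq hA h' (c ▸ h1))⟩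
  exact mul_left_cancel (mul_right_cancel (Chi.eq hz (e ▸ pow_mem hy k) h' (c ▸ h1)))

/-- Conjugation of two commuting elements into the torus, and the twisted action on characters. -/
theorem tor_lat [Finite K] [Finite Γ] (hS : Sy M g) (hS₁ : Sy M g₁) (hg : g * g₁ = g₁ * g)
    (hσ : C.Hom C σ (RingHom.id K) (ga g)) (hF : C.Hom C F f (ga g₁)) (hf : ∀ a, f a = a ^ q)
    {l' : ℕ} (e : Fin l → Fin l') (d : Fin l' → Fin l) (hd : ∀ j, e (d j) = j)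
    (he : ∀ i j, e i = e j ↔ g.SameCycle i j) (hr : r.Prime) (hs : s.Prime) (hl : Gd M r)
    (hl' : Gd M s) (hK : r ^ 7 ∣ Nat.card K - 1) (hK' : s ^ 7 ∣ Nat.card K - 1)
    (hy : σ y = y ∧ F y = y) (hz : σ z = z ∧ F z = z) (hy' : y ^ r = 1) (hz' : z ^ s = 1)
    (hc : Commute y z) : ∃ (A : Au l') (o : ℕ) (χ ψ : Multiplicative (Lat l') →* Kˣ),
      A ^ o = 1 ∧ ¬ r ∣ o ∧ ¬ s ∣ o ∧ χ ^ r = 1 ∧ ψ ^ s = 1 ∧ (χ = 1 → y = 1) ∧ (ψ = 1 → z = 1) ∧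
      (∀ k : ℕ, ψ = χ ^ k → z = y ^ k) ∧ (∀ b, χ (.ofAdd (A b)) = χ (.ofAdd b) ^ q) ∧
      ∀ b, ψ (.ofAdd (A b)) = ψ (.ofAdd b) ^ q := by
  obtain ⟨x, hx, hyT, hzT⟩ := tor2 hA hS hσ hr hs hl hl' hK hK' hy.1 hz.1 hy' hz' hc
  obtain ⟨u, hu, n, v, hv, en⟩ := bruhat (C := C) hA (x⁻¹ * F x)
  obtain ⟨hW, hn⟩ := mem_Wf.1 (tor4 hA hS hσ hF (hom_comm hA hS hS₁ hg hσ hF) hu hv en hx)
  have iso : ∀ a b, ip M ((C.π n * ga g₁) a) ((C.π n * ga g₁) b) = ip M a b := fun a b =>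
    (hA.W_ip hW _ _).trans (hS₁.ip a b)
  obtain ⟨A, P, hA1, -, hP, hPA, hq⟩ := lat_quot (K := K) e d hd he
    (pow_orderOf_eq_one (C.π n * ga g₁))
    (by rw [mul_assoc, ← ga_mul, ← hg, ga_mul, ← mul_assoc, hn, mul_assoc])
  let Q : Multiplicative (Lat l) →* Multiplicative (Lat l') :=
    AddMonoidHom.toMultiplicative P.toAddMonoidHom
  have hQ : Function.Surjective Q := hP
  have key : ∀ y, σ y = y ∧ F y = y → x⁻¹ * y * x ∈ C.T → ∃ χ : Multiplicative (Lat l') →* Kˣ,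
      C.Chi (x⁻¹ * y * x) (χ.comp Q) ∧ ∀ b, χ (.ofAdd (A b)) = χ (.ofAdd b) ^ q := fun y hy hT => by
    obtain ⟨χ₀, h0⟩ := exists_chi hA hT
    obtain ⟨χ, h1⟩ := hq χ₀ (tor5 hA hS hσ hx hy.1 hT h0)
    refine ⟨χ, (MonoidHom.ext h1 : χ₀ = χ.comp Q) ▸ h0, hP.forall.2 fun b => ?_⟩
    rw [← hPA, ← h1, ← h1]
    exact tor3 hA hS₁ hF hf hu hv en hy.2 hT h0 b
  obtain ⟨χ, h1, h2⟩ := key y hy hyT
  obtain ⟨ψ, h3, h4⟩ := key z hz hzT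
  have e1 : x⁻¹ * 1 * x = 1 := by simp
  have t1 : x⁻¹ * 1 * x ∈ C.T := e1.symm ▸ one_mem _
  have c1 : C.Chi (x⁻¹ * 1 * x) ((1 : Multiplicative (Lat l') →* Kˣ).comp Q) := e1.symm ▸ Chi.one
  exact ⟨A, _, χ, ψ, hA1, hA.not_dvd_ord hr hl iso, hA.not_dvd_ord hs hl' iso,
    ((tor_lat_aux hA hQ hyT t1 h1 c1 r).2 hy'.symm).symm,
    ((tor_lat_aux hA hQ hzT t1 h3 c1 s).2 hz'.symm).symm,
    fun c => ((tor_lat_aux hA hQ hyT hyT h1 h1 0).1 (c.trans (pow_zero χ).symm)).trans (pow_zero _),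
    fun c => ((tor_lat_aux hA hQ hzT hzT h3 h3 0).1 (c.trans (pow_zero ψ).symm)).trans (pow_zero _),
    fun k => (tor_lat_aux hA hQ hyT hzT h1 h3 k).1, h2, h4⟩

end CG

end Pool.Agent.Lib.MP_7d41f7_al
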