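import Pool.Agent.Lib.MP_7d41f7_al.E.ETr
import Pool.Agent.Lib.MP_7d41f7_al.D.WM

/-! An irreducible principal series character. -/

set_option autoImplicit false

namespace Pool.Agent.Lib.MP_7d41f7_al

/-- The criterion of Mackey for an induced linear character. -/
theorem mackey {G : Type} [Group G] [Finite G] (B : Subgroup G) (θ : B →* ℂˣ)
    (h : ∀ y ∉ B, ∃ b b' : B, (b' : G) = y⁻¹ * b * y ∧ θ b' ≠ θ b) {x : G}
    (hx : ∀ y, y⁻¹ * x * y ∉ B) : orderOf x ∈ Vo G := by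
  have m : ∀ (a : G) (z : G ⧸ B), (a • z).out⁻¹ * (a * z.out) ∈ B := fun a z =>
    QuotientGroup.eq.1 ((QuotientGroup.out_eq' _).trans
      (MulAction.Quotient.mk_smul_out B a z).symm)
  let A : Coc G (G ⧸ B) := ⟨fun a z => θ ⟨_, m a z⟩, fun a b z => by
    rw [← map_mul]
    refine congrArg θ (Subtype.ext ?_)
    simp only [Subgroup.coe_mul, mul_smul, mul_assoc, mul_inv_cancel_left]⟩
  have fx : ∀ (z : G ⧸ B) (a : G) (b : B), a * z.out = z.out * b → a • z = z ∧ A.c a z = θ b :=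
    fun z a b e => by
      have t : a • z = z := by
        rw [← MulAction.Quotient.mk_smul_out, smul_eq_mul, e, QuotientGroup.mk_mul_of_mem _ b.2,
          QuotientGroup.out_eq']
      refine ⟨t, congrArg θ (Subtype.ext ?_)⟩
      change (a • z).out⁻¹ * (a * z.out) = b
      rw [t, e, inv_mul_cancel_left]
  have dg : ∀ p : (G ⧸ B) × (G ⧸ B), A.Good A p → p.2 = p.1 := fun p hp => by
    by_contra hn
    obtain ⟨b, b', e, hb⟩ := h (p.1.out⁻¹ * p.2.out) fun c => hn (by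
      rw [← QuotientGroup.out_eq' p.1, ← QuotientGroup.out_eq' p.2, QuotientGroup.eq.2 c])
    obtain ⟨h1, h2⟩ := fx p.1 (p.1.out * b * p.1.out⁻¹) b (by group)
    obtain ⟨h3, h4⟩ := fx p.2 (p.1.out * b * p.1.out⁻¹) b' (by rw [e]; group)
    exact hb (h4.symm.trans ((hp _ h1 h3).symm.trans h2))
  refine A.van1 (fun p p' hp hp' => ?_) fun z e => hx z.out ?_
  · obtain ⟨a, t⟩ := MulAction.exists_smul_eq G p.1 p'.1
    exact ⟨a, Prod.ext t (by rw [dg p' hp', Prod.smul_snd, dg p hp]; exact t)⟩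
  · have := m x z
    rwa [e, ← mul_assoc] at this

theorem exists_units_hom (K : Type) [Field K] [Finite K] :
    ∃ ι : Kˣ →* ℂˣ, Function.Injective ι := by
  have : NeZero (Nat.card Kˣ) := ⟨Nat.card_pos.ne'⟩
  let e : Kˣ ≃* rootsOfUnity (Nat.card Kˣ) ℂ :=
    mulEquivOfCyclicCardEq (Complex.card_rootsOfUnity _).symm
  exact ⟨(Subgroup.subtype _).comp e.toMonoidHom, Subtype.val_injective.comp e.injective⟩

namespace CG

variable {l : ℕ} {M : Matrix (Fin l) (Fin l) ℤ} {K Γ : Type} [Field K] [Group Γ] {C : CG M K Γ}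
  {g : Equiv.Perm (Fin l)} {σ : Γ →* Γ} {f : K →+* K} (hA : Ade M) (hS : Sy M g)
  (hσ : C.Hom C σ f (ga g))
include hA hS hσ

omit hA hS hσ in
theorem nm_St_aux1 {ι : Type} {F G : ι → Γ} {L : List ι}
    (h : L.Pairwise fun j k => Commute (G j) (F k)) :
    (L.map fun j => F j * G j).prod = (L.map F).prod * (L.map G).prod := by
  induction h with
  | nil => simp
  | cons h _ ih =>
    simp only [List.map_cons, List.prod_cons, ih]
    exact (Commute.list_prod_right _ _ (List.forall_mem_map.2 h)).mul_mul_mul_comm _ _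

omit hA hσ in
theorem nm_St_aux2 {i : Fin l} {p : Fin l → Fin l → Prop}
    (h : ∀ j k, ip M (sr j) (sr k) = 0 → p j k) : (orb g i).toList.Pairwise p :=
  (orb g i).nodup_toList.imp_of_mem fun hj hk e =>
    h _ _ (hS.orth (Finset.mem_toList.1 hj) (Finset.mem_toList.1 hk) e)

theorem nm_St_aux3 (i : Fin l) {ε : ℤ} (hε : ∀ j, ε • sr j ∈ roots M) {s : K} (hs : f s = s) :
    σ ((orb g i).toList.map fun j => C.x (ε • sr j) s).prod =
      ((orb g i).toList.map fun j => C.x (ε • sr j) s).prod := by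
  have _ := hA
  have h1 : (orb g i).toList.Perm ((orb g i).toList.map g) :=
    (List.perm_ext_iff_of_nodup (orb g i).nodup_toList
      ((orb g i).nodup_toList.map g.injective)).2 fun j => by
      obtain ⟨k, rfl⟩ := g.surjective j
      rw [List.mem_map_of_injective g.injective, Finset.mem_toList, Finset.mem_toList, mem_orb,
        mem_orb, Equiv.Perm.sameCycle_apply_right]
  rw [map_list_prod, (h1.map fun j => C.x (ε • sr j) s).prod_eq' (List.pairwise_map.2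
    (nm_St_aux2 hS fun j k e => C.com0 _ (hε j) _ (hε k)
      (by rw [ip_smul_left, ip_smul_right, e, mul_zero, mul_zero]) _ _)), List.map_map,
    List.map_map]
  exact congrArg (fun F => (List.map F _).prod) (funext fun j => by
    simp only [Function.comp_apply, hσ.x _ (hε j), map_zsmul, ga_sr, hs])

/-- The product is `X c * Y c⁻¹ * X c`, and `σ` permutes the commuting factors. -/
theorem nm_St (i : Fin l) (c : Kˣ) (hc : f c = c) :
    ((orb g i).toList.map fun j => C.nm (sr j) c).prod ∈ C.St σ := by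
  have r1 := hA.sr_mem
  have r2 := fun j => hA.neg_mem (r1 j)
  have h1 : ((orb g i).toList.map fun j => C.x (sr j) c).prod ∈ C.St σ :=
    Subgroup.subset_closure ⟨.inl (list_prod_mem (List.forall_mem_map.2 fun j _ =>
      x_mem (r1 j) (sr_nonneg j) _)), by
        simpa using nm_St_aux3 hA hS hσ i (ε := 1) (by simpa using r1) hc⟩
  have h2 : ((orb g i).toList.map fun j => C.x (-sr j) (c⁻¹ : Kˣ)).prod ∈ C.St σ :=
    Subgroup.subset_closure ⟨.inr (list_prod_mem (List.forall_mem_map.2 fun j _ =>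
      x_mem (r2 j) (neg_nonpos.2 (sr_nonneg j)) _)), by
        simpa using nm_St_aux3 hA hS hσ i (ε := -1) (by simpa using r2) (s := (c⁻¹ : Kˣ))
          (by rw [Units.val_inv_eq_inv_val, map_inv₀, hc])⟩
  simp only [nm]
  rw [nm_St_aux1 (nm_St_aux2 hS fun j k e => (C.com0 _ (r1 j) _ (r1 k) e.ge _ _).mul_right
      (C.com0 _ (r1 j) _ (r2 k) (by simp [e]) _ _)),
    nm_St_aux1 (nm_St_aux2 hS fun j k e => C.com0 _ (r2 j) _ (r1 k) (by simp [e]) _ _)]
  exact mul_mem (mul_mem h1 h2) h1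

theorem exists_nI (i : Fin l) : ∃ n : C.N, (n : Γ) ∈ C.St σ ∧ C.π n = rI M (orb g i) := by
  choose n h1 h2 using fun j => C.refl _ (hA.sr_mem j) 1
  refine ⟨((orb g i).toList.map n).prod, ?_, ?_⟩
  · rw [← Subgroup.subtype_apply, map_list_prod, List.map_map,
      show C.N.subtype ∘ n = fun j => C.nm (sr j) 1 from funext h2]
    exact nm_St hA hS hσ i 1 (map_one f)
  · rw [map_list_prod, List.map_map, show C.π ∘ n = _ from funext h1, rI]

omit hS hσ in
theorem exists_hI_aux1 {a b : Lat l} (ha : a ∈ roots M) (hb : b ∈ roots M) (e : ip M a b = 0)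
    (c d : Kˣ) : Commute (C.nm a c) (C.nm b d) := by
  have k : ∀ a ∈ roots M, ip M a b = 0 → ∀ s, Commute (C.x a s) (C.nm b d) := fun a ha e s =>
    ((C.com0 _ ha _ hb e.ge _ _).mul_right
      (C.com0 _ ha _ (hA.neg_mem hb) (by simp [e]) _ _)).mul_right (C.com0 _ ha _ hb e.ge _ _)
  exact ((k a ha e _).mul_left (k _ (hA.neg_mem ha) (by simp [e]) _)).mul_left (k a ha e _)

/-- The product of the elements of `cor_chi` is the quotient of two products of `nm_St`. -/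
theorem exists_hI (i : Fin l) (c : Kˣ) (hc : f c = c) :
    ∃ t ∈ C.T, t ∈ C.St σ ∧ C.Chi t (cch M (∑ j ∈ orb g i, sr j) c) := by
  have r1 := hA.sr_mem
  refine ⟨((orb g i).toList.map fun j => (C.nm (sr j) 1)⁻¹ * C.nm (sr j) c⁻¹).prod,
    list_prod_mem (List.forall_mem_map.2 fun j _ => (cor_chi hA (r1 j) c).1), ?_, ?_⟩
  · have h1 := nm_St_aux1 (F := fun j => C.nm (sr j) 1) (nm_St_aux2 (i := i) hS fun j k e =>
      (exists_hI_aux1 hA (r1 j) (r1 k) e 1 1).inv_left.mul_left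
        (exists_hI_aux1 hA (r1 j) (r1 k) e c⁻¹ 1))
    simp only [mul_inv_cancel_left] at h1
    rw [eq_inv_mul_of_mul_eq h1.symm]
    exact mul_mem (inv_mem (nm_St hA hS hσ i 1 (map_one f)))
      (nm_St hA hS hσ i c⁻¹ (by rw [Units.val_inv_eq_inv_val, map_inv₀, hc]))
  · rw [← Finset.sum_map_toList]
    induction (orb g i).toList with
    | nil => exact (show cch M 0 c = 1 from MonoidHom.ext fun b => by simp [cch]).symm ▸ Chi.one
    | cons j L ih =>
      have e : ∀ a b, cch M (a + b) c = cch M a c * cch M b c := fun _ _ =>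
        MonoidHom.ext fun _ => by simp [cch, zpow_add]
      rw [List.map_cons, List.map_cons, List.prod_cons, List.sum_cons, e]
      exact (cor_chi hA (r1 j) c).2.mul ih

/-- `Wf_ind`. -/
theorem π_surj_St {w : Au l} (hw : w ∈ Wf M g) : ∃ n : C.N, (n : Γ) ∈ C.St σ ∧ C.π n = w := by
  refine hA.Wf_ind hS (p := fun w => ∃ n : C.N, (n : Γ) ∈ C.St σ ∧ C.π n = w)
    ⟨1, one_mem _, map_one _⟩ ?_ w hw
  rintro _ - i ⟨n, h1, rfl⟩
  obtain ⟨m, h2, h3⟩ := exists_nI hA hS hσ i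
  exact ⟨n * m, mul_mem h1 h2, by rw [map_mul, h3]⟩

omit hσ in
/-- Take `i` with `w⁻¹ (sr i)` negative. -/
theorem exists_exp {μ : Lat l} (hμ : ∀ b, ip M μ b = 2 * hgt b) {w : Au l} (hw : w ∈ Wf M g)
    (h1 : w ≠ 1) : ∃ i, 0 < ip M (∑ j ∈ orb g i, sr j) (μ - w μ) ∧
      ip M (∑ j ∈ orb g i, sr j) (μ - w μ) ≤ 72 * (orb g i).card := by
  have _ := hS
  obtain ⟨h3, h4⟩ := mem_Wf.1 (inv_mem hw)
  obtain ⟨i, -, hi⟩ := hA.exch (hA.Wg_eq ▸ h3) (inv_ne_one.2 h1)
  obtain ⟨-, -, hb⟩ := hA.exists_rho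
  have r := (hA.W_root h3).2 (hA.sr_mem i)
  have h5 := hgt_pos ((hA.not_pos_iff r).1 hi) (hA.ne_zero (hA.neg_mem r))
  have h6 := (hb _ r).1
  have h7 : ip M (∑ j ∈ orb g i, sr j) (μ - w μ) =
      (orb g i).card * (2 - 2 * hgt (w⁻¹ (sr i))) := by
    rw [← nsmul_eq_mul]
    refine (map_sum (AddMonoidHom.mk' (ip M · (μ - w μ)) fun a b => ip_add_left a b _) _ _).trans
      (Finset.sum_eq_card_nsmul fun j hj => ?_)
    change ip M (sr j) _ = _
    rw [ip_sub_right, ← hA.W_ip h3 _ (w μ), show w⁻¹ (w μ) = μ from w.symm_apply_apply μ,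
      ip_comm, hμ, ip_comm, hμ, hgt_sr, mul_one, orb_const (fun b => hgt (w⁻¹ b)) (fun b => by
        rw [← LinearEquiv.mul_apply, h4, LinearEquiv.mul_apply, ga_hgt]) hj]
  have h8 : (0 : ℤ) < (orb g i).card :=
    Nat.cast_pos.2 (Finset.card_pos.2 ⟨i, mem_orb.2 (.refl g i)⟩)
  rw [hgt_neg] at h5
  refine ⟨i, h7 ▸ mul_pos h8 (by omega), ?_⟩
  rw [h7, mul_comm]
  exact mul_le_mul_of_nonneg_right (by omega) h8.le

omit hS hσ in
theorem st_van_aux1 {t u : Γ} (ht : t ∈ C.T) (hu : u ∈ C.U) :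
    ∃ v ∈ C.U, u * t * u⁻¹ = t * v :=
  ⟨t⁻¹ * u * t⁻¹⁻¹ * u⁻¹, mul_mem (T_conj_Us hA (inv_mem ht) hu) (inv_mem hu), by group⟩

/-- An element whose order is divisible by `r` is a vanishing element. -/
theorem st_van [Finite K] [Finite Γ] {c : Kˣ} (hc : f c = c)
    (ho : ∀ i, 72 * (orb g i).card < orderOf c) {r : ℕ} (hr : r.Prime)
    (h1 : ¬ r ∣ Nat.card K) (h2 : ¬ r ∣ Nat.card K - 1) (x : C.St σ) (hx : r ∣ orderOf x) :
    orderOf x ∈ Vo (C.St σ) := by
  obtain ⟨μ, hμ, -⟩ := hA.exists_rho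
  obtain ⟨θ, hθ⟩ := exists_theta hA C μ
  obtain ⟨ι, hι⟩ := exists_units_hom K
  refine mackey (C.B.subgroupOf (C.St σ))
    (ι.comp (θ.comp ((C.St σ).subtype.subgroupComap C.B))) (fun y hy => ?_) fun y hy => ?_
  · obtain ⟨n, -, hn, u, hu, e1, v, hv, -, e⟩ := fx_bruhat hA hS hσ (St_fix y.2)
    have mB : ∀ {t u : Γ}, t ∈ C.T → u ∈ C.U → u * t * u⁻¹ ∈ C.B := fun ht hu =>
      (st_van_aux1 hA ht hu).elim fun w hw => (mem_B hA).2 ⟨_, ht, w, hw.1, hw.2⟩
    obtain ⟨i, i1, i2⟩ := exists_exp hA hS hμ hn fun k => hy (Subgroup.mem_subgroupOf.2 (e ▸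
      mul_mem (mul_mem (Subgroup.mem_sup_right hu) (Subgroup.mem_sup_left (mem_T.2 ⟨n, k, rfl⟩)))
        (Subgroup.mem_sup_right hv)))
    obtain ⟨t, ht, t1, t2⟩ := exists_hI hA hS hσ i c hc
    have u1 : u ∈ C.St σ := Subgroup.subset_closure ⟨.inl hu, e1⟩
    have ht' := conj_T n⁻¹ ht
    obtain ⟨ψ, hψ⟩ := exists_chi hA ht'
    let b : C.St σ := ⟨u * t * u⁻¹, mul_mem (mul_mem u1 t1) (inv_mem u1)⟩
    have e2 : ((y⁻¹ * b * y : C.St σ) : Γ) =
        v⁻¹ * ((n⁻¹ : C.N) * t * ((n⁻¹ : C.N) : Γ)⁻¹) * v⁻¹⁻¹ := by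
      simp only [b, Subgroup.coe_mul, Subgroup.coe_inv, e]
      group
    refine ⟨⟨b, mB ht hu⟩, ⟨y⁻¹ * b * y, Subgroup.mem_subgroupOf.2 (e2 ▸ mB ht' (inv_mem hv))⟩, rfl,
      fun k => ?_⟩
    obtain ⟨w, hw, e3⟩ := st_van_aux1 hA ht hu
    obtain ⟨w', hw', e4⟩ := st_van_aux1 hA ht' (inv_mem hv)
    have k1 := (hθ _ _ ht' w' hw' ψ hψ (e2.trans e4)).symm.trans
      ((hι k).trans (hθ _ t ht w hw _ t2 e3))
    have k2 := t2.conj hA n⁻¹ hψ (C.π n μ)
    rw [map_inv, ← LinearEquiv.mul_apply, inv_mul_cancel, LinearEquiv.coe_one, id, k1] at k2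
    have k3 : c ^ ip M (∑ j ∈ orb g i, sr j) (μ - C.π n μ) = 1 := by
      rw [ip_sub_right, zpow_sub, mul_inv_eq_one]
      exact k2
    have := Int.le_of_dvd i1 (orderOf_dvd_iff_zpow_eq_one.2 k3)
    have := ho i
    omega
  · obtain ⟨k, hk⟩ := B_pow hA (Subgroup.mem_subgroupOf.1 hy)
    rw [← Subgroup.coe_pow, OneMemClass.coe_eq_one, ← orderOf_dvd_iff_pow_eq_one,
      show y⁻¹ * x * y = MulAut.conj y⁻¹ x by simp, MulEquiv.orderOf_eq] at hk
    exact ((Nat.Prime.dvd_mul hr).1 (hx.trans hk)).elim h2 fun d => h1 (hr.dvd_of_dvd_pow d)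

end CG

end Pool.Agent.Lib.MP_7d41f7_al
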