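import Pool.Agent.Lib.MP_7d41f7_al.E.EMap
import Pool.Agent.Lib.MP_7d41f7_al.E.ESyl
import Pool.Agent.Lib.MP_7d41f7_al.E.EVan
import Pool.Agent.Lib.MP_7d41f7_al.C.Chr
import Pool.Agent.Lib.MP_7d41f7_al.C.VC

/-! Cyclic Sylow subgroups, adjacency and vanishing elements of the fixed point groups. -/

set_option autoImplicit false

namespace Pool.Agent.Lib.MP_7d41f7_al

variable {l l' : ℕ} {M : Matrix (Fin l) (Fin l) ℤ} {g g₀ g₁ : Equiv.Perm (Fin l)}
  {k m q r s : ℕ}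

/-- The twisted case and the folded case. -/
def Md (g g₀ g₁ : Equiv.Perm (Fin l)) (k : ℕ) : Prop :=
  g₀ = 1 ∧ g₁ = g ∧ 0 < k ∨ g₀ = g ∧ g₁ = 1 ∧ k = 1

/-- The data of a type. -/
structure Tp (M : Matrix (Fin l) (Fin l) ℤ) (g g₀ g₁ : Equiv.Perm (Fin l)) (k l' : ℕ) : Prop where
  ade : Ade M
  sy : Sy M g
  md : Md g g₀ g₁ k
  qu : ∃ (e : Fin l → Fin l') (d : Fin l' → Fin l), (∀ j, e (d j) = j) ∧
    ∀ i j, e i = e j ↔ g₀.SameCycle i j

/-- `card K = p ^ n`, so `q` is a power of `p`; `iterateFrobenius`. -/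
theorem exists_frob (K : Type) [Field K] [Finite K] {n : ℕ} (hn : 0 < n) (hk : 0 < k)
    (h : Nat.card K = (q ^ k) ^ n) : ∃ f : K →+* K, ∀ a, f a = a ^ q := by
  have := Fintype.ofFinite K
  obtain ⟨p, hc, n', hp, hn'⟩ := FiniteField.card' K
  have : Fact p.Prime := ⟨hp⟩
  have hd : q ∣ p ^ (n' : ℕ) := by
    rw [← hn', ← Nat.card_eq_fintype_card, h, ← pow_mul]
    exact dvd_pow_self q (Nat.mul_pos hk hn).ne'
  obtain ⟨i, -, hi⟩ := (Nat.dvd_prime_pow hp).1 hd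
  exact ⟨iterateFrobenius K p i, fun a => by rw [iterateFrobenius_def, hi]⟩

/-- `FiniteField.Extension K p n` with `n = φ m` (or `orderOf`), `Nat.ModEq.pow_totient`. The
elements of the image are `card K` roots of `X ^ card K - X`, so they are all roots. -/
theorem exists_bigf (K : Type) [Field K] [Finite K] (hm : m.Coprime (Nat.card K)) :
    ∃ (L : Type) (_ : Field L) (_ : Finite L) (j : K →+* L) (n : ℕ), 0 < n ∧
      Nat.card L = Nat.card K ^ n ∧ m ∣ Nat.card L - 1 ∧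
      ∀ a : L, a ^ Nat.card K = a → a ∈ j.range := by
  classical
  have := Fintype.ofFinite K
  obtain ⟨p, hc, n', hp, hn'⟩ := FiniteField.card' K
  have : Fact p.Prime := ⟨hp⟩
  have h2 : 1 < Nat.card K := Finite.one_lt_card
  have hm0 : m ≠ 0 := by
    rintro rfl
    rw [Nat.coprime_zero_left] at hm
    omega
  have ht : 0 < m.totient := Nat.totient_pos.2 (Nat.pos_of_ne_zero hm0)
  have : NeZero m.totient := ⟨ht.ne'⟩
  have hL := FiniteField.natCard_extension K p m.totient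
  refine ⟨FiniteField.Extension K p m.totient, inferInstance, inferInstance, algebraMap _ _,
    m.totient, ht, hL, ?_, ?_⟩
  · rw [hL]
    exact (Nat.modEq_iff_dvd' (Nat.one_le_pow _ _ (by omega))).1
      (Nat.ModEq.pow_totient hm.symm).symm
  · intro a ha
    by_contra hne
    set j := algebraMap K (FiniteField.Extension K p m.totient)
    have hP := FiniteField.X_pow_card_sub_X_ne_zero (FiniteField.Extension K p m.totient) h2
    have hdeg := FiniteField.X_pow_card_sub_X_natDegree_eq (FiniteField.Extension K p m.totient) h2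
    have hna : a ∉ Finset.univ.image j := by
      intro h
      obtain ⟨b, -, hb⟩ := Finset.mem_image.1 h
      exact hne ⟨b, hb⟩
    have hs : (insert a (Finset.univ.image j)).val ⊆
        (Polynomial.X ^ Nat.card K - Polynomial.X :
          Polynomial (FiniteField.Extension K p m.totient)).roots := by
      intro x hx
      rw [Polynomial.mem_roots hP, Polynomial.IsRoot.def]
      simp only [Polynomial.eval_sub, Polynomial.eval_pow, Polynomial.eval_X, sub_eq_zero]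
      rcases Finset.mem_insert.1 hx with rfl | h
      · exact ha
      · obtain ⟨b, -, rfl⟩ := Finset.mem_image.1 h
        rw [← map_pow, Nat.card_eq_fintype_card, FiniteField.pow_card]
    have hle := Polynomial.card_le_degree_of_subset_roots hs
    rw [hdeg, Finset.card_insert_of_notMem hna, Finset.card_image_of_injective _ j.injective,
      Finset.card_univ, ← Nat.card_eq_fintype_card] at hle
    omega

/-- An element of order `q - 1` of the cyclic group `Kˣ`. -/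
theorem exists_fix_unit (K : Type) [Field K] [Finite K] (hk : 0 < k) (h : Nat.card K = q ^ k) :
    ∃ c : Kˣ, (c : K) ^ q = c ∧ orderOf c = q - 1 := by
  obtain ⟨u, hu⟩ := IsCyclic.exists_ofOrder_eq_natCard (α := Kˣ)
  rw [Nat.card_units, h] at hu
  have h2 : 1 < q ^ k := h ▸ Finite.one_lt_card
  have hq : 1 ≤ q := by
    rcases Nat.eq_zero_or_pos q with rfl | hq
    · rw [zero_pow hk.ne'] at h2
      omega
    · exact hq
  have hd : q - 1 ∣ orderOf u := by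
    rw [hu]
    simpa only [one_pow] using Nat.sub_dvd_pow_sub_pow q 1 k
  have h0 : orderOf u ≠ 0 := by omega
  have ho : orderOf (u ^ (orderOf u / (q - 1))) = q - 1 := orderOf_pow_orderOf_div h0 hd
  refine ⟨_, ?_, ho⟩
  have h1 := pow_orderOf_eq_one (u ^ (orderOf u / (q - 1)))
  rw [ho] at h1
  generalize u ^ (orderOf u / (q - 1)) = c at h1
  rw [← Units.val_pow_eq_pow_val]
  congr 1
  conv_lhs => rw [show q = q - 1 + 1 by omega]
  rw [pow_succ, h1, one_mul]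

theorem Tp.pos (T : Tp M g g₀ g₁ k l') : 0 < k :=
  T.md.elim (·.2.2) fun a => a.2.2 ▸ one_pos

theorem Tp.big (T : Tp M g g₀ g₁ k l') {K : Type} [Field K] [Finite K] (hK : Nat.card K = q ^ k)
    {f : K →+* K} (hf : ∀ a, f a = a ^ q) {τ : Chev M K →* Chev M K}
    (hτ : (cg T.ade K).Hom (cg T.ade K) τ f (ga g)) (hm : m.Coprime q) :
    ∃ (L : Type) (_ : Field L) (_ : Finite L) (j : K →+* L) (f' : L →+* L)
      (φ : Chev M K →* Chev M L) (σ F : Chev M L →* Chev M L), m ∣ Nat.card L - 1 ∧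
      (∀ a, f' a = a ^ q) ∧ (∀ a : L, a ^ q ^ k = a → a ∈ j.range) ∧ Function.Injective φ ∧
      (cg T.ade K).Hom (cg T.ade L) φ j (ga 1) ∧
      (cg T.ade L).Hom (cg T.ade L) σ (RingHom.id L) (ga g₀) ∧
      (cg T.ade L).Hom (cg T.ade L) F f' (ga g₁) ∧
      ∀ a, τ a = a ↔ σ (φ a) = φ a ∧ F (φ a) = φ a := by
  obtain ⟨L, _, _, j, n, n0, hL, hd, hr⟩ := exists_bigf (m := m) K (hK ▸ hm.pow_right k)
  obtain ⟨f', hf'⟩ := exists_frob (q := q) L n0 T.pos (hK ▸ hL)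
  obtain ⟨φ, i, hφ, -⟩ := cg_map T.ade Sy.one j
  have s : Sy M g₀ ∧ Sy M g₁ := by
    rcases T.md with ⟨rfl, rfl, -⟩ | ⟨rfl, rfl, -⟩
    exacts [⟨Sy.one, T.sy⟩, ⟨T.sy, Sy.one⟩]
  obtain ⟨σ, -, hσ, -⟩ := cg_map T.ade s.1 (RingHom.id L)
  obtain ⟨F, -, hF, -⟩ := cg_map T.ade s.2 f'
  refine ⟨L, _, _, j, f', φ, σ, F, hd, hf', hK ▸ hr, i, hφ, hσ, hF, fun a => ?_⟩
  have h1 := hτ.comp T.ade T.sy hφ
  have h2 := hφ.comp T.ade Sy.one hσ
  have h3 := hφ.comp T.ade Sy.one hF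
  rw [show f'.comp j = j.comp f from RingHom.ext fun a => by simp [hf, hf'], mul_one] at h3
  rw [one_mul] at h1
  rw [mul_one, RingHom.id_comp] at h2
  rcases T.md with ⟨rfl, rfl, -⟩ | ⟨rfl, rfl, rfl⟩
  · rw [show σ (φ a) = φ a from DFunLike.congr_fun (h2.ext hφ) a,
      show F (φ a) = φ (τ a) from DFunLike.congr_fun (h3.ext h1) a, and_iff_right rfl, i.eq_iff]
  · have := Fintype.ofFinite K
    obtain rfl : f = RingHom.id K := RingHom.ext fun a => by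
      rw [hf, ← pow_one q, ← hK, Nat.card_eq_fintype_card, FiniteField.pow_card, RingHom.id_apply]
    rw [show σ (φ a) = φ (τ a) from DFunLike.congr_fun (h2.ext h1) a,
      show F (φ a) = φ a from DFunLike.congr_fun (h3.ext hφ) a, i.eq_iff, and_iff_left rfl]

variable {S : Type} [Group S]

theorem Tp.model (T : Tp M g g₀ g₁ k l') (h : IsCh S M g k q) :
    ∃ (K : Type) (_ : Field K) (_ : Finite K) (f : K →+* K) (τ : Chev M K →* Chev M K),
      Nat.card K = q ^ k ∧ (∀ a, f a = a ^ q) ∧ (cg T.ade K).Hom (cg T.ade K) τ f (ga g) ∧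
      Nonempty (S ≃* (cg T.ade K).St τ) := by
  obtain ⟨K, _, _, hK, ⟨e⟩⟩ := h
  obtain ⟨f, hf⟩ := exists_frob (q := q) K one_pos T.pos (by rw [pow_one, hK])
  obtain ⟨τ, hτ, ⟨e'⟩⟩ := steinb_iso T.ade T.sy f hf
  exact ⟨K, _, _, f, τ, hK, hf, hτ, ⟨e.trans e'⟩⟩

theorem IsCh.finite (h : IsCh S M g k q) : Finite S := by
  obtain ⟨K, _, _, -, ⟨e⟩⟩ := h
  exact Finite.of_equiv _ e.symm.toEquiv

theorem Tp.lat_aux (hr : r.Prime) (h : 0 < Ord q r) : r.Coprime q :=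
  hr.coprime_iff_not_dvd.2 fun d => h.ne' (Ord.eq_zero hr (Int.natCast_dvd_natCast.2 d))

theorem Tp.lat (T : Tp M g g₀ g₁ k l') (h : IsCh S M g k q) (hr : r.Prime) (hs : s.Prime)
    (hl : Gd M r) (hl' : Gd M s) (h1 : 0 < Ord q r) (h2 : 0 < Ord q s) {y z : S} (hy : y ^ r = 1)
    (hz : z ^ s = 1) (hc : Commute y z) :
    ∃ (L : Type) (_ : Field L) (A : Au l') (o : ℕ) (χ ψ : Multiplicative (Lat l') →* Lˣ),
      A ^ o = 1 ∧ ¬ r ∣ o ∧ ¬ s ∣ o ∧ χ ^ r = 1 ∧ ψ ^ s = 1 ∧ (χ = 1 → y = 1) ∧ (ψ = 1 → z = 1) ∧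
      (∀ i : ℕ, ψ = χ ^ i → z = y ^ i) ∧ (∀ b, χ (.ofAdd (A b)) = χ (.ofAdd b) ^ q) ∧
      ∀ b, ψ (.ofAdd (A b)) = ψ (.ofAdd b) ^ q := by
  obtain ⟨K, _, _, f, τ, hK, hf, hτ, ⟨e⟩⟩ := T.model h
  obtain ⟨L, _, _, j, f', φ, σ, F, hm, hf', -, hφ, -, hσ, hF, fx⟩ := T.big hK hf hτ
    (((lat_aux hr h1).pow_left 7).mul_left ((lat_aux hs h2).pow_left 7))
  obtain ⟨e', d, hd, he⟩ := T.qu
  have hS : Sy M g₀ ∧ Sy M g₁ ∧ g₀ * g₁ = g₁ * g₀ := by
    rcases T.md with ⟨rfl, rfl, -⟩ | ⟨rfl, rfl, -⟩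
    exacts [⟨Sy.one, T.sy, by simp⟩, ⟨T.sy, Sy.one, by simp⟩]
  let ι : S →* Chev M L := φ.comp ((Subgroup.subtype _).comp e.toMonoidHom)
  have hι : Function.Injective ι := hφ.comp (Subtype.val_injective.comp e.injective)
  obtain ⟨A, o, χ, ψ, a1, a2, a3, a4, a5, a6, a7, a8, a9⟩ := CG.tor_lat T.ade hS.1 hS.2.1 hS.2.2 hσ
    hF hf' e' d hd he hr hs hl hl' ((dvd_mul_right _ _).trans hm) ((dvd_mul_left _ _).trans hm)
    (y := ι y) (z := ι z) ((fx _).1 (CG.St_fix (e y).2)) ((fx _).1 (CG.St_fix (e z).2))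
    (by rw [← map_pow, hy, map_one]) (by rw [← map_pow, hz, map_one]) (hc.map ι)
  exact ⟨L, _, A, o, χ, ψ, a1, a2, a3, a4, a5, fun c => hι ((a6 c).trans (map_one ι).symm),
    fun c => hι ((a7 c).trans (map_one ι).symm),
    fun i c => hι ((a8 i c).trans (map_pow ι y i).symm), a9⟩

theorem Tp.cyc (T : Tp M g g₀ g₁ k l') (h : IsCh S M g k q) (hr : r.Prime) (h2 : r ≠ 2)
    (hl : Gd M r) (hφ : l' < 2 * (Ord q r).totient) : Cyc S r := fun P => by
  have := h.finite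
  have h1 : 0 < Ord q r := Nat.totient_pos.1 (by omega)
  refine odd_cyc hr h2 P.isPGroup' fun a b ha hb hc h0 => ?_
  obtain ⟨L, _, A, o, χ, ψ, a1, a2, -, a4, a5, a6, -, a8, a9, a10⟩ := T.lat h hr hr hl hl h1 h1
    (y := b) (z := a) (congrArg Subtype.val hb) (congrArg Subtype.val ha)
    (hc.symm.map (Subgroup.subtype _))
  obtain ⟨i, e⟩ := lat_cyc a1 hr a2 a4 (fun c => h0 (Subtype.ext (a6 c))) a5 a9 a10 hφ
  exact (Subtype.ext (a8 i e) : a = b ^ i) ▸ Subgroup.npow_mem_zpowers b i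

theorem Tp.adj (T : Tp M g g₀ g₁ k l') (h : IsCh S M g k q) (hr : r.Prime) (hs : s.Prime)
    (hl : Gd M r) (hl' : Gd M s) (h1 : 0 < Ord q r) (h2 : 0 < Ord q s) (hne : Ord q s ≠ Ord q r)
    (ha : Adj S s r) : (Ord q s).totient + (Ord q r).totient ≤ l' := by
  obtain ⟨x, hx⟩ := ha
  obtain ⟨L, _, A, o, χ, ψ, a1, a2, a3, a4, a5, a6, a7, -, a9, a10⟩ := T.lat h hr hs hl hl' h1 h2
    (y := x ^ s) (z := x ^ r) (by rw [← pow_mul, ← hx, pow_orderOf_eq_one])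
    (by rw [← pow_mul', ← hx, pow_orderOf_eq_one]) (Commute.pow_pow_self x s r)
  refine lat_adj a1 hr hs a2 a3 a4 (fun c => ?_) a5 (fun c => ?_) a9 a10 h1 h2 hne
  · exact pow_ne_one_of_lt_orderOf hs.ne_zero
      (hx ▸ (Nat.lt_mul_iff_one_lt_right hs.pos).2 hr.one_lt) (a6 c)
  · exact pow_ne_one_of_lt_orderOf hr.ne_zero
      (hx ▸ (Nat.lt_mul_iff_one_lt_left hr.pos).2 hs.one_lt) (a7 c)

theorem Tp.van (T : Tp M g g₀ g₁ k l') (h : IsCh S M g k q)
    (hq : ∀ i, 72 * (orb g i).card + 1 < q) (hr : r.Prime) (h1 : 0 < Ord q r)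
    (h2 : ¬ Ord q r ∣ k) (x : S) (hx : r ∣ orderOf x) : orderOf x ∈ Vo S := by
  obtain ⟨K, _, _, f, τ, hK, hf, hτ, ⟨e⟩⟩ := T.model h
  obtain ⟨c, c1, c2⟩ := exists_fix_unit K (k.pos_of_ne_zero fun c => h2 (by simp [c])) hK
  rw [Vo_congr e, ← e.orderOf_eq x] at *
  refine CG.st_van T.ade T.sy hτ ((hf c).trans c1) (fun i => by have := hq i; omega) hr
    (hK ▸ hr.coprime_iff_not_dvd.1 ((lat_aux hr h1).pow_right k)) (fun d => h2 ?_) _ hx
  rw [← Int.natCast_dvd_natCast, Nat.cast_pred Nat.card_pos, hK, Nat.cast_pow] at d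
  exact (Ord.dvd_iff k).1 d

end Pool.Agent.Lib.MP_7d41f7_al
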