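import Pool.Agent.Lib.MP_7d41f7_al.E.EEx
import Pool.Agent.Lib.MP_7d41f7_al.E.EAde
import Pool.Agent.Lib.MP_7d41f7_al.E.EDf2
import Pool.Agent.Lib.MP_7d41f7_al.D.EDefs

/-! The data for the exceptional groups. -/

set_option autoImplicit false

namespace Pool.Agent.Lib.MP_7d41f7_al

variable {S G H : Type} [Group S] [Group G] [Group H] {x : Ex} {q r : ℕ}

theorem tp_one {l : ℕ} {M : Matrix (Fin l) (Fin l) ℤ} (hA : Ade M) : Tp M 1 1 1 1 l :=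
  ⟨hA, Sy.one, .inl ⟨rfl, rfl, one_pos⟩, id, id, fun _ => rfl, fun _ _ =>
    Equiv.Perm.sameCycle_one.symm⟩

theorem tp_U6 : Tp mE6 gE6 1 gE6 2 6 := ⟨ade_E6, sy_E6, .inl ⟨rfl, rfl, two_pos⟩, (tp_one ade_E6).qu⟩

theorem tp_F4 : Tp mE6 gE6 gE6 1 1 4 :=
  ⟨ade_E6, sy_E6, .inr ⟨rfl, rfl, rfl⟩, ![0, 1, 2, 3, 2, 0], ![0, 1, 2, 3], by decide,
    by decide +kernel⟩

theorem tp_G2 : Tp mD4 gD4 gD4 1 1 2 :=
  ⟨ade_D4, sy_D4, .inr ⟨rfl, rfl, rfl⟩, ![0, 1, 0, 0], ![0, 1], by decide, by decide +kernel⟩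

theorem tp_D3 : Tp mD4 gD4 1 gD4 3 4 := ⟨ade_D4, sy_D4, .inl ⟨rfl, rfl, three_pos⟩, (tp_one ade_D4).qu⟩

theorem IsChev.tp (h : IsChev S x q) : ∃ (l : ℕ) (M : Matrix (Fin l) (Fin l) ℤ)
    (g g₀ g₁ : Equiv.Perm (Fin l)) (k : ℕ), Tp M g g₀ g₁ k x.rk ∧ IsCh S M g k q ∧
      (∀ i, (orb g i).card ≤ 3) ∧
      (k = 1 ∨ k = 2 ∧ x = .U6 ∨ k = 3 ∧ x = .D3) ∧ ∀ r, r.Prime → x.bad < r → Gd M r := by
  have e : ∀ r : ℕ, r.Prime → r ≠ 6 ∧ r ≠ 8 ∧ r ≠ 9 := fun r hr => by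
    refine ⟨?_, ?_, ?_⟩ <;> rintro rfl <;> exact absurd hr (by decide)
  cases x
  · exact ⟨6, _, _, _, _, _, tp_one ade_E6, h, by decide +kernel, .inl rfl, fun _ => gd_of_lt _⟩
  · exact ⟨_, _, _, _, _, _, tp_U6, h, by decide +kernel, .inr (.inl ⟨rfl, rfl⟩), fun _ => gd_of_lt _⟩
  · exact ⟨7, _, _, _, _, _, tp_one ade_E7, h, by decide +kernel, .inl rfl, fun r hr (a : 7 < r) =>
      gd_of_lt _ hr (by have := e r hr; omega)⟩
  · exact ⟨8, _, _, _, _, _, tp_one ade_E8, h, by decide +kernel, .inl rfl, fun r hr (a : 7 < r) =>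
      gd_of_lt _ hr (by have := e r hr; omega)⟩
  · refine ⟨_, _, _, _, _, _, tp_F4, h, by decide +kernel, .inl rfl, fun r hr (a : 5 < r) => ?_⟩
    by_cases b : r = 7
    · exact b ▸ gd_E6
    · exact gd_of_lt _ hr (by have := e r hr; omega)
  · exact ⟨_, _, _, _, _, _, tp_G2, h, by decide +kernel, .inl rfl, fun _ => gd_of_lt _⟩
  · exact ⟨_, _, _, _, _, _, tp_D3, h, by decide +kernel, .inr (.inr ⟨rfl, rfl⟩), fun _ => gd_of_lt _⟩

theorem IsChev.iso (h : IsChev S x q) (h' : IsChev H x q) : Nonempty (H ≃* S) := by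
  cases x <;> exact IsCh.iso h h'

theorem IsChev.finite (h : IsChev S x q) : Finite S := by
  cases x <;> exact IsCh.finite h

theorem IsChev.van (h : IsChev S x q) (hq : 250 ≤ q) (hr : r.Prime)
    (hφ : x.rk < 2 * (Ord q r).totient) (y : S) (hy : r ∣ orderOf y) : orderOf y ∈ Vo S := by
  obtain ⟨l, M, g, g₀, g₁, k, T, h1, h2, h3, -⟩ := h.tp
  refine T.van h1 (fun i => by have := h2 i; omega) hr (Nat.totient_pos.1 (by omega)) (fun d => ?_) y hy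
  have a := Nat.totient_dvd_of_dvd d
  have : 2 ≤ x.rk := by cases x <;> decide
  rcases h3 with rfl | ⟨rfl, rfl⟩ | ⟨rfl, rfl⟩
  · have : _ ≤ 1 := Nat.le_of_dvd one_pos a
    omega
  · have : _ ≤ 1 := Nat.le_of_dvd one_pos a
    omega
  · have : _ ≤ 2 := Nat.le_of_dvd two_pos a
    change 4 < _ at hφ
    omega

theorem IsChev.edata [Finite G] (h : IsChev S x q) (hq : 250 ≤ q)
    (ho : ∃ c : ℕ, (Nat.card S : ℤ) * c = x.ord q ∧ ∀ r, r.Prime → r ∣ c → Ord q r ≤ 2)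
    (hc : Nat.card G = Nat.card S) (hV : Vo G = Vo S) : EData G x q := by
  have := h.finite
  obtain ⟨l, M, g, g₀, g₁, k, T, h1, -, -, h4⟩ := h.tp
  have b : 2 < x.bad := by cases x <;> decide
  have c : ∀ r, r.Prime → x.bad < r → x.rk < 2 * (Ord q r).totient → Cyc S r :=
    fun r hr a d => T.cyc h1 hr (by omega) (h4 r hr a) d
  refine ⟨hc ▸ ho, fun r hr a d => transfer_cyc hr hc hV (c r hr a d) (h.van hq hr d),
    fun r u hr hu a a' d e e' f ad => ?_⟩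
  have := T.adj h1 hr hu (h4 r hr a) (h4 u hu a') (Nat.totient_pos.1 (by omega)) (by omega) e'
    ((transfer_adj hr ((Nat.coprime_primes hu hr).2 fun s => e' (s ▸ rfl)) hc hV (c r hr a d)
      (h.van hq hr d)).1 ad)
  omega

end Pool.Agent.Lib.MP_7d41f7_al
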