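import Pool.Agent.Lib.MP_7d41f7_al.E.ECnt

/-! The torus of the fixed point groups. -/

set_option autoImplicit false

namespace Pool.Agent.Lib.MP_7d41f7_al

variable {l : ℕ} {M : Matrix (Fin l) (Fin l) ℤ} {K : Type} [Field K] {g : Equiv.Perm (Fin l)}
  {f : K →+* K} {i j : Fin l} {w : Au l} {t t' : Fin l → Kˣ}

/-- The character attached to values on the simple coroots. -/
def ccs (M : Matrix (Fin l) (Fin l) ℤ) (K : Type) [Field K] :
    (Fin l → Kˣ) →* Multiplicative (Lat l) →* Kˣ where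
  toFun t := ∏ j, cch M (sr j) (t j)
  map_one' := Finset.prod_eq_one fun _ _ => MonoidHom.ext fun _ => one_zpow _
  map_mul' t t' := by
    rw [← Finset.prod_mul_distrib]
    exact Finset.prod_congr rfl fun _ _ => MonoidHom.ext fun _ => mul_zpow _ _ _

theorem ccs_apply (t : Fin l → Kˣ) (b : Lat l) :
    ccs M K t (.ofAdd b) = ∏ j, t j ^ ip M (sr j) b :=
  MonoidHom.finsetProd_apply _ _ _

theorem mem_ker_ccs : t ∈ (ccs M K).ker ↔ ∀ j, ∏ i, t i ^ (M i j + M j i) = 1 := by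
  refine ⟨fun h j => ?_, fun h => CG.Chi.uniq_aux2 fun j => ?_⟩
  · simpa only [ccs_apply, ip_sr_sr, MonoidHom.one_apply] using DFunLike.congr_fun h (.ofAdd (sr j))
  · simpa only [ccs_apply, ip_sr_sr, MonoidHom.one_apply] using h j

namespace CG

variable {Γ : Type} [Group Γ] {C : CG M K Γ} {σ : Γ →* Γ} {x y : Γ}

/-- The product of the monomial elements of simple roots. -/
noncomputable def nO (C : CG M K Γ) (I : Finset (Fin l)) (t : Fin l → Kˣ) : Γ :=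
  (I.toList.map fun j => C.nm (sr j) (t j)).prod

/-- The elements of the torus that are products of coroots. -/
def Ht (C : CG M K Γ) (f : K →+* K) (g : Equiv.Perm (Fin l)) : Subgroup Γ where
  carrier := {y | y ∈ C.T ∧ ∃ t ∈ TFs f g, C.Chi y (ccs M K t)}
  one_mem' := ⟨one_mem _, 1, one_mem _, map_one (ccs M K) ▸ Chi.one⟩
  mul_mem' := fun ⟨ha, t, ht, h⟩ ⟨hb, t', ht', h'⟩ =>
    ⟨mul_mem ha hb, _, mul_mem ht ht', map_mul (ccs M K) t t' ▸ h.mul h'⟩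
  inv_mem' := fun ⟨ha, t, ht, h⟩ => ⟨inv_mem ha, _, inv_mem ht, map_inv (ccs M K) t ▸ h.inv⟩

/-- The generators of the monomial group. -/
def Gn (C : CG M K Γ) (f : K →+* K) (g : Equiv.Perm (Fin l)) : Set Γ :=
  {n | ∃ i, ∃ t ∈ TFs f g, n = C.nO (orb g i) t}

/-- The monomial group. -/
def Np (C : CG M K Γ) (f : K →+* K) (g : Equiv.Perm (Fin l)) : Subgroup Γ :=
  Subgroup.closure (C.Gn f g)

variable (hA : Ade M)
include hA

theorem card_Ht : Nat.card (C.Ht f g) * Nat.card (TFs f g ⊓ (ccs M K).ker : Subgroup _) =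
    Nat.card (TFs f g) := by
  obtain ⟨χ, h1, h2⟩ := exists_chi_hom (C := C) hA
  have e : Nat.card (C.Ht f g) = Nat.card ((TFs f g).map (ccs M K)) :=
    Nat.card_eq_of_bijective (fun y => ⟨χ ⟨y.1, y.2.1⟩, y.2.2.imp fun _ h =>
      ⟨h.1, h.2.uniq hA (h2 ⟨y.1, y.2.1⟩)⟩⟩) ⟨fun y z h => Subtype.ext
        (Subtype.mk.inj (h1 (Subtype.mk.inj h))), by
      rintro ⟨_, t, ht, rfl⟩
      obtain ⟨y, hy, h⟩ := Finset.prod_induction (fun j => cch M (sr j) (t j))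
        (fun ψ => ∃ y ∈ C.T, C.Chi y ψ) (fun _ _ ⟨_, a, b⟩ ⟨_, c, d⟩ => ⟨_, mul_mem a c, b.mul d⟩)
        ⟨1, one_mem _, Chi.one⟩ fun j (_ : j ∈ Finset.univ) => exists_cor hA C _ _
      exact ⟨⟨y, hy, t, ht, h⟩, Subtype.ext ((h2 ⟨y, hy⟩).uniq hA h)⟩⟩
  rw [e, ← Subgroup.relIndex_ker, ← Nat.card_congr
    (Subgroup.subgroupOfEquivOfLe (inf_le_left : TFs f g ⊓ (ccs M K).ker ≤ _)).toEquiv,
    Subgroup.inf_subgroupOf_left, mul_comm]
  exact Subgroup.card_mul_index _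

theorem Ht_conj (n : C.N) (hn : C.π n ∈ Wf M g) (hy : y ∈ C.Ht f g) :
    n * y * (n : Γ)⁻¹ ∈ C.Ht f g := by
  obtain ⟨h1, t, ht, h2⟩ := hy
  obtain ⟨ψ, h3⟩ := exists_chi hA (conj_T n h1)
  refine ⟨conj_T n h1, fun j => ∏ i, t i ^ C.π n (sr i) j, fun j => ?_, ?_⟩
  · simp only [Units.coe_prod, Units.val_zpow_eq_zpow_val, map_prod, map_zpow₀]
    rw [← Equiv.prod_comp g]
    refine Finset.prod_congr rfl fun i _ => ?_
    rw [ht, ← ga_sr, ← LinearEquiv.mul_apply, (mem_Wf.1 hn).2, LinearEquiv.mul_apply, ga_apply,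
      Equiv.symm_apply_apply]
  · refine Eq.subst (Chi.uniq_aux2 fun j => ?_) h3
    obtain ⟨a, e⟩ := (C.π n).surjective (sr j)
    rw [← e, Chi.conj hA n h2 h3, ccs_apply, ccs_apply]
    simp only [← Finset.prod_zpow, ← zpow_mul]
    rw [Finset.prod_comm]
    refine Finset.prod_congr rfl fun i _ => ?_
    rw [← hA.W_ip (C.π_mem n), ip_comm, ip_sum]
    simp only [ip_comm (C.π n a)]
    simpa only [zpowersHom_apply, toAdd_prod, toAdd_ofAdd] using map_prod (zpowersHom Kˣ (t i))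
      (fun k => .ofAdd (C.π n (sr i) k * ip M (sr k) (C.π n a))) Finset.univ

theorem nm_conj (n : C.N) (h : C.π n (sr j) = sr i) : ∃ η : Kˣ,
    (∀ u, n * C.x (sr j) u * (n : Γ)⁻¹ = C.x (sr i) (η * u)) ∧
      ∀ c : Kˣ, n * C.nm (sr j) c * (n : Γ)⁻¹ = C.nm (sr i) (η * c) := by
  have rj := hA.sr_mem j
  have ri := hA.sr_mem i
  obtain ⟨η, h1⟩ := C.act n _ rj
  obtain ⟨η', h2⟩ := C.act n _ (hA.neg_mem rj)
  rw [h] at h1
  rw [map_neg, h] at h2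
  have k : ∀ c : Kˣ, n * C.nm (sr j) c * (n : Γ)⁻¹ =
      C.x (sr i) (η * c) * C.x (-sr i) (η' * (c⁻¹ : Kˣ)) * C.x (sr i) (η * c) := fun c => by
    rw [← h1, ← h2, nm]
    group
  obtain ⟨m, hm, em⟩ := C.refl _ rj 1
  obtain ⟨m', hm', em'⟩ := C.refl _ ri η
  have hz : C.π (m'⁻¹ * (n * m * n⁻¹)) = 1 := by
    rw [map_mul, map_mul, map_mul, map_inv, map_inv, hm, hm', hA.rf_conj (C.π_mem n) rj, h,
      inv_mul_cancel]
  have ez : ((m'⁻¹ * (n * m * n⁻¹) : C.N) : Γ) =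
      (C.x (sr i) η)⁻¹ * C.x (-sr i) (-(η⁻¹ : Kˣ) + η') * C.x (sr i) η := by
    have := k 1
    rw [nm, ← em, inv_one, Units.val_one, mul_one, mul_one] at this
    rw [Subgroup.coe_mul, Subgroup.coe_mul, Subgroup.coe_mul, Subgroup.coe_inv, Subgroup.coe_inv,
      this, em', C.add _ (hA.neg_mem ri), x_neg (hA.neg_mem ri)]
    group
  have hx : C.x (sr i) η ∈ C.U := x_mem ri (sr_nonneg i) _
  have := (C.tri _ hz _ (mul_mem (T_conj_Us hA (inv_mem (mem_T.2 ⟨_, hz, rfl⟩)) hx) (inv_mem hx)) _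
    (x_mem (hA.neg_mem ri) (neg_nonpos.2 (sr_nonneg i)) (-(η⁻¹ : Kˣ) + η' : K))
    (by rw [ez]; group)).2
  have e := neg_add_eq_zero.1 (C.inj _ (hA.neg_mem ri) _ this)
  refine ⟨η, h1, fun c => ?_⟩
  rw [k, ← e, nm, mul_inv, Units.val_mul, Units.val_mul]

variable (hS : Sy M g)
include hS

theorem nO_N (i : Fin l) (t : Fin l → Kˣ) :
    ∃ n : C.N, (n : Γ) = C.nO (orb g i) t ∧ C.π n = rI M (orb g i) := by
  have _ := hS
  choose n h1 h2 using fun j => C.refl _ (hA.sr_mem j) (t j)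
  refine ⟨((orb g i).toList.map n).prod, ?_, ?_⟩
  · rw [← Subgroup.subtype_apply, map_list_prod, List.map_map,
      show C.N.subtype ∘ n = fun j => C.nm (sr j) (t j) from funext h2, nO]
  · rw [map_list_prod, List.map_map, show C.π ∘ n = _ from funext h1, rI]

theorem nO_eq (i : Fin l) (t : Fin l → Kˣ) :
    ∃ y ∈ C.Us ((fun j => -sr j) '' (orb g i : Set (Fin l))), C.nO (orb g i) t =
      C.xo (orb g i) (fun j => t j) * y * C.xo (orb g i) fun j => t j := by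
  have r1 := hA.sr_mem
  have r2 := fun j => hA.neg_mem (r1 j)
  refine ⟨((orb g i).toList.map fun j => C.x (-sr j) ((t j)⁻¹ : Kˣ)).prod,
    list_prod_mem (List.forall_mem_map.2 fun j hj =>
      x_mem (r2 j) (Set.mem_image_of_mem (fun j => -sr j)
        (Finset.mem_coe.2 (Finset.mem_toList.1 hj))) _), ?_⟩
  simp only [nO, nm, xo]
  rw [nm_St_aux1 (nm_St_aux2 hS fun j k e => (C.com0 _ (r1 j) _ (r1 k) e.ge _ _).mul_right
      (C.com0 _ (r1 j) _ (r2 k) (by simp [e]) _ _)),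
    nm_St_aux1 (nm_St_aux2 hS fun j k e => C.com0 _ (r2 j) _ (r1 k) (by simp [e]) _ _)]

theorem nm_comm {k : Fin l} (hj : j ∈ orb g i) (hk : k ∈ orb g i) (c c' : Kˣ) (h : j ≠ k) :
    Commute (C.nm (sr j) c) (C.nm (sr k) c') :=
  exists_hI_aux1 hA (hA.sr_mem j) (hA.sr_mem k) (hS.orth hj hk h) c c'

omit hS in
theorem nO_inv_aux1 {a : Lat l} (ha : a ∈ roots M) (c : Kˣ) : C.nm a (-c) = (C.nm a c)⁻¹ := by
  simp only [nm, inv_neg, Units.val_neg, x_neg ha, x_neg (hA.neg_mem ha), mul_inv_rev, mul_assoc]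

theorem nO_inv_aux2 (i : Fin l) (t t' : Fin l → Kˣ) : C.nO (orb g i) t * C.nO (orb g i) t' =
    ((orb g i).toList.map fun j => C.nm (sr j) (t j) * C.nm (sr j) (t' j)).prod :=
  (nm_St_aux1 (nm_St_aux2 hS fun j k e =>
    exists_hI_aux1 hA (hA.sr_mem j) (hA.sr_mem k) e _ _)).symm

theorem nO_inv (i : Fin l) (t : Fin l → Kˣ) : (C.nO (orb g i) t)⁻¹ = C.nO (orb g i) (-t) := by
  refine inv_eq_of_mul_eq_one_right ?_
  rw [nO_inv_aux2 hA hS]
  exact List.prod_eq_one (List.forall_mem_map.2 fun j _ => by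
    rw [Pi.neg_apply, nO_inv_aux1 hA (hA.sr_mem j), mul_inv_cancel])

omit hS in
theorem nO_mul_aux1 {a : Lat l} (ha : a ∈ roots M) (c c' : Kˣ) :
    C.nm a c * C.nm a c' ∈ C.T ∧ C.Chi (C.nm a c * C.nm a c') (cch M a (-c / c')) := by
  obtain ⟨h1, h2⟩ := cor_chi (C := C) hA ha (-c)⁻¹
  obtain ⟨h3, h4⟩ := cor_chi (C := C) hA ha c'⁻¹
  have e : C.nm a c * C.nm a c' =
      ((C.nm a 1)⁻¹ * C.nm a (-c)⁻¹⁻¹)⁻¹ * ((C.nm a 1)⁻¹ * C.nm a c'⁻¹⁻¹) := by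
    rw [inv_inv, inv_inv, nO_inv_aux1 hA ha]
    group
  have e' : cch M a (-c / c') = (cch M a (-c)⁻¹)⁻¹ * cch M a c'⁻¹ := MonoidHom.ext fun b => by
    rw [MonoidHom.mul_apply, MonoidHom.inv_apply]
    change (-c / c') ^ ip M a b.toAdd = ((-c)⁻¹ ^ ip M a b.toAdd)⁻¹ * c'⁻¹ ^ ip M a b.toAdd
    rw [inv_zpow, inv_inv, div_eq_mul_inv, mul_zpow]
  rw [e, e']
  exact ⟨mul_mem (inv_mem h1) h3, h2.inv.mul h4⟩

theorem nO_mul (i : Fin l) (ht : t ∈ TFs f g) (ht' : t' ∈ TFs f g) :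
    C.nO (orb g i) t * C.nO (orb g i) t' ∈ C.Ht f g := by
  rw [nO_inv_aux2 hA hS]
  refine ⟨list_prod_mem (List.forall_mem_map.2 fun j _ => (nO_mul_aux1 hA (hA.sr_mem j) _ _).1),
    fun j => if j ∈ orb g i then -t j / t' j else 1, fun j => ?_, ?_⟩
  · have e : g j ∈ orb g i ↔ j ∈ orb g i := by
      rw [mem_orb, mem_orb, Equiv.Perm.sameCycle_apply_right]
    by_cases hj : j ∈ orb g i
    · simp [e, hj, ht j, ht' j]
    · simp [e, hj]
  · have e : ccs M K (fun j => if j ∈ orb g i then -t j / t' j else 1) =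
        ((orb g i).toList.map fun j => cch M (sr j) (-t j / t' j)).prod := by
      refine Eq.trans ?_ (Finset.prod_map_toList (orb g i) fun j => cch M (sr j) (-t j / t' j)).symm
      change ∏ j, cch M (sr j) (if j ∈ orb g i then -t j / t' j else 1) = _
      rw [← Finset.prod_subset (orb g i).subset_univ fun j _ hj =>
        (if_neg hj).symm ▸ MonoidHom.ext fun _ => one_zpow _]
      exact Finset.prod_congr rfl fun j hj => by rw [if_pos hj]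
    rw [e]
    induction (orb g i).toList with
    | nil => exact Chi.one
    | cons j L ih =>
      rw [List.map_cons, List.map_cons, List.prod_cons, List.prod_cons]
      exact (nO_mul_aux1 hA (hA.sr_mem j) _ _).2.mul ih

variable (hσ : C.Hom C σ f (ga g))
include hσ

theorem nO_conj (n : C.N) (hn : σ n = n) (h : C.π n (sr j) = sr i) (ht : t ∈ TFs f g) :
    ∃ t' ∈ TFs f g, n * C.nO (orb g j) t * (n : Γ)⁻¹ = C.nO (orb g i) t' := by
  obtain ⟨n', e1, e2⟩ := hσ.N n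
  rw [show n' = n from Subtype.ext (e1.symm.trans hn), eq_mul_inv_iff_mul_eq] at e2
  have a1 : ∀ k, C.π n (sr (g k)) = ga g (C.π n (sr k)) := fun k => by
    rw [← ga_sr, ← LinearEquiv.mul_apply, e2, LinearEquiv.mul_apply]
  have a2 : ∀ m : ℕ, C.π n (sr ((g ^ m) j)) = sr ((g ^ m) i) := fun m => by
    induction m with
    | zero => exact h
    | succ m ih => rw [pow_succ', Equiv.Perm.mul_apply, Equiv.Perm.mul_apply, a1, ih, ga_sr]
  have a3 : ∀ (m : ℕ) k, (g ^ m) k ∈ orb g k := fun m k => mem_orb.2 ⟨m, by simp⟩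
  have a4 : ∀ k k', C.π n (sr k) = C.π n (sr k') → k = k' := fun k k' e => by
    by_contra e'
    simpa [sr, e'] using congrFun ((C.π n).injective e) k
  have a5 : ∀ k, ∃ d, ∃ η : Kˣ, k ∈ orb g i → d ∈ orb g j ∧ C.π n (sr d) = sr k ∧
      (∀ u, n * C.x (sr d) u * (n : Γ)⁻¹ = C.x (sr k) (η * u)) ∧
        ∀ c : Kˣ, n * C.nm (sr d) c * (n : Γ)⁻¹ = C.nm (sr k) (η * c) := fun k => by
    by_cases hk : k ∈ orb g i
    · obtain ⟨m, rfl⟩ := (mem_orb.1 hk).exists_nat_pow_eq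
      obtain ⟨η, e⟩ := nm_conj hA n (a2 m)
      exact ⟨_, η, fun _ => ⟨a3 m j, a2 m, e⟩⟩
    · exact ⟨k, 1, fun e => absurd e hk⟩
  choose d η hd using a5
  have a6 : ∀ k, g k ∈ orb g i ↔ k ∈ orb g i := fun k => by
    rw [mem_orb, mem_orb, Equiv.Perm.sameCycle_apply_right]
  refine ⟨fun k => if k ∈ orb g i then η k * t (d k) else 1, fun k => ?_, ?_⟩
  · by_cases hk : k ∈ orb g i
    · have hk' := (a6 k).2 hk
      have b1 : d (g k) = g (d k) := a4 _ _ (by rw [a1, (hd k hk).2.1, (hd _ hk').2.1, ga_sr])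
      have b2 := congrArg σ ((hd k hk).2.2.1 1)
      rw [map_mul, map_mul, map_inv, hn, hσ.x _ (hA.sr_mem _), hσ.x _ (hA.sr_mem _), ga_sr, ga_sr,
        ← b1, (hd _ hk').2.2.1, map_one, mul_one, mul_one] at b2
      simp only [if_pos hk, if_pos hk', Units.val_mul, map_mul]
      rw [x_inj (hA.sr_mem _) b2, b1, ht (d k)]
    · simp only [if_neg hk, if_neg (mt (a6 k).1 hk), Units.val_one, map_one]
  have p : ((orb g i).toList.map d).Perm (orb g j).toList := by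
    refine (List.perm_ext_iff_of_nodup ((orb g i).nodup_toList.map_on fun k hk k' hk' e => ?_)
      (orb g j).nodup_toList).2 fun k => ?_
    · have := (hd k (Finset.mem_toList.1 hk)).2.1
      rw [e, (hd k' (Finset.mem_toList.1 hk')).2.1] at this
      by_contra e'
      simpa [sr, e'] using congrFun this k
    · simp only [List.mem_map, Finset.mem_toList]
      refine ⟨fun ⟨k', hk, e⟩ => e ▸ (hd k' hk).1, fun hk => ?_⟩
      obtain ⟨m, rfl⟩ := (mem_orb.1 hk).exists_nat_pow_eq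
      exact ⟨_, a3 m i, a4 _ _ ((hd _ (a3 m i)).2.1.trans (a2 m).symm)⟩
  have q := (p.symm.map fun k => C.nm (sr k) (t k)).prod_eq' (List.pairwise_map.2
    ((orb g j).nodup_toList.imp_of_mem fun hk hk' e =>
      nm_comm hA hS (Finset.mem_toList.1 hk) (Finset.mem_toList.1 hk') _ _ e))
  rw [nO, nO, q, ← MulAut.conj_apply, map_list_prod, List.map_map, List.map_map]
  refine congrArg _ (List.map_congr_left fun k hk => ?_)
  rw [if_pos (Finset.mem_toList.1 hk)]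
  exact (hd k (Finset.mem_toList.1 hk)).2.2.2 _

theorem Np_le (hx : x ∈ C.Np f g) : x ∈ C.St σ ∧ ∃ n : C.N, (n : Γ) = x ∧ C.π n ∈ Wf M g := by
  induction hx using Subgroup.closure_induction with
  | mem x hx =>
    obtain ⟨i, t, ht, rfl⟩ := hx
    obtain ⟨n, e, k⟩ := nO_N (C := C) hA hS i t
    exact ⟨nm_St' hA hS hσ i ht, n, e, k ▸ hA.rI_mem hS i⟩
  | one => exact ⟨one_mem _, 1, rfl, map_one C.π ▸ one_mem _⟩
  | mul x y _ _ hx hy =>
    obtain ⟨h1, n, rfl, k⟩ := hx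
    obtain ⟨h2, m, rfl, k'⟩ := hy
    exact ⟨mul_mem h1 h2, n * m, rfl, map_mul C.π n m ▸ mul_mem k k'⟩
  | inv x _ hx =>
    obtain ⟨h1, n, rfl, k⟩ := hx
    exact ⟨inv_mem h1, n⁻¹, rfl, map_inv C.π n ▸ inv_mem k⟩

omit hσ in
theorem Np_surj (hw : w ∈ Wf M g) : ∃ n : C.N, (n : Γ) ∈ C.Np f g ∧ C.π n = w := by
  refine hA.Wf_ind hS (p := fun w => ∃ n : C.N, (n : Γ) ∈ C.Np f g ∧ C.π n = w)
    ⟨1, one_mem _, map_one _⟩ ?_ w hw
  rintro _ - i ⟨n, h1, rfl⟩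
  obtain ⟨m, e, k⟩ := nO_N (C := C) hA hS i 1
  exact ⟨n * m, mul_mem h1 (Subgroup.subset_closure ⟨i, 1, one_mem _, e⟩), by rw [map_mul, k]⟩

omit hσ in
theorem Np_del_aux1 {n : C.N} (h : (n : Γ) ∈ C.Gn f g) :
    ∃ i, ∃ t ∈ TFs f g, (n : Γ) = C.nO (orb g i) t ∧ C.π n = rI M (orb g i) := by
  obtain ⟨i, t, ht, e⟩ := h
  obtain ⟨m, e', k⟩ := nO_N (C := C) hA hS i t
  exact ⟨i, t, ht, e, Subtype.ext (e'.trans e.symm) ▸ k⟩

theorem Np_del (L : List C.N) (hL : ∀ n ∈ L, (n : Γ) ∈ C.Gn f g) (ht : t ∈ TFs f g)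
    (h : ¬ 0 ≤ C.π L.prod (sr j)) : ∃ L' : List C.N, (∀ n ∈ L', (n : Γ) ∈ C.Gn f g) ∧
      L'.length + 1 = L.length ∧
        ∃ y ∈ C.Ht f g, (L.prod : C.N) * C.nO (orb g j) t = y * (L'.prod : C.N) := by
  induction L with
  | nil => exact absurd (by rw [List.prod_nil, map_one]; exact sr_nonneg j) h
  | cons a L ih =>
    obtain ⟨h1, h2⟩ := List.forall_mem_cons.1 hL
    obtain ⟨i, s, hs, e, k⟩ := Np_del_aux1 hA hS h1
    rw [List.prod_cons, map_mul, k, LinearEquiv.mul_apply] at h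
    rw [List.prod_cons, Subgroup.coe_mul, List.length_cons]
    by_cases c : 0 ≤ C.π L.prod (sr j)
    · obtain ⟨i', hi, e'⟩ : ∃ i' ∈ orb g i, C.π L.prod (sr j) = sr i' := by
        by_contra! k'
        exact h (hA.rI_pos hS ((hA.W_root (C.π_mem _)).2 (hA.sr_mem j)) c k')
      have h3 : (L.prod : C.N) ∈ (C.Np f g).comap C.N.subtype :=
        list_prod_mem fun n hn => Subgroup.subset_closure (h2 n hn)
      obtain ⟨s', hs', e2⟩ := nO_conj hA hS hσ L.prod (St_fix (Np_le hA hS hσ h3).1) e' ht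
      rw [show orb g i' = orb g i from Finset.ext fun b => by
        rw [mem_orb, mem_orb]
        exact ⟨(mem_orb.1 hi).trans, (mem_orb.1 hi).symm.trans⟩] at e2
      exact ⟨L, h2, rfl, _, nO_mul hA hS i hs hs', by rw [← e2, e]; group⟩
    · obtain ⟨L', h3, h4, y, hy, e'⟩ := ih h2 c
      refine ⟨a :: L', List.forall_mem_cons.2 ⟨h1, h3⟩, congrArg (· + 1) h4, _,
        Ht_conj hA a (k ▸ hA.rI_mem hS i) hy, ?_⟩
      rw [List.prod_cons, Subgroup.coe_mul, mul_assoc, e']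
      group

omit hσ in
theorem Np_T_aux1 (hx : x ∈ C.Np f g) :
    ∃ L : List C.N, (∀ n ∈ L, (n : Γ) ∈ C.Gn f g) ∧ (L.prod : C.N) = x := by
  have k : ∀ a ∈ C.Gn f g, ∀ y : Γ, (∃ L : List C.N, (∀ n ∈ L, (n : Γ) ∈ C.Gn f g) ∧
      (L.prod : C.N) = y) → ∃ L : List C.N, (∀ n ∈ L, (n : Γ) ∈ C.Gn f g) ∧
        (L.prod : C.N) = a * y := by
    rintro _ ⟨i, t, ht, rfl⟩ _ ⟨L, h, rfl⟩
    obtain ⟨m, e, -⟩ := nO_N (C := C) hA hS i t
    exact ⟨m :: L, List.forall_mem_cons.2 ⟨⟨i, t, ht, e⟩, h⟩, by rw [← e]; rfl⟩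
  induction hx using Subgroup.closure_induction_left with
  | one => exact ⟨[], by simp, rfl⟩
  | mul_left a ha y _ ih => exact k a ha y ih
  | inv_mul_cancel a ha y _ ih =>
    obtain ⟨i, t, ht, rfl⟩ := ha
    exact k _ ⟨i, -t, fun j => by simp [ht j], nO_inv hA hS i t⟩ y ih

theorem Np_T (hx : x ∈ C.Np f g) (hT : x ∈ C.T) : x ∈ C.Ht f g := by
  obtain ⟨L, hL, rfl⟩ := Np_T_aux1 hA hS hx
  clear hx
  induction hn : L.length using Nat.strong_induction_on generalizing L with | _ n ih => ?_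
  rcases List.eq_nil_or_concat' L with rfl | ⟨L, a, rfl⟩
  · exact one_mem _
  obtain ⟨h1, h2⟩ := List.forall_mem_append.1 hL
  obtain ⟨j, t, ht, e, k⟩ := Np_del_aux1 hA hS (h2 a List.mem_cons_self)
  obtain ⟨m, h3, e'⟩ := mem_T.1 hT
  rw [Subtype.ext e', List.prod_append, List.prod_singleton, map_mul, k, ← hA.rI_sq hS j,
    mul_left_inj] at h3
  obtain ⟨L', h4, h5, y, hy, e2⟩ := Np_del hA hS hσ L h1 (j := j) ht (by
    rw [h3, hA.rI_sr hS (mem_orb.2 (.refl g j)), hA.not_pos_iff (hA.neg_mem (hA.sr_mem j)), neg_neg]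
    exact sr_nonneg j)
  rw [List.prod_append, List.prod_singleton, Subgroup.coe_mul, e, e2] at hT ⊢
  exact mul_mem hy (ih _ (by simp at hn; omega) L' h4 ((mul_mem_cancel_left hy.1).1 hT) rfl)

theorem fac_fix (i : Fin l) (hx : x ∈ C.U) (h : σ x = x) :
    ∃ u ∈ C.Us {b | 0 ≤ b ∧ ∀ j ∈ orb g i, b ≠ sr j}, σ u = u ∧
      ∃ s ∈ orbF f g i, σ (C.xo (orb g i) s) = C.xo (orb g i) s ∧ x = u * C.xo (orb g i) s := by
  obtain ⟨m, e⟩ := π_surj (C := C) hA (mem_Wf.1 (hA.rI_mem hS i)).1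
  have go : ∀ j, g j ∈ orb g i ↔ j ∈ orb g i := fun j => by
    rw [mem_orb, mem_orb, Equiv.Perm.sameCycle_apply_right]
  obtain ⟨u, hu, X, hX, rfl⟩ := fac_U hA (Ψ := {b | 0 ≤ b ∧ ∀ j ∈ orb g i, b ≠ sr j})
    (Ψ' := sr '' (orb g i : Set (Fin l))) (fun a k => k.1)
    (by rintro _ ⟨j, -, rfl⟩; exact sr_nonneg j) (fun a _ k => or_iff_not_imp_right.2 fun c =>
      ⟨k, fun j hj e => c ⟨j, hj, e.symm⟩⟩) hx
  have u1 := hσ.map_Us hA hS (Ψ' := {b | 0 ≤ b ∧ ∀ j ∈ orb g i, b ≠ sr j})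
    (fun a _ k => And.intro (ga_pos.2 k.1) fun j hj e =>
      k.2 (g.symm j) ((go _).1 (by rwa [g.apply_symm_apply])) ((ga g).injective (by
        rw [e, ga_sr, g.apply_symm_apply]))) hu
  have X1 := hσ.map_Us hA hS (Ψ' := sr '' (orb g i : Set (Fin l))) (by
    rintro _ - ⟨j, hj, rfl⟩
    exact ⟨g j, (go j).2 hj, (ga_sr g j).symm⟩) hX
  have k1 : u⁻¹ * σ u = X * (σ X)⁻¹ := by
    rw [inv_mul_eq_iff_eq_mul, ← mul_assoc, ← h, map_mul, mul_inv_cancel_right]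
  have k2 := U_Um (conj_Us hA m (fun a ha k => e ▸ hA.rI_pos hS ha k.1 k.2)
    (mul_mem (inv_mem hu) u1)) (k1 ▸ conj_Us hA m (by
      rintro _ - ⟨j, hj, rfl⟩
      rw [e, hA.rI_sr hS hj]
      exact neg_nonpos.2 (sr_nonneg j)) (mul_mem hX (inv_mem X1)))
  rw [mul_inv_eq_one, mul_eq_left] at k2
  have k3 := (mul_inv_eq_one.1 (k1.symm.trans k2)).symm
  obtain ⟨s, hs, rfl⟩ := (mem_xo hA hS).1 hX
  refine ⟨u, hu, (inv_mul_eq_one.1 k2).symm, s, ⟨hs, fun j => ?_⟩, k3, rfl⟩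
  by_cases hj : j ∈ orb g i
  · have k4 := xo_add (C := C) (i := i) hA hS ((fun j => f (s (g.symm j))) - s) s
    rw [sub_add_cancel, ← map_xo hA hS hσ, k3, right_eq_mul] at k4
    simpa using (sub_eq_zero.1 (xo_inj hA hS k4 _ ((go j).2 hj))).symm
  · rw [hs j hj, hs _ (mt (go j).1 hj), map_zero]

theorem Np_step {m u n : Γ} (hm : m ∈ C.Gn f g) (hu : u ∈ C.U) (hu' : σ u = u)
    (hn : n ∈ C.Np f g) : ∃ u' ∈ C.U, σ u' = u' ∧ ∃ n' ∈ C.Np f g, ∃ v ∈ C.U, σ v = v ∧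
      m * u * n = u' * n' * v := by
  have gs : ∀ y ∈ C.Gn f g, y ∈ C.Np f g := fun y hy => Subgroup.subset_closure hy
  have fx : ∀ y ∈ C.Np f g, σ y = y := fun y hy => St_fix (Np_le hA hS hσ hy).1
  have m1 := fx m (gs m hm)
  have n1 := fx n hn
  obtain ⟨i, t, ht, e⟩ := id hm
  obtain ⟨m, rfl, em⟩ := e ▸ nO_N (C := C) hA hS i t
  obtain ⟨n, rfl, hw⟩ := (Np_le hA hS hσ hn).2
  obtain ⟨u, u1, u2, s, ⟨s1, s2⟩, s3, rfl⟩ := fac_fix hA hS hσ i hu hu'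
  have hX := (mem_xo (C := C) hA hS).2 ⟨s, s1, rfl⟩
  suffices h : ∃ u' ∈ C.U, σ u' = u' ∧ ∃ n' ∈ C.Np f g, ∃ v ∈ C.U, σ v = v ∧
      m * C.xo (orb g i) s * n = u' * n' * v by
    obtain ⟨u', a1, a2, n', a3, v, a4, a5, a6⟩ := h
    exact ⟨m * u * (m : Γ)⁻¹ * u', mul_mem (conj_Us hA m
      (fun a ha k => em ▸ hA.rI_pos hS ha k.1 k.2) u1) a1, by simp [m1, u2, a2], n', a3, v, a4, a5,
      by rw [mul_assoc _ u', mul_assoc _ (u' * n'), ← a6]; group⟩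
  have hw' : C.π n⁻¹ ∈ Wf M g := map_inv C.π n ▸ inv_mem hw
  have a0 : ∀ j ∈ orb g i, (0 ≤ C.π n⁻¹ (sr j)) = (0 ≤ C.π n⁻¹ (sr i)) := fun j hj =>
    orb_const (fun b => 0 ≤ C.π n⁻¹ b) (fun b => by
      rw [← LinearEquiv.mul_apply, (mem_Wf.1 hw').2, LinearEquiv.mul_apply, ga_pos]) hj
  have a1 : ∀ j ∈ orb g i, s j = 0 ↔ s i = 0 := fun j hj => by
    obtain ⟨k, rfl⟩ := (mem_orb.1 hj).exists_nat_pow_eq
    clear hj
    induction k with
    | zero => rfl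
    | succ k ih => rw [pow_succ', Equiv.Perm.mul_apply, s2, map_eq_zero, ih]
  by_cases h1 : 0 ≤ C.π n⁻¹ (sr i)
  · exact ⟨1, one_mem _, map_one _, _, mul_mem (gs _ hm) hn, _, conj_Us hA n⁻¹ (by
      rintro _ - ⟨j, hj, rfl⟩
      exact (a0 j hj).mpr h1) hX, by simp [n1, s3], by simp [mul_assoc]⟩
  by_cases h2 : s i = 0
  · refine ⟨1, one_mem _, map_one _, _, mul_mem (gs _ hm) hn, 1, one_mem _, map_one _, ?_⟩
    rw [xo, List.prod_eq_one, mul_one, mul_one, one_mul]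
    intro y hy
    obtain ⟨j, hj, rfl⟩ := List.mem_map.1 hy
    rw [(a1 j (Finset.mem_toList.1 hj)).2 h2, x_zero (hA.sr_mem j)]
  classical
  let c : Fin l → Kˣ := fun j => if h : s j = 0 then 1 else Units.mk0 (s j) h
  have c1 : c ∈ TFs f g := fun j => by
    by_cases h : s j = 0 <;> simp [c, h, s2 j]
  obtain ⟨y, y1, y2⟩ := nO_eq (C := C) hA hS i c
  have c2 : (C.xo (orb g i) fun j => c j) = C.xo (orb g i) s :=
    congrArg List.prod (List.map_congr_left fun j hj => by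
      simp [c, mt (a1 j (Finset.mem_toList.1 hj)).1 h2])
  have c3 := gs _ ⟨i, c, c1, rfl⟩
  have c4 := (nO_mul (C := C) hA hS i ht c1).1
  have c5 := fx _ c3
  rw [← e] at c4
  rw [y2, c2] at c3 c4 c5
  generalize C.xo (orb g i) s = X at *
  have y3 : σ y = y := by simpa [s3] using c5
  exact ⟨_, T_conj_Us hA c4 (inv_mem (Us_mono (by rintro _ - ⟨j, -, rfl⟩; exact sr_nonneg j) hX)),
    by simp [m1, s3, y3], _, mul_mem (mul_mem (gs _ hm) c3) hn, _, conj_Us hA n⁻¹ (by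
      rintro _ - ⟨j, hj, rfl⟩
      exact map_neg (C.π n⁻¹) (sr j) ▸ (hA.not_pos_iff ((hA.W_root (C.π_mem _)).2
        (hA.sr_mem j))).1 ((a0 j hj).symm ▸ h1)) (inv_mem y1), by simp [n1, y3],
    by rw [Subgroup.coe_inv]; group⟩

theorem St_bruhat_aux1 {m : Γ} (hm : m ∈ C.Np f g)
    (hy : ∃ u ∈ C.U, σ u = u ∧ ∃ n ∈ C.Np f g, ∃ v ∈ C.U, σ v = v ∧ y = u * n * v) :
    ∃ u ∈ C.U, σ u = u ∧ ∃ n ∈ C.Np f g, ∃ v ∈ C.U, σ v = v ∧ m * y = u * n * v := by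
  have key : ∀ a ∈ C.Gn f g, ∀ z : Γ,
      (∃ u ∈ C.U, σ u = u ∧ ∃ n ∈ C.Np f g, ∃ v ∈ C.U, σ v = v ∧ z = u * n * v) →
      ∃ u ∈ C.U, σ u = u ∧ ∃ n ∈ C.Np f g, ∃ v ∈ C.U, σ v = v ∧ a * z = u * n * v := by
    rintro a ha _ ⟨u, hu, hu', n, hn, v, hv, hv', rfl⟩
    obtain ⟨u₁, h1, h1', n₁, h2, v₁, h3, h3', e⟩ := Np_step hA hS hσ ha hu hu' hn
    refine ⟨u₁, h1, h1', n₁, h2, v₁ * v, mul_mem h3 hv, by rw [map_mul, h3', hv'], ?_⟩
    rw [← mul_assoc, ← mul_assoc, e, mul_assoc _ v₁]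
  induction hm using Subgroup.closure_induction_left with
  | one => rwa [one_mul]
  | mul_left a ha b _ ih => exact mul_assoc a b y ▸ key a ha _ ih
  | inv_mul_cancel a ha b _ ih =>
    obtain ⟨i, t, ht, rfl⟩ := ha
    rw [mul_assoc, nO_inv hA hS]
    exact key _ ⟨i, -t, fun j => by
      rw [Pi.neg_apply, Pi.neg_apply, Units.val_neg, Units.val_neg, map_neg, ht j], rfl⟩ _ ih

theorem St_bruhat_aux2 (hx : x ∈ C.U ∨ x ∈ C.Um) (h : σ x = x)
    (hy : ∃ u ∈ C.U, σ u = u ∧ ∃ n ∈ C.Np f g, ∃ v ∈ C.U, σ v = v ∧ y = u * n * v) :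
    ∃ u ∈ C.U, σ u = u ∧ ∃ n ∈ C.Np f g, ∃ v ∈ C.U, σ v = v ∧ x * y = u * n * v := by
  have key : ∀ a ∈ C.U, σ a = a → ∀ z : Γ,
      (∃ u ∈ C.U, σ u = u ∧ ∃ n ∈ C.Np f g, ∃ v ∈ C.U, σ v = v ∧ z = u * n * v) →
      ∃ u ∈ C.U, σ u = u ∧ ∃ n ∈ C.Np f g, ∃ v ∈ C.U, σ v = v ∧ a * z = u * n * v := by
    rintro a ha ha' _ ⟨u, hu, hu', n, hn, v, hv, hv', rfl⟩
    exact ⟨a * u, mul_mem ha hu, by rw [map_mul, ha', hu'], n, hn, v, hv, hv', by group⟩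
  rcases hx with hx | hx
  · exact key x hx h y hy
  obtain ⟨w, hw, e⟩ := hA.exists_w0f hS
  obtain ⟨n, hn, rfl⟩ := Np_surj (C := C) (f := f) hA hS hw
  have h1 : n * x * (n : Γ)⁻¹ ∈ C.U := conj_Us hA n (fun a ha h0 => by
    have h2 : -a ∈ ivs M (C.π n) := e ▸ mem_posR.2 ⟨hA.neg_mem ha, neg_nonneg.2 h0⟩
    have h3 := (hA.pos_or_neg ((hA.W_root (C.π_mem n)).2 (hA.neg_mem ha))).resolve_left
      (mem_ivs.1 h2).2.2
    rwa [map_neg, neg_nonpos] at h3) hx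
  have h2 : σ n = n := St_fix (Np_le hA hS hσ hn).1
  have h3 := St_bruhat_aux1 hA hS hσ (inv_mem hn) (key _ h1
    (by rw [map_mul, map_mul, map_inv, h2, h]) _ (St_bruhat_aux1 hA hS hσ hn hy))
  rwa [show (n : Γ)⁻¹ * (n * x * (n : Γ)⁻¹ * (n * y)) = x * y by group] at h3

theorem St_bruhat (hx : x ∈ C.St σ) : ∃ u ∈ C.U, σ u = u ∧ ∃ n ∈ C.Np f g, ∃ v ∈ C.U, σ v = v ∧
    x = u * n * v := by
  induction hx using Subgroup.closure_induction_left with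
  | one => exact ⟨1, one_mem _, map_one σ, 1, one_mem _, 1, one_mem _, map_one σ, by simp⟩
  | mul_left a ha b _ ih => exact St_bruhat_aux2 hA hS hσ ha.1 ha.2 ih
  | inv_mul_cancel a ha b _ ih =>
    exact St_bruhat_aux2 hA hS hσ (ha.1.imp inv_mem inv_mem) (by rw [map_inv, ha.2]) ih

theorem TS_eq : C.T ⊓ C.St σ = C.Ht f g := by
  refine le_antisymm (fun x hx => ?_) fun x hx => ?_
  · obtain ⟨u, hu, -, n, hn, v, hv, -, e⟩ := St_bruhat hA hS hσ hx.2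
    obtain ⟨m, -, rfl⟩ := mem_T.1 hx.1
    obtain ⟨-, n, rfl, -⟩ := Np_le hA hS hσ hn
    obtain rfl : m = n := uniq_N hA (one_mem _) (one_mem _) hu hv (by rwa [one_mul, mul_one])
    exact Np_T hA hS hσ hn hx.1
  · obtain ⟨h1, t, ht, h2⟩ := hx
    obtain ⟨y, h3, h4, h5⟩ := exists_hT hA hS hσ ht
    exact ⟨h1, Chi.eq h3 h1 h5 h2 ▸ h4⟩

end CG

end Pool.Agent.Lib.MP_7d41f7_al
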