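import Pool.Agent.Lib.MP_7d41f7_al.E.ERt

/-! The adjoint representation over the integers. -/

set_option autoImplicit false

namespace Pool.Agent.Lib.MP_7d41f7_al

open Matrix

variable {l : ℕ} {M : Matrix (Fin l) (Fin l) ℤ} {a b c : Lat l}

/-- The root vector (zero if `a` is not a root). -/
noncomputable def vE (M : Matrix (Fin l) (Fin l) ℤ) (a : Lat l) : Ix M → ℤ :=
  Sum.elim (fun c => if c.1 = a then 1 else 0) 0

/-- The element of the Cartan part. -/
def vH (M : Matrix (Fin l) (Fin l) ℤ) : Lat l →ₗ[ℤ] Ix M → ℤ where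
  toFun a := Sum.elim 0 a
  map_add' a b := by ext (i | i) <;> simp
  map_smul' z a := by ext (i | i) <;> simp

/-- The adjoint action of the Cartan part. -/
noncomputable def adH (M : Matrix (Fin l) (Fin l) ℤ) (a : Lat l) : Matrix (Ix M) (Ix M) ℤ :=
  diagonal (Sum.elim (fun c => ip M a c.1) 0)

/-- Half the square of `adE`. -/
noncomputable def adD (M : Matrix (Fin l) (Fin l) ℤ) (a : Lat l) : Matrix (Ix M) (Ix M) ℤ :=
  vecMulVec (vE M a) (vE M (-a))

/-- The adjoint action. -/
noncomputable def adV (M : Matrix (Fin l) (Fin l) ℤ) (v : Ix M → ℤ) : Matrix (Ix M) (Ix M) ℤ :=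
  ∑ b : roots M, v (.inl b) • adE M b.1 + adH M fun j => v (.inr j)

theorem vE_not (h : a ∉ roots M) : vE M a = 0 := by
  ext (c | i)
  · exact if_neg fun e : c.1 = a => h (e ▸ c.2)
  · rfl

theorem mat_ext_aux1 (A : Matrix (Ix M) (Ix M) ℤ) (hb : b ∈ roots M) (i : Ix M) :
    (A *ᵥ vE M b) i = A i (.inl ⟨b, hb⟩) := by
  have : vE M b = Pi.single (.inl ⟨b, hb⟩) 1 := by
    ext (c | i) <;> simp [vE, Pi.single_apply, Subtype.ext_iff]
  rw [this, mulVec_single_one, col_apply]

theorem mat_ext_aux2 (A : Matrix (Ix M) (Ix M) ℤ) (c : Lat l) (i : Ix M) :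
    (A *ᵥ vH M c) i = ∑ j, A i (.inr j) * c j := by
  simp [mulVec, dotProduct, vH]

/-- Two matrices that agree on the basis are equal (`mulVec_single_one`). -/
theorem mat_ext {A B : Matrix (Ix M) (Ix M) ℤ} (h1 : ∀ b ∈ roots M, A *ᵥ vE M b = B *ᵥ vE M b)
    (h2 : ∀ c, A *ᵥ vH M c = B *ᵥ vH M c) : A = B := by
  ext i (b | j)
  · rw [← mat_ext_aux1 A b.2, ← mat_ext_aux1 B b.2, h1 _ b.2]
  · simpa [mat_ext_aux2, Pi.single_apply] using congrFun (h2 (Pi.single j 1)) i

theorem adE_vE (hb : b ∈ roots M) (h : b ≠ -a) :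
    adE M a *ᵥ vE M b = sgn M a b • vE M (a + b) := by
  ext (c | i) <;> rw [mat_ext_aux1 _ hb] <;> simp [adE, vE, h]

theorem adE_neg (hb : -a ∈ roots M) (h0 : (0 : Lat l) ∉ roots M) :
    adE M a *ᵥ vE M (-a) = -vH M a := by
  ext (c | i)
  · have : c.1 ≠ 0 := fun e => h0 (e ▸ c.2)
    simp [mat_ext_aux1 _ hb, adE, vH, this]
  · simp [mat_ext_aux1 _ hb, adE, vH]

theorem adE_vH (a c : Lat l) : adE M a *ᵥ vH M c = -ip M a c • vE M a := by
  ext (d | i)
  · rw [mat_ext_aux2, ip_sum a c]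
    by_cases h : d.1 = a <;> simp [adE, vE, h, sr, mul_comm]
  · simp [mat_ext_aux2, adE, vE]

theorem adH_vE (a b : Lat l) : adH M a *ᵥ vE M b = ip M a b • vE M b := by
  ext (d | i)
  · by_cases h : d.1 = b <;> simp [adH, mulVec_diagonal, vE, h]
  · simp [adH, mulVec_diagonal, vE]

theorem adH_vH (a c : Lat l) : adH M a *ᵥ vH M c = 0 := by
  ext (d | i) <;> simp [adH, mulVec_diagonal, vH]

theorem adD_vE (hb : b ∈ roots M) : adD M a *ᵥ vE M b = if b = -a then vE M a else 0 := by
  ext i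
  rw [mat_ext_aux1 _ hb, adD, vecMulVec_apply]
  split_ifs with h
  · exact (congrArg _ (if_pos h)).trans (mul_one _)
  · exact (congrArg _ (if_neg h)).trans (mul_zero _)

theorem adD_vH (a c : Lat l) : adD M a *ᵥ vH M c = 0 := by
  ext i
  simp [mat_ext_aux2, adD, vecMulVec_apply, vE]

theorem adV_add_aux (z : ℤ) (a b : Lat l) :
    adH M (a + b) = adH M a + adH M b ∧ adH M (z • a) = z • adH M a := by
  constructor
  · rw [adH, adH, adH, diagonal_add]
    congr 1
    ext (d | i) <;> simp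
  · rw [adH, adH, ← diagonal_smul]
    congr 1
    ext (d | i)
    exacts [ip_smul_left z a d.1, (mul_zero z).symm]

theorem adV_add (v w : Ix M → ℤ) : adV M (v + w) = adV M v + adV M w := by
  rw [adV, adV, adV, add_add_add_comm, ← (adV_add_aux 0 _ _).1, ← Finset.sum_add_distrib]
  simp only [Pi.add_apply, add_smul]
  rfl

theorem adV_smul (z : ℤ) (v : Ix M → ℤ) : adV M (z • v) = z • adV M v := by
  rw [adV, adV, smul_add, ← (adV_add_aux z _ 0).2, Finset.smul_sum]
  simp only [Pi.smul_apply, smul_eq_mul, mul_smul]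
  rfl

theorem adV_vE_aux : adH M 0 = 0 := by
  simpa using (adV_add_aux (M := M) 0 0 0).2

theorem adV_vE (h : a ∈ roots M) : adV M (vE M a) = adE M a := by
  rw [adV, Finset.sum_eq_single ⟨a, h⟩ (fun b _ e => by
    simp [vE, show b.1 ≠ a from fun f => e (Subtype.ext f)]) (by simp)]
  exact (congrArg₂ _ (by simp [vE]) adV_vE_aux).trans (add_zero _)

theorem adV_vH (c : Lat l) : adV M (vH M c) = adH M c := by
  simp [adV, vH]

namespace Ade

variable (hA : Ade M)
include hA

theorem adE_sq_ne (ha : a ∈ roots M) : a ≠ -a := by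
  intro h
  have h2 := hA.mem_roots.1 ha
  have h3 : ip M a a = ip M a (-a) := by rw [← h]
  rw [ip_neg_right] at h3
  omega

theorem adE_sq_zero : (0 : Lat l) ∉ roots M := fun h => hA.ne_zero h rfl

theorem adE_sq_self (ha : a ∈ roots M) : adE M a *ᵥ vE M a = 0 := by
  have h2 := hA.mem_roots.1 ha
  have h : a + a ∉ roots M := fun h => by
    have := (hA.add_mem_iff ha ha).1 h
    omega
  rw [adE_vE ha (hA.adE_sq_ne ha), vE_not h, smul_zero]

theorem adE_sq_add (ha : a ∈ roots M) (hb : b ∈ roots M) (h : a + b ∈ roots M) :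
    a + b ≠ -a ∧ a + (a + b) ∉ roots M := by
  have h2 := hA.mem_roots.1 ha
  have h1 := (hA.add_mem_iff ha hb).1 h
  refine ⟨fun e => ?_, fun e => ?_⟩
  · have h3 : ip M a (a + b) = ip M a (-a) := by rw [e]
    rw [ip_neg_right, ip_add_right] at h3
    omega
  · have h3 := (hA.add_mem_iff ha h).1 e
    rw [ip_add_right] at h3
    omega

theorem adE_sq (ha : a ∈ roots M) : adE M a * adE M a = 2 • adD M a := by
  have h2 := hA.mem_roots.1 ha
  refine mat_ext (fun b hb => ?_) fun c => ?_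
  · rw [← mulVec_mulVec, smul_mulVec, adD_vE hb]
    by_cases h : b = -a
    · subst h
      rw [adE_neg hb hA.adE_sq_zero, mulVec_neg, adE_vH, h2, if_pos rfl, neg_smul, neg_neg]
      exact ofNat_zsmul ..
    · rw [adE_vE hb h, mulVec_smul, if_neg h, smul_zero]
      by_cases h' : a + b ∈ roots M
      · obtain ⟨e1, e2⟩ := hA.adE_sq_add ha hb h'
        rw [adE_vE h' e1, vE_not e2, smul_zero, smul_zero]
      · rw [vE_not h', mulVec_zero, smul_zero]
  · rw [← mulVec_mulVec, smul_mulVec, adD_vH, adE_vH, mulVec_smul, hA.adE_sq_self ha, smul_zero,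
      smul_zero]

theorem adE_adD (ha : a ∈ roots M) : adE M a * adD M a = 0 ∧ adD M a * adE M a = 0 ∧
    adD M a * adD M a = 0 := by
  refine ⟨mat_ext (fun b hb => ?_) fun c => ?_, mat_ext (fun b hb => ?_) fun c => ?_,
    mat_ext (fun b hb => ?_) fun c => ?_⟩
  · rw [← mulVec_mulVec, zero_mulVec, adD_vE hb]
    split_ifs
    · exact hA.adE_sq_self ha
    · exact mulVec_zero _
  · rw [← mulVec_mulVec, zero_mulVec, adD_vH, mulVec_zero]
  · rw [← mulVec_mulVec, zero_mulVec]
    by_cases h : b = -a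
    · subst h
      rw [adE_neg hb hA.adE_sq_zero, mulVec_neg, adD_vH, neg_zero]
    · rw [adE_vE hb h, mulVec_smul]
      by_cases h' : a + b ∈ roots M
      · rw [adD_vE h', if_neg (hA.adE_sq_add ha hb h').1, smul_zero]
      · rw [vE_not h', mulVec_zero, smul_zero]
  · rw [← mulVec_mulVec, zero_mulVec, adE_vH, mulVec_smul, adD_vE ha, if_neg (hA.adE_sq_ne ha),
      smul_zero]
  · rw [← mulVec_mulVec, zero_mulVec, adD_vE hb]
    split_ifs
    · rw [adD_vE ha, if_neg (hA.adE_sq_ne ha)]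
    · exact mulVec_zero _
  · rw [← mulVec_mulVec, zero_mulVec, adD_vH, mulVec_zero]

theorem jac0_aux1 (ha : a ∈ roots M) (hb : b ∈ roots M) (h : ip M a b = 0 ∨ ip M a b = 1) :
    adE M a *ᵥ (adE M b *ᵥ vE M (-a)) = adE M b *ᵥ (adE M a *ᵥ vE M (-a)) := by
  have h2 := hA.mem_roots.1 ha
  have hn := hA.neg_mem ha
  have hne : -a ≠ -b := fun e => by
    rw [← neg_injective e, h2] at h
    omega
  have hi := hA.add_mem_iff hb hn
  rw [ip_neg_right, ip_comm b a] at hi
  rw [adE_neg hn fun h0 => hA.ne_zero h0 rfl, adE_vE hn hne, mulVec_neg, adE_vH, mulVec_smul,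
    neg_smul, neg_neg, ip_comm b a]
  rcases h with h | h
  · rw [vE_not fun e => by have := hi.1 e; omega, h, mulVec_zero, smul_zero, zero_smul]
  · rw [adE_vE (hi.2 (by omega)) fun e => hA.ne_zero hb (by simpa using e), smul_smul, h,
      sgn_neg_right, sgn_add_right, sgn_neg_right, sgn_self h2, sgn_odd (a := a) (h ▸ odd_one),
      add_comm b, add_neg_cancel_left, mul_neg_one, neg_mul_neg, sgn_mul_self]

theorem jac0_aux2 (ha : a ∈ roots M) (hb : b ∈ roots M) (hc : c ∈ roots M) (h : 0 ≤ ip M a b)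
    (h1 : c ≠ -a) (h2 : c ≠ -b) : adE M a *ᵥ (adE M b *ᵥ vE M c) =
      if ip M a b = 0 then (sgn M a b * (sgn M a c * sgn M b c)) • vE M (a + b + c) else 0 := by
  have ka := hA.mem_roots.1 ha
  have kb := hA.mem_roots.1 hb
  have kc := hA.mem_roots.1 hc
  have key : a + b + c ∈ roots M → ip M a b = 0 ∧ ip M b c = -1 := fun e => by
    have e1 := hA.mem_roots.1 e
    simp only [ip_add_left, ip_add_right, ka, kb, kc, ip_comm b a, ip_comm c a, ip_comm c b] at e1
    have l : ∀ d ∈ roots M, c ≠ -d → -1 ≤ ip M d c := fun d hd hne => by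
      rcases hA.ip_cases hd hc with e | e | e | e | e
      · exact absurd e hne
      · omega
      · omega
      · omega
      · rw [← e, kc]
        omega
    have := l a ha h1
    have := l b hb h2
    omega
  rw [adE_vE hc h2, mulVec_smul]
  by_cases e : b + c ∈ roots M
  · have hne : b + c ≠ -a := fun e1 => by
      have e2 : a + b = -c := by rw [← neg_neg a, ← e1]; abel
      have := (hA.add_mem_iff ha hb).1 (e2 ▸ hA.neg_mem hc)
      omega
    rw [adE_vE e hne, smul_smul, ← add_assoc, sgn_add_right]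
    split_ifs with h0
    · congr 1
      ring
    · rw [vE_not fun e1 => h0 (key e1).1, smul_zero]
  · rw [vE_not e, mulVec_zero, smul_zero,
      vE_not fun e1 => e ((hA.add_mem_iff hb hc).2 (key e1).2), smul_zero, ite_self]

theorem jac0 (ha : a ∈ roots M) (hb : b ∈ roots M) (h : 0 ≤ ip M a b) :
    adE M a * adE M b = adE M b * adE M a := by
  by_cases hab : b = a
  · rw [hab]
  have hne : b ≠ -a := fun e => by
    rw [e, ip_neg_right, hA.mem_roots.1 ha] at h
    omega
  have h01 : ip M a b = 0 ∨ ip M a b = 1 := by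
    rcases hA.ip_cases ha hb with e | e | e | e | e
    exacts [absurd e hne, by omega, .inl e, .inr e, absurd e hab]
  have hs : vE M (a + b) = 0 := vE_not fun e => by
    have := (hA.add_mem_iff ha hb).1 e
    omega
  refine mat_ext (fun c hc => ?_) fun c => ?_
  · rw [← mulVec_mulVec, ← mulVec_mulVec]
    by_cases h1 : c = -a
    · exact h1 ▸ hA.jac0_aux1 ha hb h01
    by_cases h2 : c = -b
    · exact h2 ▸ (hA.jac0_aux1 hb ha (by rwa [ip_comm b a])).symm
    rw [hA.jac0_aux2 ha hb hc h h1 h2, hA.jac0_aux2 hb ha hc (by rwa [ip_comm b a]) h2 h1,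
      ip_comm b a, add_comm b a, mul_comm (sgn M b c)]
    split_ifs with h0
    · rw [sgn_even (a := a) (h0 ▸ Even.zero)]
    · rfl
  · rw [← mulVec_mulVec, ← mulVec_mulVec, adE_vH, adE_vH, mulVec_smul, mulVec_smul, adE_vE hb hne,
      adE_vE ha fun e => hne (by rw [e, neg_neg]), add_comm b a, hs]
    simp

theorem jac1_aux1 (ha : a ∈ roots M) (hb : b ∈ roots M) (h : b ≠ -a) : -1 ≤ ip M a b := by
  rcases hA.ip_cases ha hb with e | e | e | e | e
  · exact absurd e h
  · omega
  · omega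
  · omega
  · rw [e, hA.mem_roots.1 ha]; omega

/-- Compare both sides on the basis. -/
theorem jac1 (ha : a ∈ roots M) (hb : b ∈ roots M) (h : ip M a b = -1) :
    adE M a * adE M b = adE M b * adE M a + sgn M a b • adE M (a + b) := by
  have a2 := hA.mem_roots.1 ha
  have b2 := hA.mem_roots.1 hb
  have h' : ip M b a = -1 := by rw [ip_comm, h]
  have hs : sgn M b a = -sgn M a b := sgn_odd (by rw [h]; decide)
  have h0 : (0 : Lat l) ∉ roots M := fun e => hA.ne_zero e rfl
  have hab : a + b ∈ roots M := (hA.add_mem_iff ha hb).2 h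
  have saa := sgn_self a2
  have sbb := sgn_self b2
  have ss := sgn_mul_self (M := M) a b
  have n1 : b ≠ -a := fun e => by rw [e, ip_neg_right, a2] at h; omega
  have n2 : a ≠ -b := fun e => by rw [e, ip_neg_left, b2] at h; omega
  have n3 : -a ≠ -b := fun e => by rw [neg_injective e, b2] at h; omega
  refine mat_ext (fun c hc => ?_) fun c => ?_
  · rw [add_mulVec, smul_mulVec, ← mulVec_mulVec, ← mulVec_mulVec]
    by_cases c1 : c = -a
    · subst c1
      have z : vE M (b + -a) = 0 := vE_not fun e => by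
        have := (hA.add_mem_iff hb hc).1 e
        rw [ip_neg_right, h'] at this; omega
      rw [adE_vE hc n3, z, adE_neg hc h0, adE_vE hc (fun e => hA.ne_zero hb
        (by have := neg_injective e; simpa using this)), mulVec_neg, adE_vH, smul_zero,
        mulVec_zero, h', sgn_neg_right, sgn_add_left, saa, hs, add_neg_cancel_comm, smul_smul,
        show sgn M a b * (-1 * -sgn M a b) = 1 by linear_combination ss]
      module
    by_cases c2 : c = -b
    · subst c2
      have z : vE M (a + -b) = 0 := vE_not fun e => by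
        have := (hA.add_mem_iff ha hc).1 e
        rw [ip_neg_right, h] at this; omega
      rw [adE_vE hc n3.symm, z, adE_neg hc h0, adE_vE hc (fun e => hA.ne_zero ha
        (by have := neg_injective e; simpa using this)), mulVec_neg, adE_vH, smul_zero,
        mulVec_zero, h, sgn_neg_right, sgn_add_left, sbb, add_neg_cancel_right, smul_smul,
        show sgn M a b * (sgn M a b * -1) = -1 by linear_combination -ss]
      module
    rw [adE_vE hc c1, adE_vE hc c2, mulVec_smul, mulVec_smul]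
    by_cases c3 : c = -(a + b)
    · subst c3
      rw [show b + -(a + b) = -a by abel, show a + -(a + b) = -b by abel,
        adE_neg (hA.neg_mem ha) h0, adE_neg (hA.neg_mem hb) h0, adE_neg hc h0, sgn_neg_right,
        sgn_neg_right, sgn_add_right, sgn_add_right, saa, sbb, hs, map_add]
      module
    rw [adE_vE hc c3]
    have m1 : b + c ≠ -a := fun e => c3 (by rw [neg_add, ← e]; abel)
    have m2 : a + c ≠ -b := fun e => c3 (by rw [neg_add, ← e]; abel)
    have e1 : a + (b + c) = a + b + c := (add_assoc _ _ _).symm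
    have e2 : b + (a + c) = a + b + c := by abel
    have l1 := hA.jac1_aux1 ha hc c1
    have l2 := hA.jac1_aux1 hb hc c2
    have r := hA.add_mem_iff hab hc
    rw [ip_add_left] at r
    by_cases p : b + c ∈ roots M <;> by_cases q : a + c ∈ roots M
    · have := (hA.add_mem_iff hb hc).1 p
      have := (hA.add_mem_iff ha hc).1 q
      rw [adE_vE p m1, adE_vE q m2, e1, e2, vE_not (a := a + b + c) fun e => by
        have := r.1 e; omega]
      simp
    · rw [adE_vE p m1, vE_not q, e1, sgn_add_right, sgn_add_left, mulVec_zero]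
      module
    · rw [adE_vE q m2, vE_not p, e2, sgn_add_right, sgn_add_left, mulVec_zero, hs]
      module
    · have := mt (hA.add_mem_iff hb hc).2 p
      have := mt (hA.add_mem_iff ha hc).2 q
      rw [vE_not p, vE_not q, vE_not (a := a + b + c) fun e => by have := r.1 e; omega]
      simp
  · rw [add_mulVec, smul_mulVec, ← mulVec_mulVec, ← mulVec_mulVec, adE_vH, adE_vH, adE_vH,
      mulVec_smul, mulVec_smul, adE_vE hb n1, adE_vE ha n2, hs, add_comm b a, ip_add_left]
    module

theorem jac2_aux1 (ha : a ∈ roots M) (hb : b ∈ roots M) (h : 0 ≤ ip M a b) :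
    adE M a *ᵥ vE M b = 0 := by
  have h2 := hA.mem_roots.1 ha
  rw [adE_vE hb fun e => by rw [e, ip_neg_right] at h; omega,
    vE_not fun e => by have := (hA.add_mem_iff ha hb).1 e; omega, smul_zero]

theorem jac2_aux2 (ha : a ∈ roots M) (hb : b ∈ roots M) (h : ip M a b = -1) :
    adE M (-a) *ᵥ adE M a *ᵥ vE M b = -vE M b := by
  have h2 := hA.mem_roots.1 ha
  rw [adE_vE hb fun e => by rw [e, ip_neg_right] at h; omega, mulVec_smul,
    adE_vE ((hA.add_mem_iff ha hb).2 h) fun e => hA.ne_zero hb (by simpa using e), smul_smul,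
    sgn_neg_left, sgn_add_right, sgn_self h2, neg_add_cancel_left, neg_one_mul, mul_neg,
    sgn_mul_self, neg_one_smul]

theorem jac2_aux3 (ha : a ∈ roots M) : adE M (-a) *ᵥ adE M a *ᵥ vE M (-a) = (-2 : ℤ) • vE M (-a) := by
  rw [adE_neg (hA.neg_mem ha) fun e => hA.ne_zero e rfl, mulVec_neg, adE_vH, ip_neg_left,
    hA.mem_roots.1 ha, neg_neg, neg_smul]

theorem jac2 (ha : a ∈ roots M) : adE M a * adE M (-a) = adE M (-a) * adE M a - adH M a := by
  have h2 := hA.mem_roots.1 ha
  have hn := hA.neg_mem ha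
  have h0 : (0 : Lat l) ∉ roots M := fun e => hA.ne_zero e rfl
  refine mat_ext (fun b hb => ?_) fun c => ?_
  · rw [sub_mulVec, ← mulVec_mulVec, ← mulVec_mulVec, adH_vE]
    rcases hA.ip_cases ha hb with e | e | e | e | e
    · rw [e, hA.jac2_aux1 hn hn (hA.ip_nonneg _), hA.jac2_aux3 ha, ip_neg_right, h2, mulVec_zero,
        sub_self]
    · rw [hA.jac2_aux1 hn hb (by rw [ip_neg_left]; omega), hA.jac2_aux2 ha hb e, e, mulVec_zero,
        neg_one_smul, sub_self]
    · rw [hA.jac2_aux1 hn hb (by rw [ip_neg_left]; omega), hA.jac2_aux1 ha hb e.ge, e,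
        mulVec_zero, mulVec_zero, zero_smul, sub_self]
    · have := hA.jac2_aux2 hn hb (by rw [ip_neg_left, e])
      rw [neg_neg] at this
      rw [this, hA.jac2_aux1 ha hb (by omega), e, mulVec_zero, one_smul, zero_sub]
    · have := hA.jac2_aux3 hn
      rw [neg_neg] at this
      rw [e, this, hA.jac2_aux1 ha ha (by omega), h2, mulVec_zero, zero_sub, neg_smul]
  · have := adE_neg (a := -a) (by rwa [neg_neg]) h0
    rw [neg_neg, map_neg, neg_neg] at this
    rw [sub_mulVec, ← mulVec_mulVec, ← mulVec_mulVec, adH_vH, adE_vH, adE_vH, mulVec_smul,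
      mulVec_smul, adE_neg hn h0, this, ip_neg_left, neg_neg, sub_zero, smul_neg, neg_smul]

theorem jacH (ha : a ∈ roots M) (c : Lat l) :
    adE M a * adH M c = adH M c * adE M a - ip M a c • adE M a := by
  refine mat_ext (fun b hb => ?_) fun d => ?_
  · rw [sub_mulVec, ← mulVec_mulVec, ← mulVec_mulVec, smul_mulVec, adH_vE, mulVec_smul]
    by_cases h : b = -a
    · subst h
      rw [adE_neg hb hA.adE_sq_zero, mulVec_neg, adH_vH, ip_neg_right, ip_comm c a]
      module
    · rw [adE_vE hb h, mulVec_smul, adH_vE, ip_add_right, ip_comm c a]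
      module
  · rw [sub_mulVec, ← mulVec_mulVec, ← mulVec_mulVec, smul_mulVec, adH_vH, mulVec_zero, adE_vH,
      mulVec_smul, adH_vE, ip_comm c a]
    module

omit hA in
theorem jac_dec (v : Ix M → ℤ) :
    v = ∑ b : roots M, v (.inl b) • vE M b.1 + vH M fun j => v (.inr j) := by
  ext (c | j)
  · simp [vE, vH, Finset.sum_apply, Subtype.ext_iff.symm]
  · simp [vE, vH, Finset.sum_apply]

omit hA in
theorem jac_zero : adV M 0 = 0 := by
  have := adV_smul (M := M) 0 0
  rwa [zero_smul, zero_smul] at this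

theorem jac_vE (ha : a ∈ roots M) (hb : b ∈ roots M) :
    adE M a * adV M (vE M b) = adV M (vE M b) * adE M a + adV M (adE M a *ᵥ vE M b) := by
  have h2 := hA.mem_roots.1 ha
  rw [adV_vE hb]
  by_cases h : b = -a
  · subst h
    rw [adE_neg hb hA.adE_sq_zero, ← neg_one_zsmul (vH M a), adV_smul, adV_vH, hA.jac2 ha,
      neg_one_zsmul, sub_eq_add_neg]
  · rw [adE_vE hb h, adV_smul]
    by_cases h' : a + b ∈ roots M
    · rw [adV_vE h', hA.jac1 ha hb ((hA.add_mem_iff ha hb).1 h')]
    · have h0 : 0 ≤ ip M a b := by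
        rcases hA.ip_cases ha hb with e | e | e | e | e
        · exact absurd e h
        · exact absurd ((hA.add_mem_iff ha hb).2 e) h'
        · omega
        · omega
        · subst e
          omega
      rw [vE_not h', jac_zero, smul_zero, add_zero, hA.jac0 ha hb h0]

/-- Both sides are additive in `v`; `v` is a combination of the `vE b` and one `vH c`. -/
theorem jac (ha : a ∈ roots M) (v : Ix M → ℤ) :
    adE M a * adV M v = adV M v * adE M a + adV M (adE M a *ᵥ v) := by
  let p : (Ix M → ℤ) → Prop := fun v =>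
    adE M a * adV M v = adV M v * adE M a + adV M (adE M a *ᵥ v)
  have hadd : ∀ v w, p v → p w → p (v + w) := fun v w hv hw => by
    change _ = _ at hv hw ⊢
    rw [mulVec_add, adV_add, adV_add, mul_add, add_mul, hv, hw]
    abel
  have h0 : p 0 := by
    change _ = _
    rw [mulVec_zero, jac_zero, mul_zero, zero_mul, add_zero]
  have hsmul : ∀ (z : ℤ) v, p v → p (z • v) := fun z v hv => by
    change _ = _ at hv ⊢
    rw [mulVec_smul, adV_smul, adV_smul, mul_smul_comm, smul_mul_assoc, hv, smul_add]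
  change p v
  rw [jac_dec v]
  refine hadd _ _ (Finset.sum_induction _ p hadd h0 fun b _ => hsmul _ _ (hA.jac_vE ha b.2)) ?_
  change _ = _
  rw [adV_vH, adE_vH, adV_smul, adV_vE ha, hA.jacH ha, neg_smul, sub_eq_add_neg]

theorem xm_eq {K : Type} [CommRing K] (ha : a ∈ roots M) (t : K) :
    xm M a t = 1 + t • (adE M a).map Int.cast + t ^ 2 • (adD M a).map Int.cast := by
  rw [xm, hA.adE_sq ha]
  congr 2
  ext x y
  rw [map_apply, map_apply, two_smul, Matrix.add_apply, ← two_mul,
    Int.mul_ediv_cancel_left _ two_ne_zero]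

omit hA in
theorem xm_add_mul {K : Type} [CommRing K] (A B : Matrix (Ix M) (Ix M) ℤ) :
    A.map (Int.cast : ℤ → K) * B.map Int.cast = (A * B).map Int.cast :=
  (Matrix.map_mul (f := Int.castRingHom K)).symm

theorem xm_add {K : Type} [CommRing K] (ha : a ∈ roots M) (s t : K) :
    xm M a (s + t) = xm M a s * xm M a t := by
  obtain ⟨h1, h2, h3⟩ := hA.adE_adD ha
  have e0 : (0 : Matrix (Ix M) (Ix M) ℤ).map (Int.cast : ℤ → K) = 0 :=
    Matrix.map_zero _ Int.cast_zero
  have e2 : (2 • adD M a).map (Int.cast : ℤ → K) = (2 : K) • (adD M a).map Int.cast := by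
    ext x y
    rw [two_smul, two_smul, map_apply, Matrix.add_apply, Matrix.add_apply, map_apply, Int.cast_add]
  rw [hA.xm_eq ha, hA.xm_eq ha, hA.xm_eq ha]
  simp only [mul_add, add_mul, mul_smul_comm, smul_mul_assoc, one_mul, mul_one, xm_add_mul,
    hA.adE_sq ha, h1, h2, h3, e0, e2]
  module

omit hA in
theorem xm_com0_aux {R : Type} [Ring R] [IsAddTorsionFree R] {A B D : R} (h : Commute A B)
    (hD : A * A = 2 • D) : Commute D B :=
  nsmul_right_injective two_ne_zero (show 2 • (D * B) = 2 • (B * D) by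
    rw [← smul_mul_assoc, ← mul_smul_comm, ← hD, (h.mul_left h).eq])

omit hA in
theorem xm_com0_tf : IsAddTorsionFree (Matrix (Ix M) (Ix M) ℤ) :=
  inferInstanceAs (IsAddTorsionFree (Ix M → Ix M → ℤ))

theorem xm_com0 {K : Type} [CommRing K] (ha : a ∈ roots M) (hb : b ∈ roots M) (h : 0 ≤ ip M a b)
    (s t : K) : xm M a s * xm M b t = xm M b t * xm M a s := by
  have := xm_com0_tf (M := M)
  have h1 : Commute (adE M a) (adE M b) := hA.jac0 ha hb h
  have h2 := xm_com0_aux h1 (hA.adE_sq ha)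
  have k : ∀ {X : Matrix (Ix M) (Ix M) ℤ}, Commute X (adE M b) →
      Commute (X.map Int.cast) (xm M b t) := fun hX => by
    rw [hA.xm_eq hb]
    exact ((Commute.one_right _).add_right
      ((hX.map (Int.castRingHom K).mapMatrix).smul_right _)).add_right
      (((xm_com0_aux hX.symm (hA.adE_sq hb)).symm.map (Int.castRingHom K).mapMatrix).smul_right _)
  rw [hA.xm_eq ha]
  exact ((Commute.one_left _).add_left ((k h1).smul_left _)).add_left ((k h2).smul_left _)

omit hA in
theorem xm_com1_aux1 {R : Type} [Ring R] [IsAddTorsionFree R] {A B C P Q D : R}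
    (h : A * B = B * A + C) (hA : A * C = C * A) (hB : B * C = C * B) (a2 : A * A = 2 • P)
    (b2 : B * B = 2 • Q) (c2 : C * C = 2 • D) (a3 : A * P = 0) (b3 : Q * B = 0) :
    P * B = B * P + C * A ∧ A * Q = Q * A + B * C ∧ P * Q = Q * P + B * (C * A) + D ∧ C * P = 0 ∧
      Q * C = 0 ∧ D * A = 0 ∧ B * D = 0 ∧ D * P = 0 ∧ Q * D = 0 := by
  have t2 : ∀ {x y : R}, 2 • x = 2 • y → x = y := fun e => nsmul_right_injective two_ne_zero e
  have t3 : ∀ {x y : R}, 3 • x = 3 • y → x = y := fun e => nsmul_right_injective three_ne_zero e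
  have e1 : P * B = B * P + C * A := t2 (by
    linear_combination (norm := noncomm_ring) A * h + h * A + hA - a2 * B + B * a2)
  have e2 : A * Q = Q * A + B * C := t2 (by
    linear_combination (norm := noncomm_ring) h * B + B * h - hB - A * b2 + b2 * A)
  have e4 : C * P = 0 := t3 (by
    linear_combination (norm := noncomm_ring) a3 * B - A * e1 - h * P - B * a3 - hA * A - C * a2)
  have e5 : Q * C = 0 := t3 (by
    linear_combination (norm := noncomm_ring) A * b3 - e2 * B - Q * h - b3 * A + B * hB - b2 * C)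
  refine ⟨e1, e2, t2 ?_, e4, e5, t2 ?_, t2 ?_, t2 ?_, t2 ?_⟩
  · linear_combination (norm := noncomm_ring)
      A * e2 + e2 * A + h * C + Q * a2 + B * hA + c2 - a2 * Q
  · linear_combination (norm := noncomm_ring) e4 * B - C * e1 + hB * P - B * e4 - c2 * A
  · linear_combination (norm := noncomm_ring) A * e5 - e2 * C - Q * hA - e5 * A - B * c2
  · linear_combination (norm := noncomm_ring) C * e4 - c2 * P
  · linear_combination (norm := noncomm_ring) e5 * C - Q * c2

omit hA in
theorem xm_com1_aux2 {R S K : Type} [Ring R] [Ring S] [CommRing K] [Algebra K S] (f : R →+* S)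
    {A B C P Q D : R} (h : A * B = B * A + C) (e : P * B = B * P + C * A ∧ A * Q = Q * A + B * C ∧
      P * Q = Q * P + B * (C * A) + D ∧ C * P = 0 ∧ Q * C = 0 ∧ D * A = 0 ∧ B * D = 0 ∧
      D * P = 0 ∧ Q * D = 0) (s t : K) :
    (1 + s • f A + s ^ 2 • f P) * (1 + t • f B + t ^ 2 • f Q) = (1 + t • f B + t ^ 2 • f Q) *
      (1 + (s * t) • f C + (s * t) ^ 2 • f D) * (1 + s • f A + s ^ 2 • f P) := by
  obtain ⟨e1, e2, e3, e4, e5, e6, e7, e8, e9⟩ := e
  simp only [mul_add, add_mul, smul_mul_assoc, mul_smul_comm, one_mul, mul_one, ← map_mul, e5, e7,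
    e9, map_zero, smul_zero, add_zero]
  simp only [mul_assoc, h, e1, e2, e3, e4, e6, e8, map_add, mul_zero, map_zero, smul_zero, add_zero]
  module

theorem xm_com1 {K : Type} [CommRing K] (ha : a ∈ roots M) (hb : b ∈ roots M) (h : ip M a b = -1)
    (s t : K) : xm M a s * xm M b t =
      xm M b t * xm M (a + b) ((sgn M a b : K) * (s * t)) * xm M a s := by
  have := xm_com0_tf (M := M)
  have hc := (hA.add_mem_iff ha hb).2 h
  have c1 : Commute (adE M a) (adE M (a + b)) := hA.jac0 ha hc (by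
    rw [ip_add_right, h, hA.mem_roots.1 ha]; decide)
  have c2 : Commute (adE M b) (adE M (a + b)) := hA.jac0 hb hc (by
    rw [ip_add_right, ip_comm b a, h, hA.mem_roots.1 hb]; decide)
  have := xm_com1_aux2 (Int.castRingHom K).mapMatrix (hA.jac1 ha hb h) (xm_com1_aux1
    (D := adD M (a + b)) (hA.jac1 ha hb h) (c1.smul_right _) (c2.smul_right _) (hA.adE_sq ha)
    (hA.adE_sq hb) (by rw [smul_mul_smul_comm, sgn_mul_self, one_smul, hA.adE_sq hc])
    (hA.adE_adD ha).1 (hA.adE_adD hb).2.1) s t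
  rw [map_zsmul, ← Int.cast_smul_eq_zsmul K, smul_smul, mul_comm (s * t)] at this
  rw [hA.xm_eq ha, hA.xm_eq hb, hA.xm_eq hc, mul_pow (sgn M a b : K), sq (sgn M a b : K),
    ← Int.cast_mul, sgn_mul_self, Int.cast_one, one_mul]
  exact this

omit hA in
theorem xm_aut_aux1 {X : Matrix (Ix M) (Ix M) ℤ} (n : ℕ) (hn : n ≠ 0) (h : n • X = 0) : X = 0 := by
  ext i j
  have h1 : (n : ℤ) * X i j = 0 := by
    have := congrFun (congrFun h i) j
    simpa using this
  have h2 : (n : ℤ) ≠ 0 := by exact_mod_cast hn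
  simpa using (mul_eq_zero.1 h1).resolve_left h2

theorem xm_aut_aux2 (ha : a ∈ roots M) : xm M a (1 : ℤ) = 1 + adE M a + adD M a := by
  rw [hA.xm_eq ha, one_pow, one_smul, one_smul]
  rfl

theorem xm_aut (ha : a ∈ roots M) (v : Ix M → ℤ) :
    xm M a (1 : ℤ) * adV M v = adV M (xm M a (1 : ℤ) *ᵥ v) * xm M a (1 : ℤ) := by
  have h0 : adV M 0 = 0 := by simpa using adV_smul (M := M) 0 0
  have hAA := hA.adE_sq ha
  have hAD := (hA.adE_adD ha).1
  have hP := hA.jac ha v
  have hQ := hA.jac ha (adE M a *ᵥ v)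
  have hS := hA.jac ha (adD M a *ᵥ v)
  rw [mulVec_mulVec, hAA, two_smul, add_mulVec, adV_add] at hQ
  rw [mulVec_mulVec, hAD, zero_mulVec, h0, add_zero] at hS
  rw [hA.xm_aut_aux2 ha, add_mulVec, add_mulVec, one_mulVec, adV_add, adV_add]
  rw [two_smul] at hAA
  generalize adV M (adD M a *ᵥ v) = S at *
  generalize adV M (adE M a *ᵥ v) = Q at *
  generalize adV M v = P at *
  generalize adD M a = D at *
  generalize adE M a = A at *
  have e1 : D * P - (P * D + Q * A + S) = 0 := xm_aut_aux1 2 two_ne_zero (by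
    linear_combination (norm := noncomm_ring) A * hP + hP * A + hQ - hAA * P + P * hAA)
  have e2 : Q * D + S * A = 0 := xm_aut_aux1 3 three_ne_zero (by
    linear_combination (norm := noncomm_ring)
      hAD * P - A * e1 - hP * D - hQ * A - hS - P * hAD - Q * hAA)
  have e3 : S * D = 0 := xm_aut_aux1 4 four_ne_zero (by
    linear_combination (norm := noncomm_ring) A * e2 - hQ * D - hS * A - Q * hAD - S * hAA)
  linear_combination (norm := noncomm_ring) hP + e1 - e2 - e3

theorem nm_vec_aux1 (ha : a ∈ roots M) (hb : b ∈ roots M) (h : b ≠ -a) :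
    xm M a (1 : ℤ) *ᵥ vE M b = vE M b + sgn M a b • vE M (a + b) := by
  rw [hA.xm_aut_aux2 ha, add_mulVec, add_mulVec, one_mulVec, adE_vE hb h, adD_vE hb, if_neg h,
    add_zero]

theorem nm_vec_aux2 (ha : a ∈ roots M) :
    xm M a (1 : ℤ) *ᵥ vE M (-a) = vE M (-a) - vH M a + vE M a := by
  rw [hA.xm_aut_aux2 ha, add_mulVec, add_mulVec, one_mulVec,
    adE_neg (hA.neg_mem ha) fun h0 => hA.ne_zero h0 rfl, adD_vE (hA.neg_mem ha), if_pos rfl,
    sub_eq_add_neg]

theorem nm_vec_aux3 (ha : a ∈ roots M) (c : Lat l) :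
    xm M a (1 : ℤ) *ᵥ vH M c = vH M c - ip M a c • vE M a := by
  rw [hA.xm_aut_aux2 ha, add_mulVec, add_mulVec, one_mulVec, adE_vH, adD_vH, add_zero, neg_smul,
    sub_eq_add_neg]

theorem nm_vec_aux4 (ha : a ∈ roots M) (hb : b ∈ roots M) (h : -2 < ip M a b) : b ≠ -a :=
  fun e => by
    rw [e, ip_neg_right, hA.mem_roots.1 ha] at h
    omega

theorem nm_vec_aux5 (ha : a ∈ roots M) (hb : b ∈ roots M) (h : 0 ≤ ip M a b) :
    xm M a (1 : ℤ) *ᵥ vE M b = vE M b := by
  rw [hA.nm_vec_aux1 ha hb (hA.nm_vec_aux4 ha hb (by omega)),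
    vE_not (a := a + b) fun e => by have := (hA.add_mem_iff ha hb).1 e; omega, smul_zero, add_zero]

theorem nm_vec_aux6 (ha : a ∈ roots M) (hb : b ∈ roots M) (h : ip M a b = -1) :
    xm M (-a) (1 : ℤ) *ᵥ vE M (a + b) = vE M (a + b) - sgn M a b • vE M b := by
  have h2 := hA.mem_roots.1 ha
  have hc := (hA.add_mem_iff ha hb).2 h
  rw [hA.nm_vec_aux1 (hA.neg_mem ha) hc (hA.nm_vec_aux4 (hA.neg_mem ha) hc
    (by rw [ip_neg_left, ip_add_right]; omega)), sgn_neg_left, sgn_add_right, sgn_self h2,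
    neg_add_cancel_left, neg_one_mul, neg_smul, sub_eq_add_neg]

theorem nm_vec (ha : a ∈ roots M) :
    (∀ b ∈ roots M, ∃ z : ℤ, z * z = 1 ∧ (xm M a (1 : ℤ) * xm M (-a) 1 * xm M a 1) *ᵥ vE M b =
      z • vE M (rf M a b)) ∧
    ∀ c, (xm M a (1 : ℤ) * xm M (-a) 1 * xm M a 1) *ᵥ vH M c = vH M (rf M a c) := by
  have h2 := hA.mem_roots.1 ha
  have hn := hA.neg_mem ha
  have p1 := hA.nm_vec_aux5 ha ha (by omega)
  have p2 := hA.nm_vec_aux2 ha
  have p3 := hA.nm_vec_aux3 ha
  have q1 := hA.nm_vec_aux5 hn hn (hA.ip_nonneg _)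
  have q2 := hA.nm_vec_aux2 hn
  have q3 := hA.nm_vec_aux3 hn
  rw [neg_neg, map_neg, sub_neg_eq_add] at q2
  refine ⟨fun b hb => ?_, fun c => ?_⟩
  · rw [← mulVec_mulVec, ← mulVec_mulVec, hA.rf_apply ha, ip_comm b a]
    rcases hA.ip_cases ha hb with e | e | e | e | e
    · refine ⟨1, rfl, ?_⟩
      rw [e, p2, mulVec_add, mulVec_sub, q1, q2, q3, ip_neg_left, ip_neg_right, h2,
        show -a - (-2 : ℤ) • a = a by module, one_smul, ← p1]
      congr 1
      rw [p1]
      module
    · have hc := (hA.add_mem_iff ha hb).2 e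
      refine ⟨_, sgn_mul_self (M := M) a b, ?_⟩
      rw [hA.nm_vec_aux1 ha hb (hA.nm_vec_aux4 ha hb (by omega)), mulVec_add, mulVec_smul,
        hA.nm_vec_aux5 hn hb (by rw [ip_neg_left]; omega), hA.nm_vec_aux6 ha hb e, smul_sub,
        smul_smul, sgn_mul_self, one_smul, add_sub_cancel, mulVec_smul,
        hA.nm_vec_aux5 ha hc (by rw [ip_add_right]; omega), e,
        show b - (-1 : ℤ) • a = a + b by module]
    · refine ⟨1, rfl, ?_⟩
      rw [hA.nm_vec_aux5 ha hb e.ge, hA.nm_vec_aux5 hn hb (by rw [ip_neg_left]; omega),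
        hA.nm_vec_aux5 ha hb e.ge, e, zero_smul, sub_zero, one_smul]
    · have e1 : ip M (-a) b = -1 := by rw [ip_neg_left, e]
      have e2 := hA.nm_vec_aux6 hn hb e1
      rw [neg_neg] at e2
      refine ⟨_, sgn_mul_self (M := M) (-a) b, ?_⟩
      rw [hA.nm_vec_aux5 ha hb (by omega), hA.nm_vec_aux1 hn hb (hA.nm_vec_aux4 hn hb (by omega)),
        mulVec_add, mulVec_smul, hA.nm_vec_aux5 ha hb (by omega), e2, smul_sub, smul_smul,
        sgn_mul_self, one_smul, add_sub_cancel, e, show b - (1 : ℤ) • a = -a + b by module]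
    · refine ⟨1, rfl, ?_⟩
      rw [e, p1, q2, mulVec_add, mulVec_add, p1, p2, p3, h2,
        show a - (2 : ℤ) • a = -a by module]
      module
  · rw [← mulVec_mulVec, ← mulVec_mulVec, hA.rf_apply ha, ip_comm c a, p3, mulVec_sub, mulVec_smul,
      q2, q3, ip_neg_left, map_sub, map_smul]
    simp only [mulVec_sub, mulVec_add, mulVec_smul, p1, p2, p3, h2]
    module

theorem nm_conj (ha : a ∈ roots M) (hb : b ∈ roots M) : ∃ z : ℤ, z * z = 1 ∧
    xm M a (1 : ℤ) * xm M (-a) 1 * xm M a 1 * adE M b =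
      z • adE M (rf M a b) * (xm M a 1 * xm M (-a) 1 * xm M a 1) ∧
    xm M a (1 : ℤ) * xm M (-a) 1 * xm M a 1 * adD M b =
      adD M (rf M a b) * (xm M a 1 * xm M (-a) 1 * xm M a 1) := by
  obtain ⟨z, hz, h⟩ := (hA.nm_vec ha).1 b hb
  have hr := (hA.W_root (hA.rf_mem ha)).2 hb
  have e1 : xm M a (1 : ℤ) * xm M (-a) 1 * xm M a 1 * adE M b =
      z • adE M (rf M a b) * (xm M a 1 * xm M (-a) 1 * xm M a 1) := by
    rw [← adV_vE hb, ← adV_vE hr, ← adV_smul, ← h, mul_assoc, hA.xm_aut ha, ← mul_assoc,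
      mul_assoc (xm M a 1), hA.xm_aut (hA.neg_mem ha), ← mul_assoc, hA.xm_aut ha, ← mulVec_mulVec,
      ← mulVec_mulVec]
    simp only [mul_assoc]
  refine ⟨z, hz, e1, sub_eq_zero.1 (xm_aut_aux1 2 two_ne_zero ?_)⟩
  rw [smul_sub, ← mul_smul_comm, ← smul_mul_assoc, ← hA.adE_sq hb, ← hA.adE_sq hr, ← mul_assoc, e1,
    mul_assoc, e1, ← mul_assoc, smul_mul_smul_comm, hz, one_smul, sub_self]

end Ade

theorem xm_map {K L : Type} [CommRing K] [CommRing L] (f : K →+* L) (a : Lat l) (t : K) :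
    (xm M a t).map f = xm M a (f t) := by
  ext i j
  simp [xm, one_apply, apply_ite f]

end Pool.Agent.Lib.MP_7d41f7_al
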