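import Pool.Agent.Lib.MP_7d41f7_al.E.ERt

/-! Symmetries of the diagram. -/

set_option autoImplicit false

namespace Pool.Agent.Lib.MP_7d41f7_al

variable {l : ℕ} {M : Matrix (Fin l) (Fin l) ℤ} {g g' : Equiv.Perm (Fin l)} {a b : Lat l}
  {i j : Fin l} {w : Au l} {r : ℕ}

/-- A symmetry of the diagram whose orbits consist of orthogonal nodes. -/
structure Sy (M : Matrix (Fin l) (Fin l) ℤ) (g : Equiv.Perm (Fin l)) : Prop where
  inv : ∀ i j, M (g i) (g j) = M i j
  ort : ∀ i j, g.SameCycle i j → i ≠ j → M i j + M j i = 0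

/-- The orbit of a node. -/
def orb (g : Equiv.Perm (Fin l)) (i : Fin l) : Finset (Fin l) :=
  Finset.univ.filter (g.SameCycle i)

/-- The product of the reflections in a set of nodes. -/
noncomputable def rI (M : Matrix (Fin l) (Fin l) ℤ) (I : Finset (Fin l)) : Au l :=
  (I.toList.map fun j => rf M (sr j)).prod

/-- The elements of the Weyl group that commute with the symmetry. -/
def Wf (M : Matrix (Fin l) (Fin l) ℤ) (g : Equiv.Perm (Fin l)) : Subgroup (Au l) :=
  Wg M ⊓ Subgroup.centralizer {ga g}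

/-- There is no isometry of order `r`. -/
def Gd (M : Matrix (Fin l) (Fin l) ℤ) (r : ℕ) : Prop :=
  ∀ w : Au l, (∀ a b, ip M (w a) (w b) = ip M a b) → w ^ r = 1 → w = 1

theorem mem_orb : j ∈ orb g i ↔ g.SameCycle i j := by
  simp [orb]

theorem mem_Wf : w ∈ Wf M g ↔ w ∈ Wg M ∧ w * ga g = ga g * w := by
  rw [Wf, Subgroup.mem_inf, Subgroup.mem_centralizer_singleton_iff]

theorem ga_one : ga (1 : Equiv.Perm (Fin l)) = 1 := by
  rfl

theorem ga_mul : ga (g * g') = ga g * ga g' := by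
  rfl

theorem ga_hgt : hgt (ga g a) = hgt a := by
  exact Equiv.sum_comp g.symm a

theorem ga_pos : 0 ≤ ga g a ↔ 0 ≤ a := by
  exact ⟨fun h i => by simpa [ga_apply] using h (g i), fun h i => h (g.symm i)⟩

theorem ga_neg : ga g a ≤ 0 ↔ a ≤ 0 := by
  exact ⟨fun h i => by simpa [ga_apply] using h (g i), fun h i => h (g.symm i)⟩

theorem ga_orb : ga g (∑ j ∈ orb g i, sr j) = ∑ j ∈ orb g i, sr j := by
  rw [map_sum]
  exact Finset.sum_equiv g (fun j => by simp [mem_orb]) fun j _ => ga_sr g j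

/-- An additive function that is invariant under `ga g` is constant on the orbits. -/
theorem orb_const {A : Type} (φ : Lat l → A) (h : ∀ b, φ (ga g b) = φ b) (hj : j ∈ orb g i) :
    φ (sr j) = φ (sr i) := by
  obtain ⟨n, rfl⟩ := (mem_orb.1 hj).exists_nat_pow_eq
  clear hj
  induction n with
  | zero => rfl
  | succ n ih => rw [pow_succ', Equiv.Perm.mul_apply, ← ga_sr, h, ih]

theorem Sy.one : Sy M 1 := by
  exact ⟨fun _ _ => rfl, fun i j h e => absurd (Equiv.Perm.sameCycle_one.1 h) e⟩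

theorem Sy.ip_aux (hS : Sy M g) (a b : Lat l) :
    ga g a ⬝ᵥ M.mulVec (ga g b) = a ⬝ᵥ M.mulVec b := by
  simp only [dotProduct, Matrix.mulVec, ga_apply]
  rw [← Equiv.sum_comp g]
  refine Finset.sum_congr rfl fun i _ => ?_
  rw [← Equiv.sum_comp g]
  simp [hS.inv]

theorem Sy.ip (hS : Sy M g) (a b : Lat l) : ip M (ga g a) (ga g b) = ip M a b := by
  rw [ip_comm_aux, ip_comm_aux, hS.ip_aux, hS.ip_aux]

theorem Sy.sgn (hS : Sy M g) (a b : Lat l) : sgn M (ga g a) (ga g b) = sgn M a b := by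
  unfold Pool.Agent.Lib.MP_7d41f7_al.sgn
  rw [hS.ip_aux]

theorem Sy.orth (hS : Sy M g) {k : Fin l} (hj : j ∈ orb g i) (hk : k ∈ orb g i) (h : j ≠ k) :
    Pool.Agent.Lib.MP_7d41f7_al.ip M (sr j) (sr k) = 0 := by
  rw [ip_sr_sr]
  exact hS.ort j k ((mem_orb.1 hj).symm.trans (mem_orb.1 hk)) h

theorem sy_E6 : Sy mE6 gE6 := by
  exact ⟨by decide, by decide⟩

theorem sy_D4 : Sy mD4 gD4 := by
  exact ⟨by decide, by decide⟩

open Polynomial in
theorem au_prime_aux1 (B : Matrix (Fin l) (Fin l) ℚ) (hr : r.Prime) (h : B ^ r = 1) (h1 : B ≠ 1) :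
    cyclotomic r ℚ ∣ B.charpoly := by
  by_contra hn
  have := Fact.mk hr
  obtain ⟨p, q, hpq⟩ := (cyclotomic.irreducible_rat hr.pos).coprime_iff_not_dvd.2 hn
  have h2 := congrArg (aeval B) hpq
  have h3 := congrArg (aeval B) (cyclotomic_prime_mul_X_sub_one ℚ r)
  simp only [map_add, map_mul, map_one, Matrix.aeval_self_charpoly, mul_zero, add_zero] at h2
  simp only [map_mul, map_sub, map_one, map_pow, aeval_X, h, sub_self] at h3
  refine h1 (sub_eq_zero.1 ?_)
  have h4 := congrArg (· * (B - 1)) h2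
  simp only [mul_assoc, h3, mul_zero, one_mul] at h4
  exact h4.symm

theorem au_prime_aux2 (l : ℕ) : ∃ ψ : Module.End ℤ (Lat l) →+* Matrix (Fin l) (Fin l) ℚ,
    Function.Injective ψ :=
  ⟨(Int.castRingHom ℚ).mapMatrix.comp
    (LinearMap.toMatrixAlgEquiv' : Module.End ℤ (Lat l) ≃ₐ[ℤ] _).toRingEquiv.toRingHom,
    fun _ _ h => LinearMap.toMatrixAlgEquiv'.injective
      (Matrix.map_injective (Int.cast_injective (α := ℚ)) h)⟩

open Polynomial in
theorem au_prime_aux3 (hr : r.Prime) (h : w ^ r = 1) (h1 : w ≠ 1) :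
    r ≤ l + 1 ∧ (r = l + 1 → ∀ v, ∑ k ∈ Finset.range r, (w ^ k) v = 0) := by
  have := Fact.mk hr
  obtain ⟨ψ, hψ⟩ := au_prime_aux2 l
  let f : Au l →* Module.End ℤ (Lat l) := LinearEquiv.automorphismGroup.toLinearMapMonoidHom
  have hd := au_prime_aux1 (ψ (f w)) hr (by rw [← map_pow, ← map_pow, h, map_one, map_one])
    fun e => h1 (LinearEquiv.toLinearMap_injective (hψ (e.trans (map_one ψ).symm)))
  have hm := Matrix.charpoly_monic (ψ (f w))
  have e1 : (cyclotomic r ℚ).natDegree = r - 1 := by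
    rw [natDegree_cyclotomic, Nat.totient_prime hr]
  have e2 : (ψ (f w)).charpoly.natDegree = l := by
    rw [Matrix.charpoly_natDegree_eq_dim, Fintype.card_fin]
  have h2 := natDegree_le_of_dvd hd hm.ne_zero
  refine ⟨by omega, fun e v => ?_⟩
  have h3 := eq_of_monic_of_dvd_of_natDegree_le (cyclotomic.monic r ℚ) hm hd (by omega)
  have h4 := Matrix.aeval_self_charpoly (ψ (f w))
  rw [h3, cyclotomic_prime] at h4
  simp only [map_sum, map_pow, aeval_X] at h4
  have h5 : ∑ k ∈ Finset.range r, f (w ^ k) = 0 := hψ (by simpa using h4)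
  have h6 := LinearMap.congr_fun h5 v
  rw [LinearMap.sum_apply] at h6
  exact h6

/-- Bezout over `ℚ` for `cyclotomic r` and the characteristic polynomial. -/
theorem au_prime (hr : r.Prime) (hl : l + 1 < r) (h : w ^ r = 1) : w = 1 := by
  by_contra h1
  have := (au_prime_aux3 hr h h1).1
  omega

theorem gd_of_lt (M : Matrix (Fin l) (Fin l) ℤ) (hr : r.Prime) (hl : l + 1 < r) : Gd M r :=
  fun _ _ => au_prime hr hl

theorem gd_E6_aux1 (a b : Lat 6) : ip mE6 a b = (2 * a 0 - a 2) * b 0 + (2 * a 1 - a 3) * b 1 +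
    (2 * a 2 - a 0 - a 3) * b 2 + (2 * a 3 - a 1 - a 2 - a 4) * b 3 +
    (2 * a 4 - a 3 - a 5) * b 4 + (2 * a 5 - a 4) * b 5 := by
  have hM : mE6 + mE6.transpose = CartanMatrix.E₆ := by decide
  rw [ip, hM]
  simp [CartanMatrix.E₆, dotProduct, Matrix.mulVec, Fin.sum_univ_six]
  ring

theorem gd_E6_aux2 (v : Lat 6) (h : ∀ b, 3 ∣ ip mE6 v b) :
    ∃ u : Lat 6, v = v 0 • ![1, 0, -1, 0, 1, -1] + (3 : ℤ) • u := by
  have h0 := h (sr 0)
  have h1 := h (sr 1)
  have h2 := h (sr 2)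
  have h3 := h (sr 3)
  have h4 := h (sr 4)
  simp [gd_E6_aux1, sr] at h0 h1 h2 h3 h4
  refine ⟨fun i => (v i - v 0 * ![1, 0, -1, 0, 1, -1] i) / 3, ?_⟩
  ext i
  fin_cases i <;> simp <;> omega

/-- An isometry of order `7` acts on the glue vector modulo `3`. -/
theorem gd_E6 : Gd mE6 7 := by
  intro w hw h7
  by_contra h1
  have hs := (au_prime_aux3 (by norm_num) h7 h1).2 rfl ![1, 0, -1, 0, 1, -1]
  obtain ⟨u, hu⟩ := gd_E6_aux2 (w ![1, 0, -1, 0, 1, -1]) fun b => by
    rw [← w.apply_symm_apply b, hw, gd_E6_aux1]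
    simp
    omega
  generalize w ![1, 0, -1, 0, 1, -1] 0 = c at hu
  have hk : ∀ k : ℕ, ∃ u : Lat 6, (w ^ k) ![1, 0, -1, 0, 1, -1] =
      c ^ k • ![1, 0, -1, 0, 1, -1] + (3 : ℤ) • u := by
    intro k
    induction k with
    | zero => exact ⟨0, by simp⟩
    | succ k ih =>
      obtain ⟨x, hx⟩ := ih
      refine ⟨c ^ k • u + w x, ?_⟩
      rw [pow_succ', LinearEquiv.mul_apply, hx, map_add, map_smul, map_smul, hu]
      module
  have hz : ∀ k : ℕ, (((w ^ k) ![1, 0, -1, 0, 1, -1] 0 : ℤ) : ZMod 3) = (c : ZMod 3) ^ k := by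
    intro k
    obtain ⟨x, hx⟩ := hk k
    have h3 : (3 : ZMod 3) = 0 := rfl
    rw [hx]
    simp [h3]
  have e1 := hz 7
  have e2 := congrArg (fun v : Lat 6 => ((v 0 : ℤ) : ZMod 3)) hs
  simp only [Finset.sum_apply, Int.cast_sum, hz] at e2
  rw [h7] at e1
  generalize (c : ZMod 3) = x at e1 e2
  revert x
  decide

namespace Ade

variable (hA : Ade M)
include hA

theorem ga_root (hS : Sy M g) : ga g a ∈ roots M ↔ a ∈ roots M := by
  rw [hA.mem_roots, hA.mem_roots, hS.ip]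

theorem ga_rf (hS : Sy M g) (ha : a ∈ roots M) :
    ga g * rf M a * (ga g)⁻¹ = rf M (ga g a) := by
  rw [mul_inv_eq_iff_eq_mul]
  refine LinearEquiv.ext fun b => ?_
  rw [LinearEquiv.mul_apply, LinearEquiv.mul_apply, hA.rf_apply ha,
    hA.rf_apply ((hA.ga_root hS).2 ha), hS.ip, map_sub, map_smul]

theorem ga_W (hS : Sy M g) (hw : w ∈ Wg M) : ga g * w * (ga g)⁻¹ ∈ Wg M := by
  induction hw using Subgroup.closure_induction with
  | mem x hx =>
    obtain ⟨a, ha, rfl⟩ := hx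
    rw [hA.ga_rf hS ha]
    exact hA.rf_mem ((hA.ga_root hS).2 ha)
  | one => simp
  | mul x y _ _ hx hy => simpa [mul_assoc] using mul_mem hx hy
  | inv x _ hx => simpa [mul_assoc] using inv_mem hx

/-- The powers of `w` are determined by the images of the simple roots, which are roots. -/
theorem iso_fin (h : ∀ a b, ip M (w a) (w b) = ip M a b) : IsOfFinOrder w := by
  have hp : ∀ n : ℕ, ∀ a ∈ roots M, (w ^ n) a ∈ roots M := fun n a ha => by
    induction n with
    | zero => exact ha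
    | succ n ih => rwa [pow_succ', LinearEquiv.mul_apply, hA.mem_roots, h, ← hA.mem_roots]
  obtain ⟨m, n, hne, e⟩ := Finite.exists_ne_map_eq_of_infinite
    fun (n : ℕ) (i : Fin l) => (⟨(w ^ n) (sr i), hp n _ (hA.sr_mem i)⟩ : roots M)
  by_contra hf
  refine hne (injective_pow_iff_not_isOfFinOrder.2 hf (LinearEquiv.ext fun b => ?_))
  rw [← sum_sr b, map_sum, map_sum]
  refine Finset.sum_congr rfl fun i _ => ?_
  rw [map_smul, map_smul]
  exact congrArg _ (congrArg Subtype.val (congrFun e i))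

theorem not_dvd_ord (hr : r.Prime) (hl : Gd M r) (h : ∀ a b, ip M (w a) (w b) = ip M a b) :
    ¬ r ∣ orderOf w := by
  intro hd
  have h0 := (hA.iso_fin h).orderOf_pos
  have hp : ∀ (n : ℕ) a b, ip M ((w ^ n) a) ((w ^ n) b) = ip M a b := fun n a b => by
    induction n with
    | zero => rfl
    | succ n ih => rw [pow_succ', LinearEquiv.mul_apply, LinearEquiv.mul_apply, h, ih]
  have h1 := hl (w ^ (orderOf w / r)) (hp _)
    (by rw [← pow_mul, Nat.div_mul_cancel hd, pow_orderOf_eq_one])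
  exact pow_ne_one_of_lt_orderOf (Nat.div_pos (Nat.le_of_dvd h0 hd) hr.pos).ne'
    (Nat.div_lt_self h0 hr.one_lt) h1

/-- `W_finite`, Cauchy, `W_ip`. -/
theorem not_dvd_Wf (g : Equiv.Perm (Fin l)) (hr : r.Prime) (hl : Gd M r) :
    ¬ r ∣ Nat.card (Wf M g) := by
  intro hd
  have := hA.W_finite
  have : Finite (Wf M g) := Finite.of_injective _ (Subgroup.inclusion_injective inf_le_left)
  have := Fact.mk hr
  obtain ⟨x, hx⟩ := exists_prime_orderOf_dvd_card' r hd
  exact hA.not_dvd_ord hr hl (hA.W_ip x.2.1) (by rw [Subgroup.orderOf_coe, hx])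

theorem rI_apply_aux1 {I : Finset (Fin l)} (c : Fin l → ℤ) (b : Lat l) :
    ip M (∑ j ∈ I, c j • sr j) b = ∑ j ∈ I, c j * ip M (sr j) b := by
  have _ := hA
  induction I using Finset.induction_on with
  | empty => simp
  | insert j I hj ih =>
    rw [Finset.sum_insert hj, Finset.sum_insert hj, ip_add_left, ih, ip_smul_left]

theorem rI_apply_aux2 (L : List (Fin l)) (hL : L.Nodup)
    (h : ∀ j ∈ L, ∀ k ∈ L, j ≠ k → ip M (sr j) (sr k) = 0) (b : Lat l) :
    (L.map fun j => rf M (sr j)).prod b = b - ∑ j ∈ L.toFinset, ip M b (sr j) • sr j := by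
  induction L with
  | nil => simp
  | cons i L ih =>
    obtain ⟨h1, h2⟩ := List.nodup_cons.1 hL
    rw [List.map_cons, List.prod_cons, LinearEquiv.mul_apply, List.toFinset_cons,
      ih h2 fun j hj k hk => h j (List.mem_cons_of_mem _ hj) k (List.mem_cons_of_mem _ hk),
      hA.rf_apply (hA.sr_mem i), Finset.sum_insert (mt List.mem_toFinset.1 h1), ip_sub_left,
      hA.rI_apply_aux1, Finset.sum_eq_zero (f := fun j => _ * ip M (sr j) (sr i)) fun j hj => ?_,
      sub_zero, sub_sub, add_comm]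
    rw [h j (List.mem_cons_of_mem _ (List.mem_toFinset.1 hj)) i List.mem_cons_self
      fun e => h1 (e ▸ List.mem_toFinset.1 hj), mul_zero]

theorem rI_apply {I : Finset (Fin l)} (h : ∀ j ∈ I, ∀ k ∈ I, j ≠ k → ip M (sr j) (sr k) = 0)
    (b : Lat l) : rI M I b = b - ∑ j ∈ I, ip M b (sr j) • sr j := by
  rw [rI, hA.rI_apply_aux2 _ I.nodup_toList (by simpa using h), Finset.toList_toFinset]

theorem rI_mem (hS : Sy M g) (i : Fin l) : rI M (orb g i) ∈ Wf M g := by
  refine mem_Wf.2 ⟨hA.exch_aux1 _, LinearEquiv.ext fun b => ?_⟩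
  have h := hA.rI_apply (I := orb g i) fun j hj k hk => hS.orth hj hk
  rw [LinearEquiv.mul_apply, LinearEquiv.mul_apply, h, h, map_sub, map_sum]
  refine congrArg _ (Finset.sum_equiv g (fun j => ?_) fun j _ => ?_).symm
  · rw [mem_orb, mem_orb, Equiv.Perm.sameCycle_apply_right]
  · rw [map_smul, ← ga_sr, hS.ip]

theorem rI_sq (hS : Sy M g) (i : Fin l) : rI M (orb g i) * rI M (orb g i) = 1 := by
  refine LinearEquiv.ext fun b => ?_
  have h := hA.rI_apply (I := orb g i) fun j hj k hk => hS.orth hj hk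
  rw [LinearEquiv.mul_apply, h, h, sub_sub, ← Finset.sum_add_distrib, Finset.sum_eq_zero, sub_zero]
  · rfl
  · intro j hj
    rw [ip_sub_left, hA.rI_apply_aux1, Finset.sum_eq_single_of_mem j hj
      fun k hk e => by rw [hS.orth hk hj e, mul_zero], hA.mem_roots.1 (hA.sr_mem j)]
    module

theorem Wf_ind_aux (L : List (Fin l)) (hL : L.Nodup)
    (h : ∀ j ∈ L, ∀ k ∈ L, j ≠ k → ip M (sr j) (sr k) = 0) (hw : w ∈ Wg M)
    (hn : ∀ j ∈ L, ¬ 0 ≤ w (sr j)) :
    len M (w * (L.map fun j => rf M (sr j)).prod) + L.length = len M w := by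
  induction L generalizing w with
  | nil => simp
  | cons i L ih =>
    obtain ⟨h1, h2⟩ := List.nodup_cons.1 hL
    rw [List.map_cons, List.prod_cons, ← mul_assoc, List.length_cons, ← add_assoc,
      ih h2 (fun j hj k hk => h j (List.mem_cons_of_mem _ hj) k (List.mem_cons_of_mem _ hk))
        (mul_mem hw (hA.rf_mem (hA.sr_mem i))) fun j hj => ?_,
      hA.len_mul_rf' hw (hn i List.mem_cons_self)]
    rw [LinearEquiv.mul_apply, hA.rf_apply (hA.sr_mem i), h j (List.mem_cons_of_mem _ hj) i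
      List.mem_cons_self fun e => h1 (e ▸ hj), zero_smul, sub_zero]
    exact hn j (List.mem_cons_of_mem _ hj)

/-- Strong induction on the length. -/
theorem Wf_ind (hS : Sy M g) {p : Au l → Prop} (h1 : p 1)
    (h2 : ∀ w ∈ Wf M g, ∀ i, p w → p (w * rI M (orb g i))) : ∀ w ∈ Wf M g, p w := by
  intro w hw
  induction hn : len M w using Nat.strong_induction_on generalizing w with | _ n ih => ?_
  by_cases e : w = 1
  · exact e ▸ h1
  obtain ⟨h3, h4⟩ := mem_Wf.1 hw
  obtain ⟨i, -, hi⟩ := hA.exch (hA.Wg_eq ▸ h3) e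
  have h5 := hA.Wf_ind_aux _ (orb g i).nodup_toList
    (fun j hj k hk => hS.orth (Finset.mem_toList.1 hj) (Finset.mem_toList.1 hk)) h3 fun j hj => by
      rwa [orb_const (fun b => 0 ≤ w b) (fun b => by
        rw [← LinearEquiv.mul_apply, h4, LinearEquiv.mul_apply, ga_pos]) (Finset.mem_toList.1 hj)]
  have h6 := List.length_pos_of_mem (Finset.mem_toList.2 (mem_orb.2 (.refl g i)))
  have h7 := mul_mem hw (hA.rI_mem hS i)
  have := h2 _ h7 i (ih _ (by rw [rI]; omega) _ h7 rfl)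
  rwa [mul_assoc, hA.rI_sq hS, mul_one] at this

end Ade

end Pool.Agent.Lib.MP_7d41f7_al
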