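import Pool.Agent.Lib.MP_7d41f7_al.E.EBr
import Pool.Agent.Lib.MP_7d41f7_al.E.ESy

/-! The torus, regular elements, homomorphisms. -/

set_option autoImplicit false

namespace Pool.Agent.Lib.MP_7d41f7_al

variable {l : ℕ}

/-- The character `b ↦ c ^ ip ν b`. -/
def cch (M : Matrix (Fin l) (Fin l) ℤ) {K : Type} [Field K] (ν : Lat l) (c : Kˣ) :
    Multiplicative (Lat l) →* Kˣ where
  toFun b := c ^ ip M ν b.toAdd
  map_one' := by simp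
  map_mul' a b := by simp [zpow_add]

/-- The character is nontrivial on all roots. -/
def Reg (M : Matrix (Fin l) (Fin l) ℤ) {K : Type} [Field K]
    (χ : Multiplicative (Lat l) →* Kˣ) : Prop :=
  ∀ b ∈ roots M, χ (.ofAdd b) ≠ 1

namespace CG

variable {M : Matrix (Fin l) (Fin l) ℤ} {K Γ : Type} [Field K] [Group Γ] {C : CG M K Γ}
  {a : Lat l} {Ψ Ψ' : Set (Lat l)} {x t t' : Γ} {χ ψ : Multiplicative (Lat l) →* Kˣ}
  {g g' : Equiv.Perm (Fin l)}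

/-- The subgroup generated by the fixed points of `σ` in the two unipotent subgroups. -/
def St (C : CG M K Γ) (σ : Γ →* Γ) : Subgroup Γ :=
  Subgroup.closure {u | (u ∈ C.U ∨ u ∈ C.Um) ∧ σ u = u}

/-- The monomial element of a root. -/
def nm (C : CG M K Γ) (a : Lat l) (c : Kˣ) : Γ := C.x a c * C.x (-a) (c⁻¹ : Kˣ) * C.x a c

theorem St_fix {σ : Γ →* Γ} (h : x ∈ C.St σ) : σ x = x :=
  (Subgroup.closure_le (σ.eqLocus (MonoidHom.id Γ))).2 (fun _ e => e.2) h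

theorem Chi.one : C.Chi 1 1 := fun _ _ _ => by simp

theorem Chi.mul (h : C.Chi t χ) (h' : C.Chi t' ψ) : C.Chi (t * t') (χ * ψ) :=
  fun b hb u => by
    rw [MonoidHom.mul_apply, Units.val_mul, mul_assoc (χ _ : K), ← h b hb, ← h' b hb]
    group

theorem Chi.inv (h : C.Chi t χ) : C.Chi t⁻¹ χ⁻¹ := fun b hb u => by
  have := h b hb ((χ⁻¹ (.ofAdd b) : Kˣ) * u)
  rw [MonoidHom.inv_apply, Units.mul_inv_cancel_left] at this
  rw [← this, MonoidHom.inv_apply]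
  group

theorem Chi.pow (h : C.Chi t χ) (k : ℕ) : C.Chi (t ^ k) (χ ^ k) := by
  induction k with
  | zero => exact fun _ _ _ => by simp
  | succ k ih => exact fun b hb u => by simpa [pow_succ] using ih.mul h b hb u

theorem Chi.eq (ht : t ∈ C.T) (ht' : t' ∈ C.T) (h : C.Chi t χ) (h' : C.Chi t' χ) : t = t' := by
  obtain ⟨n, h1, e⟩ := mem_T.1 (mul_mem (inv_mem ht) ht')
  have h2 := h.inv.mul h'
  rw [← e] at h2
  rw [C.ctr n h1 fun b hb u => mul_inv_eq_iff_eq_mul.1 (by simpa using h2 b hb u)] at e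
  exact inv_mul_eq_one.1 e.symm

variable (hA : Ade M)
include hA

theorem T_comm (ht : t ∈ C.T) (ht' : t' ∈ C.T) : Commute t t' := by
  obtain ⟨χ, h⟩ := exists_chi hA ht
  obtain ⟨ψ, h'⟩ := exists_chi hA ht'
  exact (h.mul h').eq (mul_mem ht ht') (mul_mem ht' ht) (mul_comm ψ χ ▸ h'.mul h)

theorem T_pow [Finite K] (ht : t ∈ C.T) : t ^ (Nat.card K - 1) = 1 := by
  obtain ⟨χ, h⟩ := exists_chi hA ht
  have e : χ ^ (Nat.card K - 1) = 1 := MonoidHom.ext fun b => by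
    rw [MonoidHom.pow_apply, ← Nat.card_units, pow_card_eq_one', MonoidHom.one_apply]
  exact (h.pow _).eq (pow_mem ht _) (one_mem _) (e ▸ Chi.one)

theorem cor_chi (ha : a ∈ roots M) (c : Kˣ) :
    (C.nm a 1)⁻¹ * C.nm a c⁻¹ ∈ C.T ∧ C.Chi ((C.nm a 1)⁻¹ * C.nm a c⁻¹) (cch M a c) := by
  have _ := hA
  obtain ⟨n, h1, e⟩ := C.refl a ha 1
  obtain ⟨n', h2, e'⟩ := C.refl a ha c⁻¹
  refine ⟨mem_T.2 ⟨n⁻¹ * n', by rw [map_mul, map_inv, h1, h2, inv_mul_cancel],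
    by rw [nm, nm, ← e, ← e']; rfl⟩, fun b hb u => ?_⟩
  obtain ⟨z, h⟩ := C.cor a ha b hb
  have k1 : C.nm a 1 * _ = _ * C.nm a 1 := h 1 ((c ^ ip M a b : Kˣ) * u)
  have k2 : C.nm a c⁻¹ * _ = _ * C.nm a c⁻¹ := h c⁻¹ u
  rw [one_zpow, one_mul, ← mul_assoc, ← Units.val_mul, mul_comm z] at k1
  rw [inv_zpow', neg_neg, ← mul_inv_eq_iff_eq_mul.2 k1] at k2
  rw [mul_assoc _ (C.nm a c⁻¹), k2]
  change _ = C.x b ((c ^ ip M a b : Kˣ) * u)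
  group

theorem exists_cor (C : CG M K Γ) (ν : Lat l) (c : Kˣ) : ∃ t ∈ C.T, C.Chi t (cch M ν c) := by
  let A : AddSubgroup (Lat l) :=
    { carrier := {ν | ∃ t ∈ C.T, C.Chi t (cch M ν c)}
      zero_mem' := ⟨1, one_mem _, fun b _ u => by simp [cch]⟩
      add_mem' := fun ⟨t, ht, h⟩ ⟨t', ht', h'⟩ => ⟨_, mul_mem ht ht', fun b hb u =>
        (h.mul h' b hb u).trans (by simp [cch, zpow_add])⟩
      neg_mem' := fun ⟨t, ht, h⟩ => ⟨_, inv_mem ht, fun b hb u =>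
        (h.inv b hb u).trans (by simp [cch])⟩ }
  have : ∑ j, ν j • sr j ∈ A := sum_mem fun j _ =>
    zsmul_mem (show sr j ∈ A from ⟨_, cor_chi hA (hA.sr_mem j) c⟩) _
  rwa [sum_sr] at this

theorem Chi.conj_reg (n : C.N) (h : C.Chi t χ) (h' : C.Chi (n * t * (n : Γ)⁻¹) ψ)
    (hr : Reg M χ) : Reg M ψ := fun b hb => by
  have := Chi.conj hA n h h' ((C.π n)⁻¹ b)
  rw [← LinearEquiv.mul_apply, mul_inv_cancel] at this
  exact fun e => hr _ ((hA.W_root (inv_mem (C.π_mem n))).2 hb) (this.symm.trans e)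

/-- Induction over the positive unipotent group. -/
theorem U_ind {p : Γ → Prop} (h1 : p 1) (h2 : ∀ (i : Fin l) (s : K) (m : C.N) (Ψ : Set (Lat l)),
    C.π m = rf M (sr i) → (∀ b ∈ Ψ, b ∈ roots M ∧ 0 ≤ b ∧ 0 ≤ rf M (sr i) b) →
    (∀ b ∈ Ψ, sr i + b ∈ roots M → sr i + b ∈ Ψ) →
    (∀ y ∈ C.Us Ψ, p (m * y * (m : Γ)⁻¹)) → ∀ y ∈ C.Us Ψ, p (C.x (sr i) s * y)) :
    ∀ y ∈ C.U, p y := by
  obtain ⟨w0, hw0, e0⟩ := hA.exists_w0
  refine fun y hy => hA.W_ind (p := fun w => ∀ y ∈ C.Us (ivs M w), p y) (fun y hy => ?_)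
    (fun w hw i hi ih y hy => ?_) w0 hw0 y (Us_mono (fun a ha h => e0 ▸ mem_posR.2 ⟨ha, h⟩) hy)
  · exact U_Um (Us_mono (fun a _ h => (mem_ivs.1 h).2.1) hy)
      (Us_mono (fun a _ h => absurd (mem_ivs.1 h).2.1 (mem_ivs.1 h).2.2) hy) ▸ h1
  have s := hA.sr_mem i
  have hs := hA.rf_mem s
  have hv := mul_mem hw hs
  obtain ⟨m, hm⟩ := π_surj (C := C) hA hs
  have a0 := hA.ivs_mul_rf hw hi
  have a1 : ∀ b ∈ {b | rf M (sr i) b ∈ ivs M w}, b ∈ roots M ∧ 0 ≤ b ∧ 0 ≤ rf M (sr i) b :=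
    fun b hb => have k := mem_ivs.1 ((a0 b).2 (Or.inr hb)); ⟨k.1, k.2.1, (mem_ivs.1 hb).2.1⟩
  have a2 : ∀ b ∈ {b | rf M (sr i) b ∈ ivs M w}, sr i + b ∈ roots M →
      sr i + b ∈ {b | rf M (sr i) b ∈ ivs M w} := fun b hb h => by
    have k := mem_ivs.1 ((a0 b).2 (Or.inr hb))
    have k' := mem_ivs.1 ((a0 _).2 (Or.inl rfl))
    refine ((a0 _).1 (mem_ivs.2 ⟨h, add_nonneg k'.2.1 k.2.1, ?_⟩)).resolve_left
      fun e => hA.ne_zero k.1 (add_eq_left.1 e)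
    rw [hA.not_pos_iff ((hA.W_root hv).2 h), map_add, neg_add]
    exact add_nonneg ((hA.not_pos_iff ((hA.W_root hv).2 s)).1 k'.2.2)
      ((hA.not_pos_iff ((hA.W_root hv).2 k.1)).1 k.2.2)
  obtain ⟨c, u, hu, rfl⟩ := (split_Us hA s (fun b _ hb => ⟨fun e => hA.ivs_mul_rf_aux1 s
    (sr_nonneg i) (e ▸ (a1 b hb).2.1), a2 b hb⟩) (Us_mono (fun a _ h => (a0 a).1 h) hy)).1
  exact h2 i c m _ hm a1 a2 (fun y hy => ih _ (conj_Us hA m (fun a _ h => hm ▸ h) hy)) u hu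

theorem reg_U (ht : t ∈ C.T) (h : C.Chi t χ) (hr : Reg M χ) (hx : x ∈ C.U) (hc : Commute t x) :
    x = 1 := by
  refine U_ind hA (p := fun y => ∀ t ∈ C.T, ∀ χ, C.Chi t χ → Reg M χ → Commute t y → y = 1)
    (fun _ _ _ _ _ _ => rfl) (fun i s m Ψ hm a1 _ ih y hy t ht χ h hr hc => ?_) x hx t ht χ h hr hc
  have r := hA.sr_mem i
  have e : C.x (sr i) (-s + χ (.ofAdd (sr i)) * s) = y * (t * y * t⁻¹)⁻¹ := by
    rw [C.add _ r, x_neg r, ← h _ r, inv_mul_eq_iff_eq_mul, ← mul_assoc _ y, eq_mul_inv_iff_mul_eq,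
      ← mul_inv_eq_iff_eq_mul.2 hc.eq]
    group
  obtain ⟨η, hη⟩ := C.act m _ r
  have k := conj_Us hA m (Ψ' := {a | 0 ≤ a}) (fun a _ k => hm ▸ (a1 a k).2.2)
    (mul_mem hy (inv_mem (T_conj_Us hA ht hy)))
  rw [← e, hη, hm, hA.rf_self r] at k
  have k2 := C.inj _ (hA.neg_mem r) _
    (U_Um k (x_mem (hA.neg_mem r) (neg_nonpos.2 (sr_nonneg i)) _))
  rw [Units.mul_right_eq_zero, neg_add_eq_zero] at k2
  obtain rfl : s = 0 := by_contra fun hs =>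
    hr _ r (Units.ext (mul_right_cancel₀ hs (k2.symm.trans (one_mul s).symm)))
  rw [x_zero r, one_mul] at hc ⊢
  obtain ⟨ψ, hψ⟩ := exists_chi hA (conj_T m ht)
  simpa using ih y hy _ (conj_T m ht) ψ hψ (h.conj_reg hA m hψ hr) (hc.conj (m : Γ))

theorem reg_N (ht : t ∈ C.T) (ht' : t' ∈ C.T) (h : C.Chi t χ) (hr : Reg M χ)
    (e : t * x = x * t') : x ∈ C.N := by
  obtain ⟨n, u, hu, v, hv, rfl⟩ := bruhat' (C := C) hA x
  have hU : u ∈ C.U := Us_mono (fun a _ k => (mem_ivs.1 k).2.1) hu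
  have h1 := T_conj_Us hA ht hu
  have h2 := T_conj_Us hA (inv_mem ht') hv
  obtain ⟨ψ, hψ⟩ := exists_chi hA ht'
  obtain ⟨a, ha, rfl⟩ := mem_T.1 ht
  obtain ⟨b, hb, rfl⟩ := mem_T.1 ht'
  have e1 : a * u * (a : Γ)⁻¹ * (a * n : C.N) * v =
      u * (n * b : C.N) * ((b : Γ)⁻¹ * v * (b : Γ)⁻¹⁻¹) := by
    rw [Subgroup.coe_mul, Subgroup.coe_mul, ← mul_left_inj (b : Γ)⁻¹]
    calc _ = a * (u * n * v) * (b : Γ)⁻¹ := by group
      _ = _ := by rw [e]; group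
  have e2 := uniq_N hA (T_conj_Us hA ht hU) hv hU h2 e1
  have e3 : C.π (n * b) = C.π n := by rw [map_mul, hb, mul_one]
  rw [e2] at e1
  obtain ⟨k1, k2⟩ := uniq_U hA (e3 ▸ h1) hv (e3 ▸ hu) h2 e1
  have e4 : (b : Γ) = (n⁻¹ : C.N) * a * ((n⁻¹ : C.N) : Γ)⁻¹ := by
    rw [Subgroup.coe_inv, inv_inv, mul_assoc, eq_inv_mul_iff_mul_eq]
    exact (congrArg Subtype.val e2).symm
  rw [reg_U hA ht h hr hU (mul_inv_eq_iff_eq_mul.1 k1), reg_U hA ht' hψ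
    (h.conj_reg hA n⁻¹ (e4 ▸ hψ) hr) hv (by
      rw [inv_inv, mul_assoc, eq_inv_mul_iff_mul_eq] at k2; exact k2), one_mul, mul_one]
  exact n.2

omit hA in
theorem U_pow_aux1 {H : Subgroup Γ} {y : Γ} (h : ∀ y ∈ H, t * y * t⁻¹ ∈ H) (hy : y ∈ H) (k : ℕ) :
    ∃ u ∈ H, (t * y) ^ k = u * t ^ k := by
  induction k with
  | zero => exact ⟨1, one_mem _, by simp⟩
  | succ k ih =>
    obtain ⟨u, hu, e⟩ := ih
    exact ⟨_, h _ (mul_mem hy hu), by rw [pow_succ', e, pow_succ']; group⟩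

omit hA in
theorem U_pow_aux2 (ha : a ∈ roots M) (s : K) (k : ℕ) : C.x a s ^ k = C.x a (k • s) := by
  induction k with
  | zero => rw [pow_zero, zero_smul, x_zero ha]
  | succ k ih => rw [pow_succ, ih, succ_nsmul, C.add a ha]

theorem U_pow [Finite K] (hx : x ∈ C.U) : ∃ k, x ^ Nat.card K ^ k = 1 := by
  refine U_ind hA (p := fun x => ∃ k, x ^ Nat.card K ^ k = 1) ⟨0, one_pow _⟩
    (fun i s m Ψ _ h1 h2 h3 y hy => ?_) x hx
  obtain ⟨u, hu, e⟩ := U_pow_aux1 (fun y => norm_Us hA (hA.sr_mem i) (fun b _ hb =>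
    ⟨fac_U_ne hA (hA.sr_mem i) (sr_nonneg i) (h1 b hb).2.1, h2 b hb⟩) s) hy (Nat.card K)
  rw [U_pow_aux2 (hA.sr_mem i), card_nsmul_eq_zero', x_zero (hA.sr_mem i), mul_one] at e
  obtain ⟨k, hk⟩ := h3 u hu
  rw [conj_pow, conj_eq_one_iff] at hk
  exact ⟨k + 1, by rw [pow_succ', pow_mul, e, hk]⟩

theorem B_pow [Finite K] (hx : x ∈ C.B) :
    ∃ k, x ^ ((Nat.card K - 1) * Nat.card K ^ k) = 1 := by
  obtain ⟨t, ht, u, hu, rfl⟩ := (mem_B hA).1 hx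
  obtain ⟨v, hv, e⟩ := U_pow_aux1 (fun y => T_conj_Us hA ht) hu (Nat.card K - 1)
  obtain ⟨k, hk⟩ := U_pow hA hv
  exact ⟨k, by rw [pow_mul, e, T_pow hA ht, mul_one, hk]⟩

omit hA in
theorem exists_theta_aux1 {u u' : Γ} (ht : t ∈ C.T) (ht' : t' ∈ C.T) (hu : u ∈ C.U)
    (hu' : u' ∈ C.U) (e : t * u = t' * u') : t = t' := by
  have h : t'⁻¹ * t = u' * u⁻¹ := by rw [eq_mul_inv_iff_mul_eq, mul_assoc, e, inv_mul_cancel_left]
  exact (inv_mul_eq_one.1 (T_U (mul_mem (inv_mem ht') ht) (h ▸ mul_mem hu' (inv_mem hu)))).symm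

theorem exists_theta (C : CG M K Γ) (μ : Lat l) : ∃ θ : C.B →* Kˣ, ∀ b : C.B, ∀ t ∈ C.T,
    ∀ u ∈ C.U, ∀ χ, C.Chi t χ → (b : Γ) = t * u → θ b = χ (.ofAdd μ) := by
  choose t ht u hu e using fun b : C.B => (mem_B hA).1 b.2
  choose χ hχ using fun b : C.B => exists_chi hA (ht b)
  have key : ∀ b : C.B, ∀ t ∈ C.T, ∀ u ∈ C.U, ∀ ψ, C.Chi t ψ → (b : Γ) = t * u → χ b = ψ :=
    fun b t' ht' u' hu' ψ h e' =>
      (exists_theta_aux1 (ht b) ht' (hu b) hu' ((e b).symm.trans e') ▸ hχ b).uniq hA h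
  refine ⟨MonoidHom.mk' (fun b => χ b (.ofAdd μ)) fun b c => ?_,
    fun b t' ht' u' hu' ψ h e' => by rw [← key b t' ht' u' hu' ψ h e']; rfl⟩
  rw [key (b * c) _ (mul_mem (ht b) (ht c)) _
    (mul_mem (T_conj_Us hA (inv_mem (ht c)) (hu b)) (hu c)) _ ((hχ b).mul (hχ c))
    (by rw [Subgroup.coe_mul, e b, e c]; group), MonoidHom.mul_apply]

variable {K' Γ' K'' Γ'' : Type} [Field K'] [Group Γ'] [Field K''] [Group Γ''] {C' : CG M K' Γ'}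
  {C'' : CG M K'' Γ''} {φ φ₁ : Γ →* Γ'} {f : K →+* K'} {φ' : Γ' →* Γ''} {f' : K' →+* K''}

omit hA in
theorem Hom.id : C.Hom C (MonoidHom.id Γ) (RingHom.id K) (ga 1) :=
  ⟨fun a _ t => by rw [ga_one]; rfl, fun n => ⟨n, rfl, by rw [ga_one, one_mul, inv_one, mul_one]⟩⟩

omit hA in
theorem Hom.ext {γ : Au l} (h : C.Hom C' φ f γ) (h' : C.Hom C' φ₁ f γ) : φ = φ₁ :=
  MonoidHom.eq_of_eqOn_dense C.gen (by
    rintro _ ⟨a, ha, -, s, rfl⟩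
    exact (h.x a ha s).trans (h'.x a ha s).symm)

theorem Hom.comp (hS : Sy M g) (h : C.Hom C' φ f (ga g)) (h' : C'.Hom C'' φ' f' (ga g')) :
    C.Hom C'' (φ'.comp φ) (f'.comp f) (ga (g' * g)) := by
  refine ⟨fun a ha s => ?_, fun n => ?_⟩
  · rw [MonoidHom.comp_apply, h.x a ha, h'.x _ ((hA.ga_root hS).2 ha), ga_mul]
    rfl
  · obtain ⟨m, e, k⟩ := h.N n
    obtain ⟨m', e', k'⟩ := h'.N m
    exact ⟨m', by rw [MonoidHom.comp_apply, e, e'], by rw [k', k, ga_mul]; group⟩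

theorem Hom.map_Us (hS : Sy M g) (h : C.Hom C' φ f (ga g))
    (hΨ : ∀ a ∈ roots M, a ∈ Ψ → ga g a ∈ Ψ') (hx : x ∈ C.Us Ψ) : φ x ∈ C'.Us Ψ' :=
  (Subgroup.closure_le ((C'.Us Ψ').comap φ)).2 (by
    rintro _ ⟨a, ha, h1, s, rfl⟩
    change φ _ ∈ C'.Us Ψ'
    exact h.x a ha s ▸ x_mem ((hA.ga_root hS).2 ha) (hΨ a ha h1) _) hx

theorem Hom.map_U (hS : Sy M g) (h : C.Hom C' φ f (ga g)) (hx : x ∈ C.U) : φ x ∈ C'.U :=
  h.map_Us hA hS (fun _ _ h1 => ga_pos.2 h1) hx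

theorem Hom.map_Um (hS : Sy M g) (h : C.Hom C' φ f (ga g)) (hx : x ∈ C.Um) : φ x ∈ C'.Um :=
  h.map_Us hA hS (fun _ _ h1 => ga_neg.2 h1) hx

omit hA in
theorem Hom.map_T {γ : Au l} (h : C.Hom C' φ f γ) (ht : t ∈ C.T) : φ t ∈ C'.T := by
  obtain ⟨n, h1, rfl⟩ := mem_T.1 ht
  obtain ⟨m, e, k⟩ := h.N n
  exact mem_T.2 ⟨m, by rw [k, h1, mul_one, mul_inv_cancel], e.symm⟩

theorem Hom.chi (hS : Sy M g) (h : C.Hom C' φ f (ga g)) {ψ : Multiplicative (Lat l) →* K'ˣ}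
    (h1 : C.Chi t χ) (h2 : C'.Chi (φ t) ψ) (b : Lat l) :
    ψ (.ofAdd (ga g b)) = Units.map (f : K →* K') (χ (.ofAdd b)) := by
  have e := Chi.uniq_aux1 χ 1 b
  simp only [LinearEquiv.coe_one, id_eq] at e
  rw [e, Chi.uniq_aux1, map_prod]
  refine Finset.prod_congr rfl fun j _ => ?_
  rw [map_zpow]
  refine congrArg (· ^ b j) (Units.ext ?_)
  have hb := hA.sr_mem j
  have hc := (hA.ga_root hS).2 hb
  have e1 := congrArg φ (h1 _ hb 1)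
  rw [map_mul, map_mul, map_inv, h.x _ hb, h.x _ hb, h2 _ hc] at e1
  simpa using x_inj hc e1

/-- The Bruhat decomposition of a fixed point. -/
theorem fx_bruhat {σ : Γ →* Γ} {f : K →+* K} (hS : Sy M g) (h : C.Hom C σ f (ga g))
    (hx : σ x = x) : ∃ n : C.N, σ n = n ∧ C.π n ∈ Wf M g ∧ ∃ u ∈ C.U, σ u = u ∧
      ∃ v ∈ C.U, σ v = v ∧ x = u * n * v := by
  obtain ⟨n, u, hu, v, hv, rfl⟩ := bruhat' (C := C) hA x
  obtain ⟨m, e, k⟩ := h.N n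
  have hU : u ∈ C.U := Us_mono (fun a _ h1 => (mem_ivs.1 h1).2.1) hu
  rw [map_mul, map_mul, e] at hx
  obtain rfl : m = n := uniq_N hA (h.map_U hA hS hU) (h.map_U hA hS hv) hU hv hx
  have h1 : C.π m * ga g = ga g * C.π m := eq_mul_inv_iff_mul_eq.1 k
  have h2 : (C.π m)⁻¹ * ga g = ga g * (C.π m)⁻¹ := by
    rw [inv_mul_eq_iff_eq_mul, ← mul_assoc, h1, mul_inv_cancel_right]
  have h3 := uniq_U hA (h.map_Us hA hS (fun a ha h4 => mem_ivs.2 ⟨(hA.ga_root hS).2 ha,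
    ga_pos.2 (mem_ivs.1 h4).2.1, fun h5 => (mem_ivs.1 h4).2.2 (by
      rwa [← LinearEquiv.mul_apply, h2, LinearEquiv.mul_apply, ga_pos] at h5)⟩) hu)
    (h.map_U hA hS hv) hu hv hx
  exact ⟨m, e, mem_Wf.2 ⟨C.π_mem m, h1⟩, u, hU, h3.1, v, hv, h3.2, rfl⟩

end CG

end Pool.Agent.Lib.MP_7d41f7_al
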