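import Pool.Agent.Lib.MP_7d41f7_al.E.ERep
import Pool.Agent.Lib.MP_7d41f7_al.E.ETr

/-! Graph and field homomorphisms of the adjoint group. -/

set_option autoImplicit false

namespace Pool.Agent.Lib.MP_7d41f7_al

variable {l : ℕ} {M : Matrix (Fin l) (Fin l) ℤ} {g : Equiv.Perm (Fin l)} {K L : Type} [Field K]
  [Field L] {q : ℕ}

/-- The permutation of the basis. -/
noncomputable def gix (hA : Ade M) (hS : Sy M g) : Ix M ≃ Ix M :=
  Equiv.sumCongr ((ga g).toEquiv.subtypeEquiv fun _ => (hA.ga_root hS).symm) g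

instance [Finite K] : Finite (Chev M K) :=
  Finite.of_injective (fun a => (a.1.1 : Ix M → Ix M → K)) fun _ _ h => Subtype.ext (Units.ext h)

variable (hA : Ade M) (hS : Sy M g)

theorem gph_iff (x y : Ix M) : Gph g x y ↔ y = gix hA hS x := by
  rcases x with x | x <;> rcases y with y | y
  · exact ⟨fun h => congrArg Sum.inl (Subtype.ext (funext fun i => by
      simpa [ga_apply] using h (g.symm i))), fun h i => by
      rw [Sum.inl.inj h]; simp [ga_apply]⟩
  · simp [Gph, gix]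
  · simp [Gph, gix]
  · simp [Gph, gix]

omit hA hS in
theorem adE_gix_aux1 {a b : Lat l} : ga g a = ga g b ↔ a = b := (ga g).injective.eq_iff

theorem adE_gix (a : Lat l) (x y : Ix M) :
    adE M (ga g a) (gix hA hS x) (gix hA hS y) = adE M a x y := by
  rcases x with x | x <;> rcases y with y | y
  · change (if ga g x.1 = ga g a + ga g y.1 then sgn M (ga g a) (ga g y.1) else 0) = _
    simp only [← map_add, adE_gix_aux1, hS.sgn, adE]
  · change (if ga g x.1 = ga g a then -ip M (ga g a) (sr (g y)) else 0) = _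
    simp only [← ga_sr, adE_gix_aux1, hS.ip, adE]
    rfl
  · change (if ga g y.1 = -ga g a then -ga g a (g x) else 0) = _
    simp only [← map_neg, adE_gix_aux1, ga_apply, Equiv.symm_apply_apply, adE]
  · rfl

theorem adD_gix_aux1 (a : Lat l) (x : Ix M) : vE M (ga g a) (gix hA hS x) = vE M a x := by
  rcases x with x | x
  · change (if ga g x.1 = ga g a then (1 : ℤ) else 0) = if x.1 = a then 1 else 0
    simp only [adE_gix_aux1]
  · rfl

theorem adD_gix (a : Lat l) (x y : Ix M) :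
    adD M (ga g a) (gix hA hS x) (gix hA hS y) = adD M a x y := by
  simp only [adD, Matrix.vecMulVec_apply, ← map_neg, adD_gix_aux1]

/-- The ring homomorphism of matrices given by the symmetry and a field homomorphism. -/
noncomputable def gmp (f : K →+* L) : Matrix (Ix M) (Ix M) K →+* Matrix (Ix M) (Ix M) L :=
  ((Matrix.reindexAlgEquiv L L (gix hA hS)).toRingEquiv.toRingHom).comp f.mapMatrix

theorem gmp_apply (f : K →+* L) (A : Matrix (Ix M) (Ix M) K) (x y : Ix M) :
    gmp hA hS f A (gix hA hS x) (gix hA hS y) = f (A x y) := by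
  simp [gmp]

theorem gmp_inj (f : K →+* L) : Function.Injective (gmp hA hS f) := fun A B h =>
  Matrix.ext fun x y => f.injective (by rw [← gmp_apply hA hS, ← gmp_apply hA hS, h])

omit [Field L] in
theorem gmp_xm_aux1 {A B : Matrix (Ix M) (Ix M) L}
    (h : ∀ x y, A (gix hA hS x) (gix hA hS y) = B (gix hA hS x) (gix hA hS y)) : A = B :=
  Matrix.ext fun x y => by simpa using h ((gix hA hS).symm x) ((gix hA hS).symm y)

theorem gmp_xm_aux2 (f : K →+* L) (a : Lat l) :
    gmp hA hS f ((adE M a).map Int.cast) = (adE M (ga g a)).map Int.cast :=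
  gmp_xm_aux1 hA hS fun x y => by simp [gmp_apply, adE_gix]

theorem gmp_xm_aux3 (f : K →+* L) (a : Lat l) :
    gmp hA hS f ((adD M a).map Int.cast) = (adD M (ga g a)).map Int.cast :=
  gmp_xm_aux1 hA hS fun x y => by simp [gmp_apply, adD_gix]

theorem gmp_xm_aux4 (f : K →+* L) (t : K) (A : Matrix (Ix M) (Ix M) K) :
    gmp hA hS f (t • A) = f t • gmp hA hS f A :=
  gmp_xm_aux1 hA hS fun x y => by simp [gmp_apply]

theorem gmp_xm (f : K →+* L) {a : Lat l} (ha : a ∈ roots M) (t : K) :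
    gmp hA hS f (xm M a t) = xm M (ga g a) (f t) := by
  simp only [hA.xm_eq ha, hA.xm_eq ((hA.ga_root hS).2 ha), map_add, map_one, gmp_xm_aux4,
    gmp_xm_aux2, gmp_xm_aux3, map_pow]

/-- `gmp` maps the images of `adE b`, `adD b` to those of `adE (ga g b)`, `adD (ga g b)`. -/
theorem gmp_mono (f : K →+* L) {A : Matrix (Ix M) (Ix M) K} {w : Au l} (h : Mono A w) :
    Mono (gmp hA hS f A) (ga g * w * (ga g)⁻¹) := by
  have e : ∀ a, (ga g * w * (ga g)⁻¹) (ga g a) = ga g (w a) := fun a =>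
    congrArg (fun z => ga g (w z)) ((ga g).symm_apply_apply a)
  refine ⟨fun b i k => ?_, fun j i => ?_, fun b hb => ?_⟩
  · obtain ⟨i, rfl⟩ := (gix hA hS).surjective i
    obtain ⟨b, rfl⟩ := ((ga g).toEquiv.subtypeEquiv fun _ => (hA.ga_root hS).symm).surjective b
    obtain ⟨c, rfl, hc⟩ := h.col b i fun z => k
      ((gmp_apply hA hS f A i (.inl b)).trans (by rw [z, map_zero]))
    exact ⟨_, rfl, (congrArg (ga g) hc).trans (e _).symm⟩
  · obtain ⟨i, rfl⟩ := (gix hA hS).surjective i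
    obtain ⟨j, rfl⟩ := g.surjective j
    refine (gmp_apply hA hS f A i (.inr j)).trans ?_
    rw [h.car, ← ga_sr, e]
    rcases i with i | i <;> simp [gix, ga_apply]
  · obtain ⟨b, rfl⟩ := (ga g).surjective b
    obtain ⟨η, h1, h2⟩ := h.act b ((hA.ga_root hS).1 hb)
    refine ⟨Units.map f.toMonoidHom η, ?_, ?_⟩
    · simpa only [map_mul, gmp_xm_aux4, gmp_xm_aux2, e] using! congrArg (gmp hA hS f) h1
    · simpa only [map_mul, gmp_xm_aux4, gmp_xm_aux3, e, map_pow] using! congrArg (gmp hA hS f) h2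

/-- The homomorphism of adjoint groups. -/
theorem cg_map [Finite K] [Finite L] (f : K →+* L) : ∃ φ : Chev M K →* Chev M L,
    Function.Injective φ ∧ (cg hA K).Hom (cg hA L) φ f (ga g) ∧
      ∀ a, (φ a).1.1 = gmp hA hS f a.1.1 := by
  have m : Chev M K ≤ (Chev M L).comap (Units.map (gmp hA hS f).toMonoidHom) :=
    (Subgroup.closure_le _).2 fun u ⟨a, ha, t, e⟩ => Subgroup.subset_closure
      ⟨ga g a, (hA.ga_root hS).2 ha, f t, (congrArg (gmp hA hS f) e).trans (gmp_xm hA hS f ha t)⟩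
  refine ⟨((Units.map (gmp hA hS f).toMonoidHom).comp (Chev M K).subtype).codRestrict _
    fun a => m a.2, fun a b e => cg_ext (gmp_inj hA hS f (congrArg (·.1.1) e)),
    ⟨fun a ha t => cg_ext ?_, fun n => ?_⟩, fun _ => rfl⟩
  · exact ((congrArg (gmp hA hS f) (xg_val hA ha t)).trans (gmp_xm hA hS f ha t)).trans
      (xg_val hA ((hA.ga_root hS).2 ha) _).symm
  · have h := gmp_mono hA hS f (piN_spec hA n).2
    exact ⟨⟨_, _, hA.ga_W hS (piN_spec hA n).1, h⟩, rfl, Mono.uniq hA (piN_spec hA _).2 h⟩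

omit hS in
theorem uni_eq [Finite K] (Ψ : Set (Lat l)) :
    Uni M K Ψ = ((cg hA K).Us Ψ).map (Chev M K).subtype := by
  rw [CG.Us, rsub, MonoidHom.map_closure]
  refine congrArg Subgroup.closure (Set.ext fun u => ⟨fun ⟨a, ha, h, t, e⟩ =>
    ⟨_, ⟨a, ha, h, t, rfl⟩, Units.ext ((xg_val hA ha t).trans e.symm)⟩, ?_⟩)
  rintro ⟨_, ⟨a, ha, h, t, rfl⟩, rfl⟩
  exact ⟨a, ha, h, t, xg_val hA ha t⟩

include hS in
/-- `Steinb` is the image of `St` under the inclusion. -/
theorem steinb_iso [Finite K] (f : K →+* K) (hf : ∀ s, f s = s ^ q) :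
    ∃ σ : Chev M K →* Chev M K, (cg hA K).Hom (cg hA K) σ f (ga g) ∧
      Nonempty (Steinb M g q K ≃* (cg hA K).St σ) := by
  obtain ⟨σ, -, h1, h2⟩ := cg_map hA hS f
  have k : ∀ a : Chev M K, σ a = a ↔
      ∀ x y x' y', Gph g x x' → Gph g y y' → a.1.1 x' y' = a.1.1 x y ^ q := fun a => by
    simp only [gph_iff hA hS]
    refine ⟨fun e x y x' y' c d => ?_, fun e => cg_ext (Matrix.ext fun x y => ?_)⟩
    · rw [c, d, ← hf, ← gmp_apply hA hS, ← h2, e]
    · obtain ⟨x, rfl⟩ := (gix hA hS).surjective x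
      obtain ⟨y, rfl⟩ := (gix hA hS).surjective y
      rw [h2, gmp_apply, hf, e x y _ _ rfl rfl]
  have e : Steinb M g q K = ((cg hA K).St σ).map (Chev M K).subtype := by
    rw [CG.St, MonoidHom.map_closure, Steinb, uni_eq hA, uni_eq hA]
    refine congrArg Subgroup.closure (Set.ext fun u => ⟨?_, ?_⟩)
    · rintro ⟨⟨a, ha, rfl⟩ | ⟨a, ha, rfl⟩, h⟩
      · exact ⟨a, ⟨.inl ha, (k a).2 h⟩, rfl⟩
      · exact ⟨a, ⟨.inr ha, (k a).2 h⟩, rfl⟩
    · rintro ⟨a, ⟨ha, h⟩, rfl⟩
      exact ⟨ha.imp (Subgroup.mem_map_of_mem _) (Subgroup.mem_map_of_mem _), (k a).1 h⟩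
  exact ⟨σ, h1, ⟨(MulEquiv.subgroupCongr e).trans
    (Subgroup.equivMapOfInjective _ _ (Chev M K).subtype_injective).symm⟩⟩

omit hA hS in
theorem steinb_congr_aux1 (M : Matrix (Fin l) (Fin l) ℤ) (f : K →+* L) (Ψ : Set (Lat l))
    {x : GL (Ix M) K} (h : x ∈ Uni M K Ψ) : Matrix.GeneralLinearGroup.map f x ∈ Uni M L Ψ := by
  refine (Subgroup.closure_le ((Uni M L Ψ).comap (Matrix.GeneralLinearGroup.map f))).2 ?_ h
  rintro y ⟨a, ha, h1, t, e⟩
  exact Subgroup.subset_closure ⟨a, ha, h1, f t, by rw [← xm_map, ← e]; rfl⟩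

omit hA hS in
theorem steinb_congr_aux2 (M : Matrix (Fin l) (Fin l) ℤ) (g : Equiv.Perm (Fin l)) (q : ℕ)
    (f : K →+* L) {x : GL (Ix M) K} (h : x ∈ Steinb M g q K) :
    Matrix.GeneralLinearGroup.map f x ∈ Steinb M g q L := by
  refine (Subgroup.closure_le ((Steinb M g q L).comap (Matrix.GeneralLinearGroup.map f))).2 ?_ h
  rintro y ⟨h1, h2⟩
  refine Subgroup.subset_closure ⟨h1.imp (steinb_congr_aux1 M f _) (steinb_congr_aux1 M f _),
    fun a b a' b' ha hb => ?_⟩
  change f (y.1 a' b') = f (y.1 a b) ^ q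
  rw [h2 a b a' b' ha hb, map_pow]

omit hA hS in
theorem steinb_congr (M : Matrix (Fin l) (Fin l) ℤ) (g : Equiv.Perm (Fin l)) (q : ℕ) [Finite K]
    [Finite L] (h : Nat.card K = Nat.card L) : Nonempty (Steinb M g q K ≃* Steinb M g q L) := by
  have := Fintype.ofFinite K
  have := Fintype.ofFinite L
  let e : K ≃+* L := FiniteField.ringEquivOfCardEq (by simpa only [Nat.card_eq_fintype_card] using h)
  exact ⟨{
    toFun := fun x => ⟨_, steinb_congr_aux2 M g q (e : K →+* L) x.2⟩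
    invFun := fun x => ⟨_, steinb_congr_aux2 M g q (e.symm : L →+* K) x.2⟩
    left_inv := fun x => Subtype.ext (Units.ext (Matrix.ext fun i j => e.symm_apply_apply _))
    right_inv := fun x => Subtype.ext (Units.ext (Matrix.ext fun i j => e.apply_symm_apply _))
    map_mul' := fun x y => Subtype.ext (map_mul (Matrix.GeneralLinearGroup.map _) x.1 y.1) }⟩

omit hA hS in
theorem IsCh.iso {S H : Type} [Group S] [Group H] {k : ℕ} (h : IsCh S M g k q)
    (h' : IsCh H M g k q) : Nonempty (H ≃* S) := by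
  obtain ⟨F, _, _, h1, ⟨e⟩⟩ := h
  obtain ⟨F', _, _, h2, ⟨e'⟩⟩ := h'
  obtain ⟨f⟩ := steinb_congr M g q (h2.trans h1.symm)
  exact ⟨(e'.trans f).trans e.symm⟩

end Pool.Agent.Lib.MP_7d41f7_al
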