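import Pool.Agent.Lib.MP_7d41f7_al.E.EPa

/-! The Poincaré series in rank seven. -/

set_option autoImplicit false

namespace Pool.Agent.Lib.MP_7d41f7_al

open Finset

theorem pn_E7 : Pn mE7 1 1 1 univ 63 (fun x => x ^ 63 * ((x - 1) ^ 7))
    (Ex.ord .E7) := by
  have h0 : Pn mE7 1 1 1 ∅ 0 _ _ := ade_E7.dia.ade.pn_empty
  have h1 := h0.step ade_E7.dia (by decide) {4} ![0, 0, 0, 0, 1, 0, 0] 1
    [143231112, 412588168]
    [1, 1]
    (fun x => x - 1)
    (fun x => x ^ 2 - 1)
    (by decide +kernel) fun x => by simp only [pev]; push_cast; ring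
  have h2 := h1.step ade_E7.dia (by decide) {3, 4} ![0, 0, 0, 1, 0, 0, 0] 2
    [143169672, 411662744, 681019800]
    [1, 1, 1]
    (fun x => x - 1)
    (fun x => x ^ 3 - 1)
    (by decide +kernel) fun x => by simp only [pev]; push_cast; ring
  have h3 := h2.step ade_E7.dia (by decide) {2, 3, 4} ![0, 0, 1, 0, 0, 0, 0] 3
    [143165832, 411604873, 680097945, 949455001]
    [1, 1, 1, 1]
    (fun x => x - 1)
    (fun x => x ^ 4 - 1)
    (by decide +kernel) fun x => by simp only [pev]; push_cast; ring
  have h4 := h3.step ade_E7.dia (by decide) {1, 2, 3, 4} ![0, 1, 0, 0, 0, 0, 0] 6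
    [143165592, 411605112, 680098184, 948537225, 949455240, 1217894281, 1486387353, 1754826873]
    [1, 1, 1, 2, 1, 1, 1]
    (fun x => x - 1)
    (fun x => x ^ 7 + x ^ 4 - x ^ 3 - 1)
    (by decide +kernel) fun x => by simp only [pev]; push_cast; ring
  have h5 := h4.step ade_E7.dia (by decide) {0, 1, 2, 3, 4} ![1, 0, 0, 0, 0, 0, 0] 8
    [143165577, 411601287, 680040328, 948533400, 1216972920, 1217890456, 1486329976, 1754823048,
      2023262089, 2291697799]
    [1, 1, 1, 1, 2, 1, 1, 1, 1]
    (fun x => x - 1)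
    (fun x => x ^ 9 + x ^ 5 - x ^ 4 - 1)
    (by decide +kernel) fun x => by simp only [pev]; push_cast; ring
  have h6 := h5.step ade_E7.dia (by decide) {0, 1, 2, 3, 4, 5} ![0, 0, 0, 0, 0, 1, 0] 16
    [144214152, 427395208, 696752264, 965245336, 1233684377, 1233684856, 1502120087, 1502123897,
      1770559607, 1770616969, 2039052679, 2039974025, 2307491720, 2308409735, 2323155081,
      2576848776, 2591590791, 2845341848, 2860029832, 3113781368, 3128522904, 3396962424,
      3397879960, 3666319480, 3934812552, 4203251593, 4471687303]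
    [1, 1, 1, 1, 2, 2, 2, 2, 3, 2, 2, 2, 2, 1, 1, 1, 1]
    (fun x => x - 1)
    (fun x => x ^ 17 + x ^ 13 + x ^ 9 - x ^ 8 - x ^ 4 - 1)
    (by decide +kernel) fun x => by simp only [pev]; push_cast; ring
  have h7 := h6.step ade_E7.dia (by decide) univ ![0, 0, 0, 0, 0, 0, 1] 27
    [159942792, 395872392, 679053448, 948410504, 1216903576, 1485342617, 1485343096, 1753778327,
      1753782137, 2022217847, 2022275209, 2290710919, 2291632265, 2559149960, 2560067975,
      2574813321, 2810742921, 2828507016, 2843249031, 3079178631, 3097000088, 3111688072,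
      3347617672, 3365439608, 3380181144, 3616110744, 3648620664, 3649538200, 3884550264,
      3885467800, 3917977720, 4153907320, 4168648856, 4186470792, 4422400392, 4437088376,
      4454909833, 4690839433, 4705581448, 4723345543, 4959275143, 4974020489, 4974938504,
      5242456199, 5243377545, 5511813255, 5511870617, 5780306327, 5780310137, 6048745368,
      6048745847, 6317184888, 6585677960, 6855035016, 7138216072, 7374145672]
    [1, 1, 1, 1, 1, 2, 2, 2, 2, 3, 3, 3, 3, 3, 3, 3, 3, 3, 3, 2, 2, 2, 2, 1, 1, 1, 1, 1]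
    (fun x => x - 1)
    (fun x => x ^ 28 + x ^ 23 + x ^ 19 - x ^ 9 - x ^ 5 - 1)
    (by decide +kernel) fun x => by simp only [pev]; push_cast; ring
  refine h7.congr rfl fun x p h => ?_
  rw [Ex.ord]
  linear_combination x ^ 63 * h

end Pool.Agent.Lib.MP_7d41f7_al
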