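import Pool.Agent.Lib.MP_7d41f7_al.E.EHt
import Pool.Agent.Lib.MP_7d41f7_al.E.EPb
import Pool.Agent.Lib.MP_7d41f7_al.E.EPc
import Pool.Agent.Lib.MP_7d41f7_al.E.EFin

/-! The order formula. -/

set_option autoImplicit false

namespace Pool.Agent.Lib.MP_7d41f7_al

open Finset

variable {l : ℕ} {M : Matrix (Fin l) (Fin l) ℤ} {K : Type} [Field K] [Finite K]
  {g : Equiv.Perm (Fin l)} {f : K →+* K} {w : Au l} {d k m q : ℕ}

theorem card_root (n : ℕ) : Nat.card {z : Kˣ // z ^ n = 1} = (Nat.card K - 1).gcd n := by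
  rw [← Nat.card_units, ← IsCyclic.card_powMonoidHom_ker]
  rfl

theorem ker_E6_aux0 {G : Type} [CommGroup G] (x : G) (v : Fin l → ℤ) :
    ∏ i, x ^ v i = x ^ ∑ i, v i :=
  (map_prod (zpowersHom G x) (fun i => Multiplicative.ofAdd (v i)) univ).symm

omit [Finite K] in
theorem ker_E6_aux1 {t : Fin l → Kˣ} (h : t ∈ (ccs M K).ker) (c v : Fin l → ℤ)
    (hv : ∀ i, ∑ j, c j * (M i j + M j i) = v i) : ∏ i, t i ^ v i = 1 := by
  have e (i : Fin l) : t i ^ v i = ∏ j, (t i ^ (M i j + M j i)) ^ c j := by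
    rw [← hv, ← ker_E6_aux0]
    exact Finset.prod_congr rfl fun j _ => by rw [← zpow_mul, mul_comm]
  rw [Finset.prod_congr rfl fun i _ => e i, Finset.prod_comm]
  exact Finset.prod_eq_one fun j _ => by rw [Finset.prod_zpow, mem_ker_ccs.1 h j, one_zpow]

omit [Finite K] in
theorem ker_E6_aux2 {t : Fin l → Kˣ} (a : Fin l) (n : ℕ) (e : Fin l → ℕ) (c₀ : Fin l → ℤ)
    (c : Matrix (Fin l) (Fin l) ℤ)
    (h0 : ∀ i, ∑ j, c₀ j * (M i j + M j i) = if i = a then (n : ℤ) else 0)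
    (h1 : ∀ k i, ∑ j, c k j * (M i j + M j i) =
      (if i = k then 1 else 0) - if i = a then (e k : ℤ) else 0)
    (h2 : ∀ j, (n : ℤ) ∣ ∑ i, e i * (M i j + M j i)) :
    t ∈ (ccs M K).ker ↔ t a ^ n = 1 ∧ ∀ k, t k = t a ^ e k := by
  refine ⟨fun h => ⟨?_, fun k => ?_⟩, fun ⟨h, h'⟩ => mem_ker_ccs.2 fun j => ?_⟩
  · simpa using ker_E6_aux1 h _ _ h0
  · have := ker_E6_aux1 h _ _ (h1 k)
    simp only [zpow_sub, Finset.prod_mul_distrib, Finset.prod_inv_distrib, mul_inv_eq_one] at this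
    simpa using this
  · obtain ⟨u, hu⟩ := h2 j
    rw [Finset.prod_congr rfl fun i _ => by rw [h' i, ← zpow_natCast, ← zpow_mul], ker_E6_aux0, hu,
      zpow_mul, zpow_natCast, h, one_zpow]

theorem ker_E6 {t : Fin 6 → Kˣ} : t ∈ (ccs mE6 K).ker ↔
    t 0 ^ 3 = 1 ∧ t = ![t 0, 1, t 0 ^ 2, 1, t 0, t 0 ^ 2] := by
  rw [ker_E6_aux2 0 3 ![1, 0, 2, 0, 1, 2] ![4, 3, 5, 6, 4, 2]
    !![0, 0, 0, 0, 0, 0; 1, 2, 2, 3, 2, 1; -1, 0, 0, 0, 0, 0; 2, 3, 4, 6, 4, 2; 0, 1, 1, 2, 2, 1;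
      -2, -1, -2, -2, -1, 0] (by decide) (by decide) (by decide), funext_iff]
  simp [Fin.forall_fin_succ]

theorem ker_E7 {t : Fin 7 → Kˣ} : t ∈ (ccs mE7 K).ker ↔
    t 1 ^ 2 = 1 ∧ t = ![1, t 1, 1, 1, t 1, 1, t 1] := by
  rw [ker_E6_aux2 1 2 ![0, 1, 0, 0, 1, 0, 1] ![4, 7, 8, 12, 9, 6, 3]
    !![2, 2, 3, 4, 3, 2, 1; 0, 0, 0, 0, 0, 0, 0; 3, 4, 6, 8, 6, 4, 2; 4, 6, 8, 12, 9, 6, 3;
      1, 1, 2, 3, 3, 2, 1; 2, 3, 4, 6, 5, 4, 2; -1, -2, -2, -3, -2, -1, 0]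
    (by decide) (by decide) (by decide), funext_iff]
  simp [Fin.forall_fin_succ]

theorem ker_E8 {t : Fin 8 → Kˣ} (h : t ∈ (ccs mE8 K).ker) : t = 1 := by
  exact funext fun k => (((ker_E6_aux2 0 1 0 ![4, 5, 7, 10, 8, 6, 4, 2]
    !![4, 5, 7, 10, 8, 6, 4, 2; 5, 8, 10, 15, 12, 9, 6, 3; 7, 10, 14, 20, 16, 12, 8, 4;
      10, 15, 20, 30, 24, 18, 12, 6; 8, 12, 16, 24, 20, 15, 10, 5; 6, 9, 12, 18, 15, 12, 8, 4;
      4, 6, 8, 12, 10, 8, 6, 3; 2, 3, 4, 6, 5, 4, 3, 2]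
    (by decide) (by decide) fun _ => one_dvd _).1 h).2 k).trans (pow_zero _)

omit [Finite K] in
theorem z_E6_aux1 {p : Kˣ → Prop} (v : Kˣ → Fin l → Kˣ) (i : Fin l) {H : Subgroup (Fin l → Kˣ)}
    (h0 : ∀ z, v z i = z) (h : ∀ t, t ∈ H ↔ p (t i) ∧ t = v (t i)) :
    Nat.card H = Nat.card {z // p z} :=
  Nat.card_congr ⟨fun t => ⟨t.1 i, ((h _).1 t.2).1⟩, fun z => ⟨v z.1, (h _).2 (by
    rw [h0]; exact ⟨z.2, rfl⟩)⟩, fun t => Subtype.ext ((h _).1 t.2).2.symm,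
    fun z => Subtype.ext (h0 _)⟩

theorem z_E6_aux2 (hK : Nat.card K = q ^ 1) (hf : ∀ a, f a = a ^ q) (a : K) : f a = a := by
  have := Fintype.ofFinite K
  rw [hf, ← pow_one q, ← hK, Nat.card_eq_fintype_card, FiniteField.pow_card]

theorem z_E6_aux3 (hK : Nat.card K = q ^ 1) (n : ℕ) :
    Nat.card {z : Kˣ // z ^ n = 1} = Int.gcd n (q - 1) := by
  have : 0 < q := by simpa [hK] using Nat.card_pos (α := K)
  rw [card_root, hK, pow_one, Nat.gcd_comm, ← Int.gcd_natCast_natCast, Nat.cast_pred this]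

theorem z_E6 (hK : Nat.card K = q ^ 1) (hf : ∀ a, f a = a ^ q) :
    Nat.card (TFs f 1 ⊓ (ccs mE6 K).ker : Subgroup _) = Ex.cen .E6 q :=
  (z_E6_aux1 (fun z => ![z, 1, z ^ 2, 1, z, z ^ 2]) 0 (fun _ => rfl) fun _ =>
    (and_iff_right fun _ => (z_E6_aux2 hK hf _).symm).trans ker_E6).trans (z_E6_aux3 hK 3)

theorem z_U6_aux1 (hf : ∀ a, f a = a ^ q) {t : Fin 6 → Kˣ} :
    t ∈ TFs f gE6 ⊓ (ccs mE6 K).ker ↔ t 0 ^ Nat.gcd 3 (q + 1) = 1 ∧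
      t = ![t 0, 1, t 0 ^ 2, 1, t 0, t 0 ^ 2] := by
  rw [Subgroup.mem_inf, ker_E6, pow_gcd_eq_one]
  constructor
  · rintro ⟨h, h3, e⟩
    have h5 : t 5 = t 0 ^ q := Units.ext ((h 0).trans (hf _))
    rw [congrFun e 5] at h5
    exact ⟨⟨h3, by rw [pow_succ, ← h5]; exact (pow_succ _ 2).symm.trans h3⟩, e⟩
  · rintro ⟨⟨h3, h⟩, e⟩
    refine ⟨fun j => ?_, h3, e⟩
    generalize t 0 = z at h3 h e
    have h1 : z ^ q = z ^ 2 := mul_right_cancel (b := z) (by rw [← pow_succ, h, ← pow_succ, h3])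
    have h2 : (z ^ 2) ^ q = z := by
      rw [← pow_mul, mul_comm, pow_mul, h1, ← pow_mul, pow_succ _ 3, h3, one_mul]
    rw [hf, ← Units.val_pow_eq_pow_val, Units.val_inj, e]
    fin_cases j
    exacts [h1.symm, (one_pow q).symm, h2.symm, (one_pow q).symm, h1.symm, h2.symm]

theorem z_U6 (hK : Nat.card K = q ^ 2) (hf : ∀ a, f a = a ^ q) :
    Nat.card (TFs f gE6 ⊓ (ccs mE6 K).ker : Subgroup _) = Ex.cen .U6 q := by
  rw [z_E6_aux1 (p := fun z => z ^ Nat.gcd 3 (q + 1) = 1) (fun z => ![z, 1, z ^ 2, 1, z, z ^ 2]) 0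
    (fun _ => rfl) fun _ => z_U6_aux1 hf, card_root, hK,
    Nat.gcd_eq_right ((Nat.gcd_dvd_right _ _).trans ⟨q - 1, Nat.sq_sub_sq q 1⟩)]
  exact (Int.gcd_natCast_natCast 3 (q + 1)).symm

theorem z_F4 (hK : Nat.card K = q ^ 1) (hf : ∀ a, f a = a ^ q) :
    Nat.card (TFs f gE6 ⊓ (ccs mE6 K).ker : Subgroup _) = 1 := by
  refine Subgroup.card_eq_one.2 ((Subgroup.eq_bot_iff_forall _).2 fun t ⟨h, h'⟩ => ?_)
  obtain ⟨-, e⟩ := ker_E6.1 h'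
  have h5 : t 5 = t 0 := Units.ext ((h 0).trans (z_E6_aux2 hK hf _))
  rw [congrFun e 5] at h5
  have : t 0 = 1 := mul_left_cancel (a := t 0) (by rw [← sq, mul_one]; exact h5)
  rw [e, this]
  ext1 j
  fin_cases j <;> simp

theorem z_E7 (hK : Nat.card K = q ^ 1) (hf : ∀ a, f a = a ^ q) :
    Nat.card (TFs f 1 ⊓ (ccs mE7 K).ker : Subgroup _) = Ex.cen .E7 q :=
  (z_E6_aux1 (fun z => ![1, z, 1, 1, z, 1, z]) 1 (fun _ => rfl) fun _ =>
    (and_iff_right fun _ => (z_E6_aux2 hK hf _).symm).trans ker_E7).trans (z_E6_aux3 hK 2)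

theorem z_E8 : Nat.card (TFs f 1 ⊓ (ccs mE8 K).ker : Subgroup _) = 1 := by
  exact Subgroup.card_eq_one.2 ((Subgroup.eq_bot_iff_forall _).2 fun _ h => ker_E8 h.2)

theorem z_D4 : Nat.card (TFs f gD4 ⊓ (ccs mD4 K).ker : Subgroup _) = 1 := by
  exact Subgroup.card_eq_one.2 ((Subgroup.eq_bot_iff_forall _).2 fun _ h => TF_D4_inj h.1 h.2)

namespace CG

variable {Γ : Type} [Group Γ] [Finite Γ] {C : CG M K Γ} {σ : Γ →* Γ} (hD : Dia M g d)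
  (hk : k = 1 ∨ k = d) (hK : Nat.card K = q ^ k) (hf : ∀ a, f a = a ^ q)
  (hσ : C.Hom C σ f (ga g))
include hD hk hK hf hσ

omit [Finite Γ] in
theorem wt_eq (hw : w ∈ WF M g univ) : C.wt σ w = q ^ (nu g d k (ivs M w) / d) := by
  have hd : 0 < d := by have := hD.d3; omega
  obtain ⟨e, h1, h2⟩ := hD.WF_ind (J := univ) (fun _ _ => mem_univ _)
    (p := fun w => ∃ e, nu g d k (ivs M w) = d * e ∧ C.wt σ w = q ^ e)
    ⟨0, by rw [hD.ade.ivs_one]; rfl, wt_one hD.ade⟩ (fun w hw i _ hi ⟨e, h1, h2⟩ =>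
      ⟨e + if g i = i then 1 else k, by rw [hD.nu_wo hw hi, h1, mul_add], by
        rw [hD.ob3_eq, wt_mul hD.ade hD.sy hσ (hD.WF_univ ▸ hw) hi, h2,
          qo_eq hD.d3 hD.pw hk hK hf, pow_add]⟩) w hw
  rw [h1, h2, Nat.mul_div_cancel_left _ hd]

theorem card_St_pn {a b : ℤ → ℤ} (hp : Pn M g d k univ m (fun x => x ^ m * a x) b) :
    (Nat.card (C.St σ) : ℤ) * a q = Nat.card (C.T ⊓ C.St σ : Subgroup Γ) * b q := by
  have hd : 0 < d := by have := hD.d3; omega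
  obtain ⟨p, hp, h⟩ := hp
  obtain ⟨w, hw, e⟩ := hD.ade.exists_w0f hD.sy
  rw [← hD.WF_univ] at hw
  have h1 : nu g d k (ivs M w) = d * m := by
    obtain ⟨n, hn, h1⟩ := hp.dvd w hw
    obtain ⟨v, -, h2⟩ := hp.top
    refine le_antisymm (h1 ▸ Nat.mul_le_mul_left d hn) ?_
    rw [← h2, e]
    exact sum_le_sum_of_subset fun c hc => mem_posR.2 ⟨(mem_ivs.1 hc).1, (mem_ivs.1 hc).2.1⟩
  rw [card_St hD.ade hD.sy hσ, ← wt_w0 hD.ade e, wt_eq hD hk hK hf hσ hw, h1,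
    Nat.mul_div_cancel_left _ hd, ← hD.WF_univ,
    finsum_congr fun w : WF M g univ => wt_eq hD hk hK hf hσ w.2, hp.sum, ← h q]
  push_cast
  ring

theorem card_St_fin {a b : ℤ → ℤ} (hp : Pn M g d k univ m (fun x => x ^ m * a x) b)
    (ha : (Nat.card (TFs f g) : ℤ) = a q) :
    (Nat.card (C.St σ) : ℤ) * Nat.card (TFs f g ⊓ (ccs M K).ker : Subgroup _) = b q := by
  have h := card_St_pn hD hk hK hf hσ hp
  rw [TS_eq hD.ade hD.sy hσ, ← ha, ← card_Ht (C := C) hD.ade, Nat.cast_mul] at h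
  have h0 : (Nat.card (C.Ht f g) : ℤ) ≠ 0 := Nat.cast_ne_zero.2 Nat.card_pos.ne'
  exact mul_left_cancel₀ h0 (by rw [← h]; ring)

end CG

theorem IsChev.card {S : Type} [Group S] {x : Ex} (h : IsChev S x q) :
    (Nat.card S : ℤ) * x.cen q = x.ord q := by
  have P : ∀ {K : Type} [Field K] [Finite K] {k : ℕ}, 0 < k → Nat.card K = q ^ k →
      ∀ n, ((q ^ n - 1 : ℕ) : ℤ) = q ^ n - 1 := fun {K} _ _ {k} hk hK n => by
    have : 0 < q := Nat.pos_of_ne_zero fun e => by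
      rw [e, zero_pow hk.ne'] at hK
      exact Nat.card_pos.ne' hK
    rw [Nat.cast_pred (pow_pos this n), Nat.cast_pow]
  cases x
  · obtain ⟨K, _, _, f, τ, hK, hf, hτ, ⟨e⟩⟩ := (tp_one ade_E6).model h
    rw [Nat.card_congr e.toEquiv, ← z_E6 hK hf]
    refine CG.card_St_fin ade_E6.dia (.inl rfl) hK hf hτ pn_E6 ?_
    have := P one_pos hK 1
    rw [pow_one, pow_one] at this
    rw [card_TF_one hK hf, Nat.cast_pow, this]
  · obtain ⟨K, _, _, f, τ, hK, hf, hτ, ⟨e⟩⟩ := tp_U6.model h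
    rw [Nat.card_congr e.toEquiv, ← z_U6 hK hf]
    refine CG.card_St_fin dia_E6 (.inr rfl) hK hf hτ pn_U6 ?_
    have := P two_pos hK 1
    rw [pow_one, pow_one] at this
    rw [card_TF_E6 (.inr rfl) hK hf, Nat.cast_mul, Nat.cast_pow, Nat.cast_pow, this,
      P two_pos hK, mul_comm]
  · obtain ⟨K, _, _, f, τ, hK, hf, hτ, ⟨e⟩⟩ := (tp_one ade_E7).model h
    rw [Nat.card_congr e.toEquiv, ← z_E7 hK hf]
    refine CG.card_St_fin ade_E7.dia (.inl rfl) hK hf hτ pn_E7 ?_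
    have := P one_pos hK 1
    rw [pow_one, pow_one] at this
    rw [card_TF_one hK hf, Nat.cast_pow, this]
  · obtain ⟨K, _, _, f, τ, hK, hf, hτ, ⟨e⟩⟩ := (tp_one ade_E8).model h
    rw [Nat.card_congr e.toEquiv, show Ex.cen .E8 q = _ from (z_E8 (f := f)).symm]
    refine CG.card_St_fin ade_E8.dia (.inl rfl) hK hf hτ pn_E8 ?_
    have := P one_pos hK 1
    rw [pow_one, pow_one] at this
    rw [card_TF_one hK hf, Nat.cast_pow, this]
  · obtain ⟨K, _, _, f, τ, hK, hf, hτ, ⟨e⟩⟩ := tp_F4.model h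
    rw [Nat.card_congr e.toEquiv, show Ex.cen .F4 q = _ from (z_F4 hK hf).symm]
    refine CG.card_St_fin dia_E6 (.inl rfl) hK hf hτ pn_F4 ?_
    have := P one_pos hK 1
    rw [pow_one, pow_one] at this
    rw [card_TF_E6 (.inl rfl) hK hf, Nat.cast_mul, Nat.cast_pow, Nat.cast_pow, this,
      P one_pos hK, mul_comm]
  · obtain ⟨K, _, _, f, τ, hK, hf, hτ, ⟨e⟩⟩ := tp_G2.model h
    rw [Nat.card_congr e.toEquiv, show Ex.cen .G2 q = _ from (z_D4 (f := f)).symm]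
    refine CG.card_St_fin dia_D4 (.inl rfl) hK hf hτ pn_G2 ?_
    have := P one_pos hK 1
    rw [pow_one, pow_one] at this
    rw [card_TF_D4 (.inl rfl) hK hf, Nat.cast_mul, this, P one_pos hK, mul_comm]
  · obtain ⟨K, _, _, f, τ, hK, hf, hτ, ⟨e⟩⟩ := tp_D3.model h
    rw [Nat.card_congr e.toEquiv, show Ex.cen .D3 q = _ from (z_D4 (f := f)).symm]
    refine CG.card_St_fin dia_D4 (.inr rfl) hK hf hτ pn_D3 ?_
    have := P three_pos hK 1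
    rw [pow_one, pow_one] at this
    rw [card_TF_D4 (.inr rfl) hK hf, Nat.cast_mul, this, P three_pos hK, mul_comm]

end Pool.Agent.Lib.MP_7d41f7_al
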