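import Pool.Agent.Lib.MP_7d41f7_al.E.ECnt

/-! Symmetries of order at most three and their Weyl groups. -/

set_option autoImplicit false

namespace Pool.Agent.Lib.MP_7d41f7_al

open Matrix Finset

variable {l : ℕ}

/-- The orbit of a node. -/
def ob3 (γ : Equiv.Perm (Fin l)) (i : Fin l) : Finset (Fin l) := {i, γ i, γ (γ i)}

/-- The elements of the parabolic subgroup that commute with `γ`. -/
noncomputable def WF (M : Matrix (Fin l) (Fin l) ℤ) (γ : Equiv.Perm (Fin l)) (J : Finset (Fin l)) :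
    Subgroup (Au l) :=
  WJ M J ⊓ Subgroup.centralizer {ga γ}

/-- A diagram automorphism of order dividing `d`. -/
structure Dia (M : Matrix (Fin l) (Fin l) ℤ) (γ : Equiv.Perm (Fin l)) (d : ℕ) : Prop where
  ade : Ade M
  sy : Sy M γ
  pw : γ ^ d = 1
  d3 : d = 1 ∨ d = 2 ∨ d = 3

/-- The weight of a set of roots. -/
def nu (γ : Equiv.Perm (Fin l)) (d k : ℕ) (S : Finset (Lat l)) : ℕ :=
  ∑ b ∈ S, if ga γ b = b then d else k

variable {M : Matrix (Fin l) (Fin l) ℤ} {γ : Equiv.Perm (Fin l)} {d k : ℕ} {J : Finset (Fin l)}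
  {i j : Fin l} {a b : Lat l} {w : Au l}

theorem mem_WF : w ∈ WF M γ J ↔ w ∈ WJ M J ∧ Commute w (ga γ) :=
  and_congr_right' Subgroup.mem_centralizer_singleton_iff

theorem self_ob3 (i : Fin l) : i ∈ ob3 γ i := mem_insert_self _ _

theorem sr_inj : Function.Injective (sr (l := l)) := fun i j e => by
  by_contra e'
  simpa [sr, e'] using congrFun e i

theorem nu_map (h : Commute w (ga γ)) (S : Finset (Lat l)) :
    nu γ d k (S.map w.toEquiv.toEmbedding) = nu γ d k S := by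
  rw [nu, sum_map]
  refine sum_congr rfl fun b _ => if_congr ?_ rfl rfl
  exact (Eq.congr_left (LinearEquiv.congr_fun h.eq b).symm).trans w.injective.eq_iff

namespace Dia

variable (h : Dia M γ d)
include h

theorem ob3_eq_aux1 : (d = 1 ∧ ∀ x, γ x = x) ∨ (d = 2 ∧ ∀ x, γ (γ x) = x) ∨
    (d = 3 ∧ ∀ x, γ (γ (γ x)) = x) := by
  have e := fun x => Equiv.congr_fun h.pw x
  rcases h.d3 with rfl | rfl | rfl
  exacts [.inl ⟨rfl, e⟩, .inr (.inl ⟨rfl, e⟩), .inr (.inr ⟨rfl, e⟩)]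

theorem ob3_eq (i : Fin l) : ob3 γ i = orb γ i := by
  ext j
  rw [mem_orb]
  refine ⟨fun e => ?_, fun e => ?_⟩
  · simp only [ob3, mem_insert, mem_singleton] at e
    rcases e with rfl | rfl | rfl <;> simp [Equiv.Perm.SameCycle.refl]
  · obtain ⟨n, rfl⟩ := e.exists_nat_pow_eq
    clear e
    induction n with
    | zero => exact self_ob3 i
    | succ n ih =>
      rw [pow_succ', Equiv.Perm.mul_apply]
      simp only [ob3, mem_insert, mem_singleton] at ih ⊢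
      rcases ih with e | e | e <;> rw [e] <;>
        rcases h.ob3_eq_aux1 with ⟨-, a⟩ | ⟨-, a⟩ | ⟨-, a⟩ <;> simp [a]

theorem mem_ob3 : γ j ∈ ob3 γ i ↔ j ∈ ob3 γ i := by
  rw [h.ob3_eq, mem_orb, mem_orb, Equiv.Perm.sameCycle_apply_right]

theorem ob3_congr (hj : j ∈ ob3 γ i) : ob3 γ j = ob3 γ i := by
  rw [h.ob3_eq, mem_orb] at hj
  ext t
  rw [h.ob3_eq, h.ob3_eq, mem_orb, mem_orb]
  exact ⟨hj.trans, hj.symm.trans⟩

theorem card_ob3 (i : Fin l) : (ob3 γ i).card = if γ i = i then 1 else d := by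
  split_ifs with e
  · simp [ob3, e]
  · rcases h.ob3_eq_aux1 with ⟨-, a⟩ | ⟨rfl, a⟩ | ⟨rfl, a⟩
    · exact absurd (a i) e
    · rw [ob3, a, pair_comm (γ i), insert_idem, card_pair (Ne.symm e)]
    · exact card_eq_three.2 ⟨_, _, _, Ne.symm e, fun b => e ((congrArg γ b).trans (a i)),
        γ.injective.ne (Ne.symm e), rfl⟩

theorem orth {t : Fin l} (hj : j ∈ ob3 γ i) (ht : t ∈ ob3 γ i) (e : j ≠ t) :
    ip M (sr j) (sr t) = 0 := by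
  exact h.sy.orth (h.ob3_eq i ▸ hj) (h.ob3_eq i ▸ ht) e

theorem WF_univ : WF M γ univ = Wf M γ := by
  rw [WF, Wf, h.ade.Wg_eq]

theorem wo_apply (i : Fin l) (v : Lat l) :
    rI M (ob3 γ i) v = v - ∑ j ∈ ob3 γ i, ip M v (sr j) • sr j := by
  exact h.ade.rI_apply (fun _ hj _ ht => h.orth hj ht) v

theorem wo_sq (i : Fin l) : rI M (ob3 γ i) * rI M (ob3 γ i) = 1 := by
  rw [h.ob3_eq, h.ade.rI_sq h.sy]

theorem wo_sr (hj : j ∈ ob3 γ i) : rI M (ob3 γ i) (sr j) = -sr j := by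
  rw [h.ob3_eq] at hj ⊢
  exact h.ade.rI_sr h.sy hj

theorem wo_pos (ha : a ∈ posR M) (h0 : ∀ j ∈ ob3 γ i, a ≠ sr j) :
    rI M (ob3 γ i) a ∈ posR M ∧ ∀ j ∈ ob3 γ i, rI M (ob3 γ i) a ≠ sr j := by
  obtain ⟨h1, h2⟩ := mem_posR.1 ha
  refine ⟨mem_posR.2 ⟨(h.ade.W_root (h.ade.exch_aux1 _)).2 h1, ?_⟩, fun j hj e => ?_⟩
  · rw [h.ob3_eq] at h0 ⊢
    exact h.ade.rI_pos h.sy h1 h2 h0
  · have e2 : a = -sr j := by
      rw [← h.wo_sr hj, ← e]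
      exact (LinearEquiv.congr_fun (h.wo_sq i) a).symm
    exact h.ade.ivs_mul_rf_aux1 (h.ade.sr_mem j) (sr_nonneg j) (e2 ▸ h2)

theorem wo_mem (hJ : ∀ i ∈ J, γ i ∈ J) (hi : i ∈ J) : rI M (ob3 γ i) ∈ WF M γ J := by
  refine ⟨Subgroup.list_prod_mem _ fun x hx => ?_, (h.ob3_eq i ▸ h.ade.rI_mem h.sy i).2⟩
  obtain ⟨t, ht, rfl⟩ := List.mem_map.1 hx
  refine Subgroup.subset_closure ⟨t, ?_, rfl⟩
  simp only [mem_toList, ob3, mem_insert, mem_singleton] at ht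
  rcases ht with rfl | rfl | rfl
  exacts [hi, hJ _ hi, hJ _ (hJ _ hi)]

theorem pos_ob3 (hw : w ∈ WF M γ univ) (hj : j ∈ ob3 γ i) : 0 ≤ w (sr j) ↔ 0 ≤ w (sr i) := by
  rw [orb_const (fun b => 0 ≤ w b) (fun b => by
    rw [← LinearEquiv.mul_apply, (mem_WF.1 hw).2.eq, LinearEquiv.mul_apply, ga_pos])
    (h.ob3_eq i ▸ hj)]

theorem ivs_wo_aux1 (hw : w ∈ WF M γ J) : w ∈ Wg M := h.ade.WJ_le J hw.1

theorem ivs_wo_aux2 (i : Fin l) : rI M (ob3 γ i) ∈ WF M γ univ :=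
  h.wo_mem (fun _ _ => mem_univ _) (mem_univ i)

theorem ivs_wo_aux3 (i : Fin l) (v : Lat l) : rI M (ob3 γ i) (rI M (ob3 γ i) v) = v :=
  LinearEquiv.congr_fun (h.wo_sq i) v

theorem ivs_wo (hw : w ∈ WF M γ univ) (hi : 0 ≤ w (sr i)) :
    b ∈ ivs M (w * rI M (ob3 γ i)) ↔ (∃ j ∈ ob3 γ i, b = sr j) ∨ rI M (ob3 γ i) b ∈ ivs M w := by
  have hs := h.ivs_wo_aux1 (h.ivs_wo_aux2 i)
  rw [mem_ivs, mem_ivs]
  refine ⟨fun ⟨h1, h2, h3⟩ => or_iff_not_imp_left.2 fun e => ⟨(h.ade.W_root hs).2 h1,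
    (mem_posR.1 (h.wo_pos (mem_posR.2 ⟨h1, h2⟩) fun j hj c => e ⟨j, hj, c⟩).1).2, h3⟩, ?_⟩
  rintro (⟨j, hj, rfl⟩ | ⟨h1, h2, h3⟩)
  · refine ⟨h.ade.sr_mem j, sr_nonneg j, ?_⟩
    rw [LinearEquiv.mul_apply, h.wo_sr hj, map_neg]
    exact h.ade.ivs_mul_rf_aux1 ((h.ade.W_root (h.ivs_wo_aux1 hw)).2 (h.ade.sr_mem j))
      ((h.pos_ob3 hw hj).2 hi)
  · exact ⟨(h.ade.W_root hs).1 h1, h.ivs_wo_aux3 i b ▸ (mem_posR.1 (h.wo_pos (mem_posR.2 ⟨h1, h2⟩)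
      fun j hj e => h3 (((h.pos_ob3 hw hj).2 hi).trans_eq (congrArg w e.symm))).1).2, h3⟩

theorem nu_wo_aux1 (hw : w ∈ WF M γ univ) (hi : 0 ≤ w (sr i)) (f : Lat l → ℕ) :
    ∑ b ∈ ivs M (w * rI M (ob3 γ i)), f b =
      ∑ b ∈ (ivs M w).map (rI M (ob3 γ i)).toEquiv.toEmbedding, f b + ∑ j ∈ ob3 γ i, f (sr j) := by
  have m (b : Lat l) : b ∈ (ivs M w).map (rI M (ob3 γ i)).toEquiv.toEmbedding ↔
      rI M (ob3 γ i) b ∈ ivs M w := mem_map.trans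
    ⟨fun ⟨c, hc, e⟩ => e ▸ (h.ivs_wo_aux3 i c).symm ▸ hc, fun e => ⟨_, e, h.ivs_wo_aux3 i b⟩⟩
  rw [← sum_image (g := sr) fun _ _ _ _ e => sr_inj e, ← sum_union]
  · refine sum_congr (ext fun b => ?_) fun _ _ => rfl
    rw [h.ivs_wo hw hi, mem_union, m, mem_image, or_comm]
    simp only [eq_comm]
  · refine disjoint_right.2 fun b hb c => ?_
    obtain ⟨j, hj, rfl⟩ := mem_image.1 hb
    exact h.ade.ivs_mul_rf_aux1 (h.ade.sr_mem j) (sr_nonneg j)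
      (h.wo_sr hj ▸ (mem_ivs.1 ((m _).1 c)).2.1)

theorem nu_wo_aux2 (hj : j ∈ ob3 γ i) : ga γ (sr j) = sr j ↔ γ i = i := by
  rw [ga_sr, sr_inj.eq_iff]
  have k : ∀ {i j : Fin l}, j ∈ ob3 γ i → γ i = i → γ j = j := fun hj e => by
    simp only [ob3, e, mem_insert, mem_singleton, or_self] at hj
    rwa [hj]
  exact ⟨k (h.ob3_congr hj ▸ self_ob3 i), k hj⟩

theorem nu_wo (hw : w ∈ WF M γ univ) (hi : 0 ≤ w (sr i)) :
    nu γ d k (ivs M (w * rI M (ob3 γ i))) =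
      nu γ d k (ivs M w) + d * if γ i = i then 1 else k := by
  rw [nu, h.nu_wo_aux1 hw hi, ← nu_map (mem_WF.1 (h.ivs_wo_aux2 i)).2,
    sum_congr rfl fun j hj => if_congr (h.nu_wo_aux2 hj) rfl rfl, sum_const, h.card_ob3]
  split_ifs <;> simp [nu]

theorem len_wo_aux (hw : w ∈ WF M γ univ) (hi : ¬ 0 ≤ w (sr i)) :
    0 ≤ (w * rI M (ob3 γ i)) (sr i) := by
  rw [LinearEquiv.mul_apply, h.wo_sr (self_ob3 i), map_neg]
  exact (h.ade.not_pos_iff ((h.ade.W_root (h.ivs_wo_aux1 hw)).2 (h.ade.sr_mem i))).1 hi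

theorem len_wo (hw : w ∈ WF M γ univ) (hi : ¬ 0 ≤ w (sr i)) :
    len M (w * rI M (ob3 γ i)) < len M w := by
  have e := h.nu_wo_aux1 (mul_mem hw (h.ivs_wo_aux2 i)) (h.len_wo_aux hw hi) fun _ => 1
  rw [mul_assoc, h.wo_sq, mul_one, ← card_eq_sum_ones, ← card_eq_sum_ones, ← card_eq_sum_ones,
    card_map] at e
  exact (Nat.lt_add_of_pos_right (card_pos.2 ⟨i, self_ob3 i⟩)).trans_eq e.symm

theorem WF_ind (hJ : ∀ i ∈ J, γ i ∈ J) {p : Au l → Prop} (h1 : p 1)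
    (h2 : ∀ w ∈ WF M γ J, ∀ i ∈ J, 0 ≤ w (sr i) → p w → p (w * rI M (ob3 γ i))) :
    ∀ w ∈ WF M γ J, p w := by
  intro w hw
  induction hn : len M w using Nat.strong_induction_on generalizing w with | _ n ih => ?_
  by_cases e : w = 1
  · exact e ▸ h1
  obtain ⟨j, hj, c⟩ := h.ade.exch hw.1 e
  have h3 := mul_mem hw (h.wo_mem hJ hj)
  have u : w ∈ WF M γ univ := ⟨h.ade.Wg_eq ▸ h.ivs_wo_aux1 hw, hw.2⟩
  have := h2 _ h3 j hj (h.len_wo_aux u c) (ih _ (hn ▸ h.len_wo u c) _ h3 rfl)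
  rwa [mul_assoc, h.wo_sq, mul_one] at this

theorem gen (hJ : ∀ i ∈ J, γ i ∈ J) :
    WF M γ J = Subgroup.closure ((fun i => rI M (ob3 γ i)) '' J) :=
  le_antisymm (h.WF_ind hJ (one_mem _) fun _ _ i hi _ e =>
      mul_mem e (Subgroup.subset_closure ⟨i, hi, rfl⟩))
    ((Subgroup.closure_le _).2 fun _ ⟨_, hi, e⟩ => e ▸ h.wo_mem hJ hi)

end Dia

end Pool.Agent.Lib.MP_7d41f7_al
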