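import Pool.Agent.Lib.MP_7d41f7_al.E.EPo
import Pool.Agent.Lib.MP_7d41f7_al.E.EAde
import Pool.Agent.Lib.MP_7d41f7_al.D.EDef

/-! The Poincaré series in rank at most six. -/

set_option autoImplicit false

namespace Pool.Agent.Lib.MP_7d41f7_al

open Finset

theorem Ade.dia {l : ℕ} {M : Matrix (Fin l) (Fin l) ℤ} (h : Ade M) : Dia M 1 1 :=
  ⟨h, Sy.one, rfl, .inl rfl⟩

theorem dia_E6 : Dia mE6 gE6 2 := ⟨ade_E6, sy_E6, by decide, by decide⟩

theorem dia_D4 : Dia mD4 gD4 3 := ⟨ade_D4, sy_D4, by decide, by decide⟩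

theorem pn_E6 : Pn mE6 1 1 1 univ 36 (fun x => x ^ 36 * ((x - 1) ^ 6))
    (Ex.ord .E6) := by
  have h0 : Pn mE6 1 1 1 ∅ 0 _ _ := ade_E6.dia.ade.pn_empty
  have h1 := h0.step ade_E6.dia (by decide) {4} ![0, 0, 0, 0, 1, 0] 1
    [9013384, 26712200]
    [1, 1]
    (fun x => x - 1)
    (fun x => x ^ 2 - 1)
    (by decide +kernel) fun x => by simp only [pev]; push_cast; ring
  have h2 := h1.step ade_E6.dia (by decide) {3, 4} ![0, 0, 0, 1, 0, 0] 2
    [8951944, 25786776, 43485592]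
    [1, 1, 1]
    (fun x => x - 1)
    (fun x => x ^ 3 - 1)
    (by decide +kernel) fun x => by simp only [pev]; push_cast; ring
  have h3 := h2.step ade_E6.dia (by decide) {2, 3, 4} ![0, 0, 1, 0, 0, 0] 3
    [8948104, 25728905, 42563737, 60262553]
    [1, 1, 1, 1]
    (fun x => x - 1)
    (fun x => x ^ 4 - 1)
    (by decide +kernel) fun x => by simp only [pev]; push_cast; ring
  have h4 := h3.step ade_E6.dia (by decide) {1, 2, 3, 4} ![0, 1, 0, 0, 0, 0] 6
    [8947864, 25729144, 42563976, 59344777, 60262792, 77043593, 93878425, 110659705]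
    [1, 1, 1, 2, 1, 1, 1]
    (fun x => x - 1)
    (fun x => x ^ 7 + x ^ 4 - x ^ 3 - 1)
    (by decide +kernel) fun x => by simp only [pev]; push_cast; ring
  have h5 := h4.step ade_E6.dia (by decide) {0, 1, 2, 3, 4} ![1, 0, 0, 0, 0, 0] 8
    [8947849, 25725319, 42506120, 59340952, 76122232, 77039768, 93821048, 110655880, 127436681,
      144214151]
    [1, 1, 1, 1, 2, 1, 1, 1, 1]
    (fun x => x - 1)
    (fun x => x ^ 9 + x ^ 5 - x ^ 4 - 1)
    (by decide +kernel) fun x => by simp only [pev]; push_cast; ring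
  have h6 := h5.step ade_E6.dia (by decide) univ ![0, 0, 0, 0, 0, 1] 16
    [9996424, 24742024, 42440840, 59275672, 76056473, 76056952, 92833943, 92837753, 109615223,
      109672585, 126450055, 127371401, 142117001, 143230856, 144148871, 158894471, 160929672,
      175675272, 177764504, 192510104, 194545784, 209291384, 210208920, 226990200, 243825032,
      260605833, 277383303]
    [1, 1, 1, 1, 2, 2, 2, 2, 3, 2, 2, 2, 2, 1, 1, 1, 1]
    (fun x => x - 1)
    (fun x => x ^ 17 + x ^ 13 + x ^ 9 - x ^ 8 - x ^ 4 - 1)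
    (by decide +kernel) fun x => by simp only [pev]; push_cast; ring
  refine h6.congr rfl fun x p h => ?_
  rw [Ex.ord]
  linear_combination x ^ 36 * h

theorem pn_U6 : Pn mE6 gE6 2 2 univ 36 (fun x => x ^ 36 * ((x ^ 2 - 1) ^ 2 * (x - 1) ^ 2))
    (Ex.ord .U6) := by
  have h0 : Pn mE6 gE6 2 2 ∅ 0 _ _ := dia_E6.ade.pn_empty
  have h1 := h0.step dia_E6 (by decide) {3} ![0, 0, 0, 1, 0, 0] 1
    [8951944, 25786776]
    [1, 1]
    (fun x => x - 1)
    (fun x => x ^ 2 - 1)
    (by decide +kernel) fun x => by simp only [pev]; push_cast; ring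
  have h2 := h1.step dia_E6 (by decide) {2, 3, 4} ![0, 0, 1, 0, 1, 0] 5
    [9013640, 43493257, 60385705, 94865322]
    [1, 0, 1, 1, 0, 1]
    (fun x => x ^ 2 - 1)
    (fun x => x ^ 7 + x ^ 4 - x ^ 3 - 1)
    (by decide +kernel) fun x => by simp only [pev]; push_cast; ring
  have h3 := h2.step dia_E6 (by decide) {1, 2, 3, 4} ![0, 1, 0, 0, 0, 0] 6
    [8947864, 25729144, 42563976, 77043593, 93878425, 110659705]
    [1, 1, 1, 0, 1, 1, 1]
    (fun x => x - 1)
    (fun x => x ^ 7 - x ^ 4 + x ^ 3 - 1)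
    (by decide +kernel) fun x => by simp only [pev]; push_cast; ring
  have h4 := h3.step dia_E6 (by decide) univ ![1, 0, 0, 0, 0, 1] 24
    [9996425, 41519495, 75999112, 92891560, 109676904, 127371177, 144156521, 158894247, 161048969,
      175679591, 192572039, 195528586, 225020294, 227976841, 244869289, 259499911, 261654633,
      276392359, 293177703, 310871976, 327657320, 344549768, 379029385, 410552455]
    [1, 0, 1, 0, 1, 1, 1, 1, 1, 2, 1, 2, 0, 2, 1, 2, 1, 1, 1, 1, 1, 0, 1, 0, 1]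
    (fun x => x ^ 2 - 1)
    (fun x => x ^ 26 + x ^ 21 + x ^ 17 - x ^ 14 + x ^ 12 - x ^ 9 - x ^ 5 - 1)
    (by decide +kernel) fun x => by simp only [pev]; push_cast; ring
  refine h4.congr rfl fun x p h => ?_
  rw [Ex.ord]
  linear_combination x ^ 36 * h

theorem pn_F4 : Pn mE6 gE6 2 1 univ 24 (fun x => x ^ 24 * ((x ^ 1 - 1) ^ 2 * (x - 1) ^ 2))
    (Ex.ord .F4) := by
  have h0 : Pn mE6 gE6 2 1 ∅ 0 _ _ := dia_E6.ade.pn_empty
  have h1 := h0.step dia_E6 (by decide) {3} ![0, 0, 0, 1, 0, 0] 1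
    [8951944, 25786776]
    [1, 1]
    (fun x => x - 1)
    (fun x => x ^ 2 - 1)
    (by decide +kernel) fun x => by simp only [pev]; push_cast; ring
  have h2 := h1.step dia_E6 (by decide) {2, 3, 4} ![0, 0, 1, 0, 1, 0] 3
    [9013640, 26716041, 43608489, 61310890]
    [1, 1, 1, 1]
    (fun x => x - 1)
    (fun x => x ^ 4 - 1)
    (by decide +kernel) fun x => by simp only [pev]; push_cast; ring
  have h3 := h2.step dia_E6 (by decide) {1, 2, 3, 4} ![0, 1, 0, 0, 0, 0] 5
    [8947864, 25729144, 42563976, 60266377, 77101209, 93882489]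
    [1, 1, 1, 1, 1, 1]
    (fun x => x - 1)
    (fun x => x ^ 6 - 1)
    (by decide +kernel) fun x => by simp only [pev]; push_cast; ring
  have h4 := h3.step dia_E6 (by decide) univ ![1, 0, 0, 0, 0, 1] 15
    [9996425, 24742279, 42444680, 59337128, 76122472, 77039529, 91785383, 93824873, 108570727,
      110717321, 125463175, 128419722, 141134214, 144090761, 158836615, 160983209, 175729063,
      177768553, 192514407, 193431464, 210216808, 227109256, 244811657, 259557511]
    [1, 1, 1, 1, 2, 2, 2, 2, 2, 2, 2, 2, 1, 1, 1, 1]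
    (fun x => x - 1)
    (fun x => x ^ 16 + x ^ 12 - x ^ 4 - 1)
    (by decide +kernel) fun x => by simp only [pev]; push_cast; ring
  refine h4.congr rfl fun x p h => ?_
  rw [Ex.ord]
  linear_combination x ^ 24 * h

theorem pn_G2 : Pn mD4 gD4 3 1 univ 6 (fun x => x ^ 6 * ((x ^ 1 - 1) * (x - 1)))
    (Ex.ord .G2) := by
  have h0 : Pn mD4 gD4 3 1 ∅ 0 _ _ := dia_D4.ade.pn_empty
  have h1 := h0.step dia_D4 (by decide) {1} ![0, 1, 0, 0] 1
    [34968, 104825]
    [1, 1]
    (fun x => x - 1)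
    (fun x => x ^ 2 - 1)
    (by decide +kernel) fun x => by simp only [pev]; push_cast; ring
  have h2 := h1.step dia_D4 (by decide) univ ![1, 0, 1, 1] 5
    [39305, 96183, 174682, 222902, 301401, 358279]
    [1, 1, 1, 1, 1, 1]
    (fun x => x - 1)
    (fun x => x ^ 6 - 1)
    (by decide +kernel) fun x => by simp only [pev]; push_cast; ring
  refine h2.congr rfl fun x p h => ?_
  rw [Ex.ord]
  linear_combination x ^ 6 * h

theorem pn_D3 : Pn mD4 gD4 3 3 univ 12 (fun x => x ^ 12 * ((x ^ 3 - 1) * (x - 1)))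
    (Ex.ord .D3) := by
  have h0 : Pn mD4 gD4 3 3 ∅ 0 _ _ := dia_D4.ade.pn_empty
  have h1 := h0.step dia_D4 (by decide) {1} ![0, 1, 0, 0] 1
    [34968, 104825]
    [1, 1]
    (fun x => x - 1)
    (fun x => x ^ 2 - 1)
    (by decide +kernel) fun x => by simp only [pev]; push_cast; ring
  have h2 := h1.step dia_D4 (by decide) univ ![1, 0, 1, 1] 11
    [39305, 227255, 305754, 485046, 563545, 751495]
    [1, 0, 0, 1, 1, 0, 0, 1, 1, 0, 0, 1]
    (fun x => x ^ 3 - 1)
    (fun x => x ^ 14 + x ^ 10 - x ^ 8 + x ^ 6 - x ^ 4 - 1)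
    (by decide +kernel) fun x => by simp only [pev]; push_cast; ring
  refine h2.congr rfl fun x p h => ?_
  rw [Ex.ord]
  linear_combination x ^ 12 * h

end Pool.Agent.Lib.MP_7d41f7_al
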