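import Pool.Agent.Lib.MP_7d41f7_al.E.EP0

/-! The weighted Poincaré series along a chain of parabolic subgroups. -/

set_option autoImplicit false

namespace Pool.Agent.Lib.MP_7d41f7_al

open Matrix Finset

variable {l : ℕ} {M : Matrix (Fin l) (Fin l) ℤ} {γ : Equiv.Perm (Fin l)} {d k : ℕ}
  {J : Finset (Fin l)} {i j : Fin l} {a b c v μ ω : Lat l} {w w' : Au l}

/-- The positive roots on which the functional `μ` is negative. -/
noncomputable def dn (M : Matrix (Fin l) (Fin l) ℤ) (μ : Lat l) : Finset (Lat l) :=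
  (posR M).filter fun c => μ ⬝ᵥ c < 0

/-- The action on functionals. -/
def fact (μ : Lat l) (w : Au l) : Lat l := fun k => μ ⬝ᵥ w (sr k)

theorem mem_dn : c ∈ dn M μ ↔ (c ∈ roots M ∧ 0 ≤ c) ∧ μ ⬝ᵥ c < 0 := by
  rw [dn, mem_filter, mem_posR]

theorem dot_sr (μ : Lat l) (i : Fin l) : μ ⬝ᵥ sr i = μ i := by simp [sr]

theorem fact_dot (μ : Lat l) (w : Au l) (v : Lat l) : fact μ w ⬝ᵥ v = μ ⬝ᵥ w v := by
  conv_rhs => rw [← sum_sr v, map_sum, dotProduct_sum]
  exact sum_congr rfl fun i _ => by rw [map_smul, dotProduct_smul, smul_eq_mul, mul_comm]; rfl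

theorem fact_mul (μ : Lat l) (w w' : Au l) : fact μ (w * w') = fact (fact μ w) w' :=
  funext fun j => (fact_dot μ w (w' (sr j))).symm

theorem fact_one (μ : Lat l) : fact μ 1 = μ := funext (dot_sr μ)

theorem Ade.WJ_coord (h : Ade M) (hw : w ∈ WJ M J) (hi : i ∉ J) (v : Lat l) : w v i = v i := by
  induction hw using Subgroup.closure_induction generalizing v with
  | mem x hx =>
    obtain ⟨j, hj, rfl⟩ := hx
    rw [h.rf_apply (h.sr_mem j)]
    simp [sr, Pi.single_eq_of_ne (ne_of_mem_of_not_mem hj hi).symm]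
  | one => rfl
  | mul x y _ _ hx hy => exact (hx _).trans (hy v)
  | inv x _ hx => exact (hx _).symm.trans (congrFun (x.apply_symm_apply v) i)

theorem dot_nonneg' (h0 : 0 ≤ ω) (h : 0 ≤ c) : 0 ≤ ω ⬝ᵥ c := dotProduct_nonneg_of_nonneg h0 h

theorem Ade.dot_nonpos (h : Ade M) (h0 : 0 ≤ ω) (hc : c ∈ roots M) (h1 : ¬ 0 ≤ c) :
    ω ⬝ᵥ c ≤ 0 := by
  have := dot_nonneg' h0 ((h.not_pos_iff hc).1 h1)
  rwa [dotProduct_neg, neg_nonneg] at this

/-- The stabiliser of a dominant functional. -/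
theorem Ade.stab (h : Ade M) (h0 : 0 ≤ ω) (hw : w ∈ WJ M J) (h1 : fact ω w = ω) :
    w ∈ WJ M (J.filter fun i => ω i = 0) := by
  induction hn : len M w using Nat.strong_induction_on generalizing w with
  | _ n ih =>
  by_cases e : w = 1
  · exact e ▸ one_mem _
  obtain ⟨j, hj, hl⟩ := h.exch hw e
  have hW := h.WJ_le J hw
  have h2 : ω j = 0 := le_antisymm
    (congrFun h1 j ▸ h.dot_nonpos h0 ((h.W_root hW).2 (h.sr_mem j)) hl) (h0 j)
  have := ih _ (hn ▸ (Nat.lt_succ_self _).trans_eq (h.len_mul_rf' hW hl))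
    (mul_mem hw (Subgroup.subset_closure ⟨j, hj, rfl⟩)) (by
      rw [fact_mul, h1]
      ext i
      rw [fact, h.rf_apply (h.sr_mem j), dotProduct_sub, dotProduct_smul, dot_sr, dot_sr, h2,
        smul_zero, sub_zero]) rfl
  have := mul_mem this (Subgroup.subset_closure ⟨j, mem_filter.2 ⟨hj, h2⟩, rfl⟩)
  rwa [mul_assoc, h.rf_mul_self (h.sr_mem j), mul_one] at this

theorem WF_mono {J' : Finset (Fin l)} (h : J' ⊆ J) : WF M γ J' ≤ WF M γ J :=
  inf_le_inf_right _ (Subgroup.closure_mono fun _ ⟨j, hj, e⟩ => ⟨j, h hj, e⟩)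

theorem fact_inv (hω : ∀ i, ω (γ i) = ω i) (hw : Commute w (ga γ)) (i : Fin l) :
    fact ω w (γ i) = fact ω w i := by
  have : w (sr (γ i)) = ga γ (w (sr i)) := ga_sr γ i ▸ LinearEquiv.congr_fun hw.eq (sr i)
  rw [fact, this]
  exact (Equiv.sum_comp γ fun j => ω j * ga γ (w (sr i)) j).symm.trans
    (sum_congr rfl fun j _ => by rw [hω, ga_apply, γ.symm_apply_apply])

theorem ob3_inv (hμ : ∀ i, μ (γ i) = μ i) (hj : j ∈ ob3 γ i) : μ j = μ i := by
  simp only [ob3, mem_insert, mem_singleton] at hj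
  rcases hj with rfl | rfl | rfl <;> simp only [hμ]

namespace Dia

variable (h : Dia M γ d)
include h

theorem fact_wo (μ : Lat l) (i j : Fin l) : fact μ (rI M (ob3 γ i)) j =
    μ j - ∑ t ∈ ob3 γ i, (M j t + M t j) * μ t := by
  simp only [fact, h.wo_apply, dotProduct_sub, dotProduct_sum, dotProduct_smul, dot_sr, ip_sr_sr,
    smul_eq_mul]

/-- A shortest element with a given functional. -/
theorem exists_min (hJ : ∀ i ∈ J, γ i ∈ J) (h0 : 0 ≤ ω) (hω : ∀ i, ω (γ i) = ω i)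
    (hw : w ∈ WF M γ J) : ∃ u ∈ WF M γ J, fact ω u = fact ω w ∧
      ∀ c ∈ roots M, 0 ≤ c → ω ⬝ᵥ u c = 0 → 0 ≤ u c := by
  have A := h.ade
  induction hn : len M w using Nat.strong_induction_on generalizing w with
  | _ n ih =>
  by_contra hc
  push Not at hc
  obtain ⟨c, c1, c2, c3, c4⟩ := hc w hw rfl
  have hW := A.WJ_le J hw.1
  have c5 := (A.not_pos_iff ((A.W_root hW).2 c1)).1 c4
  obtain ⟨i, i1, i2⟩ : ∃ i, w c i ≠ 0 ∧ ¬ 0 ≤ w⁻¹ (sr i) := by
    by_contra e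
    push Not at e
    have : 0 ≤ w⁻¹ (-w c) := by
      rw [← sum_sr (-w c), map_sum]
      refine sum_nonneg fun i _ => ?_
      rw [map_smul]
      by_cases e' : w c i = 0
      · simp [e']
      · exact smul_nonneg (c5 i) (e i e')
    rw [map_neg, show w⁻¹ (w c) = c from w.symm_apply_apply c, neg_nonneg] at this
    exact A.ne_zero c1 (le_antisymm this c2)
  have i3 : ω i = 0 := by
    have : ∑ j, ω j * (-w c) j = 0 := (dotProduct_neg ω _).trans (by rw [c3, neg_zero])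
    exact (mul_eq_zero.1 ((sum_eq_zero_iff_of_nonneg fun j _ => mul_nonneg (h0 j) (c5 j)).1 this i
      (mem_univ i))).resolve_right (neg_ne_zero.2 i1)
  have i4 : i ∈ J := by_contra fun e => by
    have h1 := (A.not_pos_iff ((A.W_root (inv_mem hW)).2 (A.sr_mem i))).1 i2 i
    rw [Pi.neg_apply, A.WJ_coord (inv_mem hw.1) e] at h1
    simp [sr] at h1
  have h1 := h.len_wo (inv_mem (WF_mono (subset_univ J) hw)) i2
  have h2 := h.wo_mem hJ i4
  rw [A.len_inv hW, ← A.len_inv (mul_mem (inv_mem hW) (A.WJ_le J h2.1)), _root_.mul_inv_rev,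
    inv_inv, inv_eq_of_mul_eq_one_right (h.wo_sq i)] at h1
  obtain ⟨u, u1, u2, u3⟩ := ih _ (hn ▸ h1) (mul_mem h2 hw) rfl
  obtain ⟨c, c1, c2, c3, c4⟩ := hc u u1 (by
    rw [u2, fact_mul]
    refine congrArg (fact · w) (funext fun j => ?_)
    rw [h.fact_wo, sum_eq_zero fun t ht => by rw [ob3_inv hω ht, i3, mul_zero], sub_zero])
  exact c4 (u3 c c1 c2 c3)

theorem nu_mul (h0 : 0 ≤ ω) {u : Au l} (hu : u ∈ WF M γ J)
    (h1 : ∀ c ∈ roots M, 0 ≤ c → ω ⬝ᵥ u c = 0 → 0 ≤ u c) (hw : w ∈ Wg M) (h2 : fact ω w = ω) :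
    nu γ d k (ivs M (w * u)) = nu γ d k (dn M (fact ω u)) + nu γ d k (ivs M w) := by
  classical
  have A := h.ade
  have hU := A.WJ_le J hu.1
  have h3 : ∀ v, ω ⬝ᵥ w v = ω ⬝ᵥ v := fun v => by rw [← fact_dot, h2]
  have h4 : ∀ c ∈ ivs M w, ω ⬝ᵥ c = 0 := fun c hc => by
    obtain ⟨c1, c2, c3⟩ := mem_ivs.1 hc
    exact le_antisymm (h3 c ▸ A.dot_nonpos h0 ((A.W_root hw).2 c1) c3) (dot_nonneg' h0 c2)
  rw [← nu_map (mem_WF.1 (inv_mem hu)).2 (ivs M w), nu, nu, nu, ← sum_union]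
  · refine sum_congr (Finset.ext fun c => ?_) fun _ _ => rfl
    rw [mem_union, mem_map_equiv, mem_dn, fact_dot]
    change _ ↔ _ ∨ u c ∈ ivs M w
    refine ⟨fun hc => ?_, ?_⟩
    · obtain ⟨c1, c2, c3⟩ := mem_ivs.1 hc
      have c4 := (A.W_root hU).2 c1
      rcases (h3 (u c) ▸ A.dot_nonpos h0 ((A.W_root hw).2 c4) c3).lt_or_eq with e | e
      · exact .inl ⟨⟨c1, c2⟩, e⟩
      · exact .inr (mem_ivs.2 ⟨c4, h1 c c1 c2 e, c3⟩)
    · rintro (⟨⟨c1, c2⟩, e⟩ | hc)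
      · exact mem_ivs.2 ⟨c1, c2, fun e' => (h3 (u c) ▸ dot_nonneg' h0 e').not_gt e⟩
      · obtain ⟨c1, c2, c3⟩ := mem_ivs.1 hc
        have c4 := (A.W_root hU).1 c1
        refine mem_ivs.2 ⟨c4, by_contra fun e => ?_, c3⟩
        have := h1 _ (A.neg_mem c4) ((A.not_pos_iff c4).1 e)
          (by rw [map_neg, dotProduct_neg, h4 _ hc, neg_zero])
        rw [map_neg, neg_nonneg] at this
        exact A.ne_zero c1 (le_antisymm this c2)
  · refine disjoint_left.2 fun c hc hc' => (mem_dn.1 hc).2.ne ?_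
    rw [fact_dot]
    exact h4 _ (mem_map_equiv.1 hc')

theorem nu_dn (hμ : ∀ i, μ (γ i) = μ i) (hi : 0 < μ i) :
    nu γ d k (dn M (fact μ (rI M (ob3 γ i)))) =
      nu γ d k (dn M μ) + d * if γ i = i then 1 else k := by
  classical
  have A := h.ade
  have hs : Function.Injective (sr (l := l)) := fun i j e => by
    by_contra e'
    simpa [sr, e'] using congrFun e i
  have h1 := h.wo_mem (J := univ) (fun _ _ => mem_univ _) (mem_univ i)
  have h2 : ∀ v, rI M (ob3 γ i) (rI M (ob3 γ i) v) = v := LinearEquiv.congr_fun (h.wo_sq i)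
  have h3 : nu γ d k ((ob3 γ i).map ⟨sr, hs⟩) = d * if γ i = i then 1 else k := by
    rw [nu, sum_map, sum_congr rfl (g := fun _ => if γ i = i then d else k), sum_const,
      h.card_ob3]
    · split_ifs <;> simp
    · refine fun j hj => if_congr ?_ rfl rfl
      change ga γ (sr j) = sr j ↔ _
      rw [ga_sr, hs.eq_iff]
      simp only [ob3, mem_insert, mem_singleton] at hj
      rcases hj with rfl | rfl | rfl <;> simp
  rw [← h3, ← nu_map (mem_WF.1 h1).2 (dn M μ), nu, nu, nu, ← sum_union]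
  · refine sum_congr (Finset.ext fun c => ?_) fun _ _ => rfl
    rw [mem_union, mem_map_equiv, mem_dn, fact_dot, mem_map, mem_dn, ← mem_posR, ← mem_posR,
      show (rI M (ob3 γ i)).toEquiv.symm c = rI M (ob3 γ i) c from
        (LinearEquiv.symm_apply_eq _).2 (h2 c).symm]
    refine ⟨fun ⟨c1, c2⟩ => ?_, ?_⟩
    · by_cases e : ∃ j ∈ ob3 γ i, sr j = c
      · exact .inr e
      · exact .inl ⟨(h.wo_pos c1 fun j hj e' => e ⟨j, hj, e'.symm⟩).1, c2⟩
    · rintro (⟨c1, c2⟩ | ⟨j, hj, rfl⟩)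
      · refine ⟨h2 c ▸ (h.wo_pos c1 fun j hj e => ?_).1, c2⟩
        rw [e, dot_sr, ob3_inv hμ hj] at c2
        omega
      · refine ⟨mem_posR.2 ⟨A.sr_mem j, sr_nonneg j⟩, ?_⟩
        change μ ⬝ᵥ rI M _ (sr j) < 0
        rw [h.wo_sr hj, dotProduct_neg, dot_sr, ob3_inv hμ hj]
        omega
  · refine disjoint_left.2 fun c hc hc' => ?_
    obtain ⟨j, hj, rfl⟩ := mem_map.1 hc'
    obtain ⟨c, hc, e⟩ := mem_map.1 hc
    have : c = -sr j := by rw [← h.wo_sr hj, ← h2 c]; exact congrArg _ e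
    have := this ▸ (mem_dn.1 hc).1.2 j
    simp [sr] at this

end Dia

/-- The weighted Poincaré series is `p`, and its degree is `m`. -/
structure Poin (M : Matrix (Fin l) (Fin l) ℤ) (γ : Equiv.Perm (Fin l)) (d k : ℕ)
    (J : Finset (Fin l)) (p : ℕ → ℕ) (m : ℕ) : Prop where
  dvd : ∀ w ∈ WF M γ J, ∃ e ≤ m, nu γ d k (ivs M w) = d * e
  sum : ∀ x : ℕ, ∑ᶠ w : WF M γ J, x ^ (nu γ d k (ivs M w) / d) = p x
  top : ∃ w ∈ WF M γ J, nu γ d k (ivs M w) = d * m

/-- The functional with a given code. -/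
def tdec (l n : ℕ) : Lat l := fun j => (n / 16 ^ j.1 % 16 : ℕ) - 8

/-- The code of a functional and an exponent. -/
def tenc (μ : Lat l) (e : ℕ) : ℕ := e * 16 ^ l + ∑ j, (μ j + 8).toNat * 16 ^ j.1

/-- The image of a functional under a generator. -/
def tst (M : Matrix (Fin l) (Fin l) ℤ) (γ : Equiv.Perm (Fin l)) (μ : Lat l) (i : Fin l) : Lat l :=
  fun j => μ j - ∑ t ∈ ob3 γ i, (M j t + M t j) * μ t

/-- The code of the image. -/
def tnx (M : Matrix (Fin l) (Fin l) ℤ) (γ : Equiv.Perm (Fin l)) (k n : ℕ) (i : Fin l) : ℕ :=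
  tenc (tst M γ (tdec l n) i) (if 0 < tdec l n i then n / 16 ^ l + if γ i = i then 1 else k
    else n / 16 ^ l - if γ i = i then 1 else k)

/-- The list `T` codes the orbit of `ω`. -/
def Tab (M : Matrix (Fin l) (Fin l) ℤ) (γ : Equiv.Perm (Fin l)) (k : ℕ) (J : Finset (Fin l))
    (ω : Lat l) (m : ℕ) (T : List ℕ) : Prop :=
  (∀ i, 0 ≤ ω i ∧ ω (γ i) = ω i ∧ (i ∈ J → γ i ∈ J) ∧ tdec l (tenc ω 0) i = ω i) ∧
  T.IsChain (· < ·) ∧ tenc ω 0 ∈ T ∧ (tenc ω 0 / 16 ^ l = 0 ∧ ∃ n ∈ T, n / 16 ^ l = m) ∧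
  ∀ n ∈ T, tenc (tdec l n) (n / 16 ^ l) = n ∧ n / 16 ^ l ≤ m ∧
    ((∀ i ∈ J, 0 ≤ tdec l n i) → n = tenc ω 0) ∧ ∀ i ∈ J, tdec l n i ≠ 0 →
      tnx M γ k n i ∈ T ∧ (∀ j, tdec l (tnx M γ k n i) j = tst M γ (tdec l n) i j) ∧
        (tdec l n i < 0 → n / 16 ^ l = tnx M γ k n i / 16 ^ l + if γ i = i then 1 else k)

instance (ω : Lat l) (m : ℕ) (T : List ℕ) : Decidable (Tab M γ k J ω m T) := by
  unfold Tab
  infer_instance

theorem Ade.poin_empty (h : Ade M) : Poin M γ d k ∅ (fun _ => 1) 0 := by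
  have e : WF M γ ∅ = ⊥ := by simp [WF, WJ]
  refine ⟨fun w hw => ⟨0, le_rfl, ?_⟩, fun x => ?_, 1, one_mem _, by rw [h.ivs_one]; rfl⟩
  · rw [show w = 1 from Subgroup.mem_bot.1 (e ▸ hw), h.ivs_one]
    rfl
  · rw [e, finsum_unique, Subgroup.mem_bot.1 (default : (⊥ : Subgroup (Au l))).2, h.ivs_one]
    simp [nu]

theorem Dia.poin_step (h : Dia M γ d) (hk : 0 < k) {m m' : ℕ} {T : List ℕ} {p : ℕ → ℕ}
    {J' : Finset (Fin l)} (hT : Tab M γ k J ω m T) (hJ' : J.filter (ω · = 0) = J')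
    (hp : Poin M γ d k J' p m') :
    Poin M γ d k J (fun x => (T.map fun n => x ^ (n / 16 ^ l)).sum * p x) (m + m') := by
  subst hJ'
  obtain ⟨t0, t1, t2, ⟨t3, n₀, t7, t8⟩, t4⟩ := hT
  have A := h.ade
  have h0 : 0 ≤ ω := fun i => (t0 i).1
  have hω := fun i => (t0 i).2.1
  have hJ := fun i => (t0 i).2.2.1
  have hd : 0 < d := by have := h.d3; omega
  have e0 : tdec l (tenc ω 0) = ω := funext fun i => (t0 i).2.2.2
  have st : ∀ μ i, fact μ (rI M (ob3 γ i)) = tst M γ μ i := fun μ i => funext (h.fact_wo μ i)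
  have o1 : ∀ n ∈ T, (∃ w ∈ WF M γ J, fact ω w = tdec l n) ∧
      nu γ d k (dn M (tdec l n)) = d * (n / 16 ^ l) := fun n hn => by
    induction he : n / 16 ^ l using Nat.strong_induction_on generalizing n with
    | _ e ih =>
    by_cases hc : ∀ i ∈ J, 0 ≤ tdec l n i
    · rw [← he, (t4 n hn).2.2.1 hc, e0, t3]
      refine ⟨⟨1, one_mem _, fact_one ω⟩, sum_eq_zero fun c hc => ?_⟩
      exact ((dot_nonneg' h0 (mem_dn.1 hc).1.2).not_gt (mem_dn.1 hc).2).elim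
    push Not at hc
    obtain ⟨i, hi, hc⟩ := hc
    obtain ⟨a1, a2, a3⟩ := (t4 n hn).2.2.2 i hi hc.ne
    generalize tnx M γ k n i = n' at a1 a2 a3
    have a4 : tdec l n' = fact (tdec l n) (rI M (ob3 γ i)) := (funext a2).trans (st _ i).symm
    have a5 : fact (tdec l n') (rI M (ob3 γ i)) = tdec l n := by
      rw [a4, ← fact_mul, h.wo_sq, fact_one]
    obtain ⟨⟨w, hw, b1⟩, b2⟩ := ih _ (by have := a3 hc; split_ifs at this <;> omega) n' a1 rfl
    refine ⟨⟨_, mul_mem hw (h.wo_mem hJ hi), by rw [fact_mul, b1, a5]⟩, ?_⟩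
    rw [← a5, h.nu_dn (b1 ▸ fact_inv hω (mem_WF.1 hw).2), b2, ← he, a3 hc, mul_add]
    rw [a4, fact, h.wo_sr (mem_insert_self _ _), dotProduct_neg, dot_sr]
    omega
  have o2 : ∀ w ∈ WF M γ J, ∃ n ∈ T, tdec l n = fact ω w := fun w hw => by
    have hw' := hw
    rw [h.gen hJ] at hw'
    have key : ∀ w ∈ WF M γ J, (∃ n ∈ T, tdec l n = fact ω w) → ∀ i ∈ J,
        ∃ n ∈ T, tdec l n = fact ω (w * rI M (ob3 γ i)) := fun w hw ⟨n, hn, e⟩ i hi => by
      rw [fact_mul, st, ← e]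
      by_cases hc : tdec l n i = 0
      · refine ⟨n, hn, funext fun j => ?_⟩
        rw [tst, sum_eq_zero fun t ht => by
          rw [ob3_inv (μ := tdec l n) (e ▸ fact_inv hω (mem_WF.1 hw).2) ht, hc, mul_zero], sub_zero]
      · obtain ⟨a1, a2, -⟩ := (t4 n hn).2.2.2 i hi hc
        exact ⟨_, a1, funext a2⟩
    induction hw' using Subgroup.closure_induction_right with
    | one => exact ⟨_, t2, e0.trans (fact_one ω).symm⟩
    | mul_right x hx y hy ih =>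
      obtain ⟨i, hi, rfl⟩ := hy
      exact key x (h.gen hJ ▸ hx) (ih (h.gen hJ ▸ hx)) i hi
    | mul_inv_cancel x hx y hy ih =>
      obtain ⟨i, hi, rfl⟩ := hy
      rw [inv_eq_of_mul_eq_one_right (h.wo_sq i)]
      exact key x (h.gen hJ ▸ hx) (ih (h.gen hJ ▸ hx)) i hi
  choose! u u1 u2 u3 using fun n (hn : n ∈ T) => (o1 n hn).1.elim fun w hw =>
    hw.2 ▸ h.exists_min hJ h0 hω hw.1
  have s1 : ∀ v ∈ WJ M (J.filter (ω · = 0)), fact ω v = ω := fun v hv => by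
    induction hv using Subgroup.closure_induction with
    | mem x hx =>
      obtain ⟨j, hj, rfl⟩ := hx
      ext i
      rw [fact, A.rf_apply (A.sr_mem j), dotProduct_sub, dotProduct_smul, dot_sr, dot_sr,
        (mem_filter.1 hj).2, smul_zero, sub_zero]
    | one => exact fact_one ω
    | mul x y _ _ hx hy => rw [fact_mul, hx, hy]
    | inv x _ hx => conv_lhs => rw [← hx, ← fact_mul, mul_inv_cancel, fact_one]
  have s2 : ∀ n ∈ T, ∀ v ∈ WF M γ (J.filter (ω · = 0)), nu γ d k (ivs M (v * u n)) =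
      d * (n / 16 ^ l) + nu γ d k (ivs M v) := fun n hn v hv => by
    rw [h.nu_mul h0 (u1 n hn) (u3 n hn) (A.WJ_le _ hv.1) (s1 v hv.1), u2 n hn, (o1 n hn).2]
  let E : T.toFinset × WF M γ (J.filter (ω · = 0)) → WF M γ J := fun z =>
    ⟨z.2 * u z.1, mul_mem (WF_mono (filter_subset _ _) z.2.2) (u1 _ (List.mem_toFinset.1 z.1.2))⟩
  have hE : Function.Bijective E := by
    refine ⟨fun ⟨⟨n, hn⟩, v⟩ ⟨⟨n', hn'⟩, v'⟩ e => ?_, fun w => ?_⟩
    · have e : v.1 * u n = v'.1 * u n' := congrArg Subtype.val e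
      rw [List.mem_toFinset] at hn hn'
      have e1 := congrArg (fact ω) e
      rw [fact_mul, fact_mul, s1 _ v.2.1, s1 _ v'.2.1, u2 n hn, u2 n' hn'] at e1
      obtain rfl : n = n' := by
        rw [← (t4 n hn).1, ← (t4 n' hn').1, e1, Nat.eq_of_mul_eq_mul_left hd
          ((o1 n hn).2.symm.trans (e1 ▸ (o1 n' hn').2))]
      rw [Subtype.ext (mul_right_cancel e : v.1 = v'.1)]
    · obtain ⟨n, hn, e⟩ := o2 w w.2
      have := mul_mem w.2 (inv_mem (u1 n hn))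
      exact ⟨⟨⟨n, List.mem_toFinset.2 hn⟩, _, A.stab h0 this.1 (by
        rw [fact_mul, ← e, ← u2 n hn, ← fact_mul, mul_inv_cancel, fact_one]), this.2⟩,
        Subtype.ext (inv_mul_cancel_right _ _)⟩
  refine ⟨fun w hw => ?_, fun x => ?_, hp.top.elim fun v hv =>
    ⟨_, mul_mem (WF_mono (filter_subset _ _) hv.1) (u1 _ t7), by
      rw [s2 _ t7 v hv.1, hv.2, t8, mul_add]⟩⟩
  · obtain ⟨⟨⟨n, hn⟩, v⟩, e⟩ := hE.2 ⟨w, hw⟩
    obtain ⟨t, t5, t6⟩ := hp.dvd v v.2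
    rw [List.mem_toFinset] at hn
    exact ⟨_, add_le_add (t4 n hn).2.1 t5, by
      rw [← show v.1 * u n = w from congrArg Subtype.val e, s2 n hn v v.2, t6, mul_add]⟩
  · have fin : ∀ J, Finite (WF M γ J) := fun J => have := A.W_finite
      Finite.of_injective _ (Subgroup.inclusion_injective (inf_le_left.trans (A.WJ_le J)))
    have := fun J => Fintype.ofFinite (WF M γ J)
    rw [← hp.sum, finsum_eq_sum_of_fintype, finsum_eq_sum_of_fintype, ← hE.sum_comp,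
      Fintype.sum_prod_type, ← List.sum_toFinset _ (List.isChain_iff_pairwise.1 t1).nodup,
      ← sum_coe_sort T.toFinset, sum_mul_sum]
    refine sum_congr rfl fun n _ => sum_congr rfl fun v _ => ?_
    rw [← pow_add, ← Nat.mul_add_div hd, ← s2 n (List.mem_toFinset.1 n.2) v v.2]

/-- The series of degree `m` is the quotient of `b` by `a`. -/
def Pn (M : Matrix (Fin l) (Fin l) ℤ) (γ : Equiv.Perm (Fin l)) (d k : ℕ) (J : Finset (Fin l))
    (m : ℕ) (a b : ℤ → ℤ) : Prop :=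
  ∃ p, Poin M γ d k J p m ∧ ∀ x : ℕ, (p x : ℤ) * a x = b x

theorem Ade.pn_empty (h : Ade M) : Pn M γ d k ∅ 0 (fun _ => 1) fun _ => 1 :=
  ⟨_, h.poin_empty, fun _ => by simp⟩

/-- The value of a polynomial given by its coefficients. -/
def pev (x : ℤ) : List ℕ → ℤ
  | [] => 0
  | c :: L => c + x * pev x L

/-- The exponents with their multiplicities. -/
def pex : ℕ → List ℕ → List ℕ
  | _, [] => []
  | e, c :: L => List.replicate c e ++ pex (e + 1) L

theorem pex_sum (x : ℤ) (L : List ℕ) (e : ℕ) : ((pex e L).map (x ^ ·)).sum = x ^ e * pev x L := by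
  induction L generalizing e with
  | nil => simp [pex, pev]
  | cons c L ih => simp [pex, pev, ih]; ring

theorem Pn.step {J' : Finset (Fin l)} {m' : ℕ} {a b : ℤ → ℤ} (hp : Pn M γ d k J' m' a b)
    (h : Dia M γ d) (hk : 0 < k) (J : Finset (Fin l)) (ω : Lat l) (m : ℕ) (T E : List ℕ)
    (c e : ℤ → ℤ)
    (hT : Tab M γ k J ω m T ∧ J.filter (ω · = 0) = J' ∧ T.map (· / 16 ^ l) = pex 0 E)
    (he : ∀ x : ℤ, pev x E * c x = e x) :
    Pn M γ d k J (m + m') (fun x => c x * a x) fun x => e x * b x := by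
  obtain ⟨p, h1, h2⟩ := hp
  refine ⟨_, h.poin_step hk hT.1 hT.2.1 h1, fun x => ?_⟩
  have := pex_sum x E 0
  beta_reduce
  rw [← hT.2.2, List.map_map, pow_zero, one_mul] at this
  rw [← he, ← h2, ← this, Nat.cast_mul, Nat.cast_list_sum, List.map_map]
  simp only [Function.comp_def, Nat.cast_pow]
  ring

theorem Pn.congr {m m' : ℕ} {a b a' b' : ℤ → ℤ} (hp : Pn M γ d k J m a b) (hm : m = m')
    (h : ∀ x p : ℤ, p * a x = b x → p * a' x = b' x) : Pn M γ d k J m' a' b' :=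
  hp.imp fun _ h1 => ⟨hm ▸ h1.1, fun x => h _ _ (h1.2 x)⟩

end Pool.Agent.Lib.MP_7d41f7_al
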