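import Pool.Agent.Lib.MP_7d41f7_al.E.EJac
import Pool.Agent.Lib.MP_7d41f7_al.E.ECg

/-! The adjoint Chevalley group satisfies the relations. -/

set_option autoImplicit false

namespace Pool.Agent.Lib.MP_7d41f7_al

open Matrix

variable {l : ℕ} {M : Matrix (Fin l) (Fin l) ℤ} {K : Type} [Field K] {a b : Lat l}

/-- The adjoint Chevalley group. -/
noncomputable def Chev (M : Matrix (Fin l) (Fin l) ℤ) (K : Type) [Field K] :
    Subgroup (GL (Ix M) K) :=
  Subgroup.closure {g | ∃ a ∈ roots M, ∃ t : K, g.1 = xm M a t}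

open Classical in
/-- The root elements. -/
noncomputable def xg (M : Matrix (Fin l) (Fin l) ℤ) (K : Type) [Field K] (a : Lat l) (t : K) :
    Chev M K :=
  if h : ∃ g : Chev M K, g.1.1 = xm M a t then h.choose else 1

/-- Conjugation by `g` maps the root vector of `b` to `η` times that of `c`. -/
def Cj (g : Matrix (Ix M) (Ix M) K) (b c : Lat l) (η : K) : Prop :=
  g * (adE M b).map Int.cast = η • (adE M c).map Int.cast * g ∧
    g * (adD M b).map Int.cast = η ^ 2 • (adD M c).map Int.cast * g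

/-- The matrix `g` is monomial and induces `w`. -/
structure Mono (g : Matrix (Ix M) (Ix M) K) (w : Au l) : Prop where
  col : ∀ (b : roots M) (i : Ix M), g i (.inl b) ≠ 0 → ∃ c : roots M, i = .inl c ∧ c.1 = w b.1
  car : ∀ (j : Fin l) (i : Ix M), g i (.inr j) = Sum.elim (fun _ => 0) (fun k => (w (sr j) k : K)) i
  act : ∀ b ∈ roots M, ∃ η : Kˣ, Cj g b (w b) η

/-- The height of a basis vector. -/
def hx : Ix M → ℤ := Sum.elim (fun c => hgt c.1) 0

/-- The matrix is unitriangular for the height (`s = 1`) or for its negative (`s = -1`). -/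
def Tri (s : ℤ) (g : Matrix (Ix M) (Ix M) K) : Prop :=
  ∀ i j, s * hx i ≤ s * hx j → g i j = (1 : Matrix (Ix M) (Ix M) K) i j

/-- The diagonal matrix of a character. -/
noncomputable def dgm (M : Matrix (Fin l) (Fin l) ℤ) (χ : Multiplicative (Lat l) →* Kˣ) :
    Matrix (Ix M) (Ix M) K :=
  diagonal (Sum.elim (fun c => (χ (.ofAdd c.1) : K)) 1)

theorem Cj.xm (hA : Ade M) {g : Matrix (Ix M) (Ix M) K} {c : Lat l} {η : K} (h : Cj g b c η)
    (hb : b ∈ roots M) (hc : c ∈ roots M) (u : K) : g * xm M b u = xm M c (η * u) * g := by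
  simp only [hA.xm_eq hb, hA.xm_eq hc, mul_add, add_mul, mul_smul_comm, h.1, h.2, smul_mul_assoc,
    smul_smul, mul_one, one_mul, mul_pow, mul_comm η]

theorem Cj.mul {g g' : Matrix (Ix M) (Ix M) K} {c : Lat l} {η η' : K} (h : Cj g b c η)
    (h' : Cj g' a b η') : Cj (g * g') a c (η * η') := by
  constructor
  · rw [mul_assoc, h'.1, smul_mul_assoc, mul_smul_comm, ← mul_assoc, h.1]
    simp only [smul_mul_assoc, smul_smul, mul_assoc, mul_comm η]
  · rw [mul_assoc, h'.2, smul_mul_assoc, mul_smul_comm, ← mul_assoc, h.2]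
    simp only [smul_mul_assoc, smul_smul, mul_assoc, mul_pow, mul_comm (η ^ 2)]

theorem Mono.one : Mono (1 : Matrix (Ix M) (Ix M) K) 1 := by
  refine ⟨fun b i h => ⟨b, by_contra fun e => h (one_apply_ne e), rfl⟩, fun j i => ?_,
    fun b _ => ⟨1, by simp [Cj]⟩⟩
  rcases i with i | i <;> simp [one_apply, sr, Pi.single_apply]

theorem Mono.mul (hA : Ade M) {g g' : Matrix (Ix M) (Ix M) K} {w w' : Au l} (h : Mono g w)
    (h' : Mono g' w') (hw : w' ∈ Wg M) : Mono (g * g') (w * w') := by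
  refine ⟨fun b i e => ?_, fun j i => ?_, fun b hb => ?_⟩
  · obtain ⟨k, -, hk⟩ := Finset.exists_ne_zero_of_sum_ne_zero e
    obtain ⟨c, rfl, hc⟩ := h'.col b k (right_ne_zero_of_mul hk)
    obtain ⟨d, rfl, hd⟩ := h.col c i (left_ne_zero_of_mul hk)
    exact ⟨d, rfl, hd.trans (congrArg w hc)⟩
  · have e : (w * w') (sr j) = ∑ k, w' (sr j) k • w (sr k) := by
      simp only [← map_smul, ← map_sum, sum_sr]
      rfl
    rcases i with i | i <;> simp [mul_apply, h.car, h'.car, e, mul_comm]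
  · obtain ⟨η', e'⟩ := h'.act b hb
    obtain ⟨η, e⟩ := h.act _ ((hA.W_root hw).2 hb)
    exact ⟨η * η', e.mul e'⟩

/-- The columns of an invertible matrix are nonzero, so `w` and `w'` agree on the simple roots. -/
theorem Mono.uniq (hA : Ade M) {g : GL (Ix M) K} {w w' : Au l} (h : Mono g.1 w)
    (h' : Mono g.1 w') : w = w' := by
  have k : ∀ j, w (sr j) = w' (sr j) := fun j => by
    have e := congrFun (congrFun g.inv_mul (.inl ⟨_, hA.sr_mem j⟩)) (.inl ⟨_, hA.sr_mem j⟩)
    rw [one_apply_eq] at e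
    obtain ⟨i, -, hi⟩ := Finset.exists_ne_zero_of_sum_ne_zero (e.trans_ne one_ne_zero)
    obtain ⟨c, rfl, hc⟩ := h.col _ i (right_ne_zero_of_mul hi)
    obtain ⟨d, e, hd⟩ := h'.col _ _ (right_ne_zero_of_mul hi)
    exact hc.symm.trans (Sum.inl.inj e ▸ hd)
  refine LinearEquiv.ext fun a => ?_
  rw [← sum_sr a]
  simp only [map_sum, map_smul, k]

theorem Tri.mul {s : ℤ} {g g' : Matrix (Ix M) (Ix M) K} (h : Tri s g) (h' : Tri s g') :
    Tri s (g * g') := by
  intro i j hij
  rw [← h' i j hij, mul_apply]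
  have e : g' i j = ∑ k, (1 : Matrix (Ix M) (Ix M) K) i k * g' k j := by
    rw [← mul_apply, one_mul]
  rw [e]
  refine Finset.sum_congr rfl fun k _ => ?_
  by_cases hk : s * hx i ≤ s * hx k
  · rw [h i k hk]
  · have hkj : k ≠ j := fun e => hk (e ▸ hij)
    rw [h' k j ((not_le.1 hk).le.trans hij), one_apply_ne hkj, mul_zero, mul_zero]

theorem tri_xm_aux1 {s : ℤ} (h : 0 < s * hgt a) {i j : Ix M} (hij : s * hx i ≤ s * hx j) :
    adE M a i j = 0 := by
  rcases i with c | i <;> rcases j with d | j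
  · refine if_neg fun e => ?_
    change s * hgt c.1 ≤ s * hgt d.1 at hij
    rw [e, hgt_add, mul_add] at hij
    omega
  · refine if_neg fun e => ?_
    change s * hgt c.1 ≤ s * 0 at hij
    rw [e, mul_zero] at hij
    omega
  · refine if_neg fun e => ?_
    change s * 0 ≤ s * hgt d.1 at hij
    rw [e, hgt_neg, mul_zero, mul_neg] at hij
    omega
  · rfl

theorem tri_xm_aux2 {s : ℤ} (h : 0 < s * hgt a) {i j : Ix M} (hij : s * hx i ≤ s * hx j) :
    adD M a i j = 0 := by
  rw [adD, vecMulVec_apply]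
  rcases i with c | i
  · rcases j with d | j
    · change (if c.1 = a then (1 : ℤ) else 0) * (if d.1 = -a then 1 else 0) = 0
      change s * hgt c.1 ≤ s * hgt d.1 at hij
      split_ifs with e1 e2
      · rw [e1, e2, hgt_neg, mul_neg] at hij
        omega
      all_goals simp
    · exact mul_zero _
  · exact zero_mul _

/-- The nonzero entries of `adE a`, `adD a` raise the height by `hgt a`, `2 * hgt a`. -/
theorem tri_xm (hA : Ade M) (ha : a ∈ roots M) {s : ℤ} (h : 0 < s * hgt a) (t : K) :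
    Tri s (xm M a t) := by
  intro i j hij
  rw [hA.xm_eq ha]
  simp [tri_xm_aux1 h hij, tri_xm_aux2 h hij]

theorem tri_eq_aux1 {g : Matrix (Ix M) (Ix M) K} (h : Mono g 1) :
    ∃ d : Ix M → K, g = diagonal d ∧ ∀ j, d (.inr j) = 1 := by
  have hc : ∀ (j : Fin l) (i : Ix M), g i (.inr j) = (1 : Matrix (Ix M) (Ix M) K) i (.inr j) := by
    intro j i
    rw [h.car]
    rcases i with c | k
    · simp
    · by_cases e : k = j
      · subst e
        simp [sr]
      · simp [sr, e]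
  refine ⟨fun i => g i i, ?_, fun j => (hc j _).trans (one_apply_eq _)⟩
  ext i j
  by_cases e : i = j
  · subst e
    rw [diagonal_apply_eq]
  · rw [diagonal_apply_ne _ e]
    rcases j with d | j
    · by_contra h0
      obtain ⟨c, rfl, h1⟩ := h.col d i h0
      exact e (congrArg Sum.inl (Subtype.ext h1))
    · rw [hc, one_apply_ne e]

/-- `g` is diagonal with nonzero entries (its rows: it is invertible). Compare the entries
`i, j` with `hx j < hx i`, then the others. -/
theorem tri_eq {g : GL (Ix M) K} {u v : Matrix (Ix M) (Ix M) K} (h : Mono g.1 1) (hu : Tri 1 u)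
    (hv : Tri (-1) v) (e : g.1 * u = v) : g = 1 ∧ v = 1 := by
  obtain ⟨d, hd, -⟩ := tri_eq_aux1 h
  have h1 : g.1 = 1 := by
    rw [hd, ← diagonal_one]
    refine congrArg _ (funext fun i => ?_)
    have := congrFun (congrFun e i) i
    rwa [hd, diagonal_mul, hu i i le_rfl, hv i i le_rfl, one_apply_eq, mul_one] at this
  refine ⟨Units.ext h1, ?_⟩
  rw [h1, one_mul] at e
  subst e
  ext i j
  rcases le_total (hx i) (hx j) with k | k
  · exact hu i j (by omega)
  · exact hv i j (by omega)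

/-- `g` is diagonal and the identity on the Cartan part. Compare the entries `(inl b, inr j)` of
`g * xm b 1 = xm b 1 * g`; some `ip b (sr j)` is nonzero in `K` (`exists_nb`, `ip_sum`). -/
theorem ctr_eq (hA : Ade M) {g : Matrix (Ix M) (Ix M) K} (h : Mono g 1)
    (hc : ∀ b ∈ roots M, g * xm M b 1 = xm M b 1 * g) : g = 1 := by
  obtain ⟨d, rfl, hd⟩ := tri_eq_aux1 h
  rw [← diagonal_one]
  refine congrArg _ (funext fun i => ?_)
  rcases i with b | j
  · by_contra h0
    obtain ⟨c, -, h1⟩ := hA.exists_nb b.2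
    have h2 : ∀ j, ((ip M b.1 (sr j) : ℤ) : K) = 0 := by
      intro j
      have h3 := congrFun (congrFun (hc b.1 b.2) (.inl b)) (.inr j)
      have h4 : xm M b.1 (1 : K) (.inl b) (.inr j) = -((ip M b.1 (sr j) : ℤ) : K) := by
        rw [hA.xm_eq b.2]
        simp [adE, adD, vecMulVec_apply, vE, sr]
      rw [diagonal_mul, mul_diagonal, hd, h4] at h3
      have h5 : (d (.inl b) - 1) * ((ip M b.1 (sr j) : ℤ) : K) = 0 := by linear_combination -h3
      exact (mul_eq_zero.1 h5).resolve_left (sub_ne_zero.2 h0)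
    have h6 := congrArg (Int.cast : ℤ → K) ((ip_sum b.1 c).symm.trans h1)
    simp [h2] at h6
  · exact hd j

theorem dgm_mul (χ ψ : Multiplicative (Lat l) →* Kˣ) : dgm M χ * dgm M ψ = dgm M (χ * ψ) := by
  rw [dgm, dgm, diagonal_mul_diagonal]
  refine congrArg diagonal (funext fun i => ?_)
  rcases i with i | i <;> simp

theorem dgm_one : dgm M (1 : Multiplicative (Lat l) →* Kˣ) = 1 := by
  rw [← diagonal_one]
  refine congrArg diagonal (funext fun i => ?_)
  rcases i with i | i <;> simp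

theorem dgm_cj (χ : Multiplicative (Lat l) →* Kˣ) (a : Lat l) :
    Cj (dgm M χ) a a (χ (.ofAdd a)) := by
  constructor <;> ext (i | i) (j | j) <;>
    simp only [dgm, diagonal_mul, mul_diagonal, Matrix.smul_apply, map_apply, adE, adD,
      vecMulVec_apply, vE, Sum.elim_inl, Sum.elim_inr, smul_eq_mul, Pi.one_apply, Pi.zero_apply] <;>
    (try split_ifs) <;> simp [*, ofAdd_add, mul_right_comm, sq, mul_right_comm _ (a _ : K)]

theorem mono_nm_dgm (χ : Multiplicative (Lat l) →* Kˣ) : Mono (dgm M χ) 1 where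
  col b i h := ⟨b, by_contra fun e => h (diagonal_apply_ne _ e), rfl⟩
  car j i := by
    rcases i with i | i
    · exact diagonal_apply_ne _ Sum.inl_ne_inr
    · by_cases e : i = j <;> simp [dgm, sr, e]
  act b _ := ⟨_, dgm_cj χ b⟩

theorem mono_nm_map (a : Lat l) : xm M a (1 : K) * xm M (-a) 1 * xm M a 1 =
    (xm M a (1 : ℤ) * xm M (-a) 1 * xm M a 1).map (Int.castRingHom K) := by
  rw [Matrix.map_mul, Matrix.map_mul, xm_map, xm_map, map_one]

theorem mono_nm_cj (hA : Ade M) (ha : a ∈ roots M) (hb : b ∈ roots M) : ∃ z : ℤ, z * z = 1 ∧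
    Cj (xm M a (1 : K) * xm M (-a) 1 * xm M a 1) b (rf M a b) (z : K) := by
  obtain ⟨z, h1, h2, h3⟩ := hA.nm_conj ha hb
  have h4 : (z : K) ^ 2 = 1 := by rw [sq, ← Int.cast_mul, h1, Int.cast_one]
  have h5 : (z • adE M (rf M a b)).map (Int.castRingHom K) =
      (z : K) • (adE M (rf M a b)).map Int.cast := by
    ext i j
    simp only [map_apply, Matrix.smul_apply, smul_eq_mul, eq_intCast, Int.cast_mul]
  have h6 := congrArg (·.map (Int.castRingHom K)) h2
  have h7 := congrArg (·.map (Int.castRingHom K)) h3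
  simp only [Matrix.map_mul (M := adE M b), Matrix.map_mul (M := adD M b),
    Matrix.map_mul (L := z • adE M (rf M a b)), Matrix.map_mul (L := adD M (rf M a b)),
    ← mono_nm_map, h5] at h6 h7
  exact ⟨z, h1, h6, by rw [h4, one_smul]; exact h7⟩

theorem mono_nm_one (hA : Ade M) (ha : a ∈ roots M) :
    Mono (xm M a (1 : K) * xm M (-a) 1 * xm M a 1) (rf M a) where
  col b i h := by
    obtain ⟨z, -, h2⟩ := (hA.nm_vec ha).1 b.1 b.2
    have e : vE M b.1 = Pi.single (.inl b) 1 := by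
      ext (c | c) <;> simp [vE, Pi.single_apply]
    rw [e, mulVec_single_one] at h2
    have h3 := congrFun h2 i
    rw [col_apply, Pi.smul_apply, smul_eq_mul] at h3
    rw [mono_nm_map, map_apply, h3] at h
    rcases i with c | c
    · exact ⟨c, rfl, by_contra fun e => h (by simp [vE, e])⟩
    · exact absurd (by simp [vE]) h
  car j i := by
    have h2 := (hA.nm_vec ha).2 (sr j)
    have e : vH M (sr j) = Pi.single (.inr j) 1 := by
      ext (c | c) <;> simp [vH, sr, Pi.single_apply]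
    rw [e, mulVec_single_one] at h2
    have h3 := congrFun h2 i
    rw [col_apply] at h3
    rw [mono_nm_map, map_apply, h3]
    rcases i with c | c <;> simp [vH]
  act b hb := by
    obtain ⟨z, h1, h2⟩ := mono_nm_cj (K := K) hA ha hb
    have h3 : (z : K) * z = 1 := by rw [← Int.cast_mul, h1, Int.cast_one]
    exact ⟨⟨z, z, h3, h3⟩, h2⟩

theorem mono_nm_conj (hA : Ade M) (ha : a ∈ roots M) (c : Kˣ) :
    ∃ χ : Multiplicative (Lat l) →* Kˣ, χ (.ofAdd a) = c ∧
      xm M a (c : K) * xm M (-a) ((c⁻¹ : Kˣ) : K) * xm M a (c : K) =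
        dgm M χ * (xm M a (1 : K) * xm M (-a) 1 * xm M a 1) * dgm M χ⁻¹ := by
  obtain ⟨b, -, hb⟩ := hA.exists_nb ha
  let χ : Multiplicative (Lat l) →* Kˣ := MonoidHom.mk' (fun v => c ^ (-ip M v.toAdd b))
    fun v w => by rw [toAdd_mul, ip_add_left, neg_add, _root_.zpow_add]
  have h1 : χ (.ofAdd a) = c := by simp [χ, hb]
  have h2 : χ (.ofAdd (-a)) = c⁻¹ := by rw [ofAdd_neg, map_inv, h1]
  have h3 := (dgm_cj (M := M) χ a).xm hA ha ha 1
  have h4 := (dgm_cj (M := M) χ (-a)).xm hA (hA.neg_mem ha) (hA.neg_mem ha) 1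
  rw [h1, mul_one] at h3
  rw [h2, mul_one] at h4
  have h5 : χ * χ⁻¹ = 1 := MonoidHom.ext fun v => mul_inv_cancel (χ v)
  refine ⟨χ, h1, ?_⟩
  rw [← mul_assoc, ← mul_assoc, h3, mul_assoc _ (dgm M χ), h4, ← mul_assoc,
    mul_assoc _ (dgm M χ), h3, ← mul_assoc, mul_assoc _ (dgm M χ), dgm_mul, h5, dgm_one,
    mul_one]

/-- Conjugate the case `c = 1` by a diagonal matrix. -/
theorem mono_nm (hA : Ade M) (ha : a ∈ roots M) (c : Kˣ) :
    Mono (xm M a (c : K) * xm M (-a) ((c⁻¹ : Kˣ) : K) * xm M a (c : K)) (rf M a) ∧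
    ∀ b ∈ roots M, ∃ z : ℤ, z * z = 1 ∧ ∀ c : Kˣ,
      Cj (xm M a (c : K) * xm M (-a) ((c⁻¹ : Kˣ) : K) * xm M a (c : K)) b (rf M a b)
        ((c ^ (-ip M a b) : Kˣ) * (z : K)) := by
  refine ⟨?_, fun b hb => ?_⟩
  · obtain ⟨χ, -, e⟩ := mono_nm_conj hA ha c
    have h := ((mono_nm_dgm χ).mul hA (mono_nm_one hA ha) (hA.rf_mem ha)).mul hA
      (mono_nm_dgm χ⁻¹) (one_mem _)
    rwa [one_mul, mul_one, ← e] at h
  · obtain ⟨z, h1, h2⟩ := mono_nm_cj (K := K) hA ha hb
    refine ⟨z, h1, fun c => ?_⟩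
    obtain ⟨χ, h3, e⟩ := mono_nm_conj hA ha c
    have h := ((dgm_cj (M := M) χ (rf M a b)).mul h2).mul (dgm_cj χ⁻¹ b)
    have h4 : χ (.ofAdd (rf M a b)) = c ^ (-ip M a b) * χ (.ofAdd b) := by
      rw [hA.rf_apply ha, ofAdd_sub, ofAdd_zsmul, map_div, map_zpow, h3, ip_comm, _root_.zpow_neg,
        div_eq_inv_mul]
    rwa [← e, h4, MonoidHom.inv_apply, Units.val_mul, mul_right_comm, Units.mul_inv_cancel_right] at h

/-- `xm a t` is a unit with inverse `xm a (-t)`. -/
theorem xg_val (hA : Ade M) (ha : a ∈ roots M) (t : K) : (xg M K a t).1.1 = xm M a t := by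
  have h0 : xm M a (0 : K) = 1 := by simp [xm]
  have h : ∃ g : Chev M K, g.1.1 = xm M a t :=
    ⟨⟨⟨xm M a t, xm M a (-t), by rw [← hA.xm_add ha, add_neg_cancel, h0],
      by rw [← hA.xm_add ha, neg_add_cancel, h0]⟩, Subgroup.subset_closure ⟨a, ha, t, rfl⟩⟩, rfl⟩
  rw [xg, dif_pos h]
  exact h.choose_spec

/-- The entry `(inl a, inl (-a))` is `t ^ 2`. -/
theorem xm_inj (hA : Ade M) (ha : a ∈ roots M) {t : K} (h : xm M a t = 1) : t = 0 := by
  have e := congrFun (congrFun h (.inl ⟨a, ha⟩)) (.inl ⟨-a, hA.neg_mem ha⟩)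
  rw [hA.xm_eq ha] at e
  simpa [adE, adD, vE, vecMulVec_apply, hA.ne_zero ha] using e

theorem xg_gen (hA : Ade M) : rsub M (xg M K) Set.univ = ⊤ := by
  rw [eq_top_iff]
  rintro ⟨g, hg⟩ -
  induction hg using Subgroup.closure_induction with
  | mem g hg =>
    obtain ⟨a, ha, t, e⟩ := hg
    exact Subgroup.subset_closure ⟨a, ha, trivial, t,
      Subtype.ext (Units.ext (e.trans (xg_val hA ha t).symm))⟩
  | one => exact one_mem _
  | mul a b _ _ ha hb => exact mul_mem ha hb
  | inv a _ ha => exact inv_mem ha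

theorem tri_rsub_aux1 (hA : Ade M) (ha : a ∈ roots M) (t : K) :
    (xg M K a t)⁻¹ = xg M K a (-t) := by
  refine inv_eq_of_mul_eq_one_right (Subtype.ext (Units.ext ?_))
  change (xg M K a t).1.1 * (xg M K a (-t)).1.1 = 1
  rw [xg_val hA ha, xg_val hA ha, ← hA.xm_add ha, add_neg_cancel]
  simp [xm]

theorem tri_rsub (hA : Ade M) {s : ℤ} {Ψ : Set (Lat l)} (h : ∀ a ∈ roots M, a ∈ Ψ → 0 < s * hgt a)
    {g : Chev M K} (hg : g ∈ rsub M (xg M K) Ψ) : Tri s g.1.1 := by
  induction hg using Subgroup.closure_induction'' with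
  | one => exact fun _ _ _ => rfl
  | mem x hx =>
    obtain ⟨a, ha, h1, t, rfl⟩ := hx
    rw [xg_val hA ha]
    exact tri_xm hA ha (h a ha h1) t
  | inv_mem x hx =>
    obtain ⟨a, ha, h1, t, rfl⟩ := hx
    rw [tri_rsub_aux1 hA ha, xg_val hA ha]
    exact tri_xm hA ha (h a ha h1) _
  | mul x y _ _ hx hy => exact hx.mul hy

/-- The monomial elements (a submonoid of a finite group is a subgroup). -/
def Nn (hA : Ade M) (K : Type) [Field K] [Finite K] : Subgroup (Chev M K) where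
  carrier := {g | ∃ w ∈ Wg M, Mono g.1.1 w}
  one_mem' := ⟨1, one_mem _, Mono.one⟩
  mul_mem' := fun ⟨w, hw, h⟩ ⟨w', hw', h'⟩ => ⟨w * w', mul_mem hw hw', h.mul hA h' hw'⟩
  inv_mem' := by
    rintro g ⟨w, hw, h⟩
    obtain ⟨n, hn⟩ := (isOfFinOrder_of_finite g).mem_powers_iff_mem_zpowers.2
      (inv_mem (Subgroup.mem_zpowers g))
    rw [← hn]
    clear hn
    refine ⟨w ^ n, pow_mem hw n, ?_⟩
    induction n with
    | zero => exact Mono.one
    | succ n ih =>
      beta_reduce at ih ⊢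
      rw [pow_succ, pow_succ]
      exact ih.mul hA h hw

/-- The map to the Weyl group. -/
noncomputable def piN (hA : Ade M) (K : Type) [Field K] [Finite K] : Nn hA K →* Au l :=
  MonoidHom.mk' (fun n => n.2.choose) fun n m => Mono.uniq hA (n * m).2.choose_spec.2
    (n.2.choose_spec.2.mul hA m.2.choose_spec.2 m.2.choose_spec.1)

theorem piN_spec (hA : Ade M) [Finite K] (n : Nn hA K) :
    piN hA K n ∈ Wg M ∧ Mono n.1.1.1 (piN hA K n) := n.2.choose_spec

theorem cg_ext {g h : Chev M K} (e : g.1.1 = h.1.1) : g = h := Subtype.ext (Units.ext e)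

theorem cg_mul (g h : Chev M K) : (g * h).1.1 = g.1.1 * h.1.1 := rfl

/-- The structure on the adjoint group. -/
noncomputable def cg (hA : Ade M) (K : Type) [Field K] [Finite K] : CG M K (Chev M K) where
  x := xg M K
  N := Nn hA K
  π := piN hA K
  π_mem n := (piN_spec hA n).1
  add a ha s t := cg_ext (by simp only [cg_mul, xg_val hA ha, hA.xm_add ha])
  inj a ha t h := xm_inj hA ha (by rw [← xg_val hA ha, h]; rfl)
  com0 a ha b hb h s t :=
    cg_ext (by simp only [cg_mul, xg_val hA ha, xg_val hA hb, hA.xm_com0 ha hb h])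
  com1 a ha b hb h s t := cg_ext (by
    simp only [cg_mul, xg_val hA ha, xg_val hA hb, xg_val hA ((hA.add_mem_iff ha hb).2 h)]
    exact hA.xm_com1 ha hb h s t)
  gen := xg_gen hA
  act n b hb := by
    obtain ⟨hw, h⟩ := piN_spec hA n
    obtain ⟨η, hη⟩ := h.act b hb
    have hc := (hA.W_root hw).2 hb
    refine ⟨η, fun u => mul_inv_eq_iff_eq_mul.2 (cg_ext ?_)⟩
    rw [cg_mul, cg_mul, xg_val hA hb, xg_val hA hc]
    exact hη.xm hA hb hc u
  refl a ha c := by
    have h : Mono (xg M K a c * xg M K (-a) ((c⁻¹ : Kˣ) : K) * xg M K a c).1.1 (rf M a) := by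
      rw [cg_mul, cg_mul, xg_val hA ha, xg_val hA (hA.neg_mem ha)]
      exact (mono_nm hA ha c).1
    exact ⟨⟨_, _, hA.rf_mem ha, h⟩, Mono.uniq hA (piN_spec hA _).2 h, rfl⟩
  cor a ha b hb := by
    obtain ⟨z, hz, h⟩ := (mono_nm hA ha (1 : Kˣ)).2 b hb
    have hc := (hA.W_root (hA.rf_mem ha)).2 hb
    refine ⟨Units.mkOfMulEqOne (z : K) z (by rw [← Int.cast_mul, hz, Int.cast_one]),
      fun c u => cg_ext ?_⟩
    simp only [cg_mul, xg_val hA ha, xg_val hA hb, xg_val hA hc, xg_val hA (hA.neg_mem ha)]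
    exact (h c).xm hA hb hc u
  tri n hn u hu v hv e := by
    have h1 := tri_rsub hA (s := 1) (fun a ha h => by
      rw [one_mul]; exact hgt_pos h (hA.ne_zero ha)) hu
    have h2 := tri_rsub hA (s := -1) (fun a ha h => by
      rw [neg_one_mul, ← hgt_neg]
      exact hgt_pos (neg_nonneg.2 h) (neg_ne_zero.2 (hA.ne_zero ha))) hv
    obtain ⟨h3, h4⟩ := tri_eq (hn ▸ (piN_spec hA n).2) h1 h2 (by rw [← e, cg_mul])
    exact ⟨Subtype.ext (Subtype.ext h3), cg_ext h4⟩
  ctr n hn h := by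
    refine Subtype.ext (cg_ext (ctr_eq hA (hn ▸ (piN_spec hA n).2) fun b hb => ?_))
    rw [← xg_val hA hb, ← cg_mul, ← cg_mul, (h b hb 1).eq]

end Pool.Agent.Lib.MP_7d41f7_al
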