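import Pool.Agent.Lib.MP_7d41f7_al.E.EDef

/-! Simply laced root systems: roots, signs, reflections. -/

set_option autoImplicit false

namespace Pool.Agent.Lib.MP_7d41f7_al

open Matrix

variable {l : ℕ}

/-- The root lattice. -/
abbrev Lat (l : ℕ) : Type := Fin l → ℤ

/-- The automorphisms of the lattice. -/
abbrev Au (l : ℕ) : Type := Lat l ≃ₗ[ℤ] Lat l

/-- The simple roots. -/
def sr (i : Fin l) : Lat l := Pi.single i 1

/-- The symmetry of the lattice given by a permutation of the nodes. -/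
def ga (g : Equiv.Perm (Fin l)) : Au l := LinearEquiv.funCongrLeft ℤ ℤ g.symm

/-- The height. -/
def hgt (a : Lat l) : ℤ := ∑ i, a i

/-- The matrix describes a simply laced root system without components of rank one. -/
structure Ade (M : Matrix (Fin l) (Fin l) ℤ) : Prop where
  diag : ∀ i, M i i = 1
  off : ∀ i j, i ≠ j → M i j + M j i ≤ 0
  pos : ∀ a, a ≠ 0 → 0 < ip M a a
  fin : {a | ip M a a = 2}.Finite
  con : ∀ i, ∃ j, M i j + M j i = -1
  rho : ∃ μ : Lat l, ip M μ μ ≤ 2500 ∧ ∀ i, ip M μ (sr i) = 2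

variable {M : Matrix (Fin l) (Fin l) ℤ} {a b c : Lat l} {i j : Fin l}

theorem ip_comm_aux (a b : Lat l) : ip M a b = a ⬝ᵥ M *ᵥ b + b ⬝ᵥ M *ᵥ a := by
  rw [ip, add_mulVec, dotProduct_add, mulVec_transpose, dotProduct_comm a (b ᵥ* M),
    ← dotProduct_mulVec]

theorem ip_comm (a b : Lat l) : ip M a b = ip M b a := by
  rw [ip_comm_aux, ip_comm_aux, add_comm]

@[simp] theorem ip_add_left (a b c : Lat l) : ip M (a + b) c = ip M a c + ip M b c := by
  simp only [ip, add_dotProduct]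

@[simp] theorem ip_add_right (a b c : Lat l) : ip M a (b + c) = ip M a b + ip M a c := by
  simp only [ip, mulVec_add, dotProduct_add]

@[simp] theorem ip_smul_left (z : ℤ) (a b : Lat l) : ip M (z • a) b = z * ip M a b := by
  simp only [ip, smul_dotProduct, smul_eq_mul]

@[simp] theorem ip_smul_right (z : ℤ) (a b : Lat l) : ip M a (z • b) = z * ip M a b := by
  simp only [ip, mulVec_smul, dotProduct_smul, smul_eq_mul]

@[simp] theorem ip_neg_left (a b : Lat l) : ip M (-a) b = -ip M a b := by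
  simp only [ip, neg_dotProduct]

@[simp] theorem ip_neg_right (a b : Lat l) : ip M a (-b) = -ip M a b := by
  simp only [ip, mulVec_neg, dotProduct_neg]

@[simp] theorem ip_sub_left (a b c : Lat l) : ip M (a - b) c = ip M a c - ip M b c := by
  simp only [ip, sub_dotProduct]

@[simp] theorem ip_sub_right (a b c : Lat l) : ip M a (b - c) = ip M a b - ip M a c := by
  simp only [ip, mulVec_sub, dotProduct_sub]

@[simp] theorem ip_zero_left (a : Lat l) : ip M 0 a = 0 := by
  simp only [ip, zero_dotProduct]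

@[simp] theorem ip_zero_right (a : Lat l) : ip M a 0 = 0 := by
  simp only [ip, mulVec_zero, dotProduct_zero]

theorem ip_sr_sr (i j : Fin l) : ip M (sr i) (sr j) = M i j + M j i := by
  simp [ip_comm_aux, sr]

theorem ip_sum (a b : Lat l) : ip M a b = ∑ j, b j * ip M a (sr j) := by
  simp only [ip, sr, mulVec_single_one]
  simp only [dotProduct, mulVec, Finset.mul_sum, col_apply]
  rw [Finset.sum_comm]
  exact Finset.sum_congr rfl fun j _ => Finset.sum_congr rfl fun i _ => by ring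

theorem ip_self (a : Lat l) : ip M a a = 2 * (a ⬝ᵥ M *ᵥ a) := by
  rw [ip_comm_aux, two_mul]

theorem sum_sr (a : Lat l) : ∑ j, a j • sr j = a := by
  funext i
  simp [sr, Finset.sum_apply, Pi.single_apply]

theorem ga_apply (g : Equiv.Perm (Fin l)) (a : Lat l) (i : Fin l) : ga g a i = a (g.symm i) := rfl

theorem ga_sr (g : Equiv.Perm (Fin l)) (i : Fin l) : ga g (sr i) = sr (g i) := by
  funext j
  simp only [ga_apply, sr, Pi.single_apply, Equiv.symm_apply_eq]

@[simp] theorem hgt_add (a b : Lat l) : hgt (a + b) = hgt a + hgt b := by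
  simp only [hgt, Pi.add_apply, Finset.sum_add_distrib]

@[simp] theorem hgt_neg (a : Lat l) : hgt (-a) = -hgt a := by
  simp only [hgt, Pi.neg_apply, Finset.sum_neg_distrib]

@[simp] theorem hgt_sr (i : Fin l) : hgt (sr i) = 1 := by
  simp [hgt, sr]

theorem hgt_pos (h : 0 ≤ a) (h0 : a ≠ 0) : 0 < hgt a := by
  obtain ⟨i, hi⟩ := Function.ne_iff.1 h0
  exact Finset.sum_pos' (fun j _ => h j) ⟨i, Finset.mem_univ i, lt_of_le_of_ne (h i) (Ne.symm hi)⟩

theorem sr_nonneg (i : Fin l) : 0 ≤ sr i := by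
  intro j
  simp only [sr, Pi.single_apply, Pi.zero_apply]
  split_ifs <;> omega

theorem sgn_add_left_aux (a b : Lat l) : sgn M a b = ((a ⬝ᵥ M *ᵥ b).negOnePow : ℤˣ) :=
  (Int.coe_negOnePow ℤ _).symm

theorem sgn_add_left (a b c : Lat l) : sgn M (a + b) c = sgn M a c * sgn M b c := by
  simp only [sgn_add_left_aux, add_dotProduct, Int.negOnePow_add, Units.val_mul]

theorem sgn_add_right (a b c : Lat l) : sgn M a (b + c) = sgn M a b * sgn M a c := by
  simp only [sgn_add_left_aux, mulVec_add, dotProduct_add, Int.negOnePow_add, Units.val_mul]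

theorem sgn_neg_left (a b : Lat l) : sgn M (-a) b = sgn M a b := by
  simp only [sgn, neg_dotProduct, Int.natAbs_neg]

theorem sgn_neg_right (a b : Lat l) : sgn M a (-b) = sgn M a b := by
  simp only [sgn, mulVec_neg, dotProduct_neg, Int.natAbs_neg]

theorem sgn_mul_self (a b : Lat l) : sgn M a b * sgn M a b = 1 := by
  rw [sgn, ← mul_pow]
  simp

theorem sgn_or (a b : Lat l) : sgn M a b = 1 ∨ sgn M a b = -1 := by
  exact neg_one_pow_eq_or ℤ _

theorem sgn_even (h : Even (ip M a b)) : sgn M b a = sgn M a b := by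
  rw [sgn_add_left_aux, sgn_add_left_aux, (Int.negOnePow_eq_iff _ _).2]
  rw [ip_comm_aux, Int.even_add] at h
  exact Int.even_sub.2 h.symm

theorem sgn_odd (h : Odd (ip M a b)) : sgn M b a = -sgn M a b := by
  rw [sgn_add_left_aux, sgn_add_left_aux, ← Units.val_neg, ← Int.negOnePow_succ,
    (Int.negOnePow_eq_iff _ _).2]
  rw [ip_comm_aux] at h
  obtain ⟨k, hk⟩ := h
  exact ⟨k - a ⬝ᵥ M *ᵥ b, by omega⟩

theorem sgn_self (h : ip M a a = 2) : sgn M a a = -1 := by
  rw [ip_self] at h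
  rw [sgn, show a ⬝ᵥ M *ᵥ a = 1 by omega]
  rfl

/-- The reflection in a root. -/
noncomputable def rf (M : Matrix (Fin l) (Fin l) ℤ) (a : Lat l) : Au l :=
  if h : ip M a a = 2 then LinearEquiv.ofInvolutive
    { toFun := fun b => b - ip M b a • a
      map_add' := fun b c => by rw [ip_add_left, add_smul]; abel
      map_smul' := fun z b => by rw [ip_smul_left, mul_smul, RingHom.id_apply, smul_sub] }
    fun b => by
      change b - ip M b a • a - ip M (b - ip M b a • a) a • a = b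
      rw [ip_sub_left, ip_smul_left, h]
      module
  else 1

/-- The Weyl group. -/
def Wg (M : Matrix (Fin l) (Fin l) ℤ) : Subgroup (Au l) :=
  Subgroup.closure {w | ∃ a ∈ roots M, w = rf M a}

/-- The parabolic subgroups of the Weyl group. -/
def WJ (M : Matrix (Fin l) (Fin l) ℤ) (J : Finset (Fin l)) : Subgroup (Au l) :=
  Subgroup.closure {w | ∃ j ∈ J, w = rf M (sr j)}

open Classical in
/-- The positive roots. -/
noncomputable def posR (M : Matrix (Fin l) (Fin l) ℤ) : Finset (Lat l) :=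
  (roots M).filter (0 ≤ ·)

open Classical in
/-- The positive roots made negative by `w`. -/
noncomputable def ivs (M : Matrix (Fin l) (Fin l) ℤ) (w : Au l) : Finset (Lat l) :=
  (roots M).filter fun b => 0 ≤ b ∧ ¬ 0 ≤ w b

/-- The length. -/
noncomputable def len (M : Matrix (Fin l) (Fin l) ℤ) (w : Au l) : ℕ := (ivs M w).card

theorem mem_posR : a ∈ posR M ↔ a ∈ roots M ∧ 0 ≤ a := by
  classical
  exact Finset.mem_filter

theorem mem_ivs {w : Au l} : a ∈ ivs M w ↔ a ∈ roots M ∧ 0 ≤ a ∧ ¬ 0 ≤ w a := by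
  classical
  exact Finset.mem_filter

namespace Ade

variable (hA : Ade M)
include hA

theorem mem_roots : a ∈ roots M ↔ ip M a a = 2 := by
  rw [roots, dif_pos hA.fin, Set.Finite.mem_toFinset]
  rfl

theorem neg_mem (h : a ∈ roots M) : -a ∈ roots M := by
  rwa [hA.mem_roots, ip_neg_left, ip_neg_right, neg_neg, ← hA.mem_roots]

theorem ne_zero (h : a ∈ roots M) : a ≠ 0 := by
  rintro rfl
  have := hA.mem_roots.1 h
  rw [ip_zero_left] at this
  omega

theorem sr_mem (i : Fin l) : sr i ∈ roots M := by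
  rw [hA.mem_roots, ip_sr_sr, hA.diag]
  rfl

theorem ip_nonneg (a : Lat l) : 0 ≤ ip M a a := by
  rcases eq_or_ne a 0 with rfl | h
  · rw [ip_zero_left]
  · exact (hA.pos a h).le

theorem two_le (h : a ≠ 0) : 2 ≤ ip M a a := by
  have := hA.pos a h
  rw [ip_self] at this ⊢
  omega

theorem cs (a b : Lat l) : ip M a b ^ 2 ≤ ip M a a * ip M b b := by
  rcases eq_or_ne b 0 with rfl | h
  · simp
  · have h1 := hA.ip_nonneg (ip M b b • a - ip M a b • b)
    simp only [ip_sub_left, ip_sub_right, ip_smul_left, ip_smul_right, ip_comm b a] at h1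
    exact le_of_mul_le_mul_left (by linarith) (hA.pos b h)

theorem ip_cases (ha : a ∈ roots M) (hb : b ∈ roots M) :
    b = -a ∨ ip M a b = -1 ∨ ip M a b = 0 ∨ ip M a b = 1 ∨ b = a := by
  rw [hA.mem_roots] at ha hb
  refine or_iff_not_imp_left.2 fun h1 => ?_
  rcases eq_or_ne b a with h2 | h2
  · simp [h2]
  · have h3 := hA.two_le (a := a + b) fun e => h1 (eq_neg_of_add_eq_zero_right e)
    have h4 := hA.two_le (sub_ne_zero.2 h2.symm)
    simp only [ip_add_left, ip_add_right, ip_sub_left, ip_sub_right, ip_comm b a] at h3 h4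
    have : ip M a b = -1 ∨ ip M a b = 0 ∨ ip M a b = 1 := by omega
    tauto

theorem add_mem_iff (ha : a ∈ roots M) (hb : b ∈ roots M) : a + b ∈ roots M ↔ ip M a b = -1 := by
  rw [hA.mem_roots] at ha hb ⊢
  rw [ip_add_left, ip_add_right, ip_add_right, ip_comm b a]
  omega

theorem pos_or_neg_aux : ip M a⁺ a⁻ ≤ 0 := by
  rw [ip_sum]
  refine Finset.sum_nonpos fun j _ => ?_
  rw [ip_comm, ip_sum, Finset.mul_sum]
  refine Finset.sum_nonpos fun i _ => ?_
  rw [← mul_assoc, ip_sr_sr]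
  rcases eq_or_ne j i with rfl | h
  · change max (-a j) 0 * max (a j) 0 * _ ≤ 0
    rcases le_total 0 (a j) with e | e
    · rw [max_eq_right (neg_nonpos.2 e), zero_mul, zero_mul]
    · rw [max_eq_right e, mul_zero, zero_mul]
  · exact mul_nonpos_of_nonneg_of_nonpos (mul_nonneg (negPart_nonneg a j) (posPart_nonneg a i))
      (hA.off j i h)

theorem pos_or_neg (h : a ∈ roots M) : 0 ≤ a ∨ a ≤ 0 := by
  by_contra h0
  obtain ⟨h1, h2⟩ := not_or.1 h0
  have h3 := hA.two_le (mt negPart_eq_zero.1 h1)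
  have h4 := hA.two_le (mt posPart_eq_zero.1 h2)
  have h5 := hA.pos_or_neg_aux (a := a)
  have h6 := hA.mem_roots.1 h
  rw [← posPart_sub_negPart a, ip_sub_left, ip_sub_right, ip_sub_right, ip_comm a⁻ a⁺] at h6
  omega

theorem not_pos_iff (h : a ∈ roots M) : ¬ 0 ≤ a ↔ 0 ≤ -a :=
  ⟨fun e => neg_nonneg.2 ((hA.pos_or_neg h).resolve_left e),
    fun e e' => hA.ne_zero h (le_antisymm (neg_nonneg.1 e) e')⟩

theorem exists_sr (h : a ∈ roots M) (h0 : 0 ≤ a) :
    (∃ i, a = sr i) ∨ ∃ i, ip M a (sr i) = 1 ∧ a - sr i ∈ roots M ∧ 0 ≤ a - sr i := by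
  have h2 := hA.mem_roots.1 h
  obtain ⟨i, hi⟩ : ∃ i, 0 < a i * ip M a (sr i) := by
    by_contra! h1
    have := Finset.sum_nonpos fun i (_ : i ∈ Finset.univ) => h1 i
    rw [← ip_sum] at this
    omega
  have h3 : 0 < ip M a (sr i) := pos_of_mul_pos_right hi (h0 i)
  have h4 : 0 < a i := pos_of_mul_pos_left hi h3.le
  rcases hA.ip_cases h (hA.sr_mem i) with e | e | e | e | e
  · rw [e, ip_neg_right] at h3
    omega
  · omega
  · omega
  · refine Or.inr ⟨i, e, ?_, sub_nonneg.2 fun k => ?_⟩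
    · rw [sub_eq_add_neg, hA.add_mem_iff h (hA.neg_mem (hA.sr_mem i)), ip_neg_right, e]
    · rcases eq_or_ne k i with rfl | hk
      · rwa [sr, Pi.single_eq_same]
      · rw [sr, Pi.single_eq_of_ne hk]
        exact h0 k
  · exact Or.inl ⟨i, e.symm⟩

theorem pos_ind {p : Lat l → Prop} (h1 : ∀ i, p (sr i))
    (h2 : ∀ b ∈ roots M, 0 ≤ b → ∀ i, ip M b (sr i) = -1 → p b → p (b + sr i)) :
    ∀ a ∈ roots M, 0 ≤ a → p a := by
  intro a ha h0
  induction hn : (hgt a).toNat using Nat.strong_induction_on generalizing a with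
  | _ n ih =>
    rcases hA.exists_sr ha h0 with ⟨i, rfl⟩ | ⟨i, e1, e2, e3⟩
    · exact h1 i
    · have e4 := hgt_pos e3 (hA.ne_zero e2)
      have e5 := hgt_add (a - sr i) (sr i)
      rw [sub_add_cancel, hgt_sr] at e5
      rw [← sub_add_cancel a (sr i)]
      refine h2 _ e2 e3 i ?_ (ih _ (by omega) _ e2 e3 rfl)
      rw [ip_sub_left, e1, hA.mem_roots.1 (hA.sr_mem i)]
      rfl

theorem exists_nb (h : a ∈ roots M) : ∃ b ∈ roots M, ip M a b = -1 := by
  have key := hA.pos_ind (p := fun a => ∃ b ∈ roots M, ip M a b = -1)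
    (fun i => (hA.con i).elim fun j e => ⟨sr j, hA.sr_mem j, (ip_sr_sr i j).trans e⟩)
    fun b hb _ i e _ => ⟨-b, hA.neg_mem hb, by
      rw [ip_neg_right, ip_add_left, ip_comm (sr i), e, hA.mem_roots.1 hb]
      rfl⟩
  rcases hA.pos_or_neg h with e | e
  · exact key a h e
  · obtain ⟨b, hb, e'⟩ := key _ (hA.neg_mem h) (neg_nonneg.2 e)
    exact ⟨-b, hA.neg_mem hb, by rwa [ip_neg_right, ← ip_neg_left]⟩

theorem rf_apply (h : a ∈ roots M) (b : Lat l) : rf M a b = b - ip M b a • a := by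
  rw [rf, dif_pos (hA.mem_roots.1 h)]; rfl

theorem rf_self (h : a ∈ roots M) : rf M a a = -a := by
  rw [hA.rf_apply h, hA.mem_roots.1 h]; module

theorem rf_mul_self (h : a ∈ roots M) : rf M a * rf M a = 1 := by
  refine LinearEquiv.ext fun b => ?_
  rw [LinearEquiv.mul_apply, hA.rf_apply h, hA.rf_apply h, ip_sub_left, ip_smul_left,
    hA.mem_roots.1 h]
  show _ = b
  module

theorem rf_inv (h : a ∈ roots M) : (rf M a)⁻¹ = rf M a :=
  inv_eq_of_mul_eq_one_right (hA.rf_mul_self h)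

theorem rf_mem (h : a ∈ roots M) : rf M a ∈ Wg M := by
  have := hA
  exact Subgroup.subset_closure ⟨a, h, rfl⟩

theorem W_ip {w : Au l} (hw : w ∈ Wg M) (a b : Lat l) : ip M (w a) (w b) = ip M a b := by
  induction hw using Subgroup.closure_induction generalizing a b with
  | mem _ h =>
    obtain ⟨c, hc, rfl⟩ := h
    simp only [hA.rf_apply hc, ip_sub_left, ip_sub_right, ip_smul_left, ip_smul_right,
      hA.mem_roots.1 hc, ip_comm c b]
    ring
  | one => rfl
  | mul _ _ _ _ h h' => rw [LinearEquiv.mul_apply, LinearEquiv.mul_apply, h, h']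
  | inv x _ h =>
    rw [← h, ← LinearEquiv.mul_apply, ← LinearEquiv.mul_apply, mul_inv_cancel]; rfl

theorem W_root {w : Au l} (hw : w ∈ Wg M) : w a ∈ roots M ↔ a ∈ roots M := by
  rw [hA.mem_roots, hA.mem_roots, hA.W_ip hw]

theorem rf_conj {w : Au l} (hw : w ∈ Wg M) (h : a ∈ roots M) :
    w * rf M a * w⁻¹ = rf M (w a) := by
  rw [mul_inv_eq_iff_eq_mul]
  refine LinearEquiv.ext fun b => ?_
  rw [LinearEquiv.mul_apply, LinearEquiv.mul_apply, hA.rf_apply h,
    hA.rf_apply ((hA.W_root hw).2 h), hA.W_ip hw, map_sub, map_smul]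

/-- Only the coordinate `i` changes. -/
theorem rf_pos (h : a ∈ roots M) (h0 : 0 ≤ a) (hne : a ≠ sr i) :
    0 ≤ rf M (sr i) a ∧ rf M (sr i) a ≠ sr i := by
  have s := hA.sr_mem i
  constructor
  · refine (hA.pos_or_neg ((hA.W_root (hA.rf_mem s)).2 h)).resolve_right fun c => hne ?_
    have e : a = a i • sr i := funext fun k => by
      by_cases hk : k = i
      · simp [hk, sr]
      · have := c k
        rw [hA.rf_apply s] at this
        have := h0 k
        simp_all [sr]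
        omega
    have n := hA.mem_roots.1 h
    rw [e, ip_smul_left, ip_smul_right, hA.mem_roots.1 s] at n
    have p : 0 ≤ a i := h0 i
    rw [e, show a i = 1 by nlinarith, one_smul]
  · intro e
    have k := congrArg (rf M (sr i)) e
    rw [← LinearEquiv.mul_apply, hA.rf_mul_self s, hA.rf_self s] at k
    have p : 0 ≤ a i := h0 i
    rw [show a = -sr i from k] at p
    simp [sr] at p

theorem WJ_le (J : Finset (Fin l)) : WJ M J ≤ Wg M :=
  Subgroup.closure_mono fun _ ⟨j, _, e⟩ => ⟨_, hA.sr_mem j, e⟩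

/-- Every root is conjugate to a simple root. -/
theorem root_conj (h : a ∈ roots M) : ∃ w ∈ WJ M Finset.univ, ∃ i, a = w (sr i) := by
  have m (i : Fin l) : rf M (sr i) ∈ WJ M Finset.univ :=
    Subgroup.subset_closure ⟨i, Finset.mem_univ i, rfl⟩
  have key := hA.pos_ind (p := fun a => ∃ w ∈ WJ M Finset.univ, ∃ i, a = w (sr i))
    (fun i => ⟨1, one_mem _, i, rfl⟩) fun b _ _ i e ⟨w, hw, j, k⟩ =>
      ⟨_, mul_mem (m i) hw, j, by
        rw [LinearEquiv.mul_apply, ← k, hA.rf_apply (hA.sr_mem i), e]; module⟩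
  by_cases c : 0 ≤ a
  · exact key a h c
  · obtain ⟨w, hw, i, e⟩ := key _ (hA.neg_mem h) ((hA.not_pos_iff h).1 c)
    exact ⟨_, mul_mem hw (m i), i, by
      rw [LinearEquiv.mul_apply, hA.rf_self (hA.sr_mem i), map_neg, ← e, neg_neg]⟩

theorem Wg_eq : Wg M = WJ M Finset.univ := by
  refine le_antisymm ((Subgroup.closure_le _).2 ?_) (hA.WJ_le _)
  rintro _ ⟨a, h, rfl⟩
  obtain ⟨w, hw, i, rfl⟩ := hA.root_conj h
  rw [← hA.rf_conj (hA.WJ_le _ hw) (hA.sr_mem i)]
  exact mul_mem (mul_mem hw (Subgroup.subset_closure ⟨i, Finset.mem_univ i, rfl⟩)) (inv_mem hw)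

/-- An element is determined by the images of the simple roots, which are roots. -/
theorem W_finite : Finite (Wg M) := by
  refine Finite.of_injective (β := Fin l → roots M)
    (fun w i => ⟨w.1 (sr i), (hA.W_root w.2).2 (hA.sr_mem i)⟩) fun v w e =>
      Subtype.ext (LinearEquiv.ext fun b => ?_)
  rw [← sum_sr b, map_sum, map_sum]
  exact Finset.sum_congr rfl fun i _ => by
    rw [map_smul, map_smul, show v.1 (sr i) = w.1 (sr i) from congrArg Subtype.val (congrFun e i)]

theorem ivs_one : ivs M 1 = ∅ := by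
  have _ := hA
  exact Finset.eq_empty_of_forall_notMem fun b hb => (mem_ivs.1 hb).2.2 (mem_ivs.1 hb).2.1

theorem ivs_mul_rf_aux1 (h : a ∈ roots M) (h0 : 0 ≤ a) : ¬ 0 ≤ -a :=
  fun e => hA.ne_zero h (le_antisymm (neg_nonneg.1 e) h0)

theorem ivs_mul_rf_aux2 (i : Fin l) (b : Lat l) : rf M (sr i) (rf M (sr i) b) = b :=
  LinearEquiv.congr_fun (hA.rf_mul_self (hA.sr_mem i)) b

theorem ivs_mul_rf_aux3 (w : Au l) (i : Fin l) : (w * rf M (sr i)) (sr i) = -w (sr i) := by
  rw [LinearEquiv.mul_apply, hA.rf_self (hA.sr_mem i), map_neg]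

theorem ivs_mul_rf {w : Au l} (hw : w ∈ Wg M) (h : 0 ≤ w (sr i)) (b : Lat l) :
    b ∈ ivs M (w * rf M (sr i)) ↔ b = sr i ∨ rf M (sr i) b ∈ ivs M w := by
  have hs := hA.rf_mem (hA.sr_mem i)
  rw [mem_ivs, mem_ivs]
  refine ⟨fun ⟨h1, h2, h3⟩ => or_iff_not_imp_left.2 fun e =>
    ⟨(hA.W_root hs).2 h1, (hA.rf_pos h1 h2 e).1, h3⟩, ?_⟩
  rintro (rfl | ⟨h1, h2, h3⟩)
  · refine ⟨hA.sr_mem i, sr_nonneg i, ?_⟩
    rw [hA.ivs_mul_rf_aux3]
    exact hA.ivs_mul_rf_aux1 ((hA.W_root hw).2 (hA.sr_mem i)) h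
  · exact ⟨(hA.W_root hs).1 h1, hA.ivs_mul_rf_aux2 i b ▸
      (hA.rf_pos h1 h2 fun e => h3 (h.trans_eq (congrArg w e.symm))).1, h3⟩

theorem len_mul_rf {w : Au l} (hw : w ∈ Wg M) (h : 0 ≤ w (sr i)) :
    len M (w * rf M (sr i)) = len M w + 1 := by
  have e : ivs M (w * rf M (sr i)) =
      insert (sr i) ((ivs M w).map (rf M (sr i)).symm.toEquiv.toEmbedding) := by
    ext b
    rw [hA.ivs_mul_rf hw h, Finset.mem_insert, Finset.mem_map_equiv]
    rfl
  rw [len, e, Finset.card_insert_of_notMem, Finset.card_map, len]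
  rw [Finset.mem_map_equiv]
  intro h1
  have h2 : 0 ≤ rf M (sr i) (sr i) := (mem_ivs.1 h1).2.1
  rw [hA.rf_self (hA.sr_mem i)] at h2
  exact hA.ivs_mul_rf_aux1 (hA.sr_mem i) (sr_nonneg i) h2

theorem len_mul_rf'_aux {w : Au l} (hw : w ∈ Wg M) (h : ¬ 0 ≤ w (sr i)) :
    0 ≤ (w * rf M (sr i)) (sr i) := by
  rw [hA.ivs_mul_rf_aux3]
  exact (hA.not_pos_iff ((hA.W_root hw).2 (hA.sr_mem i))).1 h

theorem len_mul_rf' {w : Au l} (hw : w ∈ Wg M) (h : ¬ 0 ≤ w (sr i)) :
    len M (w * rf M (sr i)) + 1 = len M w := by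
  rw [← hA.len_mul_rf (mul_mem hw (hA.rf_mem (hA.sr_mem i))) (hA.len_mul_rf'_aux hw h), mul_assoc,
    hA.rf_mul_self (hA.sr_mem i), mul_one]

theorem len_inv_aux {w : Au l} (hw : w ∈ Wg M) : len M w ≤ len M w⁻¹ := by
  refine Finset.card_le_card_of_injOn (fun b => -w b) (fun b hb => ?_)
    fun b _ c _ e => w.injective (neg_injective e)
  obtain ⟨h1, h2, h3⟩ := mem_ivs.1 hb
  have h4 := (hA.W_root hw).2 h1
  refine mem_ivs.2 ⟨hA.neg_mem h4, (hA.not_pos_iff h4).1 h3, ?_⟩
  rw [map_neg, show w⁻¹ (w b) = b from w.symm_apply_apply b]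
  exact hA.ivs_mul_rf_aux1 h1 h2

/-- The bijection `b ↦ -w b`. -/
theorem len_inv {w : Au l} (hw : w ∈ Wg M) : len M w⁻¹ = len M w :=
  le_antisymm (hA.len_inv_aux (inv_mem hw)) (hA.len_inv_aux hw)

theorem exch_aux1 (L : List (Fin l)) : (L.map fun k => rf M (sr k)).prod ∈ Wg M :=
  Subgroup.list_prod_mem _ fun _ h => by
    obtain ⟨k, -, rfl⟩ := List.mem_map.1 h
    exact hA.rf_mem (hA.sr_mem k)

theorem exch_aux2 (L : List (Fin l)) (h : ¬ 0 ≤ (L.map fun k => rf M (sr k)).prod (sr j)) :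
    ∃ N : List (Fin l), (∀ k ∈ N, k ∈ L) ∧ N.length < L.length ∧
      (L.map fun k => rf M (sr k)).prod * rf M (sr j) = (N.map fun k => rf M (sr k)).prod := by
  induction L with
  | nil => exact absurd (sr_nonneg j) h
  | cons i L ih =>
    simp only [List.map_cons, List.prod_cons] at h ⊢
    by_cases c : 0 ≤ (L.map fun k => rf M (sr k)).prod (sr j)
    · have hw := hA.exch_aux1 L
      have e : (L.map fun k => rf M (sr k)).prod (sr j) = sr i := by
        by_contra ne
        exact h (hA.rf_pos ((hA.W_root hw).2 (hA.sr_mem j)) c ne).1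
      have k := hA.rf_conj hw (hA.sr_mem j)
      rw [e, mul_inv_eq_iff_eq_mul] at k
      exact ⟨L, fun _ => List.mem_cons_of_mem _, by simp,
        by rw [mul_assoc, k, ← mul_assoc, hA.rf_mul_self (hA.sr_mem i), one_mul]⟩
    · obtain ⟨N, h1, h2, h3⟩ := ih c
      refine ⟨i :: N, fun k hk => ?_, by simpa using h2, by simp [mul_assoc, h3]⟩
      exact (List.mem_cons.1 hk).elim (fun e => e ▸ List.mem_cons_self)
        fun e => List.mem_cons_of_mem _ (h1 k e)

/-- The exchange condition. -/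
theorem exch {J : Finset (Fin l)} {w : Au l} (hw : w ∈ WJ M J) (h1 : w ≠ 1) :
    ∃ j ∈ J, ¬ 0 ≤ w (sr j) := by
  obtain ⟨L, hL, rfl⟩ : ∃ L : List (Fin l), (∀ k ∈ L, k ∈ J) ∧
      w = (L.map fun k => rf M (sr k)).prod := by
    clear h1
    induction hw using Subgroup.closure_induction'' with
    | one => exact ⟨[], by simp, rfl⟩
    | mem _ h => obtain ⟨k, hk, rfl⟩ := h; exact ⟨[k], by simpa, by simp⟩
    | inv_mem _ h =>
      obtain ⟨k, hk, rfl⟩ := h
      exact ⟨[k], by simpa, by simp [hA.rf_inv (hA.sr_mem k)]⟩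
    | mul _ _ _ _ h h' =>
      obtain ⟨L, hL, rfl⟩ := h
      obtain ⟨N, hN, rfl⟩ := h'
      exact ⟨L ++ N, fun k hk => (List.mem_append.1 hk).elim (hL k) (hN k), by simp⟩
  clear hw
  induction hn : L.length using Nat.strong_induction_on generalizing L with
  | _ n ih =>
  rcases L.eq_nil_or_concat' with rfl | ⟨K, j, rfl⟩
  · exact absurd rfl h1
  · by_cases c : 0 ≤ (K.map fun k => rf M (sr k)).prod (sr j)
    · refine ⟨j, hL j (by simp), ?_⟩
      have r := (hA.W_root (hA.exch_aux1 K)).2 (hA.sr_mem j)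
      rw [List.map_append, List.prod_append, List.map_singleton, List.prod_singleton,
        LinearEquiv.mul_apply, hA.rf_self (hA.sr_mem j), map_neg, hA.not_pos_iff (hA.neg_mem r),
        neg_neg]
      exact c
    · obtain ⟨N, k1, k2, k3⟩ := hA.exch_aux2 K c
      rw [List.map_append, List.prod_append, List.map_singleton, List.prod_singleton, k3] at h1 ⊢
      exact ih _ (by simp at hn; omega) N (fun k hk => hL k (by simp [k1 k hk])) h1 rfl

/-- Induction on the length. -/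
theorem W_ind {p : Au l → Prop} (h1 : p 1)
    (h2 : ∀ w ∈ Wg M, ∀ i, 0 ≤ w (sr i) → p w → p (w * rf M (sr i))) : ∀ w ∈ Wg M, p w := by
  intro w hw
  induction hn : len M w using Nat.strong_induction_on generalizing w with | _ n ih => ?_
  by_cases e : w = 1
  · exact e ▸ h1
  obtain ⟨j, -, hj⟩ := hA.exch (hA.Wg_eq ▸ hw) e
  have h3 := mul_mem hw (hA.rf_mem (hA.sr_mem j))
  have := h2 _ h3 j (hA.len_mul_rf'_aux hw hj)
    (ih _ (hn ▸ hA.len_mul_rf' hw hj ▸ Nat.lt_succ_self _) _ h3 rfl)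
  rwa [mul_assoc, hA.rf_mul_self (hA.sr_mem j), mul_one] at this

/-- An element of maximal length makes all simple roots negative. -/
theorem exists_w0 : ∃ w ∈ Wg M, ivs M w = posR M := by
  have := hA.W_finite
  obtain ⟨⟨w, hw⟩, h⟩ := Finite.exists_max fun w : Wg M => len M w
  have h1 : ∀ i, w (sr i) ≤ 0 := fun i => by
    refine neg_nonneg.1 ((hA.not_pos_iff ((hA.W_root hw).2 (hA.sr_mem i))).1 fun e => ?_)
    have := h ⟨_, mul_mem hw (hA.rf_mem (hA.sr_mem i))⟩
    simp only [hA.len_mul_rf hw e] at this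
    omega
  refine ⟨w, hw, Finset.ext fun b => ?_⟩
  rw [mem_ivs, mem_posR]
  refine and_congr_right fun hb => and_iff_left_of_imp fun h0 e =>
    hA.ne_zero ((hA.W_root hw).2 hb) (le_antisymm ?_ e)
  rw [← sum_sr b, map_sum]
  exact Finset.sum_nonpos fun j _ => by
    rw [map_zsmul]
    exact smul_nonpos_of_nonneg_of_nonpos (h0 j) (h1 j)

/-- `ip μ b = 2 * hgt b` and `cs`. -/
theorem exists_rho : ∃ μ : Lat l, (∀ b, ip M μ b = 2 * hgt b) ∧
    ∀ b ∈ roots M, -36 < hgt b ∧ hgt b < 36 := by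
  obtain ⟨μ, h1, h2⟩ := hA.rho
  have e : ∀ b, ip M μ b = 2 * hgt b := fun b => by
    simp only [ip_sum μ b, h2]
    rw [← Finset.sum_mul, mul_comm, hgt]
  refine ⟨μ, e, fun b hb => ?_⟩
  have := hA.cs μ b
  rw [e, hA.mem_roots.1 hb] at this
  constructor <;> nlinarith

end Ade

end Pool.Agent.Lib.MP_7d41f7_al
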