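import Pool.Agent.Lib.MP_7d41f7_al.E.ELat
import Pool.Agent.Lib.MP_7d41f7_al.E.EAde

/-! Lattice automorphisms with irreducible characteristic polynomial. -/

set_option autoImplicit false

namespace Pool.Agent.Lib.MP_7d41f7_al

open Polynomial Finset
open Matrix hiding zpow_add zpow_mul one_zpow

variable {l : ℕ} {A : Module.End ℤ (Lat l)} {y : Lat l}

theorem cyc_det {Φ : ℤ[X]} (hi : Irreducible Φ) (hm : Φ.Monic) (hd : Φ.natDegree = l)
    (h0 : aeval A Φ = 0) (hy : y ≠ 0) : (Matrix.of fun j : Fin l => (A ^ j.1) y).det ≠ 0 := by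
  intro h
  obtain ⟨c, c0, hc⟩ := exists_vecMul_eq_zero_iff.2 h
  let f : ℤ[X] := ∑ j, monomial j.1 (c j)
  have f1 : aeval A f y = 0 := by
    rw [← hc]
    ext i
    simp [f, aeval_monomial, vecMul, dotProduct]
  have f2 : ∀ j : Fin l, f.coeff j = c j := fun j => by
    simp [f, coeff_monomial, Fin.val_inj]
  have f3 : f ≠ 0 := fun e => c0 (funext fun j => by rw [← f2, e]; rfl)
  have f4 : f.degree < Φ.degree := by
    rw [degree_eq_natDegree hm.ne_zero, hd]
    exact degree_sum_fin_lt c |>.trans_eq' (by simp only [f, C_mul_X_pow_eq_monomial])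
  have := AdjoinRoot.isDomain_of_prime hi.prime
  have := hm.finite_adjoinRoot
  obtain ⟨n, n0, b, hb⟩ := (Algebra.IsAlgebraic.isAlgebraic (R := ℤ)
    (AdjoinRoot.mk Φ f)).exists_nonzero_dvd
      (mem_nonZeroDivisors_of_ne_zero (AdjoinRoot.mk_ne_zero_of_degree_lt hm f3 f4))
  obtain ⟨b, rfl⟩ := AdjoinRoot.mk_surjective b
  obtain ⟨g, hg⟩ := (AdjoinRoot.mk_eq_mk (g := C n)).1 (hb.trans (map_mul _ _ _).symm)
  have := LinearMap.congr_fun (congrArg (aeval A) hg) y
  rw [map_mul, h0, zero_mul, mul_comm, map_sub, map_mul, aeval_C, LinearMap.sub_apply,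
    Module.End.mul_apply, f1, map_zero, sub_zero, Module.algebraMap_end_apply] at this
  exact hy ((smul_eq_zero.1 this).resolve_left n0)

theorem det_span (D : Matrix (Fin l) (Fin l) ℤ) (v : Lat l) :
    ∃ c : Lat l, D.det • v = ∑ j, c j • D j :=
  ⟨cramer Dᵀ v, by
    rw [← det_transpose, ← mulVec_cramer, mulVec_transpose]
    ext i
    simp [vecMul, dotProduct]⟩

theorem cyc_aeval {e : ℕ} (h : cyclotomic e ℤ ∣ A.charpoly) (he : e.totient = l) :
    aeval A (cyclotomic e ℤ) = 0 := by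
  rw [eq_of_monic_of_dvd_of_natDegree_le (cyclotomic.monic e ℤ) A.charpoly_monic h
    (by simp [LinearMap.charpoly_natDegree, natDegree_cyclotomic, he]) |>.symm]
  exact A.aeval_self_charpoly

theorem det_D4 (b : Fin 4 → Lat 4) (h : ∀ j, b j ∈ roots mD4) : (Matrix.of b).det.natAbs < 13 := by
  have h1 : Matrix.of b * (mD4 + mD4ᵀ) * (Matrix.of b)ᵀ = Matrix.of fun i j => ip mD4 (b i) (b j) := by
    ext i j
    rw [Matrix.mul_assoc]
    rfl
  have h2 := det_le (abv := AbsoluteValue.abs) (A := Matrix.of fun i j => ip mD4 (b i) (b j))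
    (x := 2) fun i j => by
      have := ade_D4.cs (b i) (b j)
      rw [ade_D4.mem_roots.1 (h i), ade_D4.mem_roots.1 (h j)] at this
      exact abs_le_of_sq_le_sq' this (by norm_num) |> abs_le.2
  rw [← h1, det_mul, det_mul, det_transpose, show (mD4 + mD4ᵀ).det = 4 by decide] at h2
  have h3 := le_of_abs_le h2
  norm_num [Nat.factorial] at h3
  by_contra h4
  have : 13 ≤ |(Matrix.of b).det| := by rw [Int.abs_eq_natAbs]; omega
  nlinarith [sq_abs (Matrix.of b).det]

theorem det_G2 {a b : Lat 4} (ha : a ∈ roots mD4) (hb : b ∈ roots mD4) :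
    ((a 0 + a 2 + a 3) * b 1 - a 1 * (b 0 + b 2 + b 3)).natAbs < 7 := by
  have key : ∀ a ∈ roots mD4, (a 0 + a 2 + a 3) ^ 2 - 3 * a 1 * (a 0 + a 2 + a 3) + 3 * a 1 ^ 2 ≤ 3 :=
    fun a ha => by
      have := ade_D4.mem_roots.1 ha
      rw [ip, half_D4] at this
      simp [dotProduct, mulVec, Fin.sum_univ_four, CartanMatrix.D] at this
      nlinarith [sq_nonneg (a 0 - a 2), sq_nonneg (a 0 - a 3), sq_nonneg (a 2 - a 3)]
  have h1 := key a ha
  have h2 := key b hb
  generalize a 0 + a 2 + a 3 = s, b 0 + b 2 + b 3 = t, a 1 = x, b 1 = y at *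
  have h3 : 0 ≤ s ^ 2 - 3 * x * s + 3 * x ^ 2 := by nlinarith [sq_nonneg (2 * s - 3 * x)]
  have h4 := mul_le_mul h1 h2 (by nlinarith [sq_nonneg (2 * t - 3 * y)]) (by norm_num)
  by_contra h5
  have : 7 ≤ |s * y - x * t| := by rw [Int.abs_eq_natAbs]; omega
  nlinarith [sq_abs (s * y - x * t), sq_nonneg (2 * s * t - 3 * (x * t + y * s) + 6 * x * y)]

section chr

variable {K : Type} [Field K] {χ : Multiplicative (Lat l) →* Kˣ} {Φ : ℤ[X]} {q r o : ℕ}

theorem chr_smul (χ : Multiplicative (Lat l) →* Kˣ) (z : ℤ) (v : Lat l) :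
    χ (.ofAdd (z • v)) = χ (.ofAdd v) ^ z := by rw [ofAdd_zsmul, map_zpow]

theorem chr_aeval (h : ∀ v, χ (.ofAdd (A v)) = χ (.ofAdd v) ^ q) (f : ℤ[X]) (v : Lat l) :
    χ (.ofAdd (aeval A f v)) = χ (.ofAdd v) ^ f.eval (q : ℤ) := by
  induction f using Polynomial.induction_on generalizing v with
  | C a => rw [aeval_C, Module.algebraMap_end_apply, chr_smul, eval_C]
  | add f g hf hg => rw [map_add, LinearMap.add_apply, ofAdd_add, map_mul, hf, hg, eval_add, zpow_add]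
  | monomial n a ih =>
    rw [pow_succ, ← mul_assoc, map_mul, Module.End.mul_apply, ih, aeval_X, h, eval_mul (q := X), eval_X,
      ← zpow_natCast, ← zpow_mul, mul_comm]

theorem chr_one (hr : r.Prime) (h1 : χ ^ r = 1) {z : ℤ} (hz : ¬ (r : ℤ) ∣ z)
    (h : ∀ v, χ (.ofAdd v) ^ z = 1) : χ = 1 := MonoidHom.ext fun v => by
  obtain ⟨a, b, e⟩ := (Nat.prime_iff_prime_int.1 hr).irreducible.coprime_iff_not_dvd.2 hz
  have h2 : χ v ^ (r : ℤ) = 1 := (zpow_natCast _ r).trans (DFunLike.congr_fun h1 v)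
  rw [← zpow_one (χ v), ← e, zpow_add, mul_comm a, mul_comm b, zpow_mul, zpow_mul, h2,
    show χ v ^ z = 1 from h v.toAdd, one_zpow, one_zpow, one_mul]
  rfl

/-- Regularity. -/
theorem chr_reg (hr : r.Prime) (h1 : χ ^ r = 1) (h0 : χ ≠ 1)
    (h : ∀ v, χ (.ofAdd (A v)) = χ (.ofAdd v) ^ q)
    (hd : ¬ (r : ℤ) ∣ (Matrix.of fun j : Fin l => (A ^ j.1) y).det) : χ (.ofAdd y) ≠ 1 :=
  fun e => h0 (chr_one hr h1 hd fun v => by
    obtain ⟨c, hc⟩ := det_span (Matrix.of fun j : Fin l => (A ^ j.1) y) v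
    rw [← chr_smul, hc, ofAdd_sum, map_prod]
    refine prod_eq_one fun j _ => ?_
    have := chr_aeval h (X ^ j.1) y
    rw [map_pow, aeval_X, e, one_zpow] at this
    exact (chr_smul _ _ _).trans ((congrArg (· ^ c j) this).trans (one_zpow _)))

/-- An automorphism that commutes with `A` and fixes the character is trivial. -/
theorem chr_stab (hi : Irreducible Φ) (hm : Φ.Monic) (hd : Φ.natDegree = l) (hΦ : aeval A Φ = 0)
    (hr : r.Prime) (h1 : χ ^ r = 1) (h0 : χ ≠ 1) {w : Module.End ℤ (Lat l)} (hc : Commute w A)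
    (hw : w ^ o = 1) (ho : ¬ r ∣ o) (h : ∀ v, χ (.ofAdd (w v)) = χ (.ofAdd v)) : w = 1 := by
  have h2 : ∀ v, χ (.ofAdd ((∑ i ∈ range o, w ^ i) v)) = χ (.ofAdd v) ^ (o : ℤ) := fun v => by
    simpa [-ofAdd_sum] using chr_aeval (q := 1) (by simpa using h) (∑ i ∈ range o, X ^ i) v
  obtain ⟨v, hv⟩ : ∃ v, (∑ i ∈ range o, w ^ i) v ≠ 0 := by
    by_contra e
    push Not at e
    exact h0 (chr_one hr h1 (mt Int.natCast_dvd_natCast.1 ho) fun v => by
      rw [← h2, e, ofAdd_zero, map_one])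
  have h3 : w ((∑ i ∈ range o, w ^ i) v) = (∑ i ∈ range o, w ^ i) v := by
    have := LinearMap.congr_fun (mul_geom_sum w o) v
    rwa [hw, sub_self, Module.End.mul_apply, LinearMap.sub_apply, LinearMap.zero_apply,
      sub_eq_zero] at this
  refine LinearMap.ext fun u => smul_right_injective _ (cyc_det hi hm hd hΦ hv) ?_
  obtain ⟨c, hc'⟩ := det_span (Matrix.of fun j : Fin l => (A ^ j.1) ((∑ i ∈ range o, w ^ i) v)) u
  change _ • w u = _ • u
  rw [← map_smul, hc', map_sum]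
  refine sum_congr rfl fun j _ => (map_smul _ _ _).trans (congrArg _ ?_)
  exact (LinearMap.congr_fun (hc.pow_right j.1).eq _).trans (congrArg (A ^ j.1) h3)

end chr

/-- The facts about the quotient of the lattice by the symmetry `g`. -/
structure TQ (M : Matrix (Fin l) (Fin l) ℤ) (g : Equiv.Perm (Fin l)) {l' : ℕ}
    (P : Lat l →ₗ[ℤ] Lat l') (r : ℕ) : Prop where
  det : ∀ b : Fin l' → Lat l, (∀ j, b j ∈ roots M) → (Matrix.of fun j => P (b j)).det.natAbs < r
  inj : ∀ v, ga g v = v → P v = 0 → v = 0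
  ht : ∀ v, hgt (P v) = hgt v
  adj : ∀ (v : Lat l) (u : ℕ), u.Prime → r ≤ u → (∀ b, (u : ℤ) ∣ ip M v b) → ∀ i, (u : ℤ) ∣ v i
  fix : ∃ i, g i = i

theorem adj_D4 (v : Lat 4) (u : ℕ) (hu : u.Prime) (h2 : 7 ≤ u) (h : ∀ b, (u : ℤ) ∣ ip mD4 v b)
    (i : Fin 4) : (u : ℤ) ∣ v i := by
  have e : ∃ b, ip mD4 v b = 2 * v i := by
    refine ⟨![![2, 2, 1, 1], ![2, 4, 2, 2], ![1, 2, 2, 1], ![1, 2, 1, 2]] i, ?_⟩
    rw [ip, half_D4]
    fin_cases i <;> simp [dotProduct, mulVec, Fin.sum_univ_four, CartanMatrix.D] <;> ring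
  obtain ⟨b, e⟩ := e
  refine ((Nat.prime_iff_prime_int.1 hu).dvd_or_dvd (e ▸ h b)).resolve_left fun e => ?_
  have := Int.le_of_dvd two_pos e
  omega

theorem tq_D3 {P : Lat 4 →ₗ[ℤ] Lat 4} (hP : ∀ i, P (sr i) = sr i) : TQ mD4 1 P 13 := by
  obtain rfl : P = LinearMap.id := LinearMap.pi_ext' fun i => LinearMap.ext_ring (hP i)
  exact ⟨det_D4, fun _ _ h => h, fun _ => rfl, fun v u hu h => adj_D4 v u hu (by omega), 0, rfl⟩

theorem tq_G2 {P : Lat 4 →ₗ[ℤ] Lat 2} (hP : ∀ i, P (sr i) = sr (![0, 1, 0, 0] i)) :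
    TQ mD4 gD4 P 7 := by
  have e : ∀ v, P v = ![v 0 + v 2 + v 3, v 1] := fun v => by
    conv_lhs => rw [← sum_sr v, map_sum]
    simp only [map_smul, hP]
    ext j
    fin_cases j <;> simp [Fin.sum_univ_four, sr]
  refine ⟨fun b h => ?_, fun v h1 h2 => ?_, fun v => ?_, adj_D4, 1, by decide⟩
  · simpa [det_fin_two, e] using det_G2 (h 0) (h 1)
  · have a1 : v 0 = v (gD4.symm 0) := (congrFun h1 0).symm
    have a2 : v 2 = v (gD4.symm 2) := (congrFun h1 2).symm
    have a3 := congrFun ((e v).symm.trans h2) 0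
    have a4 := congrFun ((e v).symm.trans h2) 1
    rw [show gD4.symm 0 = 3 by decide] at a1
    rw [show gD4.symm 2 = 0 by decide] at a2
    ext j
    fin_cases j <;> simp at a3 a4 ⊢ <;> omega
  · simp [e, hgt, Fin.sum_univ_four]
    ring

namespace TQ

variable {M : Matrix (Fin l) (Fin l) ℤ} {g : Equiv.Perm (Fin l)} {l' r u : ℕ}
  {P : Lat l →ₗ[ℤ] Lat l'} {A' : Module.End ℤ (Lat l')} {Φ : ℤ[X]} {b : Lat l} (h : TQ M g P r)
include h

theorem ne (hA : Ade M) (hb : b ∈ roots M) : P b ≠ 0 := fun e => by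
  have h1 := (h.ht b).symm.trans (congrArg hgt e)
  have h2 : hgt (0 : Lat l') = 0 := by simp [hgt]
  rcases hA.pos_or_neg hb with e | e
  · have := hgt_pos e (hA.ne_zero hb)
    omega
  · have := hgt_pos (neg_nonneg.2 e) (neg_ne_zero.2 (hA.ne_zero hb))
    rw [hgt_neg] at this
    omega

omit h in
theorem pow (hP : ∀ v, P (A v) = A' (P v)) (f : ℤ[X]) (v : Lat l) :
    P (aeval A f v) = aeval A' f (P v) := by
  induction f using Polynomial.induction_on generalizing v with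
  | C a => simp only [aeval_C, Module.algebraMap_end_apply, map_smul]
  | add f g hf hg => simp only [map_add, LinearMap.add_apply, hf, hg]
  | monomial n a ih =>
    rw [pow_succ, ← mul_assoc, map_mul, map_mul (aeval A'), Module.End.mul_apply,
      Module.End.mul_apply, ih, aeval_X, aeval_X, hP]

theorem not_dvd (hA : Ade M) (hi : Irreducible Φ) (hm : Φ.Monic) (hd : Φ.natDegree = l')
    (hΦ : aeval A' Φ = 0) (hP : ∀ v, P (A v) = A' (P v)) (hR : ∀ b ∈ roots M, A b ∈ roots M)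
    (hb : b ∈ roots M) (hu : r ≤ u) :
    ¬ (u : ℤ) ∣ (Matrix.of fun j : Fin l' => (A' ^ j.1) (P b)).det := fun e => by
  have h1 := h.det (fun j => (A ^ j.1) b) fun j => by
    induction j.1 with
    | zero => exact hb
    | succ n ih => rw [pow_succ']; exact hR _ ih
  have h2 : ∀ j : ℕ, P ((A ^ j) b) = (A' ^ j) (P b) := fun j => by simpa using pow hP (X ^ j) b
  simp only [h2] at h1
  have := Nat.le_of_dvd (Int.natAbs_pos.2 (cyc_det hi hm hd hΦ (h.ne hA hb))) (Int.natCast_dvd.1 e)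
  omega

/-- The vector that defines a generator of the twisted torus. -/
theorem exists_nu (hA : Ade M) (hi : Irreducible Φ) (hm : Φ.Monic) (hd : Φ.natDegree = l')
    (hΦ : aeval A' Φ = 0) (hP : ∀ v, P (A v) = A' (P v)) (hR : ∀ b ∈ roots M, A b ∈ roots M)
    (hI : ∀ a b, ip M (A a) (A b) = ip M a b) (hc : ∀ v, A (ga g v) = ga g (A v)) {T q q' : ℤ}
    (h1 : T ∣ q * q' - 1) (h2 : T ∣ Φ.eval q') : ∃ ν, ga g ν = ν ∧
      (∀ b, T ∣ ip M ν (A b) - q * ip M ν b) ∧
      ∀ u : ℕ, u.Prime → r ≤ u → ∃ b, ¬ (u : ℤ) ∣ ip M ν b := by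
  obtain ⟨i, hi'⟩ := h.fix
  have h0 : 0 < l' := hd ▸ hm.natDegree_pos.2 hi.ne_one
  have inv : ∀ f : ℤ[X], ga g (aeval A f (sr i)) = aeval A f (sr i) := fun f =>
    (pow (P := (ga g : Lat l →ₗ[ℤ] Lat l)) (fun v => (hc v).symm) f _).trans
      (congrArg _ ((ga_sr g i).trans (congrArg sr hi')))
  have e1 := modByMonic_add_div Φ (X - C q')
  rw [modByMonic_X_sub_C_eq_C_eval] at e1
  have e2 : (Φ /ₘ (X - C q')).natDegree = l' - 1 := by
    rw [natDegree_divByMonic _ (monic_X_sub_C q'), hd, natDegree_X_sub_C]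
  have e3 : (Φ /ₘ (X - C q')).coeff (l' - 1) = 1 := by
    rw [← e2, coeff_natDegree, leadingCoeff_divByMonic_of_monic (monic_X_sub_C q')
      (by rw [degree_X_sub_C, degree_eq_natDegree hm.ne_zero, hd]; exact_mod_cast h0), hm]
  generalize Φ /ₘ (X - C q') = f at e1 e2 e3
  have e4 := LinearMap.congr_fun (congrArg (aeval A) e1) (sr i)
  rw [h.inj _ (inv Φ) (by rw [pow hP, hΦ]; rfl), map_add, map_mul, map_sub, aeval_C, aeval_C,
    aeval_X, LinearMap.add_apply, Module.End.mul_apply, LinearMap.sub_apply,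
    Module.algebraMap_end_apply, Module.algebraMap_end_apply] at e4
  refine ⟨_, inv f, fun b => ?_, fun u hu hr => by_contra fun e => ?_⟩
  · have := congrArg (ip M · (A b)) e4
    simp only [ip_add_left, ip_sub_left, ip_smul_left, hI, ip_zero_left] at this
    have e5 : ip M (aeval A f (sr i)) (A b) - q * ip M (aeval A f (sr i)) b =
        Φ.eval q' * (q * ip M (sr i) (A b)) - (q * q' - 1) * ip M (aeval A f (sr i)) (A b) := by
      linear_combination (-q) * this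
    exact e5 ▸ dvd_sub (h2.mul_right _) (h1.mul_right _)
  · push Not at e
    obtain ⟨y, hy⟩ : ∃ y, aeval A f (sr i) = (u : ℤ) • y := by
      choose y hy using h.adj _ u hu hr e
      exact ⟨y, funext hy⟩
    refine h.not_dvd hA hi hm hd hΦ hP hR (hA.sr_mem i) hr ?_
    have e5 : (fun j : Fin l' => f.coeff j) ᵥ* (Matrix.of fun j : Fin l' => (A' ^ j.1) (P (sr i))) =
        (u : ℤ) • P y := by
      rw [← map_smul, ← hy, pow hP, aeval_eq_sum_range' (n := l') (by omega), sum_range]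
      ext t
      simp [vecMul, dotProduct]
    have e6 := congrFun (congrArg (· ᵥ* adjugate (Matrix.of fun j : Fin l' =>
      (A' ^ j.1) (P (sr i)))) e5) ⟨l' - 1, by omega⟩
    simp only [vecMul_vecMul, mul_adjugate, vecMul_smul, vecMul_one, smul_vecMul, Pi.smul_apply,
      e3, smul_eq_mul, mul_one] at e6
    exact ⟨_, e6⟩

end TQ

end Pool.Agent.Lib.MP_7d41f7_al
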