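import Pool.Agent.Lib.MP_7d41f7_al.E.EFin
import Pool.Agent.Lib.MP_7d41f7_al.E.ETl

/-! The isolated torus of the groups of type `G₂` and `³D₄`. -/

set_option autoImplicit false

namespace Pool.Agent.Lib.MP_7d41f7_al

open Polynomial

namespace CG

variable {l : ℕ} {M : Matrix (Fin l) (Fin l) ℤ} {K L Γ Γ' : Type} [Field K] [Field L] [Group Γ]
  [Group Γ'] {C : CG M K Γ} {C' : CG M L Γ'} {g g₀ g₁ : Equiv.Perm (Fin l)} {φ : Γ →* Γ'}
  {τ : Γ →* Γ} {σ F ψ : Γ' →* Γ'} {j : K →+* L} {f : K →+* K} {f' : L →+* L} {q k r : ℕ}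
  (hA : Ade M)
include hA

theorem fx_parts (hS : Sy M g) (h : C.Hom C τ f (ga g)) {n : C.N} {u v : Γ}
    (hu : u ∈ C.Us (ivs M (C.π n)⁻¹)) (hv : v ∈ C.U) (hx : τ (u * n * v) = u * n * v) :
    τ n = n ∧ C.π n ∈ Wf M g ∧ τ u = u ∧ τ v = v := by
  obtain ⟨n', e1, e2⟩ := h.N n
  have hu' : u ∈ C.U := Us_mono (fun a _ ha => (mem_ivs.1 ha).2.1) hu
  rw [map_mul, map_mul, e1] at hx
  obtain rfl := uniq_N hA (h.map_U hA hS hu') (h.map_U hA hS hv) hu' hv hx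
  have e3 := eq_mul_inv_iff_mul_eq.1 e2
  refine ⟨e1, mem_Wf.2 ⟨C.π_mem _, e3⟩, uniq_U hA (h.map_Us hA hS (fun a ha h1 => mem_ivs.2
    ⟨(hA.ga_root hS).2 ha, ga_pos.2 (mem_ivs.1 h1).2.1, fun h2 => (mem_ivs.1 h1).2.2 ?_⟩) hu)
    (h.map_U hA hS hv) hu hv hx⟩
  exact ga_pos.1 (LinearEquiv.congr_fun (Commute.inv_left e3).eq a ▸ h2)

theorem Hom.pow (hS : Sy M g₁) (h : C'.Hom C' F f' (ga g₁)) (k : ℕ) :
    ∃ ψ : Γ' →* Γ', C'.Hom C' ψ (f' ^ k) (ga (g₁ ^ k)) ∧ ∀ z, F z = z → ψ z = z := by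
  induction k with
  | zero => exact ⟨_, Hom.id, fun _ _ => rfl⟩
  | succ k ih =>
    obtain ⟨ψ, h1, h2⟩ := ih
    exact ⟨ψ.comp F, by rw [pow_succ, pow_succ]; exact h.comp hA hS h1, fun z hz => (congrArg ψ hz).trans (h2 z hz)⟩

omit hA in
theorem Hom.lift (hφ : C.Hom C' φ j (ga 1)) (n : C.N) : ∃ n' : C'.N, φ n = n' ∧ C'.π n' = C.π n := by
  simpa [ga_one] using hφ.N n

theorem desc_U (hφ : C.Hom C' φ j (ga 1)) (hi : Function.Injective φ)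
    (hψ : C'.Hom C' ψ f' (ga 1)) (h1 : ∀ a, f' a = a → a ∈ j.range) (h2 : ∀ a, ψ (φ a) = φ a)
    {u : Γ'} (hu : u ∈ C'.U) (h : ψ u = u) : ∃ a ∈ C.U, φ a = u := by
  have key : ∀ y ∈ C'.U, ∀ t ∈ C'.T, ψ (t * y * t⁻¹) = t * y * t⁻¹ → t * y * t⁻¹ ∈ φ.range := by
    refine U_ind hA (fun t _ _ => by simp) fun i s m Ψ hm h3 _ ih y hy t ht e => ?_
    obtain ⟨χ, hχ⟩ := exists_chi hA ht
    have r1 := hA.sr_mem i
    have e1 : t * (C'.x (sr i) s * y) * t⁻¹ = C'.x (sr i) (χ (.ofAdd (sr i)) * s) * (t * y * t⁻¹) := by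
      rw [← hχ _ r1]
      group
    have hy' := T_conj_Us hA ht hy
    generalize t * y * t⁻¹ = y', (χ (.ofAdd (sr i)) : L) * s = s' at e1 hy'
    rw [e1] at e ⊢
    rw [map_mul, hψ.x _ r1, ga_one] at e
    have hz : ψ y' ∈ C'.Us Ψ := hψ.map_Us hA Sy.one (fun a _ h => by rwa [ga_one]) hy'
    have e2 : C'.x (sr i) (-s' + f' s') = y' * (ψ y')⁻¹ := by
      rw [C'.add _ r1, x_neg r1, eq_mul_inv_iff_mul_eq, mul_assoc]
      exact inv_mul_eq_iff_eq_mul.2 e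
    have e3 : C'.x (sr i) (-s' + f' s') = 1 := by
      have a1 := mul_mem hy' (inv_mem hz)
      rw [← e2] at a1
      exact conj_eq_one_iff.1 (U_Um (conj_Us hA m (fun a _ h => by rw [hm]; exact (h3 a h).2.2) a1)
        (conj_Us hA m (Ψ := {sr i}) (fun a _ h => by
          rw [Set.mem_singleton_iff.1 h, hm, hA.rf_self r1]
          exact neg_nonpos.2 (sr_nonneg i)) (x_mem r1 (Set.mem_singleton _) _)))
    obtain ⟨s₀, rfl⟩ := h1 s' (neg_add_eq_zero.1 (C'.inj _ r1 _ e3)).symm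
    obtain ⟨n, hn⟩ := π_surj (C := C) hA (hA.rf_mem r1)
    obtain ⟨n', a1, a2⟩ := hφ.lift n
    have := ih y' hy' (n' * (m : Γ')⁻¹) (mem_T.2 ⟨n' * m⁻¹, by
      rw [map_mul, map_inv, a2, hn, hm, mul_inv_cancel], rfl⟩)
    rw [show n' * (m : Γ')⁻¹ * (m * y' * (m : Γ')⁻¹) * (n' * (m : Γ')⁻¹)⁻¹ = φ n * y' * (φ n)⁻¹ by
      rw [a1]; group] at this
    have := this (by rw [map_mul, map_mul, map_inv, h2, ← mul_inv_eq_one.1 (e2.symm.trans e3)])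
    refine mul_mem ⟨_, (hφ.x _ r1 s₀).trans (by rw [ga_one]; rfl)⟩ ?_
    exact (φ.range.mul_mem_cancel_left ⟨n, rfl⟩).1
      ((φ.range.mul_mem_cancel_right (inv_mem ⟨n, rfl⟩)).1 this)
  obtain ⟨a, rfl⟩ : u ∈ φ.range := by simpa using key u hu 1 (one_mem _) (by simpa using h)
  obtain ⟨v, hv, n, w, hw, rfl⟩ := bruhat (C := C) hA a
  obtain ⟨n', a1, -⟩ := hφ.lift n
  have := uniq_N hA (n := n') (n' := 1) (hφ.map_U hA Sy.one hv) (hφ.map_U hA Sy.one hw) hu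
    (one_mem _) (by simp [a1])
  rw [this, OneMemClass.coe_one, ← map_one φ] at a1
  exact ⟨_, by rw [hi a1, mul_one]; exact mul_mem hv hw, rfl⟩

theorem desc_Um (hφ : C.Hom C' φ j (ga 1)) (hi : Function.Injective φ)
    (hψ : C'.Hom C' ψ f' (ga 1)) (h1 : ∀ a, f' a = a → a ∈ j.range) (h2 : ∀ a, ψ (φ a) = φ a)
    {u : Γ'} (hu : u ∈ C'.Um) (h : ψ u = u) : ∃ a ∈ C.Um, φ a = u := by
  obtain ⟨w, hw, e⟩ := hA.exists_w0
  obtain ⟨n, rfl⟩ := π_surj (C := C) hA hw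
  obtain ⟨n', a1, a2⟩ := hφ.lift n
  have key : ∀ a ∈ roots M, 0 ≤ a → C.π n a ≤ 0 := fun a ha h0 =>
    (hA.pos_or_neg ((hA.W_root hw).2 ha)).resolve_left (mem_ivs.1 (e ▸ mem_posR.2 ⟨ha, h0⟩)).2.2
  obtain ⟨a, ha, e1⟩ := desc_U hA hφ hi hψ h1 h2 (conj_Us hA n'⁻¹ (fun a ha h0 => by
    rw [map_inv, a2]
    have r1 := (hA.W_root (inv_mem hw)).2 ha
    by_contra e2
    have := key _ (hA.neg_mem r1) ((hA.not_pos_iff r1).1 e2)
    rw [map_neg, show C.π n ((C.π n)⁻¹ a) = a from (C.π n).apply_symm_apply a, neg_nonpos] at this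
    exact hA.ne_zero ha (le_antisymm h0 this)) hu) (by
      rw [InvMemClass.coe_inv, ← a1, map_mul, map_mul, map_inv, map_inv, map_inv, h2, h])
  exact ⟨_, conj_Us hA n key ha, by
    rw [map_mul, map_mul, map_inv, e1, a1, InvMemClass.coe_inv]
    group⟩

/-- Descent to the small field. -/
theorem desc [Finite K] (hS : Sy M g) (hS₀ : Sy M g₀) (hS₁ : Sy M g₁) (hg : g₀ = g ∨ g₁ = g)
    (hk : g₁ ^ k = 1) (hK : Nat.card K = q ^ k) (hφ : C.Hom C' φ j (ga 1))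
    (hi : Function.Injective φ) (hτ : C.Hom C τ f (ga g))
    (hσ : C'.Hom C' σ (RingHom.id L) (ga g₀)) (hF : C'.Hom C' F f' (ga g₁))
    (hf : ∀ a, f' a = a ^ q) (hj : ∀ a : L, a ^ q ^ k = a → a ∈ j.range)
    (hx : ∀ a, τ a = a ↔ σ (φ a) = φ a ∧ F (φ a) = φ a) {z : Γ'} (h1 : σ z = z) (h2 : F z = z) :
    z ^ (q ^ k - 1) ∈ (C.St τ).map φ := by
  obtain ⟨ψ, hψ, h3⟩ := hF.pow hA hS₁ k
  rw [hk] at hψ
  have hp : ∀ a, (f' ^ k) a = a ^ q ^ k := fun a => by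
    rw [RingHom.coe_pow, funext hf, pow_iterate]
  have h4 : ∀ a, ψ (φ a) = φ a := DFunLike.congr_fun (Hom.ext (hφ.comp hA Sy.one hψ) (by
    rw [mul_one, show (f' ^ k).comp j = j from RingHom.ext fun a => by
      have := Fintype.ofFinite K
      rw [RingHom.comp_apply, hp, ← map_pow, ← hK, Nat.card_eq_fintype_card, FiniteField.pow_card]]
    exact hφ))
  have h5 : ∀ u, u ∈ C'.U ∨ u ∈ C'.Um → σ u = u → F u = u → u ∈ (C.St τ).map φ := by
    rintro u (hu | hu) a1 a2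
    · obtain ⟨a, ha, rfl⟩ := desc_U hA hφ hi hψ (fun a h => hj a (hp a ▸ h)) h4 hu (h3 u a2)
      exact ⟨a, Subgroup.subset_closure ⟨.inl ha, (hx a).2 ⟨a1, a2⟩⟩, rfl⟩
    · obtain ⟨a, ha, rfl⟩ := desc_Um hA hφ hi hψ (fun a h => hj a (hp a ▸ h)) h4 hu (h3 u a2)
      exact ⟨a, Subgroup.subset_closure ⟨.inr ha, (hx a).2 ⟨a1, a2⟩⟩, rfl⟩
  obtain ⟨n, u, hu, v, hv, rfl⟩ := bruhat' (C := C') hA z
  obtain ⟨a1, a2, a3, a4⟩ := fx_parts hA hS₀ hσ hu hv h1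
  obtain ⟨b1, b2, b3, b4⟩ := fx_parts hA hS₁ hF hu hv h2
  obtain ⟨n₀, c1, c2⟩ := π_surj_St hA hS hτ (hg.elim (· ▸ a2) (· ▸ b2))
  obtain ⟨n', c3, c4⟩ := hφ.lift n₀
  obtain ⟨c5, c6⟩ := (hx _).1 (St_fix c1)
  have t1 : (φ n₀)⁻¹ * n ∈ C'.T := mem_T.2 ⟨n'⁻¹ * n, by
    rw [map_mul, map_inv, c4, c2, inv_mul_cancel], by rw [c3]; rfl⟩
  have t2 : σ ((φ n₀)⁻¹ * n) = (φ n₀)⁻¹ * n := by rw [map_mul, map_inv, c5, a1]
  have t3 : F ((φ n₀)⁻¹ * n) = (φ n₀)⁻¹ * n := by rw [map_mul, map_inv, c6, b1]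
  rw [← mul_inv_cancel_left (φ n₀) n]
  generalize (φ n₀)⁻¹ * n = t at t1 t2 t3
  have t4 : ∀ s ∈ (C.St τ).map φ, t * s * t⁻¹ ∈ (C.St τ).map φ := by
    rintro _ ⟨a, ha, rfl⟩
    induction ha using Subgroup.closure_induction with
    | mem a ha =>
      obtain ⟨d1, d2⟩ := (hx a).1 ha.2
      exact h5 _ (ha.1.imp (fun h => T_conj_Us hA t1 (hφ.map_U hA Sy.one h))
        fun h => T_conj_Us hA t1 (hφ.map_Um hA Sy.one h))
        (by rw [map_mul, map_mul, map_inv, t2, d1]) (by rw [map_mul, map_mul, map_inv, t3, d2])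
    | one => simp
    | mul a b _ _ ha hb => simpa [mul_assoc] using mul_mem ha hb
    | inv a _ ha => simpa [mul_assoc] using inv_mem ha
  have t5 : t ^ (q ^ k - 1) = 1 := by
    obtain ⟨χ, hχ⟩ := exists_chi hA t1
    have h0 : q ^ k - 1 + 1 = q ^ k := Nat.sub_add_cancel (hK ▸ Nat.card_pos)
    have : χ ^ (q ^ k - 1) = 1 := MonoidHom.ext fun b => by
      have := hψ.chi hA Sy.one hχ ((h3 t t3).symm ▸ hχ) b.toAdd
      refine mul_right_cancel (b := χ b) (Units.ext ?_)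
      rw [MonoidHom.pow_apply, ← pow_succ, h0, Units.val_pow_eq_pow_val, ← hp, MonoidHom.one_apply,
        one_mul]
      rw [ga_one] at this
      exact (congrArg Units.val this).symm
    exact Chi.eq (pow_mem t1 _) (one_mem _) (hχ.pow _) (this ▸ Chi.one)
  have t6 : ∀ s ∈ (C.St τ).map φ, ∀ i : ℕ, (s * t) ^ i * (t ^ i)⁻¹ ∈ (C.St τ).map φ := by
    intro s hs i
    induction i with
    | zero => simp
    | succ i ih => simpa [pow_succ', mul_assoc] using mul_mem hs (t4 _ ih)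
  have := t6 (u * φ n₀ * (t * v * t⁻¹)) (mul_mem (mul_mem (h5 u (.inl (Us_mono (fun a _ ha =>
    (mem_ivs.1 ha).2.1) hu)) a3 b3) ⟨n₀, c1, rfl⟩) (t4 v (h5 v (.inl hv) a4 b4))) (q ^ k - 1)
  simpa [t5, mul_assoc] using this

theorem tor_core [Finite L] [Finite Γ'] (hS₀ : Sy M g₀) (hS₁ : Sy M g₁) (hg : g₀ * g₁ = g₁ * g₀)
    (hσ : C'.Hom C' σ (RingHom.id L) (ga g₀)) (hF : C'.Hom C' F f' (ga g₁))
    (hf : ∀ a, f' a = a ^ q) {l' r₀ T : ℕ} (e : Fin l → Fin l') (d : Fin l' → Fin l)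
    (hd : ∀ j, e (d j) = j) (he : ∀ i j, e i = e j ↔ g₀.SameCycle i j)
    (hQ : ∀ P : Lat l →ₗ[ℤ] Lat l', (∀ i, P (sr i) = sr (e i)) → TQ M g₀ P r₀) (hr : r.Prime)
    (hl : Gd M r) (hK : r ^ 7 ∣ Nat.card L - 1) (h0 : r₀ ≤ r) (hφ : (Ord q r).totient = l')
    (ho : 0 < Ord q r) (hT : (cyclotomic (Ord q r) ℤ).eval (q : ℤ) = T) {y : Γ'} (y1 : σ y = y)
    (y2 : F y = y) (y3 : y ^ r = 1) (y4 : y ≠ 1) :
    (∀ z, σ z = z → F z = z → Commute y z → z ^ T = 1) ∧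
      (T ∣ Nat.card L - 1 → (∀ u, u.Prime → u ∣ T → r₀ ≤ u) → ∀ q' : ℤ, (T : ℤ) ∣ q * q' - 1 →
        (T : ℤ) ∣ (cyclotomic (Ord q r) ℤ).eval q' → ∃ z, σ z = z ∧ F z = z ∧ orderOf z = T) := by
  obtain ⟨x, x1, x2, -⟩ := tor2 hA hS₀ hσ hr hr hl hl hK hK y1 y1 y3 y3 (Commute.refl y)
  obtain ⟨u, hu, n, v, hv, x3⟩ := bruhat (C := C') hA (x⁻¹ * F x)
  obtain ⟨χ, hχ⟩ := exists_chi hA x2
  have w1 := mem_Wf.1 (tor4 hA hS₀ hσ hF (hom_comm hA hS₀ hS₁ hg hσ hF) hu hv x3 x1)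
  have a1 : ∀ a b, ip M ((C'.π n * ga g₁) a) ((C'.π n * ga g₁) b) = ip M a b := fun a b =>
    (hA.W_ip w1.1 _ _).trans (hS₁.ip a b)
  have a2 : C'.π n * ga g₁ * ga g₀ = ga g₀ * (C'.π n * ga g₁) := by
    rw [mul_assoc, ← ga_mul, ← hg, ga_mul, ← mul_assoc, w1.2, mul_assoc]
  obtain ⟨A, P, p1, p2, p3, p4, p5⟩ := lat_quot (K := L) e d hd he (pow_orderOf_eq_one _) a2
  have Q := hQ P p2
  have key : ∀ z, σ z = z → F z = z → x⁻¹ * z * x ∈ C'.T → ∀ ψ, C'.Chi (x⁻¹ * z * x) ψ →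
      ∃ ψ' : Multiplicative (Lat l') →* Lˣ, (∀ b, ψ (.ofAdd b) = ψ' (.ofAdd (P b))) ∧
        ∀ b, ψ' (.ofAdd (A b)) = ψ' (.ofAdd b) ^ q := fun z z1 z2 z3 ψ hψ => by
    obtain ⟨ψ', h⟩ := p5 ψ (tor5 hA hS₀ hσ x1 z1 z3 hψ)
    refine ⟨ψ', h, p3.forall.2 fun b => ?_⟩
    rw [← p4, ← h, ← h]
    exact tor3 hA hS₁ hF hf hu hv x3 z2 z3 hψ b
  obtain ⟨χ', c1, c2⟩ := key y y1 y2 x2 χ hχ
  have cj : ∀ (z : Γ') (i : ℕ), (x⁻¹ * z * x) ^ i = 1 ↔ z ^ i = 1 := fun z i => by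
    have := conj_pow (a := x⁻¹) (b := z) (i := i)
    rw [inv_inv] at this
    rw [this, mul_assoc, inv_mul_eq_one, eq_comm, mul_eq_right]
  have c3 : χ' ^ r = 1 := MonoidHom.ext fun b => by
    obtain ⟨a, ha⟩ := p3 b.toAdd
    have := DFunLike.congr_fun (Chi.uniq hA (hχ.pow r) ((cj y r).2 y3 ▸ Chi.one)) (.ofAdd a)
    rwa [MonoidHom.pow_apply, c1, ha] at this
  have c4 : χ' ≠ 1 := fun h => y4 (by
    have : χ = 1 := MonoidHom.ext fun b => (c1 b.toAdd).trans (by rw [h]; rfl)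
    simpa using (cj y 1).1 ((pow_one _).trans (Chi.eq x2 (one_mem _) hχ (this ▸ Chi.one))))
  have o1 := hA.not_dvd_ord hr hl a1
  have f1 := cyc_aeval (lat_one p1 hr o1 c3 c4 c2) hφ
  have f2 := cyclotomic.irreducible ho
  have f3 := cyclotomic.monic (Ord q r) ℤ
  have f4 := (natDegree_cyclotomic (Ord q r) ℤ).trans hφ
  have a3 : ∀ b ∈ roots M, (C'.π n * ga g₁) b ∈ roots M := fun b hb =>
    (hA.W_root w1.1).2 ((hA.ga_root hS₁).2 hb)
  have rg : Reg M χ := fun b hb => c1 b ▸ chr_reg (A := (A : Lat l' →ₗ[ℤ] Lat l')) hr c3 c4 c2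
    (Q.not_dvd (A := (C'.π n * ga g₁ : Au l)) hA f2 f3 f4 f1 p4 a3 hb h0)
  have x4 : x⁻¹ * F x = n := by
    have h := reg_N hA x2 (hF.map_T x2) hχ rg (x := x⁻¹ * F x) (by
      rw [map_mul, map_mul, map_inv, y2]
      group)
    exact congrArg Subtype.val (uniq_N hA (n := ⟨_, h⟩) (one_mem _) (one_mem _) hu hv
      (by simpa using x3))
  refine ⟨fun z z1 z2 z3 => ?_, fun t1 t2 q' t3 t4 => ?_⟩
  · have z4 : x⁻¹ * y * x * (x⁻¹ * z * x) = x⁻¹ * z * x * (x⁻¹ * y * x) := by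
      simp only [mul_assoc, mul_inv_cancel_left]
      rw [← mul_assoc y, z3.eq, mul_assoc]
    let m : C'.N := ⟨_, reg_N hA x2 x2 hχ rg z4⟩
    have m1 : C'.π m * (C'.π n * ga g₁) = C'.π n * ga g₁ * C'.π m := by
      obtain ⟨m', e1, e2⟩ := hF.N m
      have : n * m' = m * n := Subtype.ext (by
        change n * (m' : Γ') = x⁻¹ * z * x * n
        rw [← e1, ← x4]
        change _ * F (x⁻¹ * z * x) = _
        rw [map_mul, map_mul, map_inv, z2]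
        group)
      rw [← mul_assoc, ← map_mul, ← this, map_mul, e2, mul_assoc, inv_mul_cancel_right, mul_assoc]
    have m2 : C'.π m * ga g₀ = ga g₀ * C'.π m := by
      obtain ⟨m', e1, e2⟩ := hσ.N m
      obtain ⟨t, t1, t2⟩ := mem_T.1 x1
      have : t * m' = m * t := Subtype.ext (by
        change t * (m' : Γ') = x⁻¹ * z * x * t
        rw [← e1, t2]
        change _ * σ (x⁻¹ * z * x) = _
        rw [map_mul, map_mul, map_inv, z1]
        group)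
      have := congrArg C'.π this
      rwa [map_mul, map_mul, t1, one_mul, mul_one, e2, mul_inv_eq_iff_eq_mul, eq_comm] at this
    obtain ⟨w, P', q1, q2, -, q4, -⟩ := lat_quot (K := L) e d hd he (pow_orderOf_eq_one _) m2
    obtain rfl : P' = P := LinearMap.ext (lat_quot_ext fun i => (q2 i).trans (p2 i).symm)
    have m3 : (w : Module.End ℤ (Lat l')) = 1 := chr_stab f2 f3 f4 f1 hr c3 c4
      (LinearMap.ext (p3.forall.2 fun b => by
        change w (A (P' b)) = A (w (P' b))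
        rw [← p4, ← q4, ← q4, ← p4]
        exact congrArg P' (LinearEquiv.congr_fun m1 b)))
      ((map_pow LinearEquiv.automorphismGroup.toLinearMapMonoidHom w _).symm.trans
        (congrArg _ q1)) (hA.not_dvd_ord hr hl (hA.W_ip (C'.π_mem m)))
      (p3.forall.2 fun b => by
        change χ' (.ofAdd (w (P' b))) = _
        rw [← q4, ← c1, ← c1]
        exact hχ.conj hA m (by rw [← z4, mul_inv_cancel_right]; exact hχ) b)
    have m4 : C'.π m = 1 := by_contra fun h => by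
      obtain ⟨i, -, hi⟩ := hA.exch (hA.Wg_eq ▸ C'.π_mem m) h
      have r1 := (hA.W_root (C'.π_mem m)).2 (hA.sr_mem i)
      have h1 := hgt_pos ((hA.not_pos_iff r1).1 hi) (neg_ne_zero.2 (hA.ne_zero r1))
      rw [hgt_neg, ← Q.ht, q4, show w (P' (sr i)) = P' (sr i) from LinearMap.congr_fun m3 _, Q.ht,
        hgt_sr] at h1
      omega
    have m5 : x⁻¹ * z * x ∈ C'.T := mem_T.2 ⟨m, m4, rfl⟩
    obtain ⟨ψ, hψ⟩ := exists_chi hA m5
    obtain ⟨ψ', d1, d2⟩ := key z z1 z2 m5 ψ hψ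
    have : ψ ^ T = 1 := MonoidHom.ext fun b => by
      have := chr_aeval (A := (A : Lat l' →ₗ[ℤ] Lat l')) d2 (cyclotomic (Ord q r) ℤ) (P' b.toAdd)
      rw [f1, hT, zpow_natCast, ← d1] at this
      exact this.symm.trans (map_one ψ')
    exact (cj z T).1 (Chi.eq (pow_mem m5 _) (one_mem _) (hψ.pow _) (this ▸ Chi.one))
  · obtain ⟨ν, n1, n2, n3⟩ := Q.exists_nu (A := (C'.π n * ga g₁ : Au l)) hA f2 f3 f4 f1 p4 a3 a1
      (LinearEquiv.congr_fun a2) t3 t4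
    obtain ⟨c₀, hc₀⟩ := IsCyclic.exists_ofOrder_eq_natCard (α := Lˣ)
    rw [← Nat.card_units, ← hc₀] at t1
    have hc := orderOf_pow_orderOf_div (orderOf_pos c₀).ne' t1
    have T0 := hc ▸ orderOf_pos _
    generalize c₀ ^ (orderOf c₀ / T) = c at hc
    obtain ⟨t, ht, s1⟩ := exists_cor hA C' ν c
    have s2 : σ t = t := by
      obtain ⟨ψ, hψ⟩ := exists_chi hA (hσ.map_T ht)
      refine Chi.eq (hσ.map_T ht) ht hψ ((MonoidHom.ext fun b => ?_ : _ = ψ) ▸ s1)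
      obtain ⟨a, ha⟩ := (ga g₀).surjective b.toAdd
      have := hσ.chi hA hS₀ s1 hψ a
      rw [ha] at this
      refine .trans ?_ this.symm
      change c ^ ip M ν b.toAdd = c ^ ip M ν a
      rw [← ha, ← n1, hS₀.ip, n1]
    have s3 : n * F t * (n : Γ')⁻¹ = t := by
      obtain ⟨ψ, hψ⟩ := exists_chi hA (hF.map_T ht)
      obtain ⟨ψ', hψ'⟩ := exists_chi hA (conj_T n (hF.map_T ht))
      refine Chi.eq (conj_T n (hF.map_T ht)) ht hψ' ((MonoidHom.ext fun b => ?_ : _ = ψ') ▸ s1)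
      obtain ⟨a, ha⟩ := (C'.π n * ga g₁).surjective b.toAdd
      have := (hψ.conj hA n hψ' _).trans (hF.chi hA hS₁ s1 hψ a)
      rw [show C'.π n (ga g₁ a) = b.toAdd from ha] at this
      refine .trans ?_ this.symm
      have e1 : c ^ ip M ν b.toAdd = (c ^ ip M ν a) ^ q := by
        rw [← zpow_natCast, ← zpow_mul, zpow_eq_zpow_iff_modEq, hc, ← ha, mul_comm]
        exact (Int.modEq_iff_dvd.2 (n2 a)).symm
      exact e1.trans (Units.ext (hf _).symm)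
    refine ⟨x * t * x⁻¹, ?_, ?_, ?_⟩
    · rw [map_mul, map_mul, map_inv, s2, ← mul_inv_cancel_left x (σ x), mul_assoc x,
        (T_comm hA x1 ht).eq]
      group
    · rw [map_mul, map_mul, map_inv, ← mul_inv_cancel_left x (F x), x4]
      conv_rhs => rw [← s3]
      group
    · rw [show orderOf (x * t * x⁻¹) = orderOf t from (MulAut.conj x).orderOf_eq t]
      refine orderOf_eq_of_pow_and_pow_div_prime T0 (Chi.eq (pow_mem ht _) (one_mem _) (s1.pow _)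
        ((MonoidHom.ext fun b => ?_ : 1 = cch M ν c ^ T) ▸ Chi.one)) fun u hu h1 h2 => ?_
      · change 1 = (c ^ ip M ν b.toAdd) ^ T
        rw [← zpow_natCast, ← zpow_mul, mul_comm, zpow_mul, zpow_natCast, ← hc, pow_orderOf_eq_one,
          one_zpow]
      · obtain ⟨b, hb⟩ := n3 u hu (t2 u hu h1)
        have := DFunLike.congr_fun (Chi.uniq hA (s1.pow _) (h2 ▸ Chi.one)) (.ofAdd b)
        change (c ^ ip M ν b) ^ (T / u) = 1 at this
        obtain ⟨s, rfl⟩ := h1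
        rw [Nat.mul_div_cancel_left _ hu.pos, ← zpow_natCast, ← zpow_mul,
          ← orderOf_dvd_iff_zpow_eq_one, hc, Nat.cast_mul] at this
        exact hb ((mul_dvd_mul_iff_right (by exact_mod_cast (Nat.pos_of_mul_pos_left T0).ne')).1 this)

end CG

variable {l l' : ℕ} {M : Matrix (Fin l) (Fin l) ℤ} {g g₀ g₁ : Equiv.Perm (Fin l)}
  {k q r E N r₀ : ℕ} {S G : Type} [Group S] [Group G] {x : Ex}

/-- The arithmetic of the order of the torus. -/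
structure TAr (q k E N r₀ : ℕ) : Prop where
  ev : (cyclotomic E ℤ).eval (q : ℤ) = N
  pos : 0 < E
  nd : ¬ E ∣ k
  pr : ∀ r, r.Prime → r ∣ N → Ord q r = E ∧ r₀ ≤ r
  inv : ∃ q' : ℤ, (N : ℤ) ∣ q * q' - 1 ∧ (N : ℤ) ∣ (cyclotomic E ℤ).eval q'

theorem Tp.tor (T : Tp M g g₀ g₁ k l') (h : IsCh S M g k q) (hk : g₁ ^ k = 1)
    (e : Fin l → Fin l') (d : Fin l' → Fin l) (hd : ∀ j, e (d j) = j)
    (he : ∀ i j, e i = e j ↔ g₀.SameCycle i j)
    (hQ : ∀ P : Lat l →ₗ[ℤ] Lat l', (∀ i, P (sr i) = sr (e i)) → TQ M g₀ P r₀) (A : TAr q k E N r₀)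
    (hE : E.totient = l') (hl : l + 1 < r₀) (hr : r.Prime) (h1 : r ∣ N) :
    (r ∣ Nat.card S → ∃ z : S, orderOf z = N) ∧ ∀ u, Adj S u r → u ∣ N := by
  have := h.finite
  have := Fact.mk hr
  obtain ⟨K, _, _, f, τ, hK, hf, hτ, ⟨ι⟩⟩ := T.model h
  have c1 : N.Coprime q := Nat.coprime_of_dvd fun u hu h2 h3 => A.pos.ne'
    ((A.pr u hu h2).1.symm.trans (Ord.eq_zero hu (Int.natCast_dvd_natCast.2 h3)))
  have q0 : 1 ≤ q ^ k := hK ▸ Nat.card_pos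
  have c2 : N.Coprime (q ^ k - 1) := Nat.coprime_of_dvd fun u hu h2 h3 => A.nd
    ((A.pr u hu h2).1 ▸ (Ord.dvd_iff k).1 (by
      have := Int.natCast_dvd_natCast.2 h3
      rwa [Nat.cast_sub q0, Nat.cast_pow, Nat.cast_one] at this))
  obtain ⟨L, _, _, j, f', φ, σ, F, b1, b2, b3, b4, b5, b6, b7, b8⟩ :=
    T.big hK hf hτ (c1.pow_left 7)
  obtain ⟨s0, s1, s2, s3⟩ : Sy M g₀ ∧ Sy M g₁ ∧ g₀ * g₁ = g₁ * g₀ ∧ (g₀ = g ∨ g₁ = g) := by
    rcases T.md with ⟨rfl, rfl, -⟩ | ⟨rfl, rfl, -⟩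
    · exact ⟨Sy.one, T.sy, by simp, .inr rfl⟩
    · exact ⟨T.sy, Sy.one, by simp, .inl rfl⟩
  let ρ : S →* Chev M L := φ.comp ((Subgroup.subtype _).comp ι.toMonoidHom)
  have r1 : Function.Injective ρ := b4.comp (Subtype.val_injective.comp ι.injective)
  have r2 : ∀ y, σ (ρ y) = ρ y ∧ F (ρ y) = ρ y := fun y => (b8 _).1 (CG.St_fix (ι y).2)
  obtain ⟨o1, o2⟩ := A.pr r hr h1
  have key := fun (y : S) (hy : orderOf y = r) => CG.tor_core T.ade s0 s1 s2 b6 b7 b2 e d hd he hQ hr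
    (gd_of_lt M hr (by omega)) ((pow_dvd_pow_of_dvd h1 7).trans b1) o2 (o1 ▸ hE) (o1 ▸ A.pos)
    (o1 ▸ A.ev) (r2 y).1 (r2 y).2 (by rw [← map_pow, ← hy, pow_orderOf_eq_one, map_one])
    fun e => hr.ne_one (hy ▸ orderOf_eq_one_iff.2 (r1 (e.trans (map_one ρ).symm)))
  refine ⟨fun h2 => ?_, fun u ⟨z, hz⟩ => ?_⟩
  · obtain ⟨y, hy⟩ := exists_prime_orderOf_dvd_card' r h2
    obtain ⟨q', t1, t2⟩ := A.inv
    obtain ⟨z, z1, z2, z3⟩ := (key y hy).2 ((dvd_pow_self N (by omega)).trans b1)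
      (fun u hu h => (A.pr u hu h).2) q' t1 (o1 ▸ t2)
    obtain ⟨a, ha, e1⟩ := CG.desc T.ade T.sy s0 s1 s3 hk hK b5 b4 hτ b6 b7 b2 b3 b8 z1 z2
    refine ⟨ι.symm ⟨a, ha⟩, ?_⟩
    rw [← orderOf_injective ρ r1, show ρ (ι.symm ⟨a, ha⟩) = φ a from
      congrArg (fun s => φ s.1) (ι.apply_symm_apply _), e1, Nat.Coprime.orderOf_pow (z3 ▸ c2), z3]
  · have u0 : u ≠ 0 := left_ne_zero_of_mul (hz ▸ (orderOf_pos z).ne')
    have := (key (z ^ u) (by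
      rw [orderOf_pow' _ u0, hz, Nat.gcd_eq_right (Dvd.intro _ rfl),
        Nat.mul_div_cancel_left _ (Nat.pos_of_ne_zero u0)])).1 _ (r2 z).1 (r2 z).2
      ((Commute.self_pow z u).symm.map ρ)
    rw [← map_pow, ← map_one ρ, r1.eq_iff, ← orderOf_dvd_iff_pow_eq_one, hz] at this
    exact Dvd.dvd.trans (Dvd.intro _ rfl) this

theorem tar_of (hq : 2 ≤ q) (h3 : 3 ≤ E) (hd : E ∣ 12) (ev : (cyclotomic E ℤ).eval (q : ℤ) = N)
    (h2 : ¬ 2 ∣ N) (h3' : ¬ 3 ∣ N) (hr : r.Prime) (h : r ∣ N) : Ord q r = E ∧ E < r ∧ r ≠ 4 := by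
  have e : Ord q r = E := by_contra fun e => by
    have := ((cyc_key (by simpa using hq) h3 hr (ev ▸ Int.natCast_dvd_natCast.2 h) e).1).trans hd
    rcases (hr.dvd_mul (m := 2 ^ 2) (n := 3)).1 this with a | a
    · exact h2 ((Nat.prime_dvd_prime_iff_eq hr Nat.prime_two).1 (hr.dvd_of_dvd_pow a) ▸ h)
    · exact h3' ((Nat.prime_dvd_prime_iff_eq hr Nat.prime_three).1 a ▸ h)
  have := Fact.mk hr
  have e1 : Ord q r ∣ r - 1 := ZMod.orderOf_dvd_card_sub_one fun e' => by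
    have := Ord.eq_zero hr ((ZMod.intCast_zmod_eq_zero_iff_dvd _ _).1 e')
    omega
  have := Nat.le_of_dvd (Nat.sub_pos_of_lt hr.one_lt) e1
  exact ⟨e, by have := hr.pos; omega, fun e => by simp [e] at hr; exact absurd hr (by decide)⟩

theorem nd_of {N : ℕ} {p : ℕ} [NeZero p] {P : ℤ → ℤ} {Q : ZMod p → ZMod p} (h : (N : ℤ) = P q)
    (h1 : ((P q : ℤ) : ZMod p) = Q q) (h2 : Q q ≠ 0) : ¬ p ∣ N := fun e => h2 (by
  rw [← h1, ← h, Int.cast_natCast, ZMod.natCast_eq_zero_iff]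
  exact e)

theorem tar_D3 (hq : 2 ≤ q) : TAr q 3 12 (Ex.D3.tor q) 13 := by
  have e : cyclotomic 12 ℤ = X ^ 4 - X ^ 2 + 1 := by
    rw [← cyclotomic_expand_eq_cyclotomic Nat.prime_two (by norm_num : 2 ∣ 6), cyclotomic_six]
    simp [← pow_mul]
  have h : (Ex.D3.tor q : ℤ) = q ^ 4 - q ^ 2 + 1 := by
    simp [Ex.tor, Nat.cast_sub (Nat.pow_le_pow_right (by omega : 0 < q) (by omega : 2 ≤ 4))]
  have ev : (cyclotomic 12 ℤ).eval (q : ℤ) = Ex.D3.tor q := by simp [e, h]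
  refine ⟨ev, by omega, by omega, fun r hr h1 => ?_, q - q ^ 3, ⟨-1, by rw [h]; ring⟩,
    ⟨q ^ 8 - 3 * q ^ 6 + 2 * q ^ 4 + 1, by simp [e, h]; ring⟩⟩
  have := tar_of hq (by omega) dvd_rfl ev
    (nd_of (P := fun q => q ^ 4 - q ^ 2 + 1) (Q := fun q => q ^ 4 - q ^ 2 + 1) h (by simp)
      (by generalize (q : ZMod 2) = a; revert a; decide))
    (nd_of (P := fun q => q ^ 4 - q ^ 2 + 1) (Q := fun q => q ^ 4 - q ^ 2 + 1) h (by simp)
      (by generalize (q : ZMod 3) = a; revert a; decide)) hr h1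
  exact ⟨this.1, this.2.1⟩

theorem tar_G2 (hq : 2 ≤ q) : ∃ E, E.totient = 2 ∧ TAr q 1 E (Ex.G2.tor q) 7 := by
  by_cases h3 : q % 3 = 2
  · have h : (Ex.G2.tor q : ℤ) = q ^ 2 + q + 1 := by simp [Ex.tor, h3]
    have ev : (cyclotomic 3 ℤ).eval (q : ℤ) = Ex.G2.tor q := by simp [cyclotomic_three, h]
    refine ⟨3, by decide, ev, by omega, by omega, fun r hr h1 => ?_, -q - 1, ⟨-1, by rw [h]; ring⟩,
      ⟨1, by simp [cyclotomic_three, h]; ring⟩⟩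
    have := tar_of hq le_rfl (by omega) ev
      (nd_of (P := fun q => q ^ 2 + q + 1) (Q := fun q => q ^ 2 + q + 1) h (by simp)
        (by generalize (q : ZMod 2) = a; revert a; decide))
      (nd_of (P := fun q => q ^ 2 + q + 1) (Q := fun q => q ^ 2 + q + 1) h (by simp)
        (by rw [← ZMod.natCast_mod, h3]; decide)) hr h1
    refine ⟨this.1, by_contra fun e => ?_⟩
    have _ := Fact.mk hr
    have e1 : Ord q r ∣ r - 1 := ZMod.orderOf_dvd_card_sub_one fun e' => by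
      have := Ord.eq_zero hr ((ZMod.intCast_zmod_eq_zero_iff_dvd _ _).1 e')
      omega
    rw [this.1] at e1
    obtain rfl | rfl : r = 5 ∨ r = 6 := by omega
    · omega
    · exact absurd hr (by decide)
  · have h : (Ex.G2.tor q : ℤ) = q ^ 2 - q + 1 := by
      simp [Ex.tor, h3, Nat.cast_sub (Nat.le_self_pow two_ne_zero q)]
    have ev : (cyclotomic 6 ℤ).eval (q : ℤ) = Ex.G2.tor q := by simp [cyclotomic_six, h]
    refine ⟨6, by decide, ev, by omega, by omega, fun r hr h1 => ?_, 1 - q, ⟨-1, by rw [h]; ring⟩,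
      ⟨1, by simp [cyclotomic_six, h]; ring⟩⟩
    have := tar_of hq (by omega) (by omega) ev
      (nd_of (P := fun q => q ^ 2 - q + 1) (Q := fun q => q ^ 2 - q + 1) h (by simp)
        (by generalize (q : ZMod 2) = a; revert a; decide))
      (nd_of (P := fun q => q ^ 2 - q + 1) (Q := fun q => q ^ 2 - q + 1) h (by simp) (by
        rw [← ZMod.natCast_mod]
        obtain e | e : q % 3 = 0 ∨ q % 3 = 1 := by omega
        all_goals rw [e]; decide)) hr h1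
    exact ⟨this.1, this.2.1⟩

/-- The data for `G₂(q)` and `³D₄(q)`. -/
theorem IsChev.idata [Finite G] (h : IsChev S x q) (hx : x = .G2 ∨ x = .D3) (hq : 600 ≤ q)
    (ho : (Nat.card S : ℤ) = x.ord q) (hc : Nat.card G = Nat.card S) (hV : Vo G = Vo S) :
    IData G x q := by
  have := h.finite
  obtain ⟨h1, h2, h3⟩ : 1 < x.tor q ∧ x.tor q ∣ Nat.card S ∧ ∀ r, r.Prime → r ∣ x.tor q →
      x.rk < 2 * (Ord q r).totient ∧ Cyc S r ∧
        (r ∣ Nat.card S → ∃ z : S, orderOf z = x.tor q) ∧ ∀ u, Adj S u r → u ∣ x.tor q := by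
    rw [← Int.natCast_dvd_natCast, ho]
    rcases hx with rfl | rfl
    · obtain ⟨E, hE, A⟩ := tar_G2 (q := q) (by omega)
      refine ⟨?_, ?_, fun r hr h1 => ?_⟩
      · have := Nat.pow_le_pow_left hq 2
        have : q < q ^ 2 := by nlinarith
        unfold Ex.tor
        split_ifs <;> first | omega | contradiction
      · rw [Ex.ord, Ex.tor, if_neg (by decide)]
        split_ifs
        · exact ⟨q ^ 6 * (q - 1) * (q ^ 3 + 1) * (q ^ 2 - 1), by push_cast; ring⟩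
        · exact ⟨q ^ 6 * (q + 1) * (q ^ 3 - 1) * (q ^ 2 - 1), by
            push_cast [Nat.cast_sub (Nat.le_self_pow two_ne_zero q)]; ring⟩
      · obtain ⟨a1, a2⟩ := A.pr r hr h1
        have a3 : 2 < 2 * (Ord q r).totient := by rw [a1, hE]; omega
        exact ⟨a3, tp_G2.cyc h hr (by omega) (gd_of_lt _ hr (by omega)) a3,
          tp_G2.tor h rfl ![0, 1, 0, 0] ![0, 1] (by decide) (by decide) (fun _ => tq_G2) A hE
            (by omega) hr h1⟩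
    · have A := tar_D3 (q := q) (by omega)
      have h0 : q ^ 2 < q ^ 4 := Nat.pow_lt_pow_right (by omega) (by omega)
      refine ⟨by simpa [Ex.tor] using h0, ⟨q ^ 12 * (q ^ 4 + q ^ 2 + 1) * (q ^ 6 - 1) * (q ^ 2 - 1),
        by simp only [Ex.ord, Ex.tor, if_true]; push_cast [Nat.cast_sub h0.le]; ring⟩,
        fun r hr h1 => ?_⟩
      obtain ⟨a1, a2⟩ := A.pr r hr h1
      have a3 : 4 < 2 * (Ord q r).totient := by rw [a1]; decide
      exact ⟨a3, tp_D3.cyc h hr (by omega) (gd_of_lt _ hr (by omega)) a3,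
        tp_D3.tor h (by decide) id id (fun _ => rfl) (by simp) (fun _ => tq_D3) A (by decide)
          (by omega) hr h1⟩
  refine ⟨hc ▸ ho, ?_, fun r u hr hu d1 d2 a => d2 ((h3 r hr d1).2.2.2 u ((transfer_adj hr
    ((Nat.coprime_primes hu hr).2 fun e => d2 (e ▸ d1)) hc hV (h3 r hr d1).2.1
    (h.van (by omega) hr (h3 r hr d1).1)).1 a))⟩
  obtain ⟨r, hr, d⟩ := Nat.exists_prime_and_dvd h1.ne'
  obtain ⟨z, hz⟩ := (h3 r hr d).2.2.1 (d.trans h2)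
  obtain ⟨y, hy, -⟩ := hV ▸ h.van (by omega) hr (h3 r hr d).1 z (hz ▸ d)
  exact ⟨y, hy.trans hz⟩

end Pool.Agent.Lib.MP_7d41f7_al
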