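import Pool.Agent.Lib.MP_7d41f7_al.E.EHt
import Pool.Agent.Lib.MP_7d41f7_al.E.EPo

/-! Subgroups that are closed under the decompositions of Bruhat and Gauss. -/

set_option autoImplicit false

namespace Pool.Agent.Lib.MP_7d41f7_al

variable {l : ℕ} {M : Matrix (Fin l) (Fin l) ℤ} {K : Type} [Field K] {g : Equiv.Perm (Fin l)}
  {f : K →+* K} {i : Fin l} {u v w : Au l} {b : Lat l}

/-- The vectors made positive by `u` and not by `w`. -/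
def Rs (u w : Au l) : Set (Lat l) := {b | 0 ≤ u b ∧ ¬ 0 ≤ w b}

theorem mem_Rs : b ∈ Rs u w ↔ 0 ≤ u b ∧ ¬ 0 ≤ w b := Iff.rfl

/-- Apply the hypothesis to `-b`. -/
theorem Ade.Rs_sub (hA : Ade M) (hu : u ∈ Wg M) (hv : v ∈ Wg M) (hw : w ∈ Wg M)
    (h : ∀ b ∈ roots M, b ∈ Rs u v → b ∈ Rs u w) : ∀ b ∈ roots M, b ∈ Rs v w → b ∈ Rs u w := by
  refine fun b hb ⟨h1, h2⟩ => ⟨by_contra fun e => ?_, h2⟩
  refine (h _ (hA.neg_mem hb) ⟨?_, ?_⟩).2 ?_ <;> rw [map_neg]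
  · exact (hA.not_pos_iff ((hA.W_root hu).2 hb)).1 e
  · exact hA.ivs_mul_rf_aux1 ((hA.W_root hv).2 hb) h1
  · exact (hA.not_pos_iff ((hA.W_root hw).2 hb)).1 h2

/-- The map `b ↦ v⁻¹ b` is injective from `ivs (w * v⁻¹)` to `ivs w \ ivs v`, and `ivs v` is not
empty by `exch`. -/
theorem Ade.len_lt (hA : Ade M) (hv : v ∈ Wg M) (hw : w ∈ Wg M) (h1 : v ≠ 1)
    (h : ivs M v ⊆ ivs M w) : len M (w * v⁻¹) < len M w := by
  obtain ⟨j, -, hj⟩ := hA.exch (hA.Wg_eq ▸ hv) h1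
  refine lt_of_le_of_lt (Finset.card_le_card_of_injOn (fun b => v⁻¹ b) (fun b hb => ?_)
    fun b _ c _ e => v⁻¹.injective e)
    (Finset.card_erase_lt_of_mem (h (mem_ivs.2 ⟨hA.sr_mem j, sr_nonneg j, hj⟩)))
  obtain ⟨h2, h3, h4⟩ := mem_ivs.1 hb
  have h5 := (hA.W_root (inv_mem hv)).2 h2
  have h6 : v (v⁻¹ b) = b := v.apply_symm_apply b
  refine Finset.mem_erase.2 ⟨fun e : v⁻¹ b = _ => hj (by rwa [← e, h6]),
    mem_ivs.2 ⟨h5, by_contra fun e => ?_, h4⟩⟩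
  refine (mem_ivs.1 (h (mem_ivs.2 ⟨hA.neg_mem h5, (hA.not_pos_iff h5).1 e, ?_⟩))).2.2 ?_ <;>
    rw [map_neg]
  · rw [h6]
    exact hA.ivs_mul_rf_aux1 h2 h3
  · exact (hA.not_pos_iff ((hA.W_root hw).2 h5)).1 h4

/-- A root in `ivs v` is a nonnegative combination of the simple roots in `J`. -/
theorem Ade.ivs_sub (hA : Ade M) (hw : w ∈ Wg M) {J : Finset (Fin l)}
    (h1 : ∀ b ∈ ivs M v, ∀ k ∉ J, b k = 0) (h2 : ∀ j ∈ J, ¬ 0 ≤ w (sr j)) :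
    ivs M v ⊆ ivs M w := by
  intro b hb
  obtain ⟨h3, h4, -⟩ := mem_ivs.1 hb
  refine mem_ivs.2 ⟨h3, h4, fun e => hA.ne_zero ((hA.W_root hw).2 h3) (le_antisymm ?_ e)⟩
  rw [← sum_sr b, map_sum]
  refine Finset.sum_nonpos fun j _ => ?_
  rw [map_zsmul]
  by_cases hj : j ∈ J
  · exact smul_nonpos_of_nonneg_of_nonpos (h4 j)
      (neg_nonneg.1 ((hA.not_pos_iff ((hA.W_root hw).2 (hA.sr_mem j))).1 (h2 j hj)))
  · rw [h1 b hb j hj, zero_smul]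

/-- As `exists_exp`. -/
theorem Ade.exp_of (hA : Ade M) {μ : Lat l} (hμ : ∀ b, ip M μ b = 2 * hgt b) (hw : w ∈ Wf M g)
    (hi : ¬ 0 ≤ w⁻¹ (sr i)) : 0 < ip M (∑ j ∈ orb g i, sr j) (μ - w μ) ∧
      ip M (∑ j ∈ orb g i, sr j) (μ - w μ) ≤ 72 * l := by
  obtain ⟨h3, h4⟩ := mem_Wf.1 (inv_mem hw)
  obtain ⟨-, -, hb⟩ := hA.exists_rho
  have r := (hA.W_root h3).2 (hA.sr_mem i)
  have h5 := hgt_pos ((hA.not_pos_iff r).1 hi) (hA.ne_zero (hA.neg_mem r))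
  have h6 := (hb _ r).1
  have h7 : ip M (∑ j ∈ orb g i, sr j) (μ - w μ) =
      (orb g i).card * (2 - 2 * hgt (w⁻¹ (sr i))) := by
    rw [← nsmul_eq_mul]
    refine (map_sum (AddMonoidHom.mk' (ip M · (μ - w μ)) fun a b => ip_add_left a b _) _ _).trans
      (Finset.sum_eq_card_nsmul fun j hj => ?_)
    change ip M (sr j) _ = _
    rw [ip_sub_right, ← hA.W_ip h3 _ (w μ), show w⁻¹ (w μ) = μ from w.symm_apply_apply μ,
      ip_comm, hμ, ip_comm, hμ, hgt_sr, mul_one, orb_const (fun b => hgt (w⁻¹ b)) (fun b => by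
        rw [← LinearEquiv.mul_apply, h4, LinearEquiv.mul_apply, ga_hgt]) hj]
  have h8 : (0 : ℤ) < (orb g i).card :=
    Nat.cast_pos.2 (Finset.card_pos.2 ⟨i, mem_orb.2 (.refl g i)⟩)
  have h9 : ((orb g i).card : ℤ) ≤ l := Nat.cast_le.2 (card_finset_fin_le _)
  rw [hgt_neg] at h5
  refine ⟨h7 ▸ mul_pos h8 (by omega), ?_⟩
  rw [h7, mul_comm]
  exact mul_le_mul (by omega) h9 h8.le (by norm_num)

namespace CG

variable {Γ : Type} [Group Γ] {C : CG M K Γ} {σ : Γ →* Γ} {F : Subgroup Γ} {x y z : Γ}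
  {Ψ Ψ' : Set (Lat l)}

/-- The subgroup contains the factors of its elements. -/
structure Cl (C : CG M K Γ) (F : Subgroup Γ) : Prop where
  br : ∀ n : C.N, ∀ u ∈ C.Us (ivs M (C.π n)⁻¹), ∀ v ∈ C.U, u * n * v ∈ F → u ∈ F ∧ v ∈ F
  gs : ∀ y ∈ C.Um, ∀ z ∈ C.U, y * z ∈ F → y ∈ F

/-- The Weyl group of a subgroup. -/
def Vw (C : CG M K Γ) (F : Subgroup Γ) : Subgroup (Au l) := (F.subgroupOf C.N).map C.π

/-- The number of elements in the unipotent group of `w`. -/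
noncomputable def wf (C : CG M K Γ) (F : Subgroup Γ) (w : Au l) : ℕ :=
  Nat.card (F ⊓ C.Us (ivs M w) : Subgroup Γ)

theorem mem_Vw : w ∈ C.Vw F ↔ ∃ n : C.N, (n : Γ) ∈ F ∧ C.π n = w := Iff.rfl

theorem Vw_le (h : w ∈ C.Vw F) : w ∈ Wg M := by
  obtain ⟨n, -, rfl⟩ := h
  exact C.π_mem n

theorem Z_one : C.Us (Rs 1 w) = C.Us (ivs M w) :=
  le_antisymm (Us_mono fun _ ha h => mem_ivs.2 ⟨ha, h⟩) (Us_mono fun _ _ h => (mem_ivs.1 h).2)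

variable (hA : Ade M)
include hA

theorem mem_Z_aux1 (n : C.N) : y ∈ C.Us (Rs (u * C.π n) (w * C.π n)) ↔
    n * y * (n : Γ)⁻¹ ∈ C.Us (Rs u w) := by
  refine ⟨conj_Us hA n fun _ _ h => h, fun h => ?_⟩
  simpa [mul_assoc] using conj_Us hA n⁻¹ (Ψ' := Rs (u * C.π n) (w * C.π n))
    (fun a _ h => by simpa [mem_Rs] using h) h

/-- `mem_Us_ivs` for `n * y * n⁻¹` and `n' * n⁻¹`; `conj_Us`. -/
theorem mem_Z (n n' : C.N) : y ∈ C.Us (Rs (C.π n) (C.π n')) ↔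
    n * y * (n : Γ)⁻¹ ∈ C.U ∧ n' * y * (n' : Γ)⁻¹ ∈ C.Um := by
  have h := mem_Z_aux1 hA (y := y) (u := 1) (w := C.π (n' * n⁻¹)) n
  rw [Z_one, mem_Us_ivs hA, one_mul, ← map_mul, inv_mul_cancel_right] at h
  simpa [mul_assoc] using h

theorem Z_dir (hv : v ∈ Wg M) (h : y ∈ C.Us (Rs u v)) (h' : y ∈ C.Us (Rs v w)) : y = 1 := by
  obtain ⟨n, rfl⟩ := π_surj (C := C) hA hv
  exact conj_eq_one_iff.1 (U_Um (conj_Us hA n (fun _ _ k => k.1) h') (conj_Us hA n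
    (fun _ ha k => (hA.pos_or_neg ((hA.W_root hv).2 ha)).resolve_left k.2) h))

/-- Conjugate into `U` and use `fac_U`; conjugate by an element of `F` over `v` and use `gs`. -/
theorem Z_fac (hF : C.Cl F) (hu : u ∈ Wg M) (hv : v ∈ C.Vw F) (hw : w ∈ Wg M)
    (h : ∀ b ∈ roots M, b ∈ Rs u v → b ∈ Rs u w) (hy : y ∈ F) (hy' : y ∈ C.Us (Rs u w)) :
    ∃ x ∈ F ⊓ C.Us (Rs u v), ∃ z ∈ F ⊓ C.Us (Rs v w), y = x * z := by
  obtain ⟨m, rfl⟩ := π_surj (C := C) hA hu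
  obtain ⟨k, rfl⟩ := π_surj (C := C) hA hw
  obtain ⟨n, hn, rfl⟩ := mem_Vw.1 hv
  have e : ∀ a, C.π m (C.π m⁻¹ a) = a := fun a => by simp
  obtain ⟨h1, h2⟩ := (mem_Z hA m k).1 hy'
  obtain ⟨x, hx, z, hz, e1⟩ := fac_U hA (Ψ := {a | C.π m⁻¹ a ∈ Rs (C.π m) (C.π n)})
    (Ψ' := {a | 0 ≤ a ∧ 0 ≤ C.π n (C.π m⁻¹ a)}) (fun a k => e a ▸ k.1) (fun _ k => k.1)
    (fun a _ k => (em _).symm.imp (fun k' => ⟨(e a).symm ▸ k, k'⟩) fun k' => ⟨k, k'⟩) h1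
  have h3 := conj_Us hA m⁻¹ (fun _ _ k => k) hx
  have h4 : _ ∈ C.U := conj_Us hA (n * m⁻¹) (fun _ _ k => by rw [map_mul]; exact k.2) hz
  have h5 := ((mem_Z hA m k).1 (Us_mono h h3)).2
  have h6 := ((mem_Z hA m n).1 h3).2
  generalize e2 : (m⁻¹ : C.N) * x * ((m⁻¹ : C.N) : Γ)⁻¹ = x' at h3 h5 h6
  have e3 : (n * m⁻¹ : C.N) * z * ((n * m⁻¹ : C.N) : Γ)⁻¹ = n * (x'⁻¹ * y) * (n : Γ)⁻¹ := by
    simp [← e2, mul_assoc, eq_inv_mul_iff_mul_eq.2 e1.symm]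
  rw [e3] at h4
  have h7 : x' ∈ F := by
    simpa [mul_assoc] using mul_mem (mul_mem (inv_mem hn) (hF.gs _ h6 _ h4
      (by simpa [mul_assoc] using mul_mem hn (mul_mem hy (inv_mem hn))))) hn
  exact ⟨x', ⟨h7, h3⟩, x'⁻¹ * y, ⟨F.mul_mem (F.inv_mem h7) hy, (mem_Z hA n k).2
    ⟨h4, by simpa [mul_assoc] using mul_mem (inv_mem h5) h2⟩⟩, (mul_inv_cancel_left _ _).symm⟩

/-- `Z_fac`, `Z_dir`, `Rs_sub`. -/
theorem card_Z (hF : C.Cl F) (hu : u ∈ Wg M) (hv : v ∈ C.Vw F) (hw : w ∈ Wg M)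
    (h : ∀ b ∈ roots M, b ∈ Rs u v → b ∈ Rs u w) : Nat.card (F ⊓ C.Us (Rs u w) : Subgroup Γ) =
      Nat.card (F ⊓ C.Us (Rs u v) : Subgroup Γ) * Nat.card (F ⊓ C.Us (Rs v w) : Subgroup Γ) := by
  have hv' := Vw_le hv
  rw [← Nat.card_prod]
  refine (Nat.card_eq_of_bijective (fun p => ⟨p.1.1 * p.2.1, mul_mem p.1.2.1 p.2.2.1,
    mul_mem (Us_mono h p.1.2.2) (Us_mono (hA.Rs_sub hu hv' hw h) p.2.2.2)⟩)
      ⟨fun p p' k => ?_, fun ⟨y, hy, hy'⟩ => ?_⟩).symm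
  · have k0 : p.1.1 * p.2.1 = p'.1.1 * p'.2.1 := congrArg Subtype.val k
    have k1 : p'.1.1⁻¹ * p.1.1 = p'.2.1 * p.2.1⁻¹ := by
      rw [inv_mul_eq_iff_eq_mul, ← mul_assoc, ← k0, mul_inv_cancel_right]
    have k2 := Z_dir hA hv' ((C.Us _).mul_mem (inv_mem p'.1.2.2) p.1.2.2)
      (k1 ▸ (C.Us _).mul_mem p'.2.2.2 (inv_mem p.2.2.2))
    exact Prod.ext (Subtype.ext (inv_mul_eq_one.1 k2).symm)
      (Subtype.ext (mul_inv_eq_one.1 (k1 ▸ k2)).symm)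
  · obtain ⟨x, hx, z, hz, rfl⟩ := Z_fac hA hF hu hv hw h hy hy'
    exact ⟨(⟨x, hx⟩, ⟨z, hz⟩), rfl⟩

theorem Z_conj (n : C.N) : y ∈ C.Us (Rs (u * C.π n) (w * C.π n)) ↔
    n * y * (n : Γ)⁻¹ ∈ C.Us (Rs u w) := by
  exact mem_Z_aux1 hA n

theorem wf_mul (hF : C.Cl F) (hv : v ∈ C.Vw F) (hw : w ∈ Wg M) (h : ivs M v ⊆ ivs M (w * v)) :
    C.wf F (w * v) = C.wf F w * C.wf F v := by
  have e := card_Z hA hF (one_mem _) hv (mul_mem hw (Vw_le hv))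
    fun b hb k => (mem_ivs.1 (h (mem_ivs.2 ⟨hb, k⟩))).2
  obtain ⟨n, hn, rfl⟩ := hv
  rw [wf, wf, wf, ← Z_one, ← Z_one, ← Z_one, e, mul_comm]
  refine congrArg (· * _) (Nat.card_eq_of_bijective (fun y => ⟨n * y.1 * (n : Γ)⁻¹,
    F.mul_mem (mul_mem hn y.2.1) (inv_mem hn), (Z_conj hA n).1 (by rw [one_mul]; exact y.2.2)⟩)
      ⟨fun y y' k => Subtype.ext (by simpa using k), fun y => ⟨⟨(n : Γ)⁻¹ * y.1 * n,
        F.mul_mem (mul_mem (inv_mem hn) y.2.1) hn, ?_⟩, Subtype.ext (by simp [mul_assoc])⟩⟩)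
  have k := (Z_conj hA (u := 1) (w := w) (y := (n : Γ)⁻¹ * y.1 * n) n).2
    (by simpa [mul_assoc] using y.2.2)
  rwa [one_mul] at k

theorem wf_one : C.wf F 1 = 1 := by
  exact Nat.card_eq_one_iff_exists.2 ⟨1, fun u => Subtype.ext (U_Um
    (Us_mono (by simp [hA.ivs_one]) u.2.2) (Us_mono (by simp [hA.ivs_one]) u.2.2))⟩

theorem wf_top (hw : w ∈ Wg M) (h : ∀ i, ¬ 0 ≤ w (sr i)) :
    C.wf F w = Nat.card (F ⊓ C.U : Subgroup Γ) := by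
  have k := hA.pos_ind (p := fun b => 0 ≤ -w b)
    (fun i => (hA.not_pos_iff ((hA.W_root hw).2 (hA.sr_mem i))).1 (h i)) fun b _ _ i _ e => by
      rw [map_add, neg_add]
      exact add_nonneg e ((hA.not_pos_iff ((hA.W_root hw).2 (hA.sr_mem i))).1 (h i))
  rw [wf, show C.Us (ivs M w) = C.U from le_antisymm (Us_mono fun a _ c => (mem_ivs.1 c).2.1)
    (Us_mono fun a ha c => mem_ivs.2 ⟨ha, c,
      (hA.not_pos_iff ((hA.W_root hw).2 ha)).2 (k a ha c)⟩)]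

/-- As `card_St`. -/
theorem card_bru [Finite Γ] (hF : C.Cl F) : Nat.card F = Nat.card (C.T ⊓ F : Subgroup Γ) *
    (Nat.card (F ⊓ C.U : Subgroup Γ) * ∑ᶠ w : C.Vw F, C.wf F w) := by
  choose s h1 h2 using fun w : C.Vw F => mem_Vw.1 w.2
  have hU : ∀ {w u}, u ∈ C.Us (ivs M w) → u ∈ C.U :=
    fun h => Us_mono (fun a _ h1 => (mem_ivs.1 h1).2.1) h
  let P : (Σ w : C.Vw F, (F ⊓ C.Us (ivs M (w : Au l)⁻¹) : Subgroup Γ)) ×
      (C.T ⊓ F : Subgroup Γ) × (F ⊓ C.U : Subgroup Γ) → F := fun p =>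
    ⟨p.1.2 * (s p.1.1 * p.2.1) * p.2.2, mul_mem (mul_mem p.1.2.2.1
      (mul_mem (h1 _) p.2.1.2.2)) p.2.2.2.1⟩
  have hP : Function.Bijective P := by
    constructor
    · rintro ⟨⟨w, u, k1, hu⟩, ⟨_, ⟨n, hn, rfl⟩, k2⟩, v, k3, hv⟩
        ⟨⟨w', u', k4, hu'⟩, ⟨_, ⟨n', hn', rfl⟩, k5⟩, v', k6, hv'⟩ e
      have e1 : u * (s w * n : C.N) * v = u' * (s w' * n' : C.N) * v' := congrArg Subtype.val e
      have e2 := uniq_N hA (hU hu) hv (hU hu') hv' e1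
      have e3 : ∀ w, ∀ n ∈ C.π.ker, C.π (s w * n) = w := fun w n hn => by
        rw [map_mul, h2, MonoidHom.mem_ker.1 hn, mul_one]
      obtain rfl : w = w' := Subtype.ext (by rw [← e3 w n hn, e2, e3 w' n' hn'])
      obtain rfl : n = n' := mul_left_cancel e2
      obtain ⟨rfl, rfl⟩ := uniq_U hA ((e3 w n hn).symm ▸ hu) hv ((e3 w n hn).symm ▸ hu') hv' e1
      rfl
    · rintro ⟨x, hx⟩
      obtain ⟨n, u, hu, v, hv, rfl⟩ := bruhat' (C := C) hA x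
      obtain ⟨k1, k2⟩ := hF.br n u hu v hv hx
      have k3 : (n : Γ) ∈ F := (mul_mem_cancel_left k1).1 ((mul_mem_cancel_right k2).1 hx)
      have hn : C.π n ∈ C.Vw F := mem_Vw.2 ⟨n, k3, rfl⟩
      exact ⟨⟨⟨⟨_, hn⟩, u, k1, hu⟩, ⟨(s ⟨_, hn⟩ : Γ)⁻¹ * n, mem_T.2 ⟨(s ⟨_, hn⟩)⁻¹ * n,
        by rw [map_mul, map_inv, h2, inv_mul_cancel], rfl⟩,
        F.mul_mem (inv_mem (h1 _)) k3⟩, v, k2, hv⟩, Subtype.ext (by simp [P])⟩
  have := hA.W_finite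
  have : Finite (C.Vw F) :=
    .of_injective _ (Subgroup.inclusion_injective (fun _ => Vw_le : C.Vw F ≤ Wg M))
  have := Fintype.ofFinite (C.Vw F)
  rw [← Nat.card_eq_of_bijective P hP, Nat.card_prod, Nat.card_prod, Nat.card_sigma,
    finsum_eq_sum_of_fintype, mul_comm, mul_assoc,
    ← Equiv.sum_comp (Equiv.inv (C.Vw F)) fun w => C.wf F w]
  rfl

/-- As `st_van`. -/
theorem van_bru [Finite K] [Finite Γ] (hF : C.Cl F) (μ : Lat l)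
    (h : ∀ w ∈ C.Vw F, w ≠ 1 → ∃ t ∈ C.T, t ∈ F ∧ ∃ χ, C.Chi t χ ∧
      χ (.ofAdd (w μ)) ≠ χ (.ofAdd μ)) {r : ℕ}
    (hr : r.Prime) (h1 : ¬ r ∣ Nat.card K) (h2 : ¬ r ∣ Nat.card K - 1) (x : F)
    (hx : r ∣ orderOf x) : orderOf x ∈ Vo F := by
  obtain ⟨θ, hθ⟩ := exists_theta hA C μ
  obtain ⟨ι, hι⟩ := exists_units_hom K
  refine mackey (C.B.subgroupOf F)
    (ι.comp (θ.comp (F.subtype.subgroupComap C.B))) (fun y hy => ?_) fun y hy => ?_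
  · obtain ⟨n, u, hu0, v, hv, e⟩ := bruhat' (C := C) hA y
    obtain ⟨u1, v1⟩ := hF.br n u hu0 v hv (e ▸ y.2)
    have hu : u ∈ C.U := Us_mono (fun a _ k => (mem_ivs.1 k).2.1) hu0
    have n1 : (n : Γ) ∈ F := by
      have := mul_mem (mul_mem (inv_mem u1) (e ▸ y.2 : u * n * v ∈ F)) (inv_mem v1)
      rwa [← mul_assoc, mul_inv_cancel_right, inv_mul_cancel_left] at this
    have mB : ∀ {t u : Γ}, t ∈ C.T → u ∈ C.U → u * t * u⁻¹ ∈ C.B := fun ht hu =>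
      (st_van_aux1 hA ht hu).elim fun w hw => (mem_B hA).2 ⟨_, ht, w, hw.1, hw.2⟩
    obtain ⟨t, ht, t1, χ, t2, t3⟩ := h _ ⟨n, n1, rfl⟩ fun k => hy (Subgroup.mem_subgroupOf.2 (e ▸
      mul_mem (mul_mem (Subgroup.mem_sup_right hu) (Subgroup.mem_sup_left (mem_T.2 ⟨n, k, rfl⟩)))
        (Subgroup.mem_sup_right hv)))
    have ht' := conj_T n⁻¹ ht
    obtain ⟨ψ, hψ⟩ := exists_chi hA ht'
    let b : F := ⟨u * t * u⁻¹, mul_mem (mul_mem u1 t1) (inv_mem u1)⟩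
    have e2 : ((y⁻¹ * b * y : F) : Γ) =
        v⁻¹ * ((n⁻¹ : C.N) * t * ((n⁻¹ : C.N) : Γ)⁻¹) * v⁻¹⁻¹ := by
      simp only [b, Subgroup.coe_mul, Subgroup.coe_inv, e]
      group
    refine ⟨⟨b, mB ht hu⟩, ⟨y⁻¹ * b * y, Subgroup.mem_subgroupOf.2 (e2 ▸ mB ht' (inv_mem hv))⟩, rfl,
      fun k => ?_⟩
    obtain ⟨w, hw, e3⟩ := st_van_aux1 hA ht hu
    obtain ⟨w', hw', e4⟩ := st_van_aux1 hA ht' (inv_mem hv)
    have k1 := (hθ _ _ ht' w' hw' ψ hψ (e2.trans e4)).symm.trans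
      ((hι k).trans (hθ _ t ht w hw _ t2 e3))
    have k2 := t2.conj hA n⁻¹ hψ (C.π n μ)
    rw [map_inv, ← LinearEquiv.mul_apply, inv_mul_cancel, LinearEquiv.coe_one, id, k1] at k2
    exact t3 k2.symm
  · obtain ⟨k, hk⟩ := B_pow hA (Subgroup.mem_subgroupOf.1 hy)
    rw [← Subgroup.coe_pow, OneMemClass.coe_eq_one, ← orderOf_dvd_iff_pow_eq_one,
      show y⁻¹ * x * y = MulAut.conj y⁻¹ x by simp, MulEquiv.orderOf_eq] at hk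
    exact ((Nat.Prime.dvd_mul hr).1 (hx.trans hk)).elim h2 fun d => h1 (hr.dvd_of_dvd_pow d)

/-- `norm_Us` shows that `Us Ψ` normalises `Us Ψ'`; the generators commute modulo `Us Ψ'`. -/
theorem Us_comm (h1 : ∀ a ∈ roots M, a ∈ Ψ' → a ∈ Ψ)
    (h2 : ∀ a ∈ roots M, a ∈ Ψ → ∀ b ∈ roots M, b ∈ Ψ → b ≠ -a ∧ (ip M a b = -1 → a + b ∈ Ψ'))
    (hy : y ∈ C.Us Ψ) (hz : z ∈ C.Us Ψ) : y * z * y⁻¹ * z⁻¹ ∈ C.Us Ψ' := by
  have k : ∀ a ∈ roots M, a ∈ Ψ → ∀ s, ∀ u ∈ C.Us Ψ', C.x a s * u * (C.x a s)⁻¹ ∈ C.Us Ψ' :=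
    fun a ha h s u => norm_Us hA ha (fun b hb h' => (h2 a ha h b hb (h1 b hb h')).imp_right
      fun e r => e ((hA.add_mem_iff ha hb).1 r)) s
  have N : ∀ y ∈ C.Us Ψ, ∀ u ∈ C.Us Ψ', y * u * y⁻¹ ∈ C.Us Ψ' := fun y hy u =>
    (Subgroup.mem_normalizer_iff.1 ((Subgroup.closure_le (Subgroup.normalizer _)).2 (by
      rintro _ ⟨a, ha, h, s, rfl⟩
      refine Subgroup.mem_normalizer_iff.2 fun u => ⟨k a ha h s u, fun e => ?_⟩
      simpa [x_neg ha, mul_assoc] using k a ha h (-s) _ e) hy) u).1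
  induction hy, hz using Subgroup.closure_induction₂ with
  | mem y z hy hz =>
    obtain ⟨a, ha, p, s, rfl⟩ := hy
    obtain ⟨b, hb, q, t, rfl⟩ := hz
    by_cases e : ip M a b = -1
    · rw [C.com1 a ha b hb e, mul_inv_cancel_right]
      exact k b hb q t _ (x_mem ((hA.add_mem_iff ha hb).2 e) ((h2 a ha p b hb q).2 e) _)
    · have h3 : 0 ≤ ip M a b := by
        rcases hA.ip_cases ha hb with c | c | c | c | rfl
        · exact absurd c (h2 a ha p b hb q).1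
        all_goals first | omega | exact hA.ip_nonneg _
      rw [(C.com0 a ha b hb h3 s t).eq, mul_inv_cancel_right, mul_inv_cancel]
      exact one_mem _
  | one_left => simp
  | one_right => simp
  | mul_left x y z hx _ _ p q => simpa [mul_assoc] using mul_mem (N x hx _ q) p
  | mul_right y z x hy _ _ p q => simpa [mul_assoc] using mul_mem p (N y hy _ q)
  | inv_left x y hx _ p => simpa [mul_assoc] using N _ (inv_mem hx) _ (inv_mem p)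
  | inv_right x y _ hy p => simpa [mul_assoc] using N _ (inv_mem hy) _ (inv_mem p)

variable (hS : Sy M g) (hσ : C.Hom C σ f (ga g))
include hS hσ

/-- `fx_bruhat'`, `uniq_N`, `uniq_U`, `U_Um`. -/
theorem St_cl : C.Cl (C.St σ) := by
  refine ⟨fun n u hu v hv h => ?_, fun y hy z hz h => Subgroup.subset_closure ⟨.inr hy, ?_⟩⟩
  · have hU : ∀ {w u}, u ∈ C.Us (ivs M w) → u ∈ C.U :=
      fun h => Us_mono (fun a _ h1 => (mem_ivs.1 h1).2.1) h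
    obtain ⟨m, -, -, u', hu', k1, v', hv', k2, e⟩ := fx_bruhat' hA hS hσ (St_fix h)
    obtain rfl : n = m := uniq_N hA (hU hu) hv (hU hu') hv' e
    obtain ⟨rfl, rfl⟩ := uniq_U hA hu hv hu' hv' e
    exact ⟨Subgroup.subset_closure ⟨.inl (hU hu), k1⟩, Subgroup.subset_closure ⟨.inl hv, k2⟩⟩
  · have e : y⁻¹ * σ y = z * (σ z)⁻¹ := by
      rw [inv_mul_eq_iff_eq_mul, ← mul_assoc, ← St_fix h, map_mul, mul_inv_cancel_right]
    exact (inv_mul_eq_one.1 (U_Um (e ▸ mul_mem hz (inv_mem (hσ.map_U hA hS hz)))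
      (mul_mem (inv_mem hy) (hσ.map_Um hA hS hy)))).symm

theorem St_Vw : C.Vw (C.St σ) = Wf M g := by
  refine le_antisymm ?_ fun w hw => π_surj_St hA hS hσ hw
  rintro _ ⟨n, hn, rfl⟩
  obtain ⟨m, -, k, u, hu, -, v, hv, -, e⟩ := fx_bruhat' hA hS hσ (St_fix hn)
  rwa [uniq_N (n := n) hA (one_mem _) (one_mem _)
    (Us_mono (fun a _ h1 => (mem_ivs.1 h1).2.1) hu) hv (by rwa [one_mul, mul_one])]

omit hA hS hσ in
theorem St_wf : C.wf (C.St σ) w = C.wt σ w :=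
  Nat.card_congr (Equiv.subtypeEquivRight fun _ => ⟨fun h => ⟨h.2, St_fix h.1⟩, fun h =>
    ⟨Subgroup.subset_closure ⟨.inl (Us_mono (fun _ _ h1 => (mem_ivs.1 h1).2.1) h.1), h.2⟩, h.1⟩⟩)

/-- `St_bruhat`, `uniq_N`. -/
theorem N_Np (n : C.N) (hn : (n : Γ) ∈ C.St σ) : (n : Γ) ∈ C.Np f g := by
  obtain ⟨u, hu, -, m, hm, v, hv, -, e⟩ := St_bruhat hA hS hσ hn
  obtain ⟨-, m, rfl, -⟩ := Np_le hA hS hσ hm
  rwa [uniq_N (n := n) hA (one_mem _) (one_mem _) hu hv (by rwa [one_mul, mul_one])]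

end CG

end Pool.Agent.Lib.MP_7d41f7_al
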