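import Pool.Agent.Lib.MP_7d41f7_al.E.RBn

/-! Generators of the folded group. -/

set_option autoImplicit false

namespace Pool.Agent.Lib.MP_7d41f7_al

variable {l : ℕ} {M : Matrix (Fin l) (Fin l) ℤ} {K : Type} [Field K] {g : Equiv.Perm (Fin l)}
  {i j : Fin l} {d : ℕ} {t : Fin l → Kˣ} {ε : ℤ}

/-- The sum of the simple roots of an orbit. -/
def so (g : Equiv.Perm (Fin l)) (i : Fin l) : Lat l := ∑ j ∈ orb g i, sr j

/-- The function with value `c` on an orbit. -/
def ind (g : Equiv.Perm (Fin l)) (i : Fin l) (c : Kˣ) : Fin l → Kˣ :=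
  fun j => if j ∈ orb g i then c else 1

/-- The product of the generators along a word, from right to left. -/
noncomputable def wd (M : Matrix (Fin l) (Fin l) ℤ) (g : Equiv.Perm (Fin l)) :
    List (Fin l) → Au l
  | [] => 1
  | i :: L => wd M g L * rI M (orb g i)

/-- The word is reduced. -/
def Rd (M : Matrix (Fin l) (Fin l) ℤ) (g : Equiv.Perm (Fin l)) : List (Fin l) → Prop
  | [] => True
  | i :: L => 0 ≤ wd M g L (sr i) ∧ Rd M g L

theorem mem_TFs_id : t ∈ TFs (RingHom.id K) g ↔ ∀ j, t (g j) = t j :=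
  forall_congr' fun _ => Units.val_inj

theorem orb_congr (h : j ∈ orb g i) : orb g j = orb g i := by
  ext k
  rw [mem_orb, mem_orb]
  exact ⟨(mem_orb.1 h).trans, (mem_orb.1 h).symm.trans⟩

theorem ind_mem (i : Fin l) (c : Kˣ) : ind g i c ∈ TFs (RingHom.id K) g := by
  refine mem_TFs_id.2 fun j => ?_
  simp only [ind, mem_orb, Equiv.Perm.sameCycle_apply_right]

theorem ccs_ind (i : Fin l) (c : Kˣ) : ccs M K (ind g i c) = cch M (so g i) c := by
  refine MonoidHom.ext fun b => (ccs_apply _ b.toAdd).trans ?_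
  show _ = c ^ ip M (∑ j ∈ orb g i, sr j) b.toAdd
  simp only [ind, ite_pow, one_zpow, Finset.prod_ite_mem, Finset.univ_inter]
  induction orb g i using Finset.induction_on with
  | empty => simp
  | insert j I hj ih => rw [Finset.prod_insert hj, Finset.sum_insert hj, ip_add_left, zpow_add, ih]

/-- Induction on the number of `j` with `t j ≠ 1`. -/
theorem TFs_ind {p : (Fin l → Kˣ) → Prop} (h1 : p 1)
    (h2 : ∀ t ∈ TFs (RingHom.id K) g, ∀ i c, p t → p (ind g i c * t)) :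
    ∀ t ∈ TFs (RingHom.id K) g, p t := by
  intro t ht
  classical
  induction hn : (Finset.univ.filter fun j => t j ≠ 1).card using Nat.strong_induction_on
    generalizing t with | _ n ih => ?_
  by_cases e : t = 1
  · exact e ▸ h1
  obtain ⟨i, hi⟩ := Function.ne_iff.1 e
  have k : ∀ j ∈ orb g i, t j = t i := fun j hj => by
    obtain ⟨m, rfl⟩ := (mem_orb.1 hj).exists_nat_pow_eq
    clear hj
    induction m with
    | zero => rfl
    | succ m ih => rw [pow_succ', Equiv.Perm.mul_apply, mem_TFs_id.1 ht, ih]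
  have h3 := mul_mem (inv_mem (ind_mem (g := g) i (t i))) ht
  rw [← mul_inv_cancel_left (ind g i (t i)) t]
  refine h2 _ h3 i (t i) (ih _ (hn ▸ Finset.card_lt_card ⟨fun j hj => ?_, fun c => ?_⟩) _ h3 rfl)
  · simp only [Finset.mem_filter, Finset.mem_univ, true_and, Pi.mul_apply, Pi.inv_apply, ind]
      at hj ⊢
    split_ifs at hj with c
    · exact absurd (by rw [k j c, inv_mul_cancel]) hj
    · simpa using hj
  · simpa [ind, mem_orb, Equiv.Perm.SameCycle.refl] using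
      c (Finset.mem_filter.2 ⟨Finset.mem_univ i, hi⟩)

theorem wd_append (L L' : List (Fin l)) : wd M g (L ++ L') = wd M g L' * wd M g L := by
  induction L with
  | nil => exact (mul_one _).symm
  | cons i L ih => rw [List.cons_append, wd, wd, ih, mul_assoc]

theorem Ade.wd_mem (hA : Ade M) (hS : Sy M g) (L : List (Fin l)) : wd M g L ∈ Wf M g := by
  induction L with
  | nil => exact one_mem _
  | cons i L ih => exact mul_mem ih (hA.rI_mem hS i)

/-- `rI_pos`, `rI_sr`. -/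
theorem Ade.Rs_rI (hA : Ade M) (hS : Sy M g) {b : Lat l} (hb : b ∈ roots M) :
    b ∈ Rs 1 (rI M (orb g i)) ↔ b ∈ sr '' (orb g i : Set (Fin l)) := by
  refine ⟨fun h => by_contra fun c => h.2 (hA.rI_pos hS hb h.1 fun j hj e => c ⟨j, hj, e.symm⟩), ?_⟩
  rintro ⟨j, hj, rfl⟩
  exact ⟨sr_nonneg j, hA.rI_sr hS hj ▸ hA.ivs_mul_rf_aux1 hb (sr_nonneg j)⟩

namespace CG

variable {Γ : Type} [Group Γ] {C : CG M K Γ} {τ : Γ →* Γ} {y : Γ} {L : Subgroup Γ}

/-- The elements of the root subgroups of the simple roots and their negatives. -/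
noncomputable def xs (C : CG M K Γ) (g : Equiv.Perm (Fin l)) (ε : ℤ) (i : Fin l) (s : K) : Γ :=
  ((orb g i).toList.map fun j => C.x (ε • sr j) s).prod

/-- The monomial generators. -/
noncomputable def nI (C : CG M K Γ) (g : Equiv.Perm (Fin l)) (i : Fin l) (c : Kˣ) : Γ :=
  C.nO (orb g i) fun _ => c

variable (hA : Ade M) (hS : Sy M g)
include hA hS

omit hS in
theorem xs_mem (i : Fin l) (s : K) : C.xs g 1 i s ∈ C.Us (sr '' (orb g i : Set (Fin l))) := by
  refine list_prod_mem (List.forall_mem_map.2 fun j hj => ?_)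
  rw [one_smul]
  exact x_mem (hA.sr_mem j) (Set.mem_image_of_mem _ (Finset.mem_coe.2 (Finset.mem_toList.1 hj))) _

/-- As `nO_eq`. -/
theorem nI_eq (i : Fin l) (c : Kˣ) :
    C.nI g i c = C.xs g 1 i c * C.xs g (-1) i (c⁻¹ : Kˣ) * C.xs g 1 i c := by
  have r1 := hA.sr_mem
  have r2 := fun j => hA.neg_mem (r1 j)
  simp only [nI, nO, nm, xs, one_smul, neg_smul]
  rw [nm_St_aux1 (nm_St_aux2 hS fun j k e => (C.com0 _ (r1 j) _ (r1 k) e.ge _ _).mul_right
      (C.com0 _ (r1 j) _ (r2 k) (by simp [e]) _ _)),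
    nm_St_aux1 (nm_St_aux2 hS fun j k e => C.com0 _ (r2 j) _ (r1 k) (by simp [e]) _ _)]

omit hA hS in
theorem nO_const_aux1 {A : Type} {u : Fin l → A} (h : ∀ j, u (g j) = u j) (hj : j ∈ orb g i) :
    u j = u i := by
  obtain ⟨n, rfl⟩ := (mem_orb.1 hj).exists_nat_pow_eq
  clear hj
  induction n with
  | zero => rfl
  | succ n ih => rw [pow_succ', Equiv.Perm.mul_apply, h, ih]

omit hA hS in
theorem nO_const (ht : t ∈ TFs (RingHom.id K) g) : C.nO (orb g i) t = C.nI g i (t i) := by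
  exact congrArg List.prod (List.map_congr_left fun j hj => by
    rw [nO_const_aux1 (mem_TFs_id.1 ht) (Finset.mem_toList.1 hj)])

/-- As `exists_hI`. -/
theorem hI_chi (i : Fin l) (c : Kˣ) : (C.nI g i 1)⁻¹ * C.nI g i c⁻¹ ∈ C.T ∧
    C.Chi ((C.nI g i 1)⁻¹ * C.nI g i c⁻¹) (cch M (so g i) c) := by
  have r1 := hA.sr_mem
  have h1 := nm_St_aux1 (F := fun j => C.nm (sr j) 1) (nm_St_aux2 (i := i) hS fun j k e =>
    (exists_hI_aux1 hA (r1 j) (r1 k) e 1 1).inv_left.mul_left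
      (exists_hI_aux1 hA (r1 j) (r1 k) e c⁻¹ 1))
  simp only [mul_inv_cancel_left] at h1
  rw [nI, nI, nO, nO, ← eq_inv_mul_of_mul_eq h1.symm]
  refine ⟨list_prod_mem (List.forall_mem_map.2 fun j _ => (cor_chi hA (r1 j) c).1), ?_⟩
  rw [so, ← Finset.sum_map_toList]
  clear h1
  induction (orb g i).toList with
  | nil => exact (show cch M 0 c = 1 from MonoidHom.ext fun b => by simp [cch]).symm ▸ Chi.one
  | cons j L ih =>
    have e : ∀ a b, cch M (a + b) c = cch M a c * cch M b c := fun _ _ =>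
      MonoidHom.ext fun _ => by simp [cch, zpow_add]
    rw [List.map_cons, List.map_cons, List.prod_cons, List.sum_cons, e]
    exact (cor_chi hA (r1 j) c).2.mul ih

variable (hτ : C.Hom C τ (RingHom.id K) (ga g))
include hτ

/-- `nm_St_aux3`. -/
theorem xs_St (hε : ε = 1 ∨ ε = -1) (i : Fin l) (s : K) : C.xs g ε i s ∈ C.St τ := by
  have r1 := hA.sr_mem
  have r2 := fun j => hA.neg_mem (r1 j)
  rcases hε with rfl | rfl
  · exact Subgroup.subset_closure ⟨.inl (list_prod_mem (List.forall_mem_map.2 fun j _ =>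
      x_mem (by simpa using r1 j) (by simpa using sr_nonneg j) _)),
      nm_St_aux3 hA hS hτ i (by simpa using r1) rfl⟩
  · exact Subgroup.subset_closure ⟨.inr (list_prod_mem (List.forall_mem_map.2 fun j _ =>
      x_mem (by simpa using r2 j) (by simpa using sr_nonneg j) _)),
      nm_St_aux3 hA hS hτ i (by simpa using r2) rfl⟩

theorem nI_St (i : Fin l) (c : Kˣ) : C.nI g i c ∈ C.St τ :=
  nm_St hA hS hτ i c rfl

/-- `mem_xo`, `map_xo`, `xo_inj`. -/
theorem mem_xs (hy : y ∈ C.St τ) (h : y ∈ C.Us (sr '' (orb g i : Set (Fin l)))) :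
    ∃ s, y = C.xs g 1 i s := by
  obtain ⟨t, ht, rfl⟩ := (mem_xo hA hS).1 h
  have e := (map_xo hA hS hτ t).symm.trans (St_fix hy)
  have k := xo_inj (C := C) hA hS (i := i) (t := (fun j => t (g.symm j)) - t) (by
    rwa [← mul_left_inj (C.xo (orb g i) t), ← xo_add hA hS, sub_add_cancel, one_mul])
  have k2 : ∀ j, t (g j) = t j := fun j => by
    have e' : g j ∈ orb g i ↔ j ∈ orb g i := by simp [mem_orb]
    by_cases hj : j ∈ orb g i
    · simpa using (sub_eq_zero.1 (k _ (e'.2 hj))).symm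
    · rw [ht j hj, ht _ (mt e'.1 hj)]
  exact ⟨t i, congrArg List.prod (List.map_congr_left fun j hj => by
    rw [one_smul, nO_const_aux1 k2 (Finset.mem_toList.1 hj)])⟩

omit hA hS in
/-- For `w` in `Wf` (induction `WF_ind`) and all `u` in `Wf` such that the roots in `Rs u (w * u)`
are positive, the fixed points in `Us (Rs u (w * u))` lie in `L` (`Z_fac` with `v = rI * u`,
`Z_conj`, `mem_xs`). Take `u = 1` and `w` from `exists_w0f`. -/
theorem U_gen (hD : Dia M g d) (h : ∀ n : C.N, (n : Γ) ∈ C.St τ → ∀ i s, 0 ≤ C.π n (sr i) →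
    n * C.xs g 1 i s * (n : Γ)⁻¹ ∈ L) (hy : y ∈ C.St τ) (hu : y ∈ C.U) : y ∈ L := by
  have A := hD.ade
  have S := hD.sy
  have k := hD.WF_ind (J := Finset.univ) (fun _ _ => Finset.mem_univ _)
    (p := fun w => ∀ u ∈ Wf M g, (∀ b ∈ roots M, b ∈ Rs u (w * u) → 0 ≤ b) →
      ∀ y ∈ C.St τ, y ∈ C.Us (Rs u (w * u)) → y ∈ L)
    (fun u hu _ y _ e => by
      rw [one_mul] at e
      exact Z_dir A hu.1 e e ▸ one_mem L) fun w hw i _ hi ih u hu hp y hy e => ?_
  · obtain ⟨w, hw, e⟩ := A.exists_w0f S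
    exact k w (hD.WF_univ ▸ hw) 1 (one_mem _) (fun b _ c => c.1) y hy
      (Us_mono (fun a ha c => mem_Rs.2 ⟨c, (mul_one w).symm ▸
        (mem_ivs.1 (e ▸ mem_posR.2 ⟨ha, c⟩)).2.2⟩) hu)
  have p := fun j hj => (hD.pos_ob3 hw (j := j) (i := i) hj).2 hi
  have hw' := hD.ivs_wo_aux1 hw
  rw [hD.ob3_eq] at hp e p
  have hv := mul_mem (A.rI_mem S i) hu
  have hz := mul_mem hw' hv.1
  rw [mul_assoc] at hp e
  have s : ∀ b ∈ roots M, b ∈ Rs u (rI M (orb g i) * u) → b ∈ Rs u (w * (rI M (orb g i) * u)) :=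
    fun b hb c => by
      obtain ⟨j, hj, e⟩ := (A.Rs_rI S (i := i) ((A.W_root hu.1).2 hb)).1 c
      refine ⟨c.1, ?_⟩
      rw [LinearEquiv.mul_apply, LinearEquiv.mul_apply, ← e, A.rI_sr S hj, map_neg]
      exact A.ivs_mul_rf_aux1 ((A.W_root hw').2 (A.sr_mem j)) (p j hj)
  obtain ⟨x, hx, z, h1, rfl⟩ := Z_fac A (St_cl A S hτ) hu.1 ((St_Vw A S hτ).symm ▸ hv) hz s hy e
  refine mul_mem ?_ (ih _ hv (fun b hb c => hp b hb (A.Rs_sub hu.1 hv.1 hz s b hb c)) z h1.1 h1.2)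
  obtain ⟨n, hn, rfl⟩ := π_surj_St A S hτ hu
  obtain ⟨c, e'⟩ := mem_xs A S hτ (i := i) (mul_mem (mul_mem hn hx.1) (inv_mem hn))
    (Us_mono (fun a ha => (A.Rs_rI S ha).1) ((Z_conj A n).1 ((one_mul (C.π n)).symm ▸ hx.2)))
  have r : (C.π n)⁻¹ (sr i) ∈ roots M := (A.W_root (inv_mem hu.1)).2 (A.sr_mem i)
  have := h n⁻¹ (inv_mem hn) i c (map_inv C.π n ▸ hp _ r (s _ r
    ((A.Rs_rI S ((A.W_root hu.1).2 r)).2 ⟨i, mem_orb.2 (.refl g i),
      ((C.π n).apply_symm_apply _).symm⟩)))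
  simpa [← e', mul_assoc] using this

omit hA hS in
/-- `St_bruhat`, `nI_eq`, `N_Np`, `U_gen`. -/
theorem St_gen (hD : Dia M g d) (h : ∀ ε : ℤ, ε = 1 ∨ ε = -1 → ∀ i s, C.xs g ε i s ∈ L) :
    C.St τ ≤ L := by
  have A := hD.ade
  have S := hD.sy
  have k : C.Np (RingHom.id K) g ≤ L := (Subgroup.closure_le _).2 (by
    rintro _ ⟨i, t, ht, rfl⟩
    rw [nO_const ht, nI_eq A S]
    exact mul_mem (mul_mem (h 1 (.inl rfl) _ _) (h _ (.inr rfl) _ _)) (h 1 (.inl rfl) _ _))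
  have k' : ∀ y ∈ C.U, τ y = y → y ∈ L := fun y hy e => U_gen hτ hD (fun n hn i s _ =>
    mul_mem (mul_mem (k (N_Np A S hτ n hn)) (h 1 (.inl rfl) i s)) (inv_mem (k (N_Np A S hτ n hn))))
    (Subgroup.subset_closure ⟨.inl hy, e⟩) hy
  intro y hy
  obtain ⟨u, hu, e, n, hn, v, hv, e', rfl⟩ := St_bruhat A S hτ hy
  exact mul_mem (mul_mem (k' u hu e) (k hn)) (k' v hv e')

omit hA hS in
/-- `wt_mul`, `qo_eq`. -/
theorem wt_wd [Finite K] (hD : Dia M g d) {W : List (Fin l)} (h : Rd M g W) :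
    C.wt τ (wd M g W) = Nat.card K ^ W.length := by
  induction W with
  | nil => exact wt_one hD.ade
  | cons i W ih =>
    rw [wd, wt_mul hD.ade hD.sy hτ (hD.ade.wd_mem hD.sy W) h.1, ih h.2,
      qo_eq (q := Nat.card K) hD.d3 hD.pw (.inl rfl) (pow_one _).symm (fun a =>
        (card_TF_one_aux1 (k := 1) (pow_one _).symm a).symm.trans (by rw [pow_one])), ite_self,
      pow_one, List.length_cons, pow_succ]

end CG

end Pool.Agent.Lib.MP_7d41f7_al
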