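import Mathlib

/-! Fixed points of an involution that exchanges the factors of a filtration. -/

set_option autoImplicit false

namespace Pool.Agent.Lib.MP_7d41f7_al

variable {Γ : Type} [Group Γ] {A X Y Z : Subgroup Γ} {ρ : Γ → Γ} {y : Γ}

/-- The map is an endomorphism of the subgroup. -/
structure Hm (A : Subgroup Γ) (ρ : Γ → Γ) : Prop where
  mem : ∀ y ∈ A, ρ y ∈ A
  mul : ∀ y ∈ A, ∀ z ∈ A, ρ (y * z) = ρ y * ρ z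

theorem Hm.one (h : Hm A ρ) : ρ 1 = 1 :=
  mul_eq_left.1 (by rw [← h.mul 1 (one_mem A) 1 (one_mem A), mul_one])

theorem Hm.inv (h : Hm A ρ) (hy : y ∈ A) : ρ y⁻¹ = (ρ y)⁻¹ :=
  eq_inv_of_mul_eq_one_left (by rw [← h.mul _ (inv_mem hy) _ hy, inv_mul_cancel, h.one])

theorem Hm.conj (h : Hm A ρ) {n : Γ} (hn : n ∈ A) (hy : y ∈ A) :
    ρ (n * y * n⁻¹) = ρ n * ρ y * (ρ n)⁻¹ := by
  rw [h.mul _ (mul_mem hn hy) _ (inv_mem hn), h.mul _ hn _ hy, h.inv hn]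

/-- The fixed points. -/
def Hm.fix (h : Hm A ρ) : Subgroup Γ where
  carrier := {y | y ∈ A ∧ ρ y = y}
  one_mem' := ⟨one_mem A, h.one⟩
  mul_mem' := fun a b => ⟨mul_mem a.1 b.1, by rw [h.mul _ a.1 _ b.1, a.2, b.2]⟩
  inv_mem' := fun a => ⟨inv_mem a.1, by rw [h.inv a.1, a.2]⟩

/-- The preimage of a subgroup. -/
def Hm.pre (h : Hm A ρ) (L : Subgroup Γ) : Subgroup Γ where
  carrier := {y | y ∈ A ∧ ρ y ∈ L}
  one_mem' := ⟨one_mem A, h.one.symm ▸ one_mem L⟩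
  mul_mem' := fun a b => ⟨mul_mem a.1 b.1, (h.mul _ a.1 _ b.1).symm ▸ mul_mem a.2 b.2⟩
  inv_mem' := fun a => ⟨inv_mem a.1, (h.inv a.1).symm ▸ inv_mem a.2⟩

theorem Hm.mem_fix (h : Hm A ρ) : y ∈ h.fix ↔ y ∈ A ∧ ρ y = y := Iff.rfl

theorem Hm.mem_pre (h : Hm A ρ) {L : Subgroup Γ} : y ∈ h.pre L ↔ y ∈ A ∧ ρ y ∈ L := Iff.rfl

/-- Every cocycle is a coboundary, and the number of fixed points is the square root of the
order. -/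
structure Sq (ρ : Γ → Γ) (Y : Subgroup Γ) : Prop where
  coc : ∀ z ∈ Y, z * ρ z = 1 → ∃ y ∈ Y, z = y⁻¹ * ρ y
  card : Nat.card {y // y ∈ Y ∧ ρ y = y} ^ 2 = Nat.card Y

theorem Hm.sq_bot (h : Hm A ρ) (hY : ∀ y ∈ Y, y = 1) : Sq ρ Y := by
  refine ⟨fun z hz _ => ⟨1, one_mem Y, by rw [hY z hz, h.one, inv_one, mul_one]⟩, ?_⟩
  rw [Nat.card_eq_one_iff_exists.2 ⟨(⟨1, one_mem Y, h.one⟩ : {y // y ∈ Y ∧ ρ y = y}),
    fun y => Subtype.ext (hY _ y.2.1)⟩, Nat.card_eq_one_iff_exists.2 ⟨(1 : Y),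
    fun y => Subtype.ext (hY _ y.2)⟩, one_pow]

section

variable (h : Hm A ρ) (h2 : ∀ y ∈ A, ρ (ρ y) = y) (hY : Y ≤ A) (hX : X ≤ Y) (hZ : Z ≤ Y)
  (rY : ∀ y ∈ Y, ρ y ∈ Y) (rZ : ∀ z ∈ Z, ρ z ∈ Z)
  (cm : ∀ a ∈ Y, ∀ b ∈ Y, a * b * a⁻¹ * b⁻¹ ∈ Z)
  (sur : ∀ y ∈ Y, ∃ x ∈ X, ∃ x' ∈ X, ∃ z ∈ Z, y = x * ρ x' * z)
  (dir : ∀ x ∈ X, ∀ x' ∈ X, x * ρ x' ∈ Z → x = 1 ∧ x' = 1)
include h h2 hY hX hZ rY rZ cm sur dir

omit h h2 hY hX hZ rY rZ sur dir in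
theorem Hm.sq_coc_aux1 : ∃ (Q : Type) (_ : CommGroup Q) (π : Γ → Q),
    (∀ a ∈ Y, ∀ b ∈ Y, π (a * b) = π a * π b) ∧ ∀ a ∈ Y, π a = 1 ↔ a ∈ Z := by
  classical
  have : (Z.subgroupOf Y).Normal := ⟨fun n hn g => by
    have := mul_mem (cm g g.2 n n.2) (Subgroup.mem_subgroupOf.1 hn)
    rw [inv_mul_cancel_right] at this
    exact Subgroup.mem_subgroupOf.2 this⟩
  refine ⟨Y ⧸ Z.subgroupOf Y,
    { (inferInstance : Group (Y ⧸ Z.subgroupOf Y)) with mul_comm := fun a b => ?_ },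
    fun a => if ha : a ∈ Y then QuotientGroup.mk ⟨a, ha⟩ else 1, fun a ha b hb => ?_,
    fun a ha => ?_⟩
  · obtain ⟨a, rfl⟩ := QuotientGroup.mk_surjective a
    obtain ⟨b, rfl⟩ := QuotientGroup.mk_surjective b
    refine QuotientGroup.eq.2 (Subgroup.mem_subgroupOf.2 ?_)
    simpa [mul_assoc] using cm _ (inv_mem b.2) _ (inv_mem a.2)
  · simp only [dif_pos ha, dif_pos hb, dif_pos (mul_mem ha hb)]
    rfl
  · simp only [dif_pos ha]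
    exact (QuotientGroup.eq_one_iff _).trans Subgroup.mem_subgroupOf

/-- Modulo `Z` the group `Y` is commutative. If `y = x * ρ x' * z` is a cocycle then
`x * x' * ρ (x * x') ∈ Z`, so `x' = x⁻¹`, and `x⁻¹ * y * ρ x` is a cocycle in `Z`. -/
theorem Hm.sq_coc (hs : Sq ρ Z) : ∀ z ∈ Y, z * ρ z = 1 → ∃ y ∈ Y, z = y⁻¹ * ρ y := by
  intro w hw hc
  obtain ⟨Q, _, π, p1, p2⟩ := Hm.sq_coc_aux1 cm
  obtain ⟨x, hx, x', hx', z, hz, e⟩ := sur w hw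
  have a := hX hx
  have a' := hX hx'
  have b := rY x a
  have b' := rY x' a'
  have c := hZ hz
  have e1 : ρ w = ρ x * x' * ρ z := by
    rw [e, h.mul _ (hY (mul_mem a b')) _ (hY c), h.mul _ (hY a) _ (hY b'), h2 _ (hY a')]
  have e2 : π (w * ρ w) = 1 := by rw [hc]; exact (p2 1 (one_mem Y)).2 (one_mem Z)
  rw [p1 _ hw _ (rY w hw), e1, e, p1 _ (mul_mem a b') _ c, p1 _ a _ b',
    p1 _ (mul_mem b a') _ (rY z c), p1 _ b _ a', (p2 z c).2 hz, (p2 _ (rY z c)).2 (rZ z hz)] at e2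
  have e3 := (dir _ (mul_mem hx hx') _ (mul_mem hx hx') ((p2 _ (mul_mem (mul_mem a a')
    (rY _ (mul_mem a a')))).1 (by
      rw [h.mul _ (hY a) _ (hY a'), p1 _ (mul_mem a a') _ (mul_mem b b'), p1 _ a _ a', p1 _ b _ b',
        ← e2]
      simp only [mul_one, mul_comm, mul_left_comm]))).1
  obtain rfl := eq_inv_of_mul_eq_one_right e3
  have e4 : x⁻¹ * w * ρ x ∈ Z := by
    have := mul_mem (cm _ (inv_mem b) z c) hz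
    rw [e, h.inv (hY a)]
    simpa [mul_assoc] using this
  obtain ⟨v, hv, e5⟩ := hs.coc _ e4 (by
    rw [h.mul _ (hY (mul_mem a' hw)) _ (hY b), h.mul _ (hY a') _ (hY hw), h.inv (hY a), h2 _ (hY a)]
    calc _ = x⁻¹ * (w * ρ w) * x := by group
      _ = 1 := by rw [hc]; group)
  refine ⟨v * x⁻¹, mul_mem (hZ hv) a', ?_⟩
  rw [h.mul _ (hY (hZ hv)) _ (hY a'), h.inv (hY a)]
  calc w = x * (x⁻¹ * w * ρ x) * (ρ x)⁻¹ := by group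
    _ = _ := by rw [e5]; group

omit h2 rZ sur in
theorem Hm.sq_all_aux1 {x x' z u u' w : Γ} (hx : x ∈ X) (hx' : x' ∈ X) (hz : z ∈ Z) (hu : u ∈ X)
    (hu' : u' ∈ X) (hw : w ∈ Z) (e : x * ρ x' * z = u * ρ u' * w) : x = u ∧ x' = u' ∧ z = w := by
  have k := mul_mem hw (inv_mem hz)
  have a : u⁻¹ * x * ρ (x' * u'⁻¹) =
      ρ u' * (w * z⁻¹) * (ρ u')⁻¹ * (w * z⁻¹)⁻¹ * (w * z⁻¹) := by
    rw [h.mul _ (hY (hX hx')) _ (inv_mem (hY (hX hu'))), h.inv (hY (hX hu')),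
      eq_mul_inv_of_mul_eq (eq_mul_inv_of_mul_eq e)]
    group
  obtain ⟨b, c⟩ := dir _ (mul_mem (inv_mem hu) hx) _ (mul_mem hx' (inv_mem hu'))
    (a ▸ mul_mem (cm _ (rY _ (hX hu')) _ (hZ k)) k)
  obtain rfl := inv_mul_eq_one.1 b
  obtain rfl := mul_inv_eq_one.1 c
  exact ⟨rfl, rfl, mul_left_cancel e⟩

/-- The map `(x, x', z) ↦ x * ρ x' * z` is a bijection. -/
theorem Hm.sq_all : Nat.card Y = Nat.card X * Nat.card X * Nat.card Z := by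
  have _ := And.intro h2 rZ
  rw [← Nat.card_prod, ← Nat.card_prod]
  refine (Nat.card_eq_of_bijective (fun p : (X × X) × Z => (⟨p.1.1 * ρ p.1.2 * p.2,
    mul_mem (mul_mem (hX p.1.1.2) (rY _ (hX p.1.2.2))) (hZ p.2.2)⟩ : Y)) ⟨?_, ?_⟩).symm
  · rintro ⟨⟨x, x'⟩, z⟩ ⟨⟨u, u'⟩, w⟩ e
    obtain ⟨a, b, c⟩ := h.sq_all_aux1 hY hX hZ rY cm dir x.2 x'.2 z.2 u.2 u'.2 w.2
      (congrArg Subtype.val e)
    rw [Subtype.ext a, Subtype.ext b, Subtype.ext c]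
  · rintro ⟨y, hy⟩
    obtain ⟨x, hx, x', hx', z, hz, rfl⟩ := sur y hy
    exact ⟨⟨⟨⟨x, hx⟩, ⟨x', hx'⟩⟩, ⟨z, hz⟩⟩, rfl⟩

omit sur dir rZ in
theorem Hm.sq_fix_aux1 (hs : Sq ρ Z) (x : X) :
    ∃ w ∈ Z, ρ (x * ρ x * w) = x * ρ x * w := by
  have a := hX x.2
  have b := rY _ a
  have c := hY (mul_mem a b)
  have e : ρ (x * ρ x) = ρ x * x := by rw [h.mul _ (hY a) _ (hY b), h2 _ (hY a)]
  have k : (x * ρ x)⁻¹ * ρ (x * ρ x) ∈ Z := by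
    have := cm _ (inv_mem b) _ (inv_mem a)
    rw [inv_inv, inv_inv] at this
    rwa [e, mul_inv_rev, ← mul_assoc]
  obtain ⟨w, hw, f⟩ := hs.coc _ k (by
    rw [h.mul _ (inv_mem c) _ (h.mem _ c), h.inv c, h2 _ c]; group)
  refine ⟨w⁻¹, inv_mem hw, ?_⟩
  rw [h.mul _ c _ (inv_mem (hY (hZ hw))), h.inv (hY (hZ hw)), inv_mul_eq_iff_eq_mul.1 f]
  group

/-- For `x` in `X` and `y = x * ρ x` the element `y⁻¹ * ρ y` is a cocycle in `Z`, so there is a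
fixed point `s x` in `y Z`. The map `(x, z) ↦ s x * z` is a bijection. -/
theorem Hm.sq_fix (hs : Sq ρ Z) : Nat.card {y // y ∈ Y ∧ ρ y = y} =
    Nat.card X * Nat.card {y // y ∈ Z ∧ ρ y = y} := by
  choose w hw e using h.sq_fix_aux1 h2 hY hX hZ rY cm hs
  have m : ∀ x : X, x * ρ x * w x ∈ Y := fun x =>
    mul_mem (mul_mem (hX x.2) (rY _ (hX x.2))) (hZ (hw x))
  rw [← Nat.card_prod]
  refine (Nat.card_eq_of_bijective (fun p : X × {y // y ∈ Z ∧ ρ y = y} =>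
    (⟨p.1 * ρ p.1 * w p.1 * p.2, mul_mem (m _) (hZ p.2.2.1), by
      rw [h.mul _ (hY (m _)) _ (hY (hZ p.2.2.1)), e, p.2.2.2]⟩ : {y // y ∈ Y ∧ ρ y = y}))
    ⟨?_, ?_⟩).symm
  · rintro ⟨x, z⟩ ⟨u, v⟩ f
    have f : x * ρ x * w x * z = u * ρ u * w u * v := congrArg Subtype.val f
    obtain rfl : x = u := Subtype.ext (h.sq_all_aux1 hY hX hZ rY cm dir x.2 x.2
      (mul_mem (hw x) z.2.1) u.2 u.2 (mul_mem (hw u) v.2.1) (by simpa only [mul_assoc] using f)).1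
    rw [Subtype.ext (mul_left_cancel f : (z : Γ) = v)]
  · rintro ⟨y, hy, f⟩
    obtain ⟨x, hx, x', hx', z, hz, g⟩ := sur y hy
    have a := rY _ (hX hx)
    have b := rY _ (hX hx')
    obtain rfl : x = x' := (h.sq_all_aux1 hY hX hZ rY cm dir hx hx' hz hx' hx
      (mul_mem (cm _ (inv_mem a) _ (inv_mem (hX hx'))) (rZ _ hz)) (by
        rw [← g, ← f, g, h.mul _ (hY (mul_mem (hX hx) b)) _ (hY (hZ hz)),
          h.mul _ (hY (hX hx)) _ (hY b), h2 _ (hY (hX hx'))]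
        group)).1
    have k : (x * ρ x * w ⟨x, hx⟩)⁻¹ * y = (w ⟨x, hx⟩)⁻¹ * z := by rw [g]; group
    refine ⟨⟨⟨x, hx⟩, ⟨(x * ρ x * w ⟨x, hx⟩)⁻¹ * y, k ▸ mul_mem (inv_mem (hw _)) hz, ?_⟩⟩,
      Subtype.ext (mul_inv_cancel_left _ _)⟩
    rw [h.mul _ (inv_mem (hY (m ⟨x, hx⟩))) _ (hY hy), h.inv (hY (m ⟨x, hx⟩)), e ⟨x, hx⟩, f]

theorem Hm.sq_step (hs : Sq ρ Z) : Sq ρ Y :=
  ⟨h.sq_coc h2 hY hX hZ rY rZ cm sur dir hs, by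
    rw [h.sq_fix h2 hY hX hZ rY rZ cm sur dir hs, h.sq_all h2 hY hX hZ rY rZ cm sur dir, mul_pow,
      hs.card, sq]⟩

end

/-- The element `n⁻¹ * ρ n` is a cocycle. -/
theorem Hm.sq_rep (h : Hm A ρ) (h2 : ∀ y ∈ A, ρ (ρ y) = y) (hY : Y ≤ A) (hs : Sq ρ Y) {n : Γ}
    (hn : n ∈ A) (k : n⁻¹ * ρ n ∈ Y) : ∃ y ∈ Y, n * y ∈ h.fix := by
  obtain ⟨y, hy, e⟩ := hs.coc _ k (by
    rw [h.mul _ (inv_mem hn) _ (h.mem n hn), h.inv hn, h2 n hn]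
    group)
  refine ⟨y⁻¹, inv_mem hy, mul_mem hn (inv_mem (hY hy)), ?_⟩
  rw [h.mul _ hn _ (inv_mem (hY hy)), h.inv (hY hy)]
  calc _ = n * (n⁻¹ * ρ n) * (ρ y)⁻¹ := by group
    _ = _ := by rw [e]; group

end Pool.Agent.Lib.MP_7d41f7_al
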