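import Pool.Agent.Lib.MP_7d41f7_al.E.RGn
import Pool.Agent.Lib.MP_7d41f7_al.E.RInv

/-! The endomorphism that exchanges long and short roots. -/

set_option autoImplicit false

namespace Pool.Agent.Lib.MP_7d41f7_al

variable {l : ℕ} {M : Matrix (Fin l) (Fin l) ℤ} {K : Type} [Field K] {g : Equiv.Perm (Fin l)}
  {β : Fin l → Fin l} {i j : Fin l} {d a b : ℕ} {t : Fin l → Kˣ} {w w' v v' : Au l}

/-- The map of the lattice that belongs to the exchange of long and short roots. -/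
def psi (g : Equiv.Perm (Fin l)) (β : Fin l → Fin l) : Lat l →ₗ[ℤ] Lat l :=
  (Matrix.of fun j k => if j ∈ ob3 g (β k) then (1 : ℤ) else 0).mulVecLin

/-- The combinatorial data. -/
structure RT (M : Matrix (Fin l) (Fin l) ℤ) (g : Equiv.Perm (Fin l)) (β : Fin l → Fin l) (d : ℕ) :
    Prop where
  dia : Dia M g d
  bc : ∀ i, β (g i) = β i
  bb : ∀ i, β (β i) ∈ ob3 g i
  lg : ∀ i, g i = i ↔ ¬ g (β i) = β i
  ps : ∀ i k, ∑ j ∈ ob3 g i, (M k j + M j k) = ∑ j ∈ ob3 g (β k), (M j (β i) + M (β i) j)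

/-- The elements are partners. -/
def Pw (M : Matrix (Fin l) (Fin l) ℤ) (g : Equiv.Perm (Fin l)) (β : Fin l → Fin l) (w w' : Au l) :
    Prop :=
  w ∈ Wf M g ∧ w' ∈ Wf M g ∧ ∀ c, psi g β (w c) = w' (psi g β c)

/-- The exponents. -/
def ex (g : Equiv.Perm (Fin l)) (a b : ℕ) (i : Fin l) : ℕ := if g i = i then a else b

/-- The action on the parameters of the torus. -/
def bt (g : Equiv.Perm (Fin l)) (β : Fin l → Fin l) (a b : ℕ) (t : Fin l → Kˣ) : Fin l → Kˣ :=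
  fun j => t (β j) ^ ex g a b (β j)

theorem Pw.one : Pw M g β 1 1 := ⟨one_mem _, one_mem _, fun _ => rfl⟩

theorem Pw.mul (h : Pw M g β w w') (h' : Pw M g β v v') : Pw M g β (w * v) (w' * v') := by
  refine ⟨mul_mem h.1 h'.1, mul_mem h.2.1 h'.2.1, fun c => ?_⟩
  rw [LinearEquiv.mul_apply, LinearEquiv.mul_apply, h.2.2, h'.2.2]

theorem Pw.inv (h : Pw M g β w w') : Pw M g β w⁻¹ w'⁻¹ := by
  refine ⟨inv_mem h.1, inv_mem h.2.1, fun c => w'.injective ?_⟩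
  rw [← h.2.2, ← LinearEquiv.mul_apply, ← LinearEquiv.mul_apply, mul_inv_cancel, mul_inv_cancel]
  rfl

theorem psi_pos {c : Lat l} (h : 0 ≤ c) : 0 ≤ psi g β c := by
  intro j
  change 0 ≤ ∑ k, (if j ∈ ob3 g (β k) then (1 : ℤ) else 0) * c k
  exact Finset.sum_nonneg fun k _ => mul_nonneg (by split_ifs <;> simp) (h k)

theorem bt_mul (t t' : Fin l → Kˣ) : bt g β a b (t * t') = bt g β a b t * bt g β a b t' :=
  funext fun _ => mul_pow _ _ _

namespace RT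

variable (T : RT M g β d)
include T

theorem psi_sr (k : Fin l) : psi g β (sr k) = so g (β k) := by
  funext j
  simp [psi, so, sr, T.dia.ob3_eq, Finset.sum_apply, Pi.single_apply]

theorem bc' (h : j ∈ orb g i) : β j = β i := by
  rw [← T.dia.ob3_eq] at h
  simp only [ob3, Finset.mem_insert, Finset.mem_singleton] at h
  rcases h with rfl | rfl | rfl <;> simp only [T.bc]

theorem orb_bb (i : Fin l) : orb g (β (β i)) = orb g i := by
  exact orb_congr (T.dia.ob3_eq i ▸ T.bb i)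

theorem mem_orb_b : j ∈ orb g (β i) ↔ β j ∈ orb g i := by
  refine ⟨fun h => T.bc' h ▸ T.dia.ob3_eq i ▸ T.bb i, fun h => ?_⟩
  rw [← T.bc' h, T.orb_bb]
  exact mem_orb.2 (.refl _ _)

theorem ex_orb (h : j ∈ orb g i) : ex g a b j = ex g a b i := by
  exact if_congr ((T.dia.nu_wo_aux2 (self_ob3 j)).symm.trans
    (T.dia.nu_wo_aux2 (T.dia.ob3_eq i ▸ h))) rfl rfl

theorem ex_mul (i : Fin l) : ex g a b i * ex g a b (β i) = a * b := by
  have := T.lg i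
  unfold ex
  split_ifs with h1 h2 h2
  exacts [absurd h2 (this.1 h1), rfl, mul_comm _ _, absurd (this.2 h2) h1]

/-- Both sides are linear; `rI_apply`, `psi_sr`, `ps`, and `ip (so k) (sr j)` is constant on the
orbits. -/
theorem pw_r (i : Fin l) : Pw M g β (rI M (orb g i)) (rI M (orb g (β i))) := by
  refine ⟨T.dia.ade.rI_mem T.dia.sy _, T.dia.ade.rI_mem T.dia.sy _, fun c => ?_⟩
  have k (k : Fin l) : psi g β (rI M (orb g i) (sr k)) = rI M (orb g (β i)) (psi g β (sr k)) := by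
    have e1 : ∀ j ∈ orb g i, psi g β (ip M (sr k) (sr j) • sr j) = (M k j + M j k) • so g (β i) :=
      fun j hj => by rw [map_smul, T.psi_sr, T.bc' hj, ip_sr_sr]
    have e2 : ∀ j ∈ orb g (β i), ip M (so g (β k)) (sr j) • sr j =
        (∑ j ∈ orb g i, (M k j + M j k)) • sr j := fun j hj => by
      rw [orb_const (fun b => ip M (so g (β k)) b) (fun b => by
        conv_lhs => rw [so, ← ga_orb, T.dia.sy.ip]
        rfl) hj, ← T.dia.ob3_eq i, T.ps, T.dia.ob3_eq, so,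
        ← Finset.sum_congr rfl fun t _ => ip_sr_sr (M := M) t (β i)]
      have := T.dia.ade.rI_apply_aux1 (I := orb g (β k)) (fun _ => 1) (sr (β i))
      simp only [one_smul, one_mul] at this
      rw [this]
    rw [T.dia.ade.rI_apply (fun j hj t ht => T.dia.sy.orth hj ht),
      T.dia.ade.rI_apply (fun j hj t ht => T.dia.sy.orth hj ht), map_sub, map_sum, T.psi_sr,
      Finset.sum_congr rfl e1, Finset.sum_congr rfl e2, ← Finset.sum_smul, ← Finset.smul_sum]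
    rfl
  rw [← sum_sr c]
  simp only [map_sum, map_smul, k]

theorem pw_wd (L : List (Fin l)) : Pw M g β (wd M g L) (wd M g (L.map β)) := by
  induction L with
  | nil => exact Pw.one
  | cons i L ih => exact ih.mul (T.pw_r i)

theorem wd_bb (L : List (Fin l)) : wd M g ((L.map β).map β) = wd M g L := by
  induction L with
  | nil => rfl
  | cons i L ih => rw [List.map_cons, List.map_cons, wd, wd, ih, T.orb_bb]

/-- `w' (so (β i)) = psi (w (sr i))`, and the summands of `w' (so (β i))` have the same sign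
(`pos_ob3`). -/
theorem sign (h : Pw M g β w w') (i : Fin l) : 0 ≤ w (sr i) ↔ 0 ≤ w' (sr (β i)) := by
  have A := T.dia.ade
  have e : psi g β (w (sr i)) = ∑ j ∈ orb g (β i), w' (sr j) := by
    rw [h.2.2, T.psi_sr, so, map_sum]
  have r (j : Fin l) : w' (sr j) ∈ roots M := (A.W_root h.2.1.1).2 (A.sr_mem j)
  have s (j : Fin l) (hj : j ∈ orb g (β i)) : 0 ≤ w' (sr j) ↔ 0 ≤ w' (sr (β i)) :=
    T.dia.pos_ob3 (T.dia.WF_univ ▸ h.2.1) (T.dia.ob3_eq _ ▸ hj)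
  have m : β i ∈ orb g (β i) := mem_orb.2 (.refl _ _)
  refine ⟨fun p => by_contra fun n => A.ivs_mul_rf_aux1 (A.neg_mem (r (β i)))
    ((A.not_pos_iff (r _)).1 n) ?_, fun p => by_contra fun n => A.ivs_mul_rf_aux1 (r (β i)) p ?_⟩
  · have := Finset.single_le_sum (f := fun j => -w' (sr j))
      (fun j hj => (A.not_pos_iff (r j)).1 fun q => n ((s j hj).1 q)) m
    rw [Finset.sum_neg_distrib, ← e, neg_le_neg_iff] at this
    exact (neg_neg (w' (sr (β i)))).symm ▸ (psi_pos p).trans this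
  · have := Finset.single_le_sum (f := fun j => w' (sr j)) (fun j hj => (s j hj).2 p) m
    have q := psi_pos (g := g) (β := β) ((A.not_pos_iff ((A.W_root h.1.1).2 (A.sr_mem i))).1 n)
    rw [map_neg, e] at q
    exact q.trans (neg_le_neg this)

theorem bt_mem (t : Fin l → Kˣ) : bt g β a b t ∈ TFs (RingHom.id K) g := by
  exact mem_TFs_id.2 fun j => by rw [bt, bt, T.bc]

theorem bt_ind (i : Fin l) (c : Kˣ) : bt g β a b (ind g i c) = ind g (β i) (c ^ ex g a b i) := by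
  funext j
  simp only [bt, ind, T.mem_orb_b]
  split_ifs with h
  exacts [by rw [T.ex_orb h], one_pow _]

end RT

/-- The conditions on the roots in one step of the filtration. -/
structure Stp (M : Matrix (Fin l) (Fin l) ℤ) (u v w x u' v' w' x' : Au l) : Prop where
  c1 : ∀ c ∈ roots M, c ∈ Rs u w ↔ c ∈ Rs u' w'
  c2 : ∀ c ∈ roots M, c ∈ Rs u v → c ∈ Rs u w
  c3 : ∀ c ∈ roots M, c ∈ Rs v w ↔ c ∈ Rs u' x'
  c4 : ∀ c ∈ roots M, c ∈ Rs u' v' → c ∈ Rs u' x'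
  c5 : ∀ c ∈ roots M, c ∈ Rs v' x' ↔ c ∈ Rs v x
  c6 : ∀ c ∈ roots M, c ∈ Rs u w → ∀ e ∈ roots M, e ∈ Rs u w → ip M c e = -1 → c + e ∈ Rs v x

namespace CG

variable {Γ : Type} [Group Γ]

/-- The endomorphism `ρ` of the folded group. -/
structure RD (C : CG M K Γ) (g : Equiv.Perm (Fin l)) (β : Fin l → Fin l) (τ : Γ →* Γ) (ρ : Γ → Γ)
    (a b : ℕ) : Prop where
  hom : C.Hom C τ (RingHom.id K) (ga g)
  hm : Hm (C.St τ) ρ
  xp : ∀ ε : ℤ, ε = 1 ∨ ε = -1 → ∀ i s, ρ (C.xs g ε i s) = C.xs g ε (β i) (s ^ ex g a b i)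
  ee : ∀ s : K, s ^ (a * b) = s
  inj : ∀ t ∈ TFs (RingHom.id K) g, ccs M K t = 1 → t = 1

namespace RD

variable {C : CG M K Γ} {τ : Γ →* Γ} {ρ : Γ → Γ} {y : Γ} (D : C.RD g β τ ρ a b) (T : RT M g β d)
include D T

/-- `nI_eq`. -/
theorem nI (i : Fin l) (c : Kˣ) : ρ (C.nI g i c) = C.nI g (β i) (c ^ ex g a b i) := by
  have h1 := xs_St T.dia.ade T.dia.sy D.hom (.inl rfl) i (c : K)
  have h2 := xs_St T.dia.ade T.dia.sy D.hom (.inr rfl) i ((c⁻¹ : Kˣ) : K)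
  rw [nI_eq T.dia.ade T.dia.sy, nI_eq T.dia.ade T.dia.sy, D.hm.mul _ (mul_mem h1 h2) _ h1,
    D.hm.mul _ h1 _ h2, D.xp _ (.inl rfl), D.xp _ (.inr rfl), ← inv_pow, Units.val_pow_eq_pow_val,
    Units.val_pow_eq_pow_val]

/-- `N_Np` and induction over the generators (`nO_const`, `nO_N`, `pw_r`). -/
theorem N (n : C.N) (hn : (n : Γ) ∈ C.St τ) :
    ∃ n' : C.N, ρ n = n' ∧ Pw M g β (C.π n) (C.π n') := by
  have hA := T.dia.ade
  have hS := T.dia.sy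
  have k : ∀ x ∈ C.Np (RingHom.id K) g,
      ∃ n n' : C.N, (n : Γ) = x ∧ ρ x = n' ∧ Pw M g β (C.π n) (C.π n') := fun x hx => by
    induction hx using Subgroup.closure_induction with
    | mem x hx =>
      obtain ⟨i, t, ht, rfl⟩ := hx
      obtain ⟨m, e, k⟩ := nO_N (C := C) hA hS i t
      obtain ⟨m', e', k'⟩ := nO_N (C := C) hA hS (β i) fun _ => t i ^ ex g a b i
      exact ⟨m, m', e, by rw [nO_const ht, D.nI T, e']; rfl, k ▸ k' ▸ T.pw_r i⟩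
    | one => exact ⟨1, 1, rfl, D.hm.one, by rw [map_one]; exact Pw.one⟩
    | mul x y hx hy ix iy =>
      obtain ⟨m, m', rfl, e, k⟩ := ix
      obtain ⟨o, o', rfl, e', k'⟩ := iy
      exact ⟨m * o, m' * o', rfl, by
        rw [D.hm.mul _ (Np_le hA hS D.hom hx).1 _ (Np_le hA hS D.hom hy).1, e, e']; rfl, by
        rw [map_mul, map_mul]; exact k.mul k'⟩
    | inv x hx ix =>
      obtain ⟨m, m', rfl, e, k⟩ := ix
      exact ⟨m⁻¹, m'⁻¹, rfl, by rw [D.hm.inv (Np_le hA hS D.hom hx).1, e]; rfl, by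
        rw [map_inv, map_inv]; exact k.inv⟩
  obtain ⟨m, m', e, e', h⟩ := k n (N_Np hA hS D.hom n hn)
  exact ⟨m', e', Subtype.ext e ▸ h⟩

/-- `U_gen` with the preimage of `U`; `sign`. -/
theorem U (hy : y ∈ C.St τ) (hu : y ∈ C.U) : ρ y ∈ C.U := by
  have hA := T.dia.ade
  refine (U_gen (L := D.hm.pre C.U) D.hom T.dia (fun n hn i s h => ?_) hy hu).2
  have h1 := xs_St hA T.dia.sy D.hom (.inl rfl) i s
  obtain ⟨n', e, k⟩ := D.N T n hn
  refine ⟨mul_mem (mul_mem hn h1) (inv_mem hn), ?_⟩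
  rw [D.hm.conj hn h1, e, D.xp _ (.inl rfl)]
  refine conj_Us hA n' ?_ (xs_mem hA _ _)
  rintro _ - ⟨j, hj, rfl⟩
  exact (T.dia.pos_ob3 (T.dia.WF_univ ▸ k.2.1) (T.dia.ob3_eq _ ▸ hj)).2 ((T.sign k i).1 h)

/-- Conjugate by an element over the longest element. -/
theorem Um (hy : y ∈ C.St τ) (hu : y ∈ C.Um) : ρ y ∈ C.Um := by
  have hA := T.dia.ade
  obtain ⟨w, hw, e⟩ := hA.exists_w0f T.dia.sy
  obtain ⟨n, hn, rfl⟩ := Np_surj (C := C) (f := RingHom.id K) hA T.dia.sy hw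
  have hn := (Np_le hA T.dia.sy D.hom hn).1
  have h1 : (n⁻¹ : C.N) * y * ((n⁻¹ : C.N) : Γ)⁻¹ ∈ C.U := conj_Us hA n⁻¹ (fun c hc h0 => by
    rw [map_inv]
    by_contra h
    have r := (hA.W_root (inv_mem (C.π_mem n))).2 hc
    have h2 : -((C.π n)⁻¹ c) ∈ ivs M (C.π n) :=
      e ▸ mem_posR.2 ⟨hA.neg_mem r, (hA.not_pos_iff r).1 h⟩
    refine (mem_ivs.1 h2).2.2 ?_
    rw [map_neg, ← LinearEquiv.mul_apply, mul_inv_cancel]
    exact neg_nonneg.2 h0) hu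
  have h2 : ((n⁻¹ : C.N) : Γ) * y * ((n⁻¹ : C.N) : Γ)⁻¹ ∈ C.St τ :=
    mul_mem (mul_mem (inv_mem hn) hy) (inv_mem (inv_mem hn))
  obtain ⟨n', e', k⟩ := D.N T n hn
  have h3 : ∀ j, C.π n' (sr j) ≤ 0 := fun j =>
    (hA.pos_or_neg ((hA.W_root (C.π_mem n')).2 (hA.sr_mem j))).resolve_left fun h =>
      (mem_ivs.1 (e ▸ mem_posR.2 ⟨hA.sr_mem (β j), sr_nonneg _⟩ : _ ∈ ivs M (C.π n))).2.2
        ((T.sign k _).2 ((T.dia.pos_ob3 (T.dia.WF_univ ▸ k.2.1) (T.bb j)).2 h))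
  rw [show y = n * (((n⁻¹ : C.N) : Γ) * y * ((n⁻¹ : C.N) : Γ)⁻¹) * (n : Γ)⁻¹ by
    rw [Subgroup.coe_inv]; group, D.hm.conj hn h2, e']
  refine conj_Us hA n' (fun c _ h0 => ?_) (D.U T h2 h1)
  change C.π n' c ≤ 0
  rw [← sum_sr c, map_sum]
  exact Finset.sum_nonpos fun j _ => by
    rw [map_zsmul]
    exact smul_nonpos_of_nonneg_of_nonpos (h0 j) (h3 j)

/-- `St_gen`. -/
theorem sq : ∀ y ∈ C.St τ, ρ (ρ y) = y := by
  have h : Hm (C.St τ) fun y => ρ (ρ y) := ⟨fun y hy => D.hm.mem _ (D.hm.mem y hy), fun y hy z hz =>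
    by rw [D.hm.mul y hy z hz, D.hm.mul _ (D.hm.mem y hy) _ (D.hm.mem z hz)]⟩
  refine fun y hy => (St_gen (L := h.fix) D.hom T.dia (fun ε hε i s => ?_) hy).2
  refine ⟨xs_St T.dia.ade T.dia.sy D.hom hε i s, ?_⟩
  change ρ (ρ _) = _
  rw [D.xp _ hε, D.xp _ hε, ← pow_mul, T.ex_mul, D.ee, xs, T.orb_bb, xs]

/-- `St_cl`, `uniq_N`, `uniq_U`, `mem_Us_ivs`, `U_Um`. -/
theorem cl : C.Cl D.hm.fix := by
  have hA := T.dia.ade
  have k := St_cl hA T.dia.sy D.hom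
  refine ⟨fun n u hu v hv h => ?_, fun y hy z hz h => ?_⟩
  · obtain ⟨h1, h2⟩ := k.br n u hu v hv h.1
    have hn : (n : Γ) ∈ C.St τ := by
      have := mul_mem (mul_mem (inv_mem h1) h.1) (inv_mem h2)
      rwa [show u⁻¹ * (u * n * v) * v⁻¹ = n by group] at this
    obtain ⟨n', e, -⟩ := D.N T n hn
    rw [← map_inv, mem_Us_ivs hA] at hu
    have e2 := h.2
    rw [D.hm.mul _ (mul_mem h1 hn) _ h2, D.hm.mul _ h1 _ hn, e] at e2
    obtain rfl : n' = n := uniq_N hA (D.U T h1 hu.1) (D.U T h2 hv) hu.1 hv e2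
    have h3 := D.Um T (mul_mem (mul_mem (inv_mem hn) h1) (inv_mem (inv_mem hn))) hu.2
    rw [D.hm.conj (inv_mem hn) h1, D.hm.inv hn, e] at h3
    have h4 := (mem_Us_ivs hA n'⁻¹).2 ⟨D.U T h1 hu.1, h3⟩
    have h5 := (mem_Us_ivs hA n'⁻¹).2 hu
    rw [map_inv] at h4 h5
    obtain ⟨a1, a2⟩ := uniq_U hA h4 (D.U T h2 hv) h5 hv e2
    exact ⟨⟨h1, a1⟩, h2, a2⟩
  · have h1 := k.gs y hy z hz h.1
    have h2 : z ∈ C.St τ := (mul_mem_cancel_left h1).1 h.1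
    have e := h.2
    rw [D.hm.mul _ h1 _ h2] at e
    have e2 : y⁻¹ * ρ y = z * (ρ z)⁻¹ := by
      rw [inv_mul_eq_iff_eq_mul, ← mul_assoc, ← e, mul_inv_cancel_right]
    have h3 := U_Um (e2 ▸ mul_mem hz (inv_mem (D.U T h2 hz)))
      (mul_mem (inv_mem hy) (D.Um T h1 hy))
    exact ⟨h1, (inv_mul_eq_one.1 h3).symm⟩

theorem pw (h : w ∈ C.Vw D.hm.fix) : Pw M g β w w := by
  obtain ⟨n, hn, rfl⟩ := mem_Vw.1 h
  obtain ⟨n', e, k⟩ := D.N T n hn.1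
  obtain rfl : n = n' := Subtype.ext (hn.2.symm.trans e)
  exact k

theorem lift (L : List (Fin l)) : ∃ n n' : C.N, (n : Γ) ∈ C.St τ ∧ C.π n = wd M g L ∧
    ρ n = n' ∧ C.π n' = wd M g (L.map β) := by
  have hA := T.dia.ade
  have hS := T.dia.sy
  induction L with
  | nil => exact ⟨1, 1, one_mem _, map_one _, D.hm.one, map_one _⟩
  | cons i L ih =>
    obtain ⟨n, n', h1, h2, h3, h4⟩ := ih
    obtain ⟨m, a1, a2⟩ := nO_N (C := C) hA hS i fun _ => 1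
    obtain ⟨m', b1, b2⟩ := nO_N (C := C) hA hS (β i) fun _ => 1 ^ ex g a b i
    have hm : (m : Γ) ∈ C.St τ := a1 ▸ nI_St hA hS D.hom i 1
    refine ⟨n * m, n' * m', mul_mem h1 hm, by rw [map_mul, h2, a2]; rfl, ?_,
      by rw [map_mul, h4, b2]; rfl⟩
    rw [Subgroup.coe_mul, Subgroup.coe_mul, D.hm.mul _ h1 _ hm, h3, a1, b1]
    exact congrArg _ (D.nI T i 1)

/-- `lift`, `mem_Z`. -/
theorem Z (L L' : List (Fin l)) (hy : y ∈ C.St τ) (h : y ∈ C.Us (Rs (wd M g L) (wd M g L'))) :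
    ρ y ∈ C.Us (Rs (wd M g (L.map β)) (wd M g (L'.map β))) := by
  have hA := T.dia.ade
  obtain ⟨n, n', h1, h2, h3, h4⟩ := D.lift T L
  obtain ⟨m, m', k1, k2, k3, k4⟩ := D.lift T L'
  rw [← h2, ← k2, mem_Z hA] at h
  rw [← h4, ← k4, mem_Z hA, ← h3, ← k3, ← D.hm.conj h1 hy, ← D.hm.conj k1 hy]
  exact ⟨D.U T (mul_mem (mul_mem h1 hy) (inv_mem h1)) h.1,
    D.Um T (mul_mem (mul_mem k1 hy) (inv_mem k1)) h.2⟩

/-- `sq_step` with `X = St ⊓ Us (Rs u v)`; `Z_fac` twice, `Z_dir` twice, `Us_comm`. -/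
theorem step {L₁ L₂ L₃ L₄ : List (Fin l)}
    (h : Stp M (wd M g L₁) (wd M g L₂) (wd M g L₃) (wd M g L₄) (wd M g (L₁.map β))
      (wd M g (L₂.map β)) (wd M g (L₃.map β)) (wd M g (L₄.map β)))
    (hs : Sq ρ (C.St τ ⊓ C.Us (Rs (wd M g L₂) (wd M g L₄)))) :
    Sq ρ (C.St τ ⊓ C.Us (Rs (wd M g L₁) (wd M g L₃))) := by
  have hA := T.dia.ade
  have hS := T.dia.sy
  have W : ∀ L, wd M g L ∈ Wg M := fun L => (mem_Wf.1 (hA.wd_mem hS L)).1
  have F := fun L L' L'' k y => Z_fac (y := y) hA (St_cl hA hS D.hom) (W L)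
    ((St_Vw hA hS D.hom).ge (hA.wd_mem hS L')) (W L'') k
  have k1 := fun c hc k => (h.c3 c hc).2 (hA.Rs_sub (W _) (W _) (W _) h.c4 c hc ((h.c5 c hc).2 k))
  have k2 := fun c hc k => hA.Rs_sub (W _) (W _) (W _) h.c2 c hc (k1 c hc k)
  refine D.hm.sq_step (X := C.St τ ⊓ C.Us (Rs (wd M g L₁) (wd M g L₂))) (D.sq T) inf_le_left
    (inf_le_inf_left _ (Us_mono h.c2)) (inf_le_inf_left _ (Us_mono k2))
    (fun y hy => ⟨D.hm.mem y hy.1, Us_mono (fun c hc => (h.c1 c hc).2) (D.Z T _ _ hy.1 hy.2)⟩)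
    (fun y hy => ⟨D.hm.mem y hy.1, Us_mono (fun c hc => (h.c5 c hc).1) (D.Z T _ _ hy.1 hy.2)⟩)
    (fun x hx y hy => ⟨mul_mem (mul_mem (mul_mem hx.1 hy.1) ((C.St τ).inv_mem hx.1))
      ((C.St τ).inv_mem hy.1),
      Us_comm hA k2 (fun c hc k e he k' => ⟨fun q => hA.ivs_mul_rf_aux1 ((hA.W_root (W L₁)).2 hc)
        k.1 (by rw [← map_neg, ← q]; exact k'.1), h.c6 c hc k e he k'⟩) hx.2 hy.2⟩)
    (fun y hy => ?_) (fun x hx y hy k => ?_) hs
  · obtain ⟨x, hx, z, hz, rfl⟩ := F _ _ _ h.c2 y hy.1 hy.2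
    obtain ⟨x', hx', z', hz', rfl⟩ := F _ _ _ h.c4 z hz.1
      (Us_mono (fun c hc => (h.c3 c hc).1) hz.2)
    have k := D.Z T _ _ hx'.1 hx'.2
    rw [T.wd_bb, T.wd_bb] at k
    exact ⟨x, hx, ρ x', ⟨D.hm.mem _ hx'.1, k⟩, z', ⟨hz'.1, Us_mono (fun c hc => (h.c5 c hc).1) hz'.2⟩,
      by rw [D.sq T _ hx'.1, mul_assoc]⟩
  · have k3 := D.Z T _ _ hy.1 hy.2
    obtain rfl : x = 1 := Z_dir hA (W L₂) hx.2 ((mul_mem_cancel_right
      (Us_mono (fun c hc q => (h.c3 c hc).2 (h.c4 c hc q)) k3)).1 (Us_mono k1 k.2))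
    rw [one_mul] at k
    refine ⟨rfl, ?_⟩
    rw [← D.sq T y hy.1, Z_dir hA (W _) k3 (Us_mono (fun c hc => (h.c5 c hc).2) k.2), D.hm.one]

/-- `TFs_ind`, `hI_chi`, `nI`, `Chi.eq`. -/
theorem tor (ht : t ∈ TFs (RingHom.id K) g) (hy : y ∈ C.T) (h : C.Chi y (ccs M K t)) :
    y ∈ C.St τ ∧ ρ y ∈ C.T ∧ C.Chi (ρ y) (ccs M K (bt g β a b t)) := by
  have hA := T.dia.ade
  have hS := T.dia.sy
  obtain ⟨z, hz, k, k'⟩ := TFs_ind (p := fun t => ∃ z ∈ C.T, C.Chi z (ccs M K t) ∧ z ∈ C.St τ ∧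
    ρ z ∈ C.T ∧ C.Chi (ρ z) (ccs M K (bt g β a b t))) ⟨1, one_mem _, by
      rw [D.hm.one, show bt g β a b (1 : Fin l → Kˣ) = 1 from funext fun _ => one_pow _, map_one]
      exact ⟨Chi.one, one_mem _, one_mem _, Chi.one⟩⟩ (fun s _ i c ⟨z, z1, z2, z3, z4, z5⟩ => by
      obtain ⟨e1, e2⟩ := hI_chi (C := C) hA hS i c
      obtain ⟨e3, e4⟩ := hI_chi (C := C) hA hS (β i) (c ^ ex g a b i)
      have e5 := nI_St hA hS D.hom i
      have e6 := mul_mem (inv_mem (e5 1)) (e5 c⁻¹)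
      refine ⟨_, mul_mem e1 z1, ?_, mul_mem e6 z3, ?_⟩
      · rw [map_mul, ccs_ind]
        exact e2.mul z2
      · rw [D.hm.mul _ e6 _ z3, D.hm.mul _ (inv_mem (e5 1)) _ (e5 _), D.hm.inv (e5 1), D.nI T,
          D.nI T, one_pow, inv_pow, bt_mul, map_mul, T.bt_ind, ccs_ind]
        exact ⟨mul_mem e3 z4, e4.mul z5⟩) t ht
  exact h.eq hy hz k ▸ k'

omit D T in
theorem sqT_aux1 (ht : t ∈ TFs (RingHom.id K) g) :
    (fun j => if g j = j then t j else 1) ∈ TFs (RingHom.id K) g :=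
  mem_TFs_id.2 fun j => if_congr g.injective.eq_iff (mem_TFs_id.1 ht j) rfl

theorem sqT_aux2 (ht : t ∈ TFs (RingHom.id K) g) : (fun j => if g j = j then t j else 1) *
    bt g β a b (fun j => if g j = j then bt g β a b t j else 1) = t := by
  funext j
  have k := mem_TFs_id.1 ht
  have e : t (β (β j)) = t j := by
    have := T.bb j
    simp only [ob3, Finset.mem_insert, Finset.mem_singleton] at this
    rcases this with e | e | e <;> simp only [e, k]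
  by_cases h : g j = j
  · simp [bt, h, (T.lg j).1 h]
  · have h1 := not_not.1 (mt (T.lg j).2 h)
    have h2 := (T.lg _).1 h1
    simp only [Pi.mul_apply, bt, ex, h, h1, h2, e, if_true, if_false, one_mul, ← pow_mul,
      mul_comm b]
    exact Units.ext (by simpa using D.ee (t j))

/-- `sq_step` with `Z = ⊥` and `X` the elements whose parameter is trivial on the nodes that `g`
moves; `TS_eq`, `tor`, `inj`, `exists_hT`. -/
theorem sqT : Sq ρ (C.T ⊓ C.St τ) := by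
  have hA := T.dia.ade
  let X : Subgroup Γ :=
    { carrier := {y | y ∈ C.T ∧ ∃ t ∈ TFs (RingHom.id K) g, (∀ j, g j ≠ j → t j = 1) ∧
        C.Chi y (ccs M K t)}
      one_mem' := ⟨one_mem _, 1, one_mem _, fun _ _ => rfl, map_one (ccs M K) ▸ Chi.one⟩
      mul_mem' := fun ⟨ha, t, ht, k, h⟩ ⟨hb, t', ht', k', h'⟩ => ⟨mul_mem ha hb, _, mul_mem ht ht',
        fun j e => by simp [k j e, k' j e], map_mul (ccs M K) t t' ▸ h.mul h'⟩
      inv_mem' := fun ⟨ha, t, ht, k, h⟩ => ⟨inv_mem ha, _, inv_mem ht, fun j e => by simp [k j e],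
        map_inv (ccs M K) t ▸ h.inv⟩ }
  have e := TS_eq hA T.dia.sy D.hom
  refine D.hm.sq_step (X := X) (Z := ⊥) (D.sq T) inf_le_right
    (fun y ⟨h, t, ht, _, k⟩ => ⟨h, (D.tor T ht h k).1⟩) bot_le (fun y hy => ?_)
    (fun z hz => (Subgroup.mem_bot.1 hz).symm ▸ D.hm.one)
    (fun x hx y hy => ?_) (fun y hy => ?_) ?_ (D.hm.sq_bot fun _ => Subgroup.mem_bot.1)
  · obtain ⟨h, t, ht, k⟩ := e.le hy
    exact ⟨(D.tor T ht h k).2.1, D.hm.mem y hy.2⟩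
  · rw [(T_comm hA hx.1 hy.1).eq, Subgroup.mem_bot]
    group
  · obtain ⟨h, t, ht, k⟩ := e.le hy
    have t1 := sqT_aux1 ht
    have t2 := sqT_aux1 (T.bt_mem (a := a) (b := b) t)
    obtain ⟨x, x1, -, x3⟩ := exists_hT hA T.dia.sy D.hom t1
    obtain ⟨z, z1, -, z3⟩ := exists_hT hA T.dia.sy D.hom t2
    obtain ⟨-, z4, z5⟩ := D.tor T t2 z1 z3
    have k1 := Chi.mul (χ := ccs M K _) x3 z5
    rw [← map_mul, D.sqT_aux2 T ht] at k1
    exact ⟨x, ⟨x1, _, t1, fun j h => if_neg h, x3⟩, z, ⟨z1, _, t2, fun j h => if_neg h, z3⟩, 1,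
      one_mem _, (k.eq h (mul_mem x1 z4) k1).trans (mul_one _).symm⟩
  · rintro x ⟨x1, s, hs, x2, x3⟩ z ⟨z1, t, ht, z2, z3⟩ h
    obtain ⟨z6, z4, z5⟩ := D.tor T ht z1 z3
    have k1 := x3.mul z5
    rw [Subgroup.mem_bot.1 h, ← map_mul] at k1
    have k2 := D.inj _ (mul_mem hs (T.bt_mem t)) (k1.uniq hA Chi.one)
    obtain rfl : s = 1 := funext fun j => by
      by_cases c : g j = j
      · simpa [bt, z2 _ ((T.lg j).1 c)] using congrFun k2 j
      · exact x2 j c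
    obtain rfl : x = 1 := x3.eq x1 (one_mem _) (map_one (ccs M K) ▸ Chi.one)
    rw [one_mul, Subgroup.mem_bot] at h
    exact ⟨rfl, by rw [← D.sq T z z6, h, D.hm.one]⟩

/-- `lift`, `sq_rep`. -/
theorem rep {L : List (Fin l)} (h : wd M g (L.map β) = wd M g L) : wd M g L ∈ C.Vw D.hm.fix := by
  obtain ⟨n, n', h1, h2, h3, h4⟩ := D.lift T L
  obtain ⟨y, ⟨hy, -⟩, k⟩ := D.hm.sq_rep (D.sq T) inf_le_right (D.sqT T) h1
    ⟨mem_T.2 ⟨n⁻¹ * n', by rw [map_mul, map_inv, h2, h4, h, inv_mul_cancel], by rw [h3]; rfl⟩,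
      (C.St τ).mul_mem ((C.St τ).inv_mem h1) (D.hm.mem _ h1)⟩
  obtain ⟨m, e, rfl⟩ := mem_T.1 hy
  exact mem_Vw.2 ⟨n * m, k, by rw [map_mul, e, mul_one, h2]⟩

/-- `card_TS_eq`. -/
theorem card_T [Finite K] [Finite Γ] :
    Nat.card (C.T ⊓ D.hm.fix : Subgroup Γ) ^ 2 = Nat.card (TFs (RingHom.id K) g) := by
  rw [← card_TS_eq T.dia.ade T.dia.sy D.hom D.inj, ← (D.sqT T).card]
  exact congrArg (· ^ 2) (Nat.card_congr (Equiv.subtypeEquivRight fun _ => and_assoc.symm))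

/-- `van_bru` with `μ` from `exists_rho` and `t = h * ρ h`, where `h` is the element of `hI_chi`
for a generator `c` and `i` with `w⁻¹ (sr i)` negative; `sign`, `exp_of` for `i` and `β i`. -/
theorem van [Finite K] [Finite Γ] (ha : 72 * l * (1 + a) < Nat.card K - 1)
    (hb : 72 * l * (1 + b) < Nat.card K - 1) {r : ℕ} (hr : r.Prime) (h1 : ¬ r ∣ Nat.card K)
    (h2 : ¬ r ∣ Nat.card K - 1) (x : D.hm.fix) (hx : r ∣ orderOf x) :
    orderOf x ∈ Vo D.hm.fix := by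
  have hA := T.dia.ade
  obtain ⟨μ, hμ, -⟩ := hA.exists_rho
  obtain ⟨c, hc⟩ := IsCyclic.exists_ofOrder_eq_natCard (α := Kˣ)
  rw [Nat.card_units] at hc
  refine van_bru hA (D.cl T) μ (fun w hw w1 => ?_) hr h1 h2 x hx
  have p := (D.pw T hw).inv
  obtain ⟨i, -, hi⟩ := hA.exch (hA.Wg_eq ▸ (mem_Wf.1 p.1).1) (inv_ne_one.2 w1)
  obtain ⟨i1, i2⟩ := hA.exp_of hμ (D.pw T hw).1 hi
  obtain ⟨j1, j2⟩ := hA.exp_of hμ (D.pw T hw).1 (mt (T.sign p i).2 hi)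
  obtain ⟨y, y1, y2, y3⟩ := exists_hT hA T.dia.sy D.hom (ind_mem (g := g) i c)
  obtain ⟨-, y4, y5⟩ := D.tor T (ind_mem i c) y1 y3
  have k := Chi.mul (χ := ccs M K _) y3 y5
  rw [T.bt_ind, ccs_ind, ccs_ind] at k
  refine ⟨_, mul_mem y1 y4, ⟨mul_mem y2 (D.hm.mem y y2), ?_⟩, _, k, fun e => ?_⟩
  · rw [D.hm.mul _ y2 _ (D.hm.mem y y2), D.sq T y y2, (T_comm hA y4 y1).eq]
  have k3 : c ^ (ip M (so g i) (μ - w μ) + ex g a b i * ip M (so g (β i)) (μ - w μ)) = 1 := by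
    rw [zpow_add, zpow_mul, zpow_natCast, ip_sub_right, ip_sub_right, zpow_sub, zpow_sub,
      mul_mul_mul_comm, ← mul_inv, mul_inv_eq_one]
    exact e.symm
  have k4 : (72 * l * (1 + ex g a b i : ℕ) : ℕ) < orderOf c := by
    rw [hc, ex]
    split_ifs
    exacts [ha, hb]
  have k5 := Int.le_of_dvd (add_pos_of_pos_of_nonneg i1 (mul_nonneg (Nat.cast_nonneg _) j1.le))
    (orderOf_dvd_iff_zpow_eq_one.2 k3)
  have k6 := mul_le_mul_of_nonneg_left j2 (Nat.cast_nonneg (α := ℤ) (ex g a b i))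
  have k7 := Nat.cast_lt (α := ℤ).2 k4
  push_cast at k7
  linarith

end RD

end CG

end Pool.Agent.Lib.MP_7d41f7_al
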