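import Pool.Agent.Lib.MP_7d41f7_al.E.ETor
import Pool.Agent.Lib.MP_7d41f7_al.E.EOrd
import Pool.Agent.Lib.MP_7d41f7_al.E.RDef

/-! The folded systems of types `B₂` and `F₄`. -/

set_option autoImplicit false

namespace Pool.Agent.Lib.MP_7d41f7_al

open Finset
open Matrix hiding zpow_add zpow_mul one_zpow

/-- The symmetry of the diagram `A₃`. -/
abbrev gA3 : Equiv.Perm (Fin 3) := Equiv.swap 0 2

theorem ade_A3 : Ade mA3 := by
  have h := ade_of (M := mA3) (d := 4) !![2, 0, 0; -2, 2, 0; 0, -2, 2; 0, 0, -2]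
    !![3, 2, 1; 2, 4, 2; 1, 2, 3] (by decide) (by decide +kernel) (by decide +kernel)
  exact ⟨by decide, by decide, h.1, h.2, by decide, ![3, 4, 3], by decide +kernel, by decide +kernel⟩

theorem half_A3 : mA3 + mA3ᵀ = !![2, -1, 0; -1, 2, -1; 0, -1, 2] := by decide

theorem sy_A3 : Sy mA3 gA3 := ⟨by decide, by decide⟩

theorem dia_A3 : Dia mA3 gA3 2 := ⟨ade_A3, sy_A3, by decide, by decide⟩

theorem tp_B2 : Tp mA3 gA3 gA3 1 1 2 :=
  ⟨ade_A3, sy_A3, .inr ⟨rfl, rfl, rfl⟩, ![0, 1, 0], ![0, 1], by decide, by decide +kernel⟩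

/-- The inequality of Hadamard. -/
theorem det_rows {n : ℕ} (X : Matrix (Fin n) (Fin n) ℤ) (h : ∀ i, X i ⬝ᵥ X i ≤ 4) :
    |X.det| ≤ 2 ^ n := by
  let b := EuclideanSpace.basisFun (Fin n) ℝ
  have : Fact (Module.finrank ℝ (EuclideanSpace ℝ (Fin n)) = n) := ⟨by simp⟩
  have h1 := b.toBasis.orientation.abs_volumeForm_apply_le
    fun i => WithLp.toLp 2 fun j => (X i j : ℝ)
  rw [Orientation.volumeForm_robust' _ b, Module.Basis.det_apply, ← det_transpose] at h1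
  change |((Int.castRingHom ℝ).mapMatrix X).det| ≤ _ at h1
  rw [← RingHom.map_det, eq_intCast] at h1
  have h2 := h1.trans (prod_le_prod (g := fun _ => 2) (fun _ _ => norm_nonneg _) fun i _ => by
    rw [EuclideanSpace.norm_eq, Real.sqrt_le_left zero_le_two]
    have : ((X i ⬝ᵥ X i : ℤ) : ℝ) ≤ (4 : ℤ) := Int.cast_le.2 (h i)
    simpa [dotProduct, sq, show (2 : ℝ) * 2 = 4 by norm_num] using this)
  rw [prod_const, card_univ, Fintype.card_fin] at h2
  exact_mod_cast h2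

theorem det_fold {n r : ℕ} {D : Matrix (Fin n) (Fin n) ℤ} (R : Matrix (Fin n) (Fin n) ℤ)
    (hR : |R.det| = 2) (hr : 2 ^ n < 2 * r) (h : ∀ i, D i ᵥ* R ⬝ᵥ D i ᵥ* R ≤ 4) :
    D.det.natAbs < r := by
  have := det_rows (D * R) h
  rw [det_mul, abs_mul, hR, Int.abs_eq_natAbs] at this
  zify at hr ⊢
  rw [Int.abs_eq_natAbs]
  omega

theorem adj_of {l d r : ℕ} {M : Matrix (Fin l) (Fin l) ℤ} (Ω : Matrix (Fin l) (Fin l) ℤ)
    (hΩ : (M + Mᵀ) * Ω = (d : ℤ) • 1) (hd : 0 < d) (hr : d < r) (v : Lat l) (u : ℕ) (hu : u.Prime)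
    (h2 : r ≤ u) (h : ∀ b, (u : ℤ) ∣ ip M v b) (i : Fin l) : (u : ℤ) ∣ v i := by
  have := h (Ω *ᵥ sr i)
  rw [ip, mulVec_mulVec, hΩ, smul_mulVec, one_mulVec, dotProduct_smul, dot_sr] at this
  refine ((Nat.prime_iff_prime_int.1 hu).dvd_or_dvd this).resolve_left fun e => ?_
  have := Nat.le_of_dvd hd (Int.natCast_dvd_natCast.1 e)
  omega

theorem tq_B2 {P : Lat 3 →ₗ[ℤ] Lat 2} (hP : ∀ i, P (sr i) = sr (![0, 1, 0] i)) :
    TQ mA3 gA3 P 5 := by
  have e : ∀ v, P v = ![v 0 + v 2, v 1] := fun v => by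
    conv_lhs => rw [← sum_sr v, map_sum]
    simp only [map_smul, hP]
    ext j
    fin_cases j <;> simp [Fin.sum_univ_three, sr]
  refine ⟨fun b h => det_fold !![1, -1; 0, 2] (by decide) (by decide) fun j => ?_,
    fun v h1 h2 => ?_, fun v => ?_,
    adj_of (d := 4) !![3, 2, 1; 2, 4, 2; 1, 2, 3] (by decide) (by decide) (by decide), 1, by decide⟩
  · have := ade_A3.mem_roots.1 (h j)
    rw [ip, half_A3] at this
    simp [e, dotProduct, mulVec, vecMul, Fin.sum_univ_succ] at this ⊢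
    nlinarith [sq_nonneg (b j 0 - b j 2)]
  · have a1 : v 0 = v 2 := (congrFun h1 0).symm
    have a3 := congrFun ((e v).symm.trans h2) 0
    have a4 := congrFun ((e v).symm.trans h2) 1
    ext j
    fin_cases j <;> simp at a3 a4 ⊢ <;> omega
  · simp [e, hgt, Fin.sum_univ_succ]
    ring

theorem tq_F4 {P : Lat 6 →ₗ[ℤ] Lat 4} (hP : ∀ i, P (sr i) = sr (![0, 1, 2, 3, 2, 0] i)) :
    TQ mE6 gE6 P 13 := by
  have e : ∀ v, P v = ![v 0 + v 5, v 1, v 2 + v 4, v 3] := fun v => by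
    conv_lhs => rw [← sum_sr v, map_sum]
    simp only [map_smul, hP]
    ext j
    fin_cases j <;> simp [Fin.sum_univ_six, sr]
  refine ⟨fun b h => det_fold !![1, -1, 0, 0; -1, -1, -1, 1; 0, 1, -1, 0; 0, 0, 2, 0] (by decide)
    (by decide) fun j => ?_, fun v h1 h2 => ?_, fun v => ?_, adj_of (d := 3)
      !![4, 3, 5, 6, 4, 2; 3, 6, 6, 9, 6, 3; 5, 6, 10, 12, 8, 4; 6, 9, 12, 18, 12, 6; 4, 6, 8, 12,
      10, 5; 2, 3, 4, 6, 5, 4] (by decide +kernel) (by decide) (by decide), 1, by decide⟩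
  · have := ade_E6.mem_roots.1 (h j)
    rw [ip, half_E6] at this
    simp [e, dotProduct, mulVec, vecMul, Fin.sum_univ_succ, CartanMatrix.E₆] at this ⊢
    nlinarith [sq_nonneg (b j 0 - b j 5), sq_nonneg (b j 2 - b j 4),
      sq_nonneg (b j 0 - b j 5 - b j 2 + b j 4)]
  · have a1 : v 0 = v (gE6.symm 0) := (congrFun h1 0).symm
    have a2 : v 2 = v (gE6.symm 2) := (congrFun h1 2).symm
    have a3 := congrFun ((e v).symm.trans h2)
    rw [show gE6.symm 0 = 5 by decide] at a1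
    rw [show gE6.symm 2 = 4 by decide] at a2
    have a4 := a3 0
    have a5 := a3 1
    have a6 := a3 2
    have a7 := a3 3
    ext j
    fin_cases j <;> simp at a4 a5 a6 a7 ⊢ <;> omega
  · simp [e, hgt, Fin.sum_univ_succ]
    ring

theorem pn_B2 : Pn mA3 gA3 2 1 univ 4 (fun x => x ^ 4 * (x - 1) ^ 2)
    fun x => x ^ 4 * (x ^ 4 - 1) * (x ^ 2 - 1) := by
  have h0 : Pn mA3 gA3 2 1 ∅ 0 _ _ := dia_A3.ade.pn_empty
  have h1 := h0.step dia_A3 (by decide) {1} ![0, 1, 0] 1 [2200, 6521] [1, 1] (fun x => x - 1)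
    (fun x => x ^ 2 - 1) (by decide +kernel) fun x => by simp only [pev]; push_cast; ring
  have h2 := h1.step dia_A3 (by decide) univ ![1, 0, 1] 3 [2441, 6055, 10601, 14215] [1, 1, 1, 1]
    (fun x => x - 1) (fun x => x ^ 4 - 1) (by decide +kernel)
    fun x => by simp only [pev]; push_cast; ring
  exact h2.congr rfl fun x p h => by linear_combination x ^ 4 * h

variable {K : Type} [Field K] [Finite K] {f : K →+* K} {q : ℕ}

theorem mem_TF_A3 (hK : Nat.card K = q ^ 1) (hf : ∀ a, f a = a ^ q) {t : Fin 3 → Kˣ} :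
    t ∈ TFs f gA3 ↔ t 2 = t 0 := by
  have h1 : ∀ a, f a = a := fun a => by rw [hf, ← pow_one q, card_TF_one_aux1 hK]
  refine ⟨fun h => Units.ext ((h 0).trans (h1 _)), fun h j => ?_⟩
  rw [h1]
  fin_cases j
  exacts [congrArg _ h, rfl, congrArg _ h.symm]

theorem card_TF_A3 (hK : Nat.card K = q ^ 1) (hf : ∀ a, f a = a ^ q) :
    Nat.card (TFs f gA3) = (q - 1) ^ 2 := by
  rw [Nat.card_eq_of_bijective (β := Kˣ × Kˣ) (fun t : TFs f gA3 => (t.1 0, t.1 1))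
    ⟨fun t t' e => ?_, fun z => ⟨⟨![z.1, z.2, z.1], (mem_TF_A3 hK hf).2 rfl⟩, rfl⟩⟩]
  · simp only [Nat.card_prod, Nat.card_units, hK, sq, pow_one]
  · simp only [Prod.mk.injEq] at e
    refine Subtype.ext (funext fun j => ?_)
    fin_cases j
    exacts [e.1, e.2, ((mem_TF_A3 hK hf).1 t.2).trans (e.1.trans ((mem_TF_A3 hK hf).1 t'.2).symm)]

theorem z_B2 (hK : Nat.card K = q ^ 1) (hf : ∀ a, f a = a ^ q) (h2 : 2 ∣ q) :
    Nat.card (TFs f gA3 ⊓ (ccs mA3 K).ker : Subgroup _) = 1 := by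
  refine Subgroup.card_eq_one.2 ((Subgroup.eq_bot_iff_forall _).2 fun t ⟨h, h'⟩ => ?_)
  have m : ∀ i j, mA3 i j + mA3 j i = !![2, -1, 0; -1, 2, -1; 0, -1, 2] i j := by decide
  have e := mem_ker_ccs.1 h'
  simp only [m, Fin.prod_univ_three, (mem_TF_A3 hK hf).1 h] at e
  have e0 : t 0 ^ 2 = t 1 := by simpa [mul_inv_eq_one] using e 0
  have e1 : t 0 ^ 2 = 1 := by
    have := e 1
    rw [← e0] at this
    simp at this
    rw [← this]
    group
  have a : t 0 = 1 := by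
    have h3 := orderOf_dvd_natCard (t 0)
    have q0 : 0 < q := by simpa [hK] using Nat.card_pos (α := K)
    rw [Nat.card_units, hK, pow_one] at h3
    rcases (Nat.dvd_prime Nat.prime_two).1 (orderOf_dvd_of_pow_eq_one e1) with c | c
    · exact orderOf_eq_one_iff.1 c
    · rw [c] at h3
      omega
  funext j
  fin_cases j
  exacts [a, by simpa [a] using e0.symm, ((mem_TF_A3 hK hf).1 h).trans a]

theorem card_B2 {S : Type} [Group S] (h : IsCh S mA3 gA3 1 q) (h2 : 2 ∣ q) :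
    (Nat.card S : ℤ) = q ^ 4 * (q ^ 4 - 1) * (q ^ 2 - 1) := by
  obtain ⟨K, _, _, f, τ, hK, hf, hτ, ⟨e⟩⟩ := tp_B2.model h
  have := CG.card_St_fin dia_A3 (.inl rfl) hK hf hτ pn_B2 (by
    rw [card_TF_A3 hK hf, Nat.cast_pow, Nat.cast_pred (by simpa [hK] using Nat.card_pos (α := K))])
  rwa [z_B2 hK hf h2, Nat.cast_one, mul_one, ← Nat.card_congr e.toEquiv] at this

end Pool.Agent.Lib.MP_7d41f7_al
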