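import Pool.Agent.Lib.MP_7d41f7_al.E.RWd
import Pool.Agent.Lib.MP_7d41f7_al.E.RDef

/-! The tables for the three types. -/

set_option autoImplicit false

namespace Pool.Agent.Lib.MP_7d41f7_al

/-- The positive roots of `A₃`. -/
def pA3 : List (Lat 3) := [![1, 0, 0], ![0, 1, 0], ![0, 0, 1], ![1, 1, 0], ![0, 1, 1], ![1, 1, 1]]

/-- The positive roots of `D₄`. -/
def pD4 : List (Lat 4) := [![1, 0, 0, 0], ![0, 1, 0, 0], ![0, 0, 1, 0], ![0, 0, 0, 1],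
  ![1, 1, 0, 0], ![0, 1, 1, 0], ![0, 1, 0, 1], ![1, 1, 1, 0], ![1, 1, 0, 1], ![0, 1, 1, 1],
  ![1, 1, 1, 1], ![1, 2, 1, 1]]

/-- The positive roots of `E₆`. -/
def pE6 : List (Lat 6) := [![1, 0, 0, 0, 0, 0], ![0, 1, 0, 0, 0, 0], ![0, 0, 1, 0, 0, 0],
  ![0, 0, 0, 1, 0, 0], ![0, 0, 0, 0, 1, 0], ![0, 0, 0, 0, 0, 1], ![1, 0, 1, 0, 0, 0],
  ![0, 1, 0, 1, 0, 0], ![0, 0, 1, 1, 0, 0], ![0, 0, 0, 1, 1, 0], ![0, 0, 0, 0, 1, 1],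
  ![1, 0, 1, 1, 0, 0], ![0, 1, 1, 1, 0, 0], ![0, 1, 0, 1, 1, 0], ![0, 0, 1, 1, 1, 0],
  ![0, 0, 0, 1, 1, 1], ![1, 1, 1, 1, 0, 0], ![1, 0, 1, 1, 1, 0], ![0, 1, 1, 1, 1, 0],
  ![0, 1, 0, 1, 1, 1], ![0, 0, 1, 1, 1, 1], ![1, 1, 1, 1, 1, 0], ![1, 0, 1, 1, 1, 1],
  ![0, 1, 1, 2, 1, 0], ![0, 1, 1, 1, 1, 1], ![1, 1, 1, 2, 1, 0], ![1, 1, 1, 1, 1, 1],
  ![0, 1, 1, 2, 1, 1], ![1, 1, 2, 2, 1, 0], ![1, 1, 1, 2, 1, 1], ![0, 1, 1, 2, 2, 1],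
  ![1, 1, 2, 2, 1, 1], ![1, 1, 1, 2, 2, 1], ![1, 1, 2, 2, 2, 1], ![1, 1, 2, 3, 2, 1],
  ![1, 2, 2, 3, 2, 1]]

theorem rl_A3 : RL mA3 pA3 := by decide +kernel

theorem rl_D4 : RL mD4 pD4 := by decide +kernel

theorem rl_E6 : RL mE6 pE6 := by decide +kernel

theorem rg_A3 : ∀ i, RG mA3 (Equiv.swap 0 2) ![1, 0, 1] pA3 i [1, 0, 1, 0] 2 := by decide +kernel

theorem rg_D4 : ∀ i, RG mD4 gD4 ![1, 0, 1, 1] pD4 i [1, 0, 1, 0, 1, 0] 3 := by decide +kernel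

/-- The generators for `E₆`. -/
def wE6 : Fin 6 → List (Fin 6) := ![[1, 0], [1, 0], [3, 2, 3, 2], [3, 2, 3, 2], [3, 2, 3, 2], [1, 0]]

theorem rg_E6 : ∀ i, RG mE6 gE6 ![1, 0, 3, 2, 3, 1] pE6 i (wE6 i) (![1, 1, 2, 2, 2, 1] i) := by
  decide +kernel

theorem re_A3 : RE mA3 (Equiv.swap 0 2) (fun _ => [1, 0, 1, 0]) [[], [0]] [0] := by decide +kernel

theorem re_D4 : RE mD4 gD4 (fun _ => [1, 0, 1, 0, 1, 0]) [[], [0]] [0] := by decide +kernel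

/-- The elements of the dihedral group of order sixteen. -/
def eE6 : List (List (Fin 6)) := [[], [0], [2], [0, 2], [2, 0], [0, 2, 0], [2, 0, 2], [0, 2, 0,
  2], [2, 0, 2, 0], [0, 2, 0, 2, 0], [2, 0, 2, 0, 2], [0, 2, 0, 2, 0, 2], [2, 0, 2, 0, 2, 0], [0,
  2, 0, 2, 0, 2, 0], [2, 0, 2, 0, 2, 0, 2], [0, 2, 0, 2, 0, 2, 0, 2]]

theorem re_E6 : RE mE6 gE6 wE6 eE6 [0, 2, 0, 2, 0, 2, 0, 2] := by decide +kernel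

end Pool.Agent.Lib.MP_7d41f7_al
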