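import Pool.Agent.Lib.MP_7d41f7_al.E.RRh

/-! The order of the group of fixed points, from finite tables. -/

set_option autoImplicit false

namespace Pool.Agent.Lib.MP_7d41f7_al

open Matrix

variable {l : ℕ} {M : Matrix (Fin l) (Fin l) ℤ} {K : Type} [Field K] {g : Equiv.Perm (Fin l)}
  {β : Fin l → Fin l} {i j : Fin l} {d a b : ℕ} {w w' : Au l} {c : Lat l} {P : List (Lat l)}

/-- The heights of the images of the simple roots. -/
def mu (M : Matrix (Fin l) (Fin l) ℤ) (g : Equiv.Perm (Fin l)) : List (Fin l) → Lat l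
  | [] => 1
  | i :: L => tst M g (mu M g L) i

/-- The list contains the positive roots. -/
def RL (M : Matrix (Fin l) (Fin l) ℤ) (P : List (Lat l)) : Prop :=
  (∀ i, sr i ∈ P) ∧ ∀ c ∈ P, ∀ i, ip M c (sr i) = -1 → c + sr i ∈ P

instance : Decidable (RL M P) := by
  unfold RL
  infer_instance

/-- The vectors and their negatives. -/
def pm (P : List (Lat l)) : List (Lat l) := P ++ P.map fun c => -c

/-- The functional `μ` is nonnegative and `ν` is negative. -/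
def Rm (μ ν c : Lat l) : Prop := 0 ≤ μ ⬝ᵥ c ∧ ¬ 0 ≤ ν ⬝ᵥ c

instance (μ ν c : Lat l) : Decidable (Rm μ ν c) := by
  unfold Rm
  infer_instance

/-- The conditions of `Stp` for the functionals. -/
def Stm (M : Matrix (Fin l) (Fin l) ℤ) (P : List (Lat l)) (u v w x u' v' w' x' : Lat l) : Prop :=
  ∀ c ∈ pm P, (Rm u w c ↔ Rm u' w' c) ∧ (Rm u v c → Rm u w c) ∧ (Rm v w c ↔ Rm u' x' c) ∧
    (Rm u' v' c → Rm u' x' c) ∧ (Rm v' x' c ↔ Rm v x c) ∧
    (Rm u w c → ∀ e ∈ pm P, Rm u w e → ip M c e = -1 → Rm v x (c + e))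

instance (u v w x u' v' w' x' : Lat l) : Decidable (Stm M P u v w x u' v' w' x') := by
  unfold Stm
  infer_instance

/-- The word is reduced. -/
def Rdm (M : Matrix (Fin l) (Fin l) ℤ) (g : Equiv.Perm (Fin l)) : List (Fin l) → Bool
  | [] => true
  | i :: L => decide (0 ≤ mu M g L i) && Rdm M g L

/-- The word in the generators `wr i` is reduced. -/
def Rj (M : Matrix (Fin l) (Fin l) ℤ) (g : Equiv.Perm (Fin l)) (wr : Fin l → List (Fin l)) :
    List (Fin l) → Bool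
  | [] => true
  | i :: D => decide (mu M g ((i :: D).flatMap wr) i < 0) && Rj M g wr D

/-- The word `W` of length `2 n` gives the longest element for the pair `i`, `β i`. -/
def RG (M : Matrix (Fin l) (Fin l) ℤ) (g : Equiv.Perm (Fin l)) (β : Fin l → Fin l)
    (P : List (Lat l)) (i : Fin l) (W : List (Fin l)) (n : ℕ) : Prop :=
  mu M g (W.map β) = mu M g W ∧ mu M g (W ++ W) = 1 ∧ mu M g W ≠ 1 ∧
  (∀ c ∈ P, ¬ 0 ≤ mu M g W ⬝ᵥ c → ∀ k ∉ ob3 g i ∪ ob3 g (β i), c k = 0) ∧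
  Rdm M g W ∧ W.length = 2 * n ∧ ∀ k < n,
    Stm M P (mu M g (W.take k)) (mu M g (W.take (k + 1))) (mu M g (W.take (2 * n - k)))
      (mu M g (W.take (2 * n - (k + 1)))) (mu M g ((W.take k).map β))
      (mu M g ((W.take (k + 1)).map β)) (mu M g ((W.take (2 * n - k)).map β))
      (mu M g ((W.take (2 * n - (k + 1))).map β))

instance (W : List (Fin l)) (n : ℕ) : Decidable (RG M g β P i W n) := by
  unfold RG
  infer_instance

/-- The list `E` of words describes the group generated by the elements `wr i`. -/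
def RE (M : Matrix (Fin l) (Fin l) ℤ) (g : Equiv.Perm (Fin l)) (wr : Fin l → List (Fin l))
    (E : List (List (Fin l))) (D₀ : List (Fin l)) : Prop :=
  [] ∈ E ∧ (∀ D ∈ E, Rj M g wr D ∧
    ∀ i, mu M g ((i :: D).flatMap wr) ∈ E.map fun D' => mu M g (D'.flatMap wr)) ∧
  (E.map fun D => mu M g (D.flatMap wr)).Nodup ∧ Rj M g wr D₀ ∧ ∀ i, mu M g (D₀.flatMap wr) i < 0

instance (wr : Fin l → List (Fin l)) (E : List (List (Fin l))) (D₀ : List (Fin l)) :
    Decidable (RE M g wr E D₀) := by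
  unfold RE
  infer_instance

/-- `fact_mul`, `fact_wo`, `ob3_eq`. -/
theorem Dia.mu_eq (h : Dia M g d) (L : List (Fin l)) : mu M g L = fact 1 (wd M g L) := by
  induction L with
  | nil => exact (fact_one 1).symm
  | cons i L ih =>
    rw [mu, wd, fact_mul, ← h.ob3_eq, ih]
    exact funext fun j => (h.fact_wo _ i j).symm

/-- The right side is the height of the root `w c`. -/
theorem Ade.pos_fact (hA : Ade M) (hw : w ∈ Wg M) (hc : c ∈ roots M) :
    0 ≤ w c ↔ 0 ≤ fact 1 w ⬝ᵥ c := by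
  have hr := (hA.W_root hw).2 hc
  have e : ∀ v, (1 : Lat l) ⬝ᵥ v = hgt v := fun v => by simp [hgt, dotProduct]
  rw [fact_dot]
  refine ⟨dot_nonneg' fun _ => zero_le_one, fun h => by_contra fun k => ?_⟩
  have := hgt_pos ((hA.not_pos_iff hr).1 k) (hA.ne_zero (hA.neg_mem hr))
  rw [← e, dotProduct_neg] at this
  omega

/-- The element `w * w'⁻¹` makes no simple root negative (`exch`). -/
theorem Ade.eq_fact (hA : Ade M) (hw : w ∈ Wg M) (hw' : w' ∈ Wg M) (h : fact 1 w = fact 1 w') :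
    w = w' := by
  by_contra k
  have hm := mul_mem hw (inv_mem hw')
  obtain ⟨j, -, hj⟩ := hA.exch (hA.Wg_eq ▸ hm) (fun e => k (mul_inv_eq_one.1 e))
  refine hj ((hA.pos_fact hm (hA.sr_mem j)).2 ?_)
  rw [fact_mul, h, ← fact_mul, mul_inv_cancel, fact_one, dot_sr]
  exact zero_le_one

theorem Dia.wd_eq (h : Dia M g d) {L L' : List (Fin l)} :
    wd M g L = wd M g L' ↔ mu M g L = mu M g L' := by
  rw [h.mu_eq, h.mu_eq]
  exact ⟨congrArg _, h.ade.eq_fact (h.ade.wd_mem h.sy L).1 (h.ade.wd_mem h.sy L').1⟩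

theorem Dia.pos_mu (h : Dia M g d) (L : List (Fin l)) (i : Fin l) :
    0 ≤ wd M g L (sr i) ↔ 0 ≤ mu M g L i := by
  rw [h.ade.pos_fact (h.ade.wd_mem h.sy L).1 (h.ade.sr_mem i), dot_sr, h.mu_eq]

/-- `pos_ind`. -/
theorem RL.pos (h : RL M P) (hA : Ade M) (hc : c ∈ roots M) (h0 : 0 ≤ c) : c ∈ P := by
  exact hA.pos_ind h.1 (fun b _ _ i hi hb => h.2 b hb i hi) c hc h0

theorem RL.mem (h : RL M P) (hA : Ade M) (hc : c ∈ roots M) : c ∈ pm P := by
  by_cases h0 : 0 ≤ c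
  · exact List.mem_append_left _ (h.pos hA hc h0)
  · exact List.mem_append_right _ (List.mem_map.2
      ⟨-c, h.pos hA (hA.neg_mem hc) ((hA.not_pos_iff hc).1 h0), neg_neg c⟩)

theorem Dia.rs_mu (h : Dia M g d) (L L' : List (Fin l)) (hc : c ∈ roots M) :
    c ∈ Rs (wd M g L) (wd M g L') ↔ Rm (mu M g L) (mu M g L') c := by
  rw [mem_Rs, h.ade.pos_fact (h.ade.wd_mem h.sy L).1 hc,
    h.ade.pos_fact (h.ade.wd_mem h.sy L').1 hc, h.mu_eq, h.mu_eq, Rm]

theorem Dia.stp (h : Dia M g d) (hP : RL M P) {u v w x u' v' w' x' : List (Fin l)}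
    (k : Stm M P (mu M g u) (mu M g v) (mu M g w) (mu M g x) (mu M g u') (mu M g v') (mu M g w')
      (mu M g x')) : Stp M (wd M g u) (wd M g v) (wd M g w) (wd M g x) (wd M g u') (wd M g v')
      (wd M g w') (wd M g x') := by
  have m := fun c hc => k c (hP.mem h.ade hc)
  have r := fun L L' c hc => h.rs_mu (c := c) L L' hc
  exact ⟨fun c hc => (r _ _ c hc).trans ((m c hc).1.trans (r _ _ c hc).symm),
    fun c hc h1 => (r _ _ c hc).2 ((m c hc).2.1 ((r _ _ c hc).1 h1)),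
    fun c hc => (r _ _ c hc).trans ((m c hc).2.2.1.trans (r _ _ c hc).symm),
    fun c hc h1 => (r _ _ c hc).2 ((m c hc).2.2.2.1 ((r _ _ c hc).1 h1)),
    fun c hc => (r _ _ c hc).trans ((m c hc).2.2.2.2.1.trans (r _ _ c hc).symm),
    fun c hc h1 e he h2 h3 => (r _ _ _ ((h.ade.add_mem_iff hc he).2 h3)).2
      ((m c hc).2.2.2.2.2 ((r _ _ c hc).1 h1) e (hP.mem h.ade he) ((r _ _ e he).1 h2) h3)⟩

theorem Dia.rd (h : Dia M g d) {W : List (Fin l)} (k : Rdm M g W) : Rd M g W := by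
  induction W with
  | nil => trivial
  | cons i L ih =>
    rw [Rdm, Bool.and_eq_true, decide_eq_true_eq] at k
    exact ⟨(h.pos_mu L i).2 k.1, ih k.2⟩

theorem wd_flat (wr : Fin l → List (Fin l)) (i : Fin l) (D : List (Fin l)) :
    wd M g ((i :: D).flatMap wr) = wd M g (D.flatMap wr) * wd M g (wr i) := by
  rw [List.flatMap_cons, wd_append]

namespace CG.RD

variable {Γ : Type} [Group Γ] {C : CG M K Γ} {τ : Γ →* Γ} {ρ : Γ → Γ} (D : C.RD g β τ ρ a b)
  (T : RT M g β d) (hP : RL M P)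
include D T hP

/-- Downward induction on `k`, from `k = n` (`sq_bot`, `Z_dir`) to `k = 0`, by `step`. -/
theorem sq_gen {W : List (Fin l)} {n : ℕ} (h : RG M g β P i W n) :
    Sq ρ (C.St τ ⊓ C.Us (ivs M (wd M g W))) := by
  obtain ⟨-, -, -, -, -, hl, hs⟩ := h
  have hA := T.dia.ade
  have key : ∀ m k, k + m = n →
      Sq ρ (C.St τ ⊓ C.Us (Rs (wd M g (W.take k)) (wd M g (W.take (2 * n - k))))) := by
    intro m
    induction m with
    | zero =>
      intro k e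
      rw [show 2 * n - k = k by omega]
      exact D.hm.sq_bot fun y hy => Z_dir hA (hA.wd_mem T.dia.sy _).1 hy.2 hy.2
    | succ m ih =>
      intro k e
      exact D.step T (T.dia.stp hP (hs k (by omega))) (ih (k + 1) (by omega))
  have := key n 0 (Nat.zero_add n)
  rw [Nat.sub_zero, ← hl, List.take_length, List.take_zero] at this
  rw [← Z_one]
  exact this

/-- `sq_gen`, `St_wf`, `wt_wd`. -/
theorem wf_gen [Finite K] {W : List (Fin l)} {n : ℕ} (h : RG M g β P i W n) :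
    C.wf D.hm.fix (wd M g W) = Nat.card K ^ n := by
  have e := (D.sq_gen T hP h).card
  obtain ⟨-, -, -, -, hr, hl, -⟩ := h
  have e2 : C.wf (C.St τ) (wd M g W) = Nat.card K ^ W.length := by
    rw [St_wf, wt_wd D.hom T.dia (T.dia.rd hr)]
  have e3 : C.wf D.hm.fix (wd M g W) =
      Nat.card {y // y ∈ (C.St τ ⊓ C.Us (ivs M (wd M g W)) : Subgroup Γ) ∧ ρ y = y} :=
    Nat.card_congr (Equiv.subtypeEquivRight fun _ =>
      ⟨fun k => ⟨⟨k.1.1, k.2⟩, k.1.2⟩, fun k => ⟨⟨k.1.1, k.2⟩, k.1.2⟩⟩)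
  rw [← e3] at e
  refine Nat.pow_left_injective two_ne_zero (e.trans (e2.trans ?_))
  rw [hl, mul_comm, pow_mul]

/-- `pw`, `sign`, `pos_ob3`, `ivs_sub`. -/
theorem ivs_gen {W : List (Fin l)} {n : ℕ} (h : RG M g β P i W n) (hw : w ∈ C.Vw D.hm.fix)
    (hi : ¬ 0 ≤ w (sr i)) : ivs M (wd M g W) ⊆ ivs M w := by
  obtain ⟨-, -, -, hs, -⟩ := h
  have hA := T.dia.ade
  have p := D.pw T hw
  have u : w ∈ WF M g Finset.univ := ⟨hA.Wg_eq ▸ p.1.1, p.1.2⟩
  refine hA.ivs_sub p.1.1 (J := ob3 g i ∪ ob3 g (β i)) (fun c hc => ?_) fun j hj => ?_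
  · obtain ⟨h1, h2, h3⟩ := mem_ivs.1 hc
    refine hs c (hP.pos hA h1 h2) fun k => h3 ?_
    rw [hA.pos_fact (hA.wd_mem T.dia.sy W).1 h1, ← T.dia.mu_eq]
    exact k
  · rcases Finset.mem_union.1 hj with hj | hj
    · rwa [T.dia.pos_ob3 u hj]
    · rwa [T.dia.pos_ob3 u hj, ← T.sign p]

variable {wr : Fin l → List (Fin l)} {n : Fin l → ℕ} (hG : ∀ i, RG M g β P i (wr i) (n i))
include hG

theorem wj_mem (L : List (Fin l)) : wd M g (L.flatMap wr) ∈ C.Vw D.hm.fix := by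
  induction L with
  | nil => exact one_mem _
  | cons i L ih =>
    rw [wd_flat]
    exact mul_mem ih (D.rep T (T.dia.wd_eq.2 (hG i).1))

/-- `wf_mul`, `ivs_gen`, `wf_gen`. -/
theorem wf_wj [Finite K] {L : List (Fin l)} (h : Rj M g wr L) :
    C.wf D.hm.fix (wd M g (L.flatMap wr)) = Nat.card K ^ (L.map n).sum := by
  have hA := T.dia.ade
  induction L with
  | nil => exact wf_one hA
  | cons i L ih =>
    obtain ⟨h1, h2⟩ := Bool.and_eq_true_iff.1 h
    have s := D.ivs_gen T hP (hG i) (D.wj_mem T hP hG (i :: L))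
      (by rw [T.dia.pos_mu]; exact not_le.2 (of_decide_eq_true h1))
    rw [wd_flat] at s ⊢
    rw [wf_mul hA (D.cl T) (D.rep T (T.dia.wd_eq.2 (hG i).1)) (hA.wd_mem T.dia.sy _).1 s, ih h2,
      D.wf_gen T hP (hG i), List.map_cons, List.sum_cons, pow_add, mul_comm]

variable {E : List (List (Fin l))} {D₀ : List (Fin l)} (hE : RE M g wr E D₀)
include hE

/-- Strong induction on the length: `exch`, `ivs_gen`, `len_lt`. -/
theorem Vw_eq : w ∈ C.Vw D.hm.fix ↔ ∃ L ∈ E, w = wd M g (L.flatMap wr) := by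
  have hA := T.dia.ade
  refine ⟨fun hw => ?_, fun ⟨L, _, e⟩ => e ▸ D.wj_mem T hP hG L⟩
  induction hn : len M w using Nat.strong_induction_on generalizing w with
  | _ m ih =>
  by_cases e : w = 1
  · exact ⟨[], hE.1, e⟩
  obtain ⟨i, -, hi⟩ := hA.exch (hA.Wg_eq ▸ Vw_le hw) e
  have hv : wd M g (wr i) ∈ C.Vw D.hm.fix := by simpa using D.wj_mem T hP hG [i]
  have h1 : wd M g (wr i) ≠ 1 := fun k => (hG i).2.2.1 ((T.dia.wd_eq (L' := [])).1 k)
  obtain ⟨L, hL, k⟩ := ih _ (hn ▸ hA.len_lt (Vw_le hv) (Vw_le hw) h1 (D.ivs_gen T hP (hG i) hw hi))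
    (mul_mem hw (inv_mem hv)) rfl
  obtain ⟨L', hL', k'⟩ := List.mem_map.1 ((hE.2.1 L hL).2 i)
  exact ⟨L', hL', by rw [T.dia.wd_eq.2 k', wd_flat, ← k, inv_mul_cancel_right]⟩

/-- `card_bru`, `wf_top`, `Vw_eq`, `wf_wj`. -/
theorem card [Finite K] [Finite Γ] : Nat.card D.hm.fix =
    Nat.card (C.T ⊓ D.hm.fix : Subgroup Γ) * (Nat.card K ^ (D₀.map n).sum *
      (E.map fun L => Nat.card K ^ (L.map n).sum).sum) := by
  classical
  have hA := T.dia.ade
  have h1 : (C.Vw D.hm.fix : Set (Au l)) = (E.map fun L => wd M g (L.flatMap wr)).toFinset :=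
    Set.ext fun w => (D.Vw_eq T hP hG hE).trans (by simp [eq_comm])
  have h2 : (E.map fun L => wd M g (L.flatMap wr)).Nodup :=
    (List.pairwise_map.1 hE.2.2.1).map _ fun _ _ k e => k (T.dia.wd_eq.1 e)
  rw [card_bru hA (D.cl T), ← wf_top hA (Vw_le (D.wj_mem T hP hG D₀))
    fun i k => (hE.2.2.2.2 i).not_ge ((T.dia.pos_mu _ i).1 k), D.wf_wj T hP hG hE.2.2.2.1]
  congr 2
  refine (finsum_set_coe_eq_finsum_mem (f := C.wf D.hm.fix) (C.Vw D.hm.fix : Set (Au l))).trans ?_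
  rw [h1, finsum_mem_coe_finset, List.sum_toFinset _ h2, List.map_map]
  exact congrArg _ (List.map_congr_left fun L hL => D.wf_wj T hP hG (hE.2.1 L hL).1)

end CG.RD

end Pool.Agent.Lib.MP_7d41f7_al
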